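import Pool.Agent.Helper360.Hop.Defs

set_option maxHeartbeats 4000000

open scoped InnerProductSpace Topology ComplexConjugate
open Finset Filter

namespace Hop

variable {H : Type*} [NormedAddCommGroup H] [InnerProductSpace ℂ H] [CompleteSpace H]

/- ================= TARGET ================= -/
/-- feasible flows -/
structure C_Fe {I J : Type*} [Fintype I] [Fintype J] (E : I → J → Prop) (d : I → ℝ) (s : J → ℝ)
    (π : I → J → ℝ) : Prop where
  nn : ∀ i j, 0 ≤ π i j
  supp : ∀ i j, ¬ E i j → π i j = 0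
  row : ∀ i, ∑ j, π i j ≤ d i
  col : ∀ j, ∑ i, π i j ≤ s j

section galeaux
variable {I J : Type*} [Fintype I] [Fintype J] {E : I → J → Prop} {d : I → ℝ} {s : J → ℝ}

theorem C_avg {π₁ π₂ : I → J → ℝ} (h₁ : C_Fe E d s π₁) (h₂ : C_Fe E d s π₂) :
    C_Fe E d s (fun i j => (π₁ i j + π₂ i j) / 2) := by
  refine ⟨fun i j => ?_, fun i j hE => ?_, fun i => ?_, fun j => ?_⟩
  · have := h₁.nn i j
    have := h₂.nn i j
    positivity
  · rw [h₁.supp i j hE, h₂.supp i j hE]; simp
  · rw [← Finset.sum_div, Finset.sum_add_distrib]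
    have := h₁.row i
    have := h₂.row i
    linarith
  · rw [← Finset.sum_div, Finset.sum_add_distrib]
    have := h₁.col j
    have := h₂.col j
    linarith

open Classical in
/-- one-entry matrix -/
noncomputable def C_U (i : I) (j : J) (ε : ℝ) : I → J → ℝ := fun a b => if a = i ∧ b = j then ε else 0

theorem C_U_row (i : I) (j : J) (ε : ℝ) (a : I) : ∑ b, C_U i j ε a b = open Classical in if a = i then ε else 0 := by
  classical
  unfold C_U
  by_cases h : a = i
  · simp [h]
  · simp [h]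

theorem C_U_col (i : I) (j : J) (ε : ℝ) (b : J) : ∑ a, C_U i j ε a b = open Classical in if b = j then ε else 0 := by
  classical
  unfold C_U
  by_cases h : b = j
  · simp [h]
  · simp [h]

theorem C_U_tot (i : I) (j : J) (ε : ℝ) : ∑ a, ∑ b, C_U i j ε a b = ε := by
  classical
  simp only [C_U_row]
  simp

theorem C_claim1 {T : ℝ} (hT : ∀ π, C_Fe E d s π → ∑ i, ∑ j, π i j ≤ T) {π : I → J → ℝ} (hπ : C_Fe E d s π)
    (hπT : ∑ i, ∑ j, π i j = T) {i : I} {j : J} (hE : E i j) (hi : ∑ b, π i b < d i) (hj : ∑ a, π a j < s j) :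
    False := by
  classical
  set ε : ℝ := min (d i - ∑ b, π i b) (s j - ∑ a, π a j) with hε
  have hε0 : 0 < ε := lt_min (by linarith) (by linarith)
  have hε1 : ε ≤ d i - ∑ b, π i b := min_le_left _ _
  have hε2 : ε ≤ s j - ∑ a, π a j := min_le_right _ _
  have hF : C_Fe E d s (fun a b => π a b + C_U i j ε a b) := by
    refine ⟨fun a b => ?_, fun a b hab => ?_, fun a => ?_, fun b => ?_⟩
    · have h1 := hπ.nn a b
      have h2 : 0 ≤ C_U i j ε a b := by
        unfold C_U
        split_ifs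
        · exact hε0.le
        · exact le_rfl
      linarith
    · rw [hπ.supp a b hab, zero_add]
      unfold C_U
      rw [if_neg]
      rintro ⟨rfl, rfl⟩
      exact hab hE
    · rw [Finset.sum_add_distrib, C_U_row]
      split_ifs with h
      · rw [h]; linarith
      · rw [add_zero]; exact hπ.row a
    · rw [Finset.sum_add_distrib, C_U_col]
      split_ifs with h
      · rw [h]; linarith
      · rw [add_zero]; exact hπ.col b
  have h1 := hT _ hF
  have h2 : ∑ a, ∑ b, (π a b + C_U i j ε a b) = T + ε := by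
    simp only [Finset.sum_add_distrib]
    rw [C_U_tot, hπT]
  linarith

theorem C_claim2 {T : ℝ} {π : I → J → ℝ} (hπ : C_Fe E d s π)
    (hπT : ∑ i, ∑ j, π i j = T) {i i' : I} {j : J} (hii : i' ≠ i) (hE : E i j) (hi : ∑ b, π i b < d i)
    (hp : 0 < π i' j) :
    ∃ π', C_Fe E d s π' ∧ ∑ i, ∑ j, π' i j = T ∧ ∑ b, π' i' b < d i' := by
  classical
  set ε : ℝ := min (d i - ∑ b, π i b) (π i' j) with hε
  have hε0 : 0 < ε := lt_min (by linarith) hp
  have hε1 : ε ≤ d i - ∑ b, π i b := min_le_left _ _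
  have hε2 : ε ≤ π i' j := min_le_right _ _
  have hE' : E i' j := by
    by_contra hc
    rw [hπ.supp i' j hc] at hp
    exact lt_irrefl _ hp
  refine ⟨fun a b => π a b + C_U i j ε a b - C_U i' j ε a b, ⟨fun a b => ?_, fun a b hab => ?_, fun a => ?_,
    fun b => ?_⟩, ?_, ?_⟩
  · have h1 := hπ.nn a b
    unfold C_U
    by_cases h2 : a = i' ∧ b = j
    · rw [if_pos h2, if_neg (by rintro ⟨h3, _⟩; exact hii (h2.1.symm.trans h3)), h2.1, h2.2]
      linarith
    · rw [if_neg h2, sub_zero]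
      split_ifs
      · linarith
      · linarith
  · rw [hπ.supp a b hab]
    unfold C_U
    rw [if_neg, if_neg]
    · simp
    · rintro ⟨rfl, rfl⟩
      exact hab hE'
    · rintro ⟨rfl, rfl⟩
      exact hab hE
  · rw [Finset.sum_sub_distrib, Finset.sum_add_distrib, C_U_row, C_U_row]
    have h1 := hπ.row a
    by_cases h2 : a = i
    · rw [if_pos h2, if_neg (fun h3 => hii (h3.symm.trans h2)), h2]
      linarith
    · rw [if_neg h2]
      split_ifs <;> linarith
  · rw [Finset.sum_sub_distrib, Finset.sum_add_distrib, C_U_col, C_U_col]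
    have h1 := hπ.col b
    linarith
  · simp only [Finset.sum_sub_distrib, Finset.sum_add_distrib]
    rw [C_U_tot, C_U_tot, hπT]
    ring
  · rw [Finset.sum_sub_distrib, Finset.sum_add_distrib, C_U_row, C_U_row, if_neg hii, if_pos rfl]
    have := hπ.row i'
    linarith

theorem C_max (hd : ∀ i, 0 ≤ d i) (hs : ∀ j, 0 ≤ s j) : ∃ π, C_Fe E d s π ∧
    ∀ π', C_Fe E d s π' → ∑ i, ∑ j, π' i j ≤ ∑ i, ∑ j, π i j := by
  classical
  have hbox : IsCompact (Set.pi Set.univ (fun i : I => Set.pi Set.univ (fun _ : J => Set.Icc (0:ℝ) (d i)))) :=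
    isCompact_univ_pi (fun i => isCompact_univ_pi (fun _ => isCompact_Icc))
  have hclosed : IsClosed {π : I → J → ℝ | C_Fe E d s π} := by
    have e : {π : I → J → ℝ | C_Fe E d s π} =
        (((⋂ i, ⋂ j, {π : I → J → ℝ | 0 ≤ π i j}) ∩
        (⋂ i, ⋂ j, ⋂ (_ : ¬ E i j), {π : I → J → ℝ | π i j = 0})) ∩
        (⋂ i, {π : I → J → ℝ | ∑ j, π i j ≤ d i})) ∩ (⋂ j, {π : I → J → ℝ | ∑ i, π i j ≤ s j}) := by
      ext π
      simp only [Set.mem_inter_iff, Set.mem_iInter, Set.mem_ofPred_eq]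
      constructor
      · intro h
        exact ⟨⟨⟨h.nn, h.supp⟩, h.row⟩, h.col⟩
      · rintro ⟨⟨⟨h1, h2⟩, h3⟩, h4⟩
        exact ⟨h1, h2, h3, h4⟩
    rw [e]
    refine ((IsClosed.inter ?_ ?_).inter ?_).inter ?_
    · exact isClosed_iInter fun i => isClosed_iInter fun j => isClosed_le continuous_const (by fun_prop)
    · exact isClosed_iInter fun i => isClosed_iInter fun j => isClosed_iInter fun _ =>
        isClosed_eq (by fun_prop) continuous_const
    · exact isClosed_iInter fun i => isClosed_le (by fun_prop) continuous_const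
    · exact isClosed_iInter fun i => isClosed_le (by fun_prop) continuous_const
  have hcomp : IsCompact {π : I → J → ℝ | C_Fe E d s π} := by
    apply hbox.of_isClosed_subset hclosed
    intro π hπ i _ j _
    refine ⟨hπ.nn i j, le_trans ?_ (hπ.row i)⟩
    exact Finset.single_le_sum (f := fun j => π i j) (fun b _ => hπ.nn i b) (Finset.mem_univ j)
  have hne : {π : I → J → ℝ | C_Fe E d s π}.Nonempty :=
    ⟨fun _ _ => 0, ⟨fun _ _ => le_rfl, fun _ _ _ => rfl, fun i => by simpa using hd i, fun j => by simpa using hs j⟩⟩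
  obtain ⟨π, hπ, hmax⟩ := hcomp.exists_isMaxOn hne
    (f := fun π : I → J → ℝ => ∑ i, ∑ j, π i j) (by fun_prop)
  exact ⟨π, hπ, fun π' h' => hmax h'⟩

end galeaux

/-- C -/
theorem gale {I J : Type*} [Fintype I] [Fintype J] (E : I → J → Prop) (d : I → ℝ) (s : J → ℝ)
    (hd : ∀ i, 0 ≤ d i) (hs : ∀ j, 0 ≤ s j) (η : ℝ)
    (h : ∀ P : Set I, (∑ i, Set.indicator P d i) ≤
      (∑ j, Set.indicator {j | ∃ i ∈ P, E i j} s j) + η) :
    ∃ π : I → J → ℝ, (∀ i j, 0 ≤ π i j) ∧ (∀ i j, ¬ E i j → π i j = 0) ∧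
      (∀ i, ∑ j, π i j ≤ d i) ∧ (∀ j, ∑ i, π i j ≤ s j) ∧
      ∑ i, d i ≤ (∑ i, ∑ j, π i j) + η := by
  classical
  obtain ⟨π0, hπ0, hmax⟩ := C_max (E := E) hd hs
  refine ⟨π0, hπ0.nn, hπ0.supp, hπ0.row, hπ0.col, ?_⟩
  set T : ℝ := ∑ i, ∑ j, π0 i j with hT
  set P : Set I := {i | ∃ π, C_Fe E d s π ∧ ∑ i, ∑ j, π i j = T ∧ ∑ b, π i b < d i} with hP
  have htot : ∀ π₁ π₂ : I → J → ℝ, ∑ i, ∑ j, π₁ i j = T → ∑ i, ∑ j, π₂ i j = T →
      ∑ i, ∑ j, (π₁ i j + π₂ i j) / 2 = T := by
    intro π₁ π₂ h1 h2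
    simp only [← Finset.sum_div, Finset.sum_add_distrib]
    rw [h1, h2]
    ring
  -- claim 1
  have c1 : ∀ i j, i ∈ P → E i j → ∑ a, π0 a j = s j := by
    intro i j hi hE
    obtain ⟨π, hπ, hπT, hlt⟩ := hi
    by_contra hc
    have hlt2 : ∑ a, π0 a j < s j := lt_of_le_of_ne (hπ0.col j) hc
    apply C_claim1 hmax (C_avg hπ hπ0) (htot π π0 hπT rfl) hE
    · rw [← Finset.sum_div, Finset.sum_add_distrib]
      have := hπ0.row i
      linarith
    · rw [← Finset.sum_div, Finset.sum_add_distrib]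
      have := hπ.col j
      linarith
  -- claim 2
  have c2 : ∀ i j i', i ∈ P → E i j → i' ∉ P → π0 i' j = 0 := by
    intro i j i' hi hE hi'
    by_contra hc
    have hpos : 0 < π0 i' j := lt_of_le_of_ne (hπ0.nn i' j) (Ne.symm hc)
    have hne : i' ≠ i := fun h => hi' (h ▸ hi)
    obtain ⟨π, hπ, hπT, hlt⟩ := hi
    apply hi'
    apply C_claim2 (C_avg hπ hπ0) (htot π π0 hπT rfl) hne hE
    · rw [← Finset.sum_div, Finset.sum_add_distrib]
      have := hπ0.row i
      linarith
    · have := hπ.nn i' j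
      show 0 < (π i' j + π0 i' j) / 2
      linarith
  have c3 : ∀ i, i ∉ P → ∑ j, π0 i j = d i := by
    intro i hi
    by_contra hc
    exact hi ⟨π0, hπ0, rfl, lt_of_le_of_ne (hπ0.row i) hc⟩
  have e1 : ∑ j, Set.indicator {j | ∃ i ∈ P, E i j} s j = ∑ i, (if i ∈ P then ∑ j, π0 i j else 0) := by
    have e2 : ∀ j, Set.indicator {j | ∃ i ∈ P, E i j} s j = ∑ i, (if i ∈ P then π0 i j else 0) := by
      intro j
      by_cases hj : ∃ i ∈ P, E i j
      · rw [Set.indicator_of_mem (show j ∈ {j | ∃ i ∈ P, E i j} from hj)]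
        obtain ⟨i, hi, hE⟩ := hj
        rw [← c1 i j hi hE]
        apply Finset.sum_congr rfl
        intro a _
        by_cases ha : a ∈ P
        · rw [if_pos ha]
        · rw [if_neg ha, c2 i j a hi hE ha]
      · rw [Set.indicator_of_notMem (show j ∉ {j | ∃ i ∈ P, E i j} from hj)]
        symm
        apply Finset.sum_eq_zero
        intro a _
        by_cases ha : a ∈ P
        · rw [if_pos ha]
          exact hπ0.supp a j (fun hE => hj ⟨a, ha, hE⟩)
        · rw [if_neg ha]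
    calc ∑ j, Set.indicator {j | ∃ i ∈ P, E i j} s j = ∑ j, ∑ i, (if i ∈ P then π0 i j else 0) :=
          Finset.sum_congr rfl (fun j _ => e2 j)
      _ = ∑ i, ∑ j, (if i ∈ P then π0 i j else 0) := Finset.sum_comm
      _ = ∑ i, (if i ∈ P then ∑ j, π0 i j else 0) := by
          apply Finset.sum_congr rfl
          intro i _
          by_cases hi : i ∈ P
          · simp [hi]
          · simp [hi]
  have h1 := h P
  rw [e1] at h1
  have h2 : ∑ i, d i = ∑ i, Set.indicator P d i + ∑ i, (if i ∈ P then 0 else ∑ j, π0 i j) := by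
    rw [← Finset.sum_add_distrib]
    apply Finset.sum_congr rfl
    intro i _
    by_cases hi : i ∈ P
    · rw [Set.indicator_of_mem hi, if_pos hi, add_zero]
    · rw [Set.indicator_of_notMem hi, if_neg hi, zero_add, c3 i hi]
  have h3 : T = ∑ i, (if i ∈ P then ∑ j, π0 i j else 0) + ∑ i, (if i ∈ P then 0 else ∑ j, π0 i j) := by
    rw [← Finset.sum_add_distrib]
    apply Finset.sum_congr rfl
    intro i _
    by_cases hi : i ∈ P
    · rw [if_pos hi, if_pos hi, add_zero]
    · rw [if_neg hi, if_neg hi, zero_add]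
  linarith

end Hop
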