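import Pool.Agent.Helper360.Hop.Defs

set_option maxHeartbeats 4000000

open scoped InnerProductSpace Topology ComplexConjugate
open Finset Filter

namespace Hop

variable {H : Type*} [NormedAddCommGroup H] [InnerProductSpace ℂ H] [CompleteSpace H]

/- ================= TARGET ================= -/
/-- B -/
theorem exists_wot_limit {ι : Type*} (𝒰 : Ultrafilter ι) (K : ι → (H →L[ℂ] H)) (c : ℝ)
    (hK : ∀ i, ‖K i‖ ≤ c) : ∃ K' : H →L[ℂ] H, ‖K'‖ ≤ c ∧
      ∀ x y : H, Tendsto (fun i => ⟪K i x, y⟫_ℂ) 𝒰 (𝓝 ⟪K' x, y⟫_ℂ) := by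
  have hne : Nonempty ι := by
    by_contra hcon
    rw [not_nonempty_iff] at hcon
    have h1 : (𝒰 : Filter ι) = ⊥ := Filter.filter_eq_bot_of_isEmpty _
    exact 𝒰.neBot.ne h1
  have hc : 0 ≤ c := by
    obtain ⟨i⟩ := hne
    exact (norm_nonneg _).trans (hK i)
  have hbd : ∀ x y i, ‖⟪K i x, y⟫_ℂ‖ ≤ c * ‖x‖ * ‖y‖ := by
    intro x y i
    calc ‖⟪K i x, y⟫_ℂ‖ ≤ ‖K i x‖ * ‖y‖ := norm_inner_le_norm _ _
      _ ≤ (c * ‖x‖) * ‖y‖ := by
        apply mul_le_mul_of_nonneg_right _ (norm_nonneg _)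
        exact ((K i).le_opNorm x).trans (mul_le_mul_of_nonneg_right (hK i) (norm_nonneg _))
  have hex : ∀ x y : H, ∃ z : ℂ, Tendsto (fun i => ⟪K i x, y⟫_ℂ) 𝒰 (𝓝 z) ∧ ‖z‖ ≤ c * ‖x‖ * ‖y‖ := by
    intro x y
    have hcomp : IsCompact (Metric.closedBall (0 : ℂ) (c * ‖x‖ * ‖y‖)) := isCompact_closedBall _ _
    obtain ⟨z, hz, hz2⟩ := hcomp.ultrafilter_le_nhds (𝒰.map (fun i => ⟪K i x, y⟫_ℂ)) (by
      rw [Filter.le_principal_iff]
      show (fun i => ⟪K i x, y⟫_ℂ) ⁻¹' (Metric.closedBall (0 : ℂ) (c * ‖x‖ * ‖y‖)) ∈ (𝒰 : Filter ι)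
      apply Filter.mem_of_superset Filter.univ_mem
      intro i _
      rw [Set.mem_preimage, mem_closedBall_zero_iff]
      exact hbd x y i)
    exact ⟨z, hz2, by rwa [mem_closedBall_zero_iff] at hz⟩
  choose F hF hFb using hex
  have hadd : ∀ x y y', F x (y + y') = F x y + F x y' := by
    intro x y y'
    apply tendsto_nhds_unique (hF x (y + y'))
    have := (hF x y).add (hF x y')
    refine this.congr (fun i => ?_)
    rw [inner_add_right]
  have hsmul : ∀ x (a : ℂ) y, F x (a • y) = a * F x y := by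
    intro x a y
    apply tendsto_nhds_unique (hF x (a • y))
    have := (hF x y).const_mul a
    refine this.congr (fun i => ?_)
    rw [inner_smul_right]
  have hadd' : ∀ x x' y, F (x + x') y = F x y + F x' y := by
    intro x x' y
    apply tendsto_nhds_unique (hF (x + x') y)
    have := (hF x y).add (hF x' y)
    refine this.congr (fun i => ?_)
    rw [map_add, inner_add_left]
  have hsmul' : ∀ (a : ℂ) x y, F (a • x) y = conj a * F x y := by
    intro a x y
    apply tendsto_nhds_unique (hF (a • x) y)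
    have := (hF x y).const_mul (conj a)
    refine this.congr (fun i => ?_)
    rw [map_smul, inner_smul_left]
  let φ : H → StrongDual ℂ H := fun x => LinearMap.mkContinuous
    { toFun := F x
      map_add' := hadd x
      map_smul' := fun a y => by rw [hsmul]; rfl } (c * ‖x‖) (fun y => hFb x y)
  have hφ : ∀ x y, φ x y = F x y := fun x y => rfl
  have hin : ∀ x y, ⟪(InnerProductSpace.toDual ℂ H).symm (φ x), y⟫_ℂ = F x y := by
    intro x y
    rw [InnerProductSpace.toDual_symm_apply]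
    exact hφ x y
  let K' : H →L[ℂ] H := LinearMap.mkContinuous
    { toFun := fun x => (InnerProductSpace.toDual ℂ H).symm (φ x)
      map_add' := fun x x' => by
        apply ext_inner_right ℂ
        intro y
        rw [inner_add_left, hin, hin, hin, hadd']
      map_smul' := fun a x => by
        apply ext_inner_right ℂ
        intro y
        rw [RingHom.id_apply, inner_smul_left, hin, hin, hsmul'] } c (fun x => by
      show ‖(InnerProductSpace.toDual ℂ H).symm (φ x)‖ ≤ c * ‖x‖
      rw [LinearIsometryEquiv.norm_map]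
      exact LinearMap.mkContinuous_norm_le _ (mul_nonneg hc (norm_nonneg _)) _)
  refine ⟨K', LinearMap.mkContinuous_norm_le _ hc _, fun x y => ?_⟩
  have : ⟪K' x, y⟫_ℂ = F x y := hin x y
  rw [this]
  exact hF x y

end Hop
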