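import Pool.Agent.Helper360.Hop.Defs
import Pool.Agent.Helper360.Hop.Wot
import Pool.Agent.Helper360.Hop.Gale
set_option maxHeartbeats 4000000

open scoped InnerProductSpace Topology ComplexConjugate
open Finset Filter

namespace Hop

variable {H : Type*} [NormedAddCommGroup H] [InnerProductSpace ℂ H] [CompleteSpace H]

structure klemma_Dec (C : Set (H →L[ℂ] H)) {J : Type} [Fintype J] [DecidableEq J]
    (e : J → (H →L[ℂ] H)) : Prop where
  proj : ∀ j, IsStarProjection (e j)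
  orth : ∀ i j, i ≠ j → e i * e j = 0
  sum : ∑ j, e j = 1
  comm : ∀ j, ∀ q ∈ C, e j * q = q * e j

theorem klemma_step {C : Set (H →L[ℂ] H)} (hC : ∀ x ∈ C, ∀ y ∈ C, x * y = y * x)
    {J : Type} [Fintype J] [DecidableEq J]
    {e : J → (H →L[ℂ] H)} (h : klemma_Dec C e) (p : H →L[ℂ] H) (hp : IsStarProjection p)
    (hpC : p ∈ C) :
    klemma_Dec C (fun jb : J × Bool => e jb.1 * (if jb.2 then p else 1 - p)) := by
  have hcp : ∀ (b : Bool), ∀ q ∈ C, (if b then p else 1 - p) * q = q * (if b then p else 1 - p) := by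
    intro b q hq
    cases b
    · simp only [Bool.false_eq_true, if_false]
      rw [sub_mul, mul_sub, hC p hpC q hq, one_mul, mul_one]
    · simpa using hC p hpC q hq
  have hep : ∀ (j : J) (b : Bool), e j * (if b then p else 1 - p) = (if b then p else 1 - p) * e j := by
    intro j b
    cases b
    · simp only [Bool.false_eq_true, if_false]
      rw [sub_mul, mul_sub, h.comm j p hpC, one_mul, mul_one]
    · simpa using h.comm j p hpC
  refine ⟨?_, ?_, ?_, ?_⟩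
  · rintro ⟨j, b⟩
    refine IsStarProjection.mul (h.proj j) ?_ ?_
    · cases b
      · simpa using hp.one_sub
      · simpa using hp
    · exact hep j b
  · rintro ⟨i, b⟩ ⟨j, c⟩ hij
    show e i * (if b then p else 1 - p) * (e j * (if c then p else 1 - p)) = 0
    by_cases hij' : i = j
    · subst hij'
      have hbc : b ≠ c := fun hbc => hij (by rw [hbc])
      have h0 : (if b then p else 1 - p) * (if c then p else 1 - p) = 0 := by
        have hpp : p * p = p := hp.isIdempotentElem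
        cases b <;> cases c
        · exact absurd rfl hbc
        · simp only [Bool.false_eq_true, if_false, if_true]
          rw [sub_mul, one_mul, hpp, sub_self]
        · simp only [Bool.false_eq_true, if_false, if_true]
          rw [mul_sub, mul_one, hpp, sub_self]
        · exact absurd rfl hbc
      calc e i * (if b then p else 1 - p) * (e i * (if c then p else 1 - p))
          = e i * ((if b then p else 1 - p) * e i) * (if c then p else 1 - p) := by
            simp only [mul_assoc]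
        _ = e i * (e i * (if b then p else 1 - p)) * (if c then p else 1 - p) := by rw [hep]
        _ = e i * e i * ((if b then p else 1 - p) * (if c then p else 1 - p)) := by
            simp only [mul_assoc]
        _ = 0 := by rw [h0, mul_zero]
    · calc e i * (if b then p else 1 - p) * (e j * (if c then p else 1 - p))
          = (e i * (if b then p else 1 - p)) * e j * (if c then p else 1 - p) := by
            simp only [mul_assoc]
        _ = ((if b then p else 1 - p) * e i) * e j * (if c then p else 1 - p) := by rw [hep]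
        _ = (if b then p else 1 - p) * (e i * e j) * (if c then p else 1 - p) := by
            simp only [mul_assoc]
        _ = 0 := by rw [h.orth i j hij', mul_zero, zero_mul]
  · rw [Fintype.sum_prod_type]
    simp only [Fintype.sum_bool, if_true, Bool.false_eq_true, if_false]
    refine Eq.trans ?_ h.sum
    refine Finset.sum_congr rfl fun j _ => ?_
    rw [← mul_add]; simp
  · rintro ⟨j, b⟩ q hq
    show e j * (if b then p else 1 - p) * q = q * (e j * (if b then p else 1 - p))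
    rw [mul_assoc, hcp b q hq, ← mul_assoc, h.comm j q hq, mul_assoc]

theorem klemma_dec (KK : Set ((H →L[ℂ] H) × (H →L[ℂ] H)))
    (hproj : ∀ p ∈ KK, IsStarProjection p.1 ∧ IsStarProjection p.2)
    (hc1 : ∀ p ∈ KK, ∀ q ∈ KK, p.1 * q.1 = q.1 * p.1)
    (hc2 : ∀ p ∈ KK, ∀ q ∈ KK, p.2 * q.2 = q.2 * p.2)
    (l : List ((H →L[ℂ] H) × (H →L[ℂ] H))) (hl : ∀ p ∈ l, p ∈ KK) :
    ∃ (J : Type) (_ : Fintype J) (_ : DecidableEq J) (e f : J → (H →L[ℂ] H))
      (S : ((H →L[ℂ] H) × (H →L[ℂ] H)) → Finset J),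
      klemma_Dec (Prod.fst '' KK) e ∧ klemma_Dec (Prod.snd '' KK) f ∧
      (∀ p ∈ l, p.1 = ∑ j ∈ S p, e j) ∧ (∀ p ∈ l, p.2 = ∑ j ∈ S p, f j) := by
  classical
  have hC1 : ∀ x ∈ Prod.fst '' KK, ∀ y ∈ Prod.fst '' KK, x * y = y * x := by
    rintro _ ⟨p, hp, rfl⟩ _ ⟨q, hq, rfl⟩
    exact hc1 p hp q hq
  have hC2 : ∀ x ∈ Prod.snd '' KK, ∀ y ∈ Prod.snd '' KK, x * y = y * x := by
    rintro _ ⟨p, hp, rfl⟩ _ ⟨q, hq, rfl⟩
    exact hc2 p hp q hq
  induction l with
  | nil =>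
    refine ⟨Unit, inferInstance, inferInstance, fun _ => 1, fun _ => 1, fun _ => ∅, ?_, ?_, ?_, ?_⟩
    · refine ⟨fun _ => IsStarProjection.one _, ?_, by simp, by simp⟩
      rintro ⟨⟩ ⟨⟩ h; exact absurd rfl h
    · refine ⟨fun _ => IsStarProjection.one _, ?_, by simp, by simp⟩
      rintro ⟨⟩ ⟨⟩ h; exact absurd rfl h
    · intro p hp; simp at hp
    · intro p hp; simp at hp
  | cons p0 l ih =>
    obtain ⟨J, i1, i2, e, f, S, he, hf, hS1, hS2⟩ := ih (fun p hp => hl p (List.mem_cons_of_mem _ hp))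
    have hp0 : p0 ∈ KK := hl p0 (by simp)
    have key : ∀ (g : J → (H →L[ℂ] H)) (p : H →L[ℂ] H) (T : Finset J),
        ∑ j ∈ T ×ˢ (univ : Finset Bool), (fun jb : J × Bool => g jb.1 * (if jb.2 then p else 1 - p)) j
          = ∑ j ∈ T, g j := by
      intro g p T
      rw [Finset.sum_product]
      refine Finset.sum_congr rfl fun j _ => ?_
      simp only [Fintype.sum_bool, if_true, Bool.false_eq_true, if_false]
      rw [← mul_add]; simp
    have key2 : ∀ (g : J → (H →L[ℂ] H)) (p : H →L[ℂ] H), ∑ j, g j = 1 →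
        ∑ j ∈ (univ : Finset J) ×ˢ ({true} : Finset Bool),
          (fun jb : J × Bool => g jb.1 * (if jb.2 then p else 1 - p)) j = p := by
      intro g p hg
      rw [Finset.sum_product]
      simp only [Finset.sum_singleton, if_true]
      rw [← Finset.sum_mul, hg, one_mul]
    refine ⟨J × Bool, inferInstance, inferInstance,
      fun jb => e jb.1 * (if jb.2 then p0.1 else 1 - p0.1),
      fun jb => f jb.1 * (if jb.2 then p0.2 else 1 - p0.2),
      fun p => if p = p0 then univ ×ˢ {true} else S p ×ˢ univ, ?_, ?_, ?_, ?_⟩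
    · exact klemma_step hC1 he p0.1 (hproj p0 hp0).1 ⟨p0, hp0, rfl⟩
    · exact klemma_step hC2 hf p0.2 (hproj p0 hp0).2 ⟨p0, hp0, rfl⟩
    · intro p hp
      by_cases hpp : p = p0
      · simp only [hpp, if_true]
        exact (key2 e p0.1 he.sum).symm
      · have hp' : p ∈ l := by
          rcases List.mem_cons.mp hp with h | h
          · exact absurd h hpp
          · exact h
        simp only [hpp, if_false]
        rw [key e p0.1 (S p)]
        exact hS1 p hp'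
    · intro p hp
      by_cases hpp : p = p0
      · simp only [hpp, if_true]
        exact (key2 f p0.2 hf.sum).symm
      · have hp' : p ∈ l := by
          rcases List.mem_cons.mp hp with h | h
          · exact absurd h hpp
          · exact h
        simp only [hpp, if_false]
        rw [key f p0.2 (S p)]
        exact hS2 p hp'

theorem klemma_pyth {J : Type} [DecidableEq J] (e : J → (H →L[ℂ] H))
    (hp : ∀ j, IsStarProjection (e j)) (ho : ∀ i j, i ≠ j → e i * e j = 0)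
    (v : J → H) (hv : ∀ j, e j (v j) = v j) (s : Finset J) :
    ‖∑ j ∈ s, v j‖ ^ 2 = ∑ j ∈ s, ‖v j‖ ^ 2 := by
  have hin : ∀ i j, i ≠ j → ⟪v i, v j⟫_ℂ = 0 := by
    intro i j hij
    rw [← hv i, ← hv j]
    have h1 := (hp i).isSelfAdjoint.isSymmetric (v i) (e j (v j))
    have h2 : e i (e j (v j)) = 0 := by
      have := congrArg (fun T : H →L[ℂ] H => T (v j)) (ho i j hij)
      simpa using this
    have h3 : ⟪e i (v i), e j (v j)⟫_ℂ = ⟪v i, e i (e j (v j))⟫_ℂ := h1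
    rw [h3, h2, inner_zero_right]
  induction s using Finset.induction_on with
  | empty => simp
  | insert a s ha ih =>
    rw [Finset.sum_insert ha, Finset.sum_insert ha, ← ih]
    have h0 : ⟪v a, ∑ j ∈ s, v j⟫_ℂ = 0 := by
      rw [inner_sum]
      refine Finset.sum_eq_zero fun j hj => hin a j ?_
      rintro rfl; exact ha hj
    have := norm_add_sq_eq_norm_sq_add_norm_sq_of_inner_eq_zero (v a) (∑ j ∈ s, v j) h0
    rw [sq, this]; ring

/-- products and joins of partial sums -/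
theorem klemma_sum_mul {J : Type} [Fintype J] [DecidableEq J] (e : J → (H →L[ℂ] H))
    (hp : ∀ j, IsStarProjection (e j)) (ho : ∀ i j, i ≠ j → e i * e j = 0) (S T : Finset J) :
    (∑ j ∈ S, e j) * (∑ j ∈ T, e j) = ∑ j ∈ S ∩ T, e j := by
  rw [Finset.sum_mul_sum]
  have h1 : ∀ i ∈ S, ∑ j ∈ T, e i * e j = if i ∈ T then e i else 0 := by
    intro i _
    by_cases hi : i ∈ T
    · rw [if_pos hi, Finset.sum_eq_single i]
      · exact (hp i).isIdempotentElem
      · intro j _ hj; exact ho i j (Ne.symm hj)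
      · intro h; exact absurd hi h
    · rw [if_neg hi]
      refine Finset.sum_eq_zero fun j hj => ho i j ?_
      rintro rfl; exact hi hj
  rw [Finset.sum_congr rfl h1, ← Finset.sum_filter, Finset.filter_mem_eq_inter]

theorem klemma_sum_sup {J : Type} [Fintype J] [DecidableEq J] (e : J → (H →L[ℂ] H))
    (hp : ∀ j, IsStarProjection (e j)) (ho : ∀ i j, i ≠ j → e i * e j = 0) (S T : Finset J) :
    (∑ j ∈ S, e j) + (∑ j ∈ T, e j) - (∑ j ∈ S, e j) * (∑ j ∈ T, e j) = ∑ j ∈ S ∪ T, e j := by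
  rw [klemma_sum_mul e hp ho S T, ← Finset.sum_union_inter]
  abel

theorem klemma_up (KK : Set ((H →L[ℂ] H) × (H →L[ℂ] H)))
    (h0 : (0, 0) ∈ KK) (h1 : (1, 1) ∈ KK)
    (hinf : ∀ p ∈ KK, ∀ q ∈ KK, (p.1 * q.1, p.2 * q.2) ∈ KK)
    (hsup : ∀ p ∈ KK, ∀ q ∈ KK, (p.1 + q.1 - p.1 * q.1, p.2 + q.2 - p.2 * q.2) ∈ KK)
    {J : Type} [Fintype J] [DecidableEq J] (e f : J → (H →L[ℂ] H))
    (hpe : ∀ j, IsStarProjection (e j)) (hoe : ∀ i j, i ≠ j → e i * e j = 0)
    (hpf : ∀ j, IsStarProjection (f j)) (hof : ∀ i j, i ≠ j → f i * f j = 0)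
    (hse : ∑ j, e j = 1) (hsf : ∑ j, f j = 1)
    (l : List ((H →L[ℂ] H) × (H →L[ℂ] H))) (hl : ∀ p ∈ l, p ∈ KK)
    (S : ((H →L[ℂ] H) × (H →L[ℂ] H)) → Finset J)
    (hS1 : ∀ p ∈ l, p.1 = ∑ j ∈ S p, e j) (hS2 : ∀ p ∈ l, p.2 = ∑ j ∈ S p, f j)
    (P : Finset J) :
    ∃ U : Finset J, (∀ τ, τ ∈ U ↔ ∀ σ ∈ P, ∃ p ∈ l, τ ∈ S p ∧ σ ∉ S p) ∧
      (∑ j ∈ U, e j, ∑ j ∈ U, f j) ∈ KK := by
  classical
  have hI : ∀ A B : Finset J, (∑ j ∈ A, e j, ∑ j ∈ A, f j) ∈ KK → (∑ j ∈ B, e j, ∑ j ∈ B, f j) ∈ KK →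
      (∑ j ∈ A ∩ B, e j, ∑ j ∈ A ∩ B, f j) ∈ KK := by
    intro A B hA hB
    have := hinf _ hA _ hB
    simp only at this
    rwa [klemma_sum_mul e hpe hoe, klemma_sum_mul f hpf hof] at this
  have hU : ∀ A B : Finset J, (∑ j ∈ A, e j, ∑ j ∈ A, f j) ∈ KK → (∑ j ∈ B, e j, ∑ j ∈ B, f j) ∈ KK →
      (∑ j ∈ A ∪ B, e j, ∑ j ∈ A ∪ B, f j) ∈ KK := by
    intro A B hA hB
    have := hsup _ hA _ hB
    simp only at this
    rwa [klemma_sum_sup e hpe hoe, klemma_sum_sup f hpf hof] at this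
  have hW : ∀ σ : J, ∀ l' : List ((H →L[ℂ] H) × (H →L[ℂ] H)), (∀ p ∈ l', p ∈ l) →
      ∃ W : Finset J, (∀ τ, τ ∈ W ↔ ∃ p ∈ l', τ ∈ S p ∧ σ ∉ S p) ∧
        (∑ j ∈ W, e j, ∑ j ∈ W, f j) ∈ KK := by
    intro σ l'
    induction l' with
    | nil =>
      intro _
      refine ⟨∅, by simp, by simpa using h0⟩
    | cons p l' ih =>
      intro hl'
      obtain ⟨W, hW1, hW2⟩ := ih (fun q hq => hl' q (List.mem_cons_of_mem _ hq))
      have hp : p ∈ l := hl' p (by simp)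
      by_cases hσ : σ ∈ S p
      · refine ⟨W, ?_, hW2⟩
        intro τ
        rw [hW1]
        constructor
        · rintro ⟨q, hq, h⟩; exact ⟨q, List.mem_cons_of_mem _ hq, h⟩
        · rintro ⟨q, hq, h⟩
          rcases List.mem_cons.mp hq with rfl | hq
          · exact absurd hσ h.2
          · exact ⟨q, hq, h⟩
      · refine ⟨W ∪ S p, ?_, hU _ _ hW2 ?_⟩
        · intro τ
          rw [Finset.mem_union, hW1]
          constructor
          · rintro (⟨q, hq, h⟩ | h)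
            · exact ⟨q, List.mem_cons_of_mem _ hq, h⟩
            · exact ⟨p, by simp, h, hσ⟩
          · rintro ⟨q, hq, h⟩
            rcases List.mem_cons.mp hq with rfl | hq
            · exact Or.inr h.1
            · exact Or.inl ⟨q, hq, h⟩
        · have := hl p hp
          rw [← hS1 p hp, ← hS2 p hp]; exact this
  induction P using Finset.induction_on with
  | empty =>
    refine ⟨univ, by simp, ?_⟩
    rw [hse, hsf]; exact h1
  | insert σ P hσ ih =>
    obtain ⟨U, hU1, hU2⟩ := ih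
    obtain ⟨W, hW1, hW2⟩ := hW σ l (fun _ h => h)
    refine ⟨W ∩ U, ?_, hI _ _ hW2 hU2⟩
    intro τ
    rw [Finset.mem_inter, hW1, hU1]
    simp only [Finset.mem_insert, forall_eq_or_imp]

theorem klemma_inner_proj {f : H →L[ℂ] H} (hf : IsStarProjection f) (a x : H) :
    ⟪f a, x⟫_ℂ = ⟪f a, f x⟫_ℂ := by
  have h1 : ⟪f (f a), x⟫_ℂ = ⟪f a, f x⟫_ℂ := hf.isSelfAdjoint.isSymmetric (f a) x
  have h2 : f (f a) = f a := by
    have := congrArg (fun T : H →L[ℂ] H => T a) hf.isIdempotentElem.eq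
    simpa using this
  rw [← h1, h2]

theorem klemma_idem {f : H →L[ℂ] H} (hf : IsStarProjection f) (a : H) : f (f a) = f a := by
  have := congrArg (fun T : H →L[ℂ] H => T a) hf.isIdempotentElem.eq
  simpa using this

theorem klemma_pyth2 {J : Type} [Fintype J] [DecidableEq J] (e : J → (H →L[ℂ] H))
    (hp : ∀ j, IsStarProjection (e j)) (ho : ∀ i j, i ≠ j → e i * e j = 0)
    (w : J → ℂ) (b : H) :
    ‖∑ j, w j • e j b‖ ^ 2 = ∑ j, (‖w j‖ * ‖e j b‖) ^ 2 := by
  rw [klemma_pyth e hp ho (fun j => w j • e j b) (fun j => by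
    show e j (w j • e j b) = w j • e j b
    rw [map_smul, klemma_idem (hp j)]) univ]
  refine Finset.sum_congr rfl fun j _ => ?_
  rw [norm_smul]

theorem klemma_core {J : Type} [Fintype J] [DecidableEq J] (e f : J → (H →L[ℂ] H))
    (hpe : ∀ j, IsStarProjection (e j)) (hoe : ∀ i j, i ≠ j → e i * e j = 0)
    (hpf : ∀ j, IsStarProjection (f j)) (hof : ∀ i j, i ≠ j → f i * f j = 0)
    (hse : ∑ j, e j = 1) (hsf : ∑ j, f j = 1) (a b : H) (lam η : ℝ) (hlam : 0 < lam)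
    (π : J → J → ℝ) (hπ : ∀ i j, 0 ≤ π i j)
    (hr : ∀ i, ∑ j, π i j ≤ lam ^ 2 * ‖e i b‖ ^ 2) (hc : ∀ j, ∑ i, π i j ≤ ‖f j a‖ ^ 2)
    (ht : ∑ i, lam ^ 2 * ‖e i b‖ ^ 2 ≤ (∑ i, ∑ j, π i j) + η) :
    ∃ c : J → J → ℝ, (∀ i j, π i j = 0 → c i j = 0) ∧
      (∀ x : H, ‖∑ i, ((∑ j, (c i j : ℂ) * ⟪f j a, x⟫_ℂ)) • e i b‖ ≤ ‖x‖) ∧
      ‖b - (lam : ℂ)⁻¹ • ∑ i, ((∑ j, (c i j : ℂ) * ⟪f j a, a⟫_ℂ)) • e i b‖ ^ 2 ≤ η / lam ^ 2 := by
  classical
  set r : J → ℝ := fun i => ∑ j, π i j with hrdef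
  have hr0 : ∀ i, 0 ≤ r i := fun i => Finset.sum_nonneg fun j _ => hπ i j
  set α : J → ℝ := fun j => ‖f j a‖ with hα
  set β : J → ℝ := fun i => ‖e i b‖ with hβ
  have hα0 : ∀ j, 0 ≤ α j := fun j => norm_nonneg _
  have hβ0 : ∀ j, 0 ≤ β j := fun j => norm_nonneg _
  have hsx : ∀ x : H, ∑ j, f j x = x := by
    intro x
    have := congrArg (fun T : H →L[ℂ] H => T x) hsf
    simpa [_root_.sum_apply] using this
  have hsb : ∀ x : H, ∑ j, e j x = x := by
    intro x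
    have := congrArg (fun T : H →L[ℂ] H => T x) hse
    simpa [_root_.sum_apply] using this
  set c : J → J → ℝ := fun i j => π i j / (√(r i) * α j ^ 2 * β i) with hcdef
  have hc0 : ∀ i j, 0 ≤ c i j := fun i j => div_nonneg (hπ i j) (by positivity)
  refine ⟨c, ?_, ?_, ?_⟩
  · intro i j h
    simp [hcdef, h]
  · intro x
    have hx2 : ‖x‖ ^ 2 = ∑ j, ‖f j x‖ ^ 2 := by
      conv_lhs => rw [← hsx x]
      exact klemma_pyth f hpf hof (fun j => f j x) (fun j => klemma_idem (hpf j) x) univ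
    refine le_of_sq_le_sq ?_ (norm_nonneg _)
    rw [klemma_pyth2 e hpe hoe, hx2]
    set ξ : J → ℝ := fun j => ‖f j x‖ with hξ
    have hξ0 : ∀ j, 0 ≤ ξ j := fun j => norm_nonneg _
    have hrow : ∀ i, (‖∑ j, (c i j : ℂ) * ⟪f j a, x⟫_ℂ‖ * ‖e i b‖) ^ 2
        ≤ ∑ j, π i j * (ξ j ^ 2 / α j ^ 2) := by
      intro i
      have h1 : ‖∑ j, (c i j : ℂ) * ⟪f j a, x⟫_ℂ‖ ≤ ∑ j, c i j * (α j * ξ j) := by
        refine le_trans (norm_sum_le _ _) (Finset.sum_le_sum fun j _ => ?_)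
        rw [norm_mul, Complex.norm_real, Real.norm_of_nonneg (hc0 i j)]
        refine mul_le_mul_of_nonneg_left ?_ (hc0 i j)
        rw [klemma_inner_proj (hpf j) a x]
        exact norm_inner_le_norm _ _
      have h2 : ‖∑ j, (c i j : ℂ) * ⟪f j a, x⟫_ℂ‖ * β i
          ≤ ∑ j, (√(π i j) / √(r i)) * (√(π i j) * (ξ j / α j)) := by
        refine le_trans (mul_le_mul_of_nonneg_right h1 (hβ0 i)) ?_
        rw [Finset.sum_mul]
        refine Finset.sum_le_sum fun j _ => ?_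
        by_cases hb : β i = 0
        · rw [hb, mul_zero]
          have := hξ0 j
          have := hα0 j
          positivity
        by_cases ha : α j = 0
        · rw [ha]; simp
        refine le_of_eq ?_
        have hππ : √(π i j) * √(π i j) = π i j := Real.mul_self_sqrt (hπ i j)
        by_cases hrr : √(r i) = 0
        · simp [hcdef, hrr]
        have : (√(π i j) / √(r i)) * (√(π i j) * (ξ j / α j))
            = (√(π i j) * √(π i j)) / √(r i) * (ξ j / α j) := by ring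
        rw [this, hππ, hcdef]
        field_simp
      have h3 : (∑ j, (√(π i j) / √(r i)) * (√(π i j) * (ξ j / α j))) ^ 2
          ≤ (∑ j, (√(π i j) / √(r i)) ^ 2) * (∑ j, (√(π i j) * (ξ j / α j)) ^ 2) :=
        Finset.sum_mul_sq_le_sq_mul_sq _ _ _
      have h4 : ∑ j, (√(π i j) / √(r i)) ^ 2 ≤ 1 := by
        have : ∀ j ∈ (univ : Finset J), (√(π i j) / √(r i)) ^ 2 = π i j / r i := by
          intro j _
          rw [div_pow, Real.sq_sqrt (hπ i j), Real.sq_sqrt (hr0 i)]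
        rw [Finset.sum_congr rfl this, ← Finset.sum_div]
        exact div_self_le_one _
      have h5 : ∑ j, (√(π i j) * (ξ j / α j)) ^ 2 = ∑ j, π i j * (ξ j ^ 2 / α j ^ 2) := by
        refine Finset.sum_congr rfl fun j _ => ?_
        rw [mul_pow, Real.sq_sqrt (hπ i j), div_pow]
      have h6 : 0 ≤ ‖∑ j, (c i j : ℂ) * ⟪f j a, x⟫_ℂ‖ * β i := by positivity
      have h7 : (‖∑ j, (c i j : ℂ) * ⟪f j a, x⟫_ℂ‖ * β i) ^ 2
          ≤ (∑ j, (√(π i j) / √(r i)) * (√(π i j) * (ξ j / α j))) ^ 2 :=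
        pow_le_pow_left₀ h6 h2 2
      have h8 : 0 ≤ ∑ j, π i j * (ξ j ^ 2 / α j ^ 2) :=
        Finset.sum_nonneg fun j _ => mul_nonneg (hπ i j) (by positivity)
      rw [h5] at h3
      calc (‖∑ j, (c i j : ℂ) * ⟪f j a, x⟫_ℂ‖ * ‖e i b‖) ^ 2 ≤ _ := h7
        _ ≤ _ := h3
        _ ≤ 1 * _ := mul_le_mul_of_nonneg_right h4 h8
        _ = _ := one_mul _
    refine le_trans (Finset.sum_le_sum fun i _ => hrow i) ?_
    rw [Finset.sum_comm]
    refine Finset.sum_le_sum fun j _ => ?_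
    rw [← Finset.sum_mul]
    refine le_trans (mul_le_mul_of_nonneg_right (hc j) (by positivity)) ?_
    by_cases ha : α j = 0
    · have ha' : ‖f j a‖ = 0 := ha
      rw [ha']
      simp only [ne_eq, OfNat.ofNat_ne_zero, not_false_eq_true, zero_pow, zero_mul]
      positivity
    · have ha' : ‖f j a‖ ≠ 0 := ha
      refine le_of_eq ?_
      show ‖f j a‖ ^ 2 * (‖f j x‖ ^ 2 / ‖f j a‖ ^ 2) = ‖f j x‖ ^ 2
      field_simp
  · have hw : ∀ i, (∑ j, (c i j : ℂ) * ⟪f j a, a⟫_ℂ) • e i b = ((√(r i) / β i : ℝ) : ℂ) • e i b := by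
      intro i
      congr 1
      have h1 : ∀ j ∈ (univ : Finset J), (c i j : ℂ) * ⟪f j a, a⟫_ℂ
          = ((π i j * (1 / (√(r i) * β i)) : ℝ) : ℂ) := by
        intro j _
        rw [klemma_inner_proj (hpf j) a a, inner_self_eq_norm_sq_to_K]
        have h2 : c i j * α j ^ 2 = π i j * (1 / (√(r i) * β i)) := by
          by_cases ha : α j = 0
          · have h3 : π i j = 0 := by
              have h4 := hc j
              have h5 : ‖f j a‖ = 0 := ha
              rw [h5] at h4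
              have h6 : π i j ≤ ∑ i, π i j := Finset.single_le_sum (f := fun i => π i j)
                (fun i _ => hπ i j) (Finset.mem_univ i)
              have := hπ i j
              nlinarith
            rw [h3, ha]; simp
          · simp only [hcdef]
            by_cases hrr : √(r i) = 0
            · simp [hrr]
            by_cases hb : β i = 0
            · simp [hb]
            field_simp
        have h7 := congrArg (fun t : ℝ => (t : ℂ)) h2
        simp only [Complex.ofReal_mul, Complex.ofReal_pow] at h7 ⊢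
        exact h7
      rw [Finset.sum_congr rfl h1, ← Complex.ofReal_sum, ← Finset.sum_mul]
      congr 1
      have h8 : ∑ j, π i j = r i := rfl
      rw [h8]
      by_cases hrr : r i = 0
      · rw [hrr]; simp
      · have h9 : 0 < r i := lt_of_le_of_ne (hr0 i) (Ne.symm hrr)
        have h10 : √(r i) ≠ 0 := (Real.sqrt_pos.mpr h9).ne'
        by_cases hb : β i = 0
        · rw [hb]; simp
        field_simp
        rw [Real.sq_sqrt h9.le]
    have hb' : b - (lam : ℂ)⁻¹ • ∑ i, ((∑ j, (c i j : ℂ) * ⟪f j a, a⟫_ℂ)) • e i b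
        = ∑ i, ((1 - √(r i) / (lam * β i) : ℝ) : ℂ) • e i b := by
      rw [Finset.sum_congr rfl (fun i _ => hw i), Finset.smul_sum]
      calc b - ∑ i, (lam : ℂ)⁻¹ • ((√(r i) / β i : ℝ) : ℂ) • e i b
          = ∑ i, e i b - ∑ i, (lam : ℂ)⁻¹ • ((√(r i) / β i : ℝ) : ℂ) • e i b := by rw [hsb b]
        _ = ∑ i, (e i b - (lam : ℂ)⁻¹ • ((√(r i) / β i : ℝ) : ℂ) • e i b) := by
            rw [Finset.sum_sub_distrib]
        _ = ∑ i, ((1 - √(r i) / (lam * β i) : ℝ) : ℂ) • e i b := by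
            refine Finset.sum_congr rfl fun i _ => ?_
            rw [smul_smul]
            have h1 : (lam : ℂ)⁻¹ * ((√(r i) / β i : ℝ) : ℂ) = ((√(r i) / (lam * β i) : ℝ) : ℂ) := by
              rw [← Complex.ofReal_inv, ← Complex.ofReal_mul]
              congr 1
              rw [inv_mul_eq_div, div_div, mul_comm (β i)]
            rw [h1, Complex.ofReal_sub, sub_smul, Complex.ofReal_one, one_smul]
    rw [hb', klemma_pyth2 e hpe hoe]
    have hrow : ∀ i ∈ (univ : Finset J), (‖((1 - √(r i) / (lam * β i) : ℝ) : ℂ)‖ * ‖e i b‖) ^ 2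
        ≤ (lam ^ 2 * ‖e i b‖ ^ 2 - r i) / lam ^ 2 := by
      intro i _
      rw [Complex.norm_real, mul_pow, Real.norm_eq_abs, sq_abs]
      have hri := hr i
      have h8 : ∑ j, π i j = r i := rfl
      rw [h8] at hri
      by_cases hb : ‖e i b‖ = 0
      · rw [hb] at hri ⊢
        have h9 : r i = 0 := le_antisymm (by simpa using hri) (hr0 i)
        rw [h9]; simp
      · have hbp : 0 < ‖e i b‖ := lt_of_le_of_ne (norm_nonneg _) (Ne.symm hb)
        have h1 : √(r i) ≤ lam * ‖e i b‖ := by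
          rw [Real.sqrt_le_iff]
          exact ⟨by positivity, by rw [mul_pow]; exact hri⟩
        have h2 : √(r i) ^ 2 = r i := Real.sq_sqrt (hr0 i)
        have h3 : 0 ≤ √(r i) := Real.sqrt_nonneg _
        show (1 - √(r i) / (lam * ‖e i b‖)) ^ 2 * ‖e i b‖ ^ 2 ≤ _
        rw [le_div_iff₀ (by positivity)]
        have h4 : (1 - √(r i) / (lam * ‖e i b‖)) ^ 2 * ‖e i b‖ ^ 2 * lam ^ 2
            = (lam * ‖e i b‖ - √(r i)) ^ 2 := by
          field_simp
        rw [h4]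
        nlinarith
    refine le_trans (Finset.sum_le_sum hrow) ?_
    rw [← Finset.sum_div]
    refine div_le_div_of_nonneg_right ?_ (by positivity)
    rw [Finset.sum_sub_distrib]
    linarith

theorem klemma_ind {J : Type} [Fintype J] (A : Set J) (B : Finset J) (h : ∀ j, j ∈ A ↔ j ∈ B)
    (s : J → ℝ) : ∑ j, Set.indicator A s j = ∑ j ∈ B, s j := by
  classical
  simp only [Set.indicator_apply, h]
  rw [← Finset.sum_filter]
  simp

theorem klemma_fin (KK : Set ((H →L[ℂ] H) × (H →L[ℂ] H)))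
    (hproj : ∀ p ∈ KK, IsStarProjection p.1 ∧ IsStarProjection p.2)
    (hc1 : ∀ p ∈ KK, ∀ q ∈ KK, p.1 * q.1 = q.1 * p.1)
    (hc2 : ∀ p ∈ KK, ∀ q ∈ KK, p.2 * q.2 = q.2 * p.2)
    (h0 : (0, 0) ∈ KK) (h1 : (1, 1) ∈ KK)
    (hinf : ∀ p ∈ KK, ∀ q ∈ KK, (p.1 * q.1, p.2 * q.2) ∈ KK)
    (hsup : ∀ p ∈ KK, ∀ q ∈ KK, (p.1 + q.1 - p.1 * q.1, p.2 + q.2 - p.2 * q.2) ∈ KK)
    (a b : H) (lam η : ℝ) (hlam : 0 < lam)
    (h : ∀ p ∈ KK, lam ^ 2 * ‖(1 - p.1) b‖ ^ 2 ≤ ‖(1 - p.2) a‖ ^ 2 + η)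
    (l : List ((H →L[ℂ] H) × (H →L[ℂ] H))) (hl : ∀ p ∈ l, p ∈ KK) :
    ∃ K : H →L[ℂ] H, ‖K‖ ≤ 1 ∧ (∀ p ∈ l, (1 - p.1) * K * p.2 = 0) ∧
      ‖b - (lam : ℂ)⁻¹ • K a‖ ^ 2 ≤ η / lam ^ 2 := by
  classical
  obtain ⟨J, i1, i2, e, f, S, he, hf, hS1, hS2⟩ := klemma_dec KK hproj hc1 hc2 l hl
  have hpyc : ∀ (g : J → (H →L[ℂ] H)), (∀ j, IsStarProjection (g j)) →
      (∀ i j, i ≠ j → g i * g j = 0) → ∑ j, g j = 1 → ∀ (U : Finset J) (x : H),
      ‖(1 - ∑ j ∈ U, g j) x‖ ^ 2 = ∑ j ∈ Uᶜ, ‖g j x‖ ^ 2 := by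
    intro g hg1 hg2 hg3 U x
    have h1 : (1 : H →L[ℂ] H) - ∑ j ∈ U, g j = ∑ j ∈ Uᶜ, g j := by
      rw [← hg3, ← Finset.sum_add_sum_compl U]; abel
    rw [h1, _root_.sum_apply]
    exact klemma_pyth g hg1 hg2 (fun j => g j x) (fun j => klemma_idem (hg1 j) x) Uᶜ
  obtain ⟨π, hπ0, hπE, hπr, hπc, hπt⟩ := gale (I := J) (J := J)
    (fun σ σ' => ∀ p ∈ l, σ' ∈ S p → σ ∈ S p)
    (fun σ => lam ^ 2 * ‖e σ b‖ ^ 2) (fun σ' => ‖f σ' a‖ ^ 2)
    (fun _ => by positivity) (fun _ => by positivity) η (by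
      intro P
      obtain ⟨U, hU1, hU2⟩ := klemma_up KK h0 h1 hinf hsup e f he.proj he.orth hf.proj hf.orth
        he.sum hf.sum l hl S hS1 hS2 P.toFinset
      have h2 := h _ hU2
      simp only at h2
      rw [hpyc e he.proj he.orth he.sum, hpyc f hf.proj hf.orth hf.sum] at h2
      have h3 : ∑ j, Set.indicator {j | ∃ i ∈ P, ∀ p ∈ l, j ∈ S p → i ∈ S p}
          (fun σ' => ‖f σ' a‖ ^ 2) j = ∑ j ∈ Uᶜ, ‖f j a‖ ^ 2 := by
        refine klemma_ind _ _ (fun j => ?_) _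
        simp only [Set.mem_ofPred_eq, Finset.mem_compl, hU1, Set.mem_toFinset]
        push Not
        rfl
      have h4 : ∑ i, Set.indicator P (fun σ => lam ^ 2 * ‖e σ b‖ ^ 2) i
          ≤ lam ^ 2 * ∑ j ∈ Uᶜ, ‖e j b‖ ^ 2 := by
        rw [Finset.mul_sum]
        have h5 : ∑ i, Set.indicator P (fun σ => lam ^ 2 * ‖e σ b‖ ^ 2) i
            = ∑ i ∈ P.toFinset, lam ^ 2 * ‖e i b‖ ^ 2 :=
          klemma_ind _ _ (fun j => by simp) _
        rw [h5]
        refine Finset.sum_le_sum_of_subset_of_nonneg ?_ (fun _ _ _ => by positivity)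
        intro σ hσ
        rw [Finset.mem_compl, hU1]
        intro hh
        obtain ⟨p, hp, h6, h7⟩ := hh σ hσ
        exact h7 h6
      rw [h3]
      linarith)
  obtain ⟨c, hc0, hcn, hcb⟩ := klemma_core e f he.proj he.orth hf.proj hf.orth he.sum hf.sum a b
    lam η hlam π hπ0 hπr hπc hπt
  have hKx : ∀ x, (∑ i, ∑ j, ((c i j : ℝ) : ℂ) • (innerSL ℂ (f j a)).smulRight (e i b)) x
      = ∑ i, ((∑ j, (c i j : ℂ) * ⟪f j a, x⟫_ℂ)) • e i b := by
    intro x
    rw [_root_.sum_apply]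
    refine Finset.sum_congr rfl fun i _ => ?_
    rw [_root_.sum_apply, Finset.sum_smul]
    refine Finset.sum_congr rfl fun j _ => ?_
    rw [mul_smul]
    rfl
  refine ⟨∑ i, ∑ j, ((c i j : ℝ) : ℂ) • (innerSL ℂ (f j a)).smulRight (e i b), ?_, ?_, ?_⟩
  · refine ContinuousLinearMap.opNorm_le_bound _ zero_le_one fun x => ?_
    rw [hKx, one_mul]
    exact hcn x
  · intro p hp
    ext x
    show (1 - p.1) ((∑ i, ∑ j, ((c i j : ℝ) : ℂ) • (innerSL ℂ (f j a)).smulRight (e i b)) (p.2 x)) = 0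
    rw [hKx, map_sum]
    refine Finset.sum_eq_zero fun i _ => ?_
    rw [map_smul]
    by_cases hi : i ∈ S p
    · have h5 : p.1 (e i b) = e i b := by
        have h6 : p.1 * e i = e i := by
          rw [hS1 p hp, Finset.sum_mul, Finset.sum_eq_single i]
          · exact (he.proj i).isIdempotentElem
          · intro j _ hj; exact he.orth j i hj
          · intro hh; exact absurd hi hh
        have := congrArg (fun T : H →L[ℂ] H => T b) h6
        simpa using this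
      have h7 : (1 - p.1) (e i b) = 0 := by
        show e i b - p.1 (e i b) = 0
        rw [h5, sub_self]
      rw [h7, smul_zero]
    · have h8 : ∑ j, (c i j : ℂ) * ⟪f j a, p.2 x⟫_ℂ = 0 := by
        refine Finset.sum_eq_zero fun j _ => ?_
        by_cases hj : j ∈ S p
        · have : c i j = 0 := hc0 i j (hπE i j (fun hh => hi (hh p hp hj)))
          rw [this]; simp
        · have h9 : p.2 (f j a) = 0 := by
            have h6 : p.2 * f j = 0 := by
              rw [hS2 p hp, Finset.sum_mul]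
              refine Finset.sum_eq_zero fun k hk => hf.orth k j ?_
              rintro rfl; exact hj hk
            have := congrArg (fun T : H →L[ℂ] H => T a) h6
            simpa using this
          have h10 : ⟪p.2 (f j a), x⟫_ℂ = ⟪f j a, p.2 x⟫_ℂ :=
            (hproj p (hl p hp)).2.isSelfAdjoint.isSymmetric (f j a) x
          rw [← h10, h9]; simp
      rw [h8, zero_smul]
  · rw [hKx]; exact hcb

/- ================= TARGET ================= -/
/-- D -/
theorem klemma (KK : Set ((H →L[ℂ] H) × (H →L[ℂ] H)))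
    (hproj : ∀ p ∈ KK, IsStarProjection p.1 ∧ IsStarProjection p.2)
    (hc1 : ∀ p ∈ KK, ∀ q ∈ KK, p.1 * q.1 = q.1 * p.1)
    (hc2 : ∀ p ∈ KK, ∀ q ∈ KK, p.2 * q.2 = q.2 * p.2)
    (h0 : (0, 0) ∈ KK) (h1 : (1, 1) ∈ KK)
    (hinf : ∀ p ∈ KK, ∀ q ∈ KK, (p.1 * q.1, p.2 * q.2) ∈ KK)
    (hsup : ∀ p ∈ KK, ∀ q ∈ KK, (p.1 + q.1 - p.1 * q.1, p.2 + q.2 - p.2 * q.2) ∈ KK)
    (a b : H) (lam η : ℝ) (hlam : 0 < lam)
    (h : ∀ p ∈ KK, lam ^ 2 * ‖(1 - p.1) b‖ ^ 2 ≤ ‖(1 - p.2) a‖ ^ 2 + η) :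
    ∃ K : H →L[ℂ] H, ‖K‖ ≤ 1 ∧ (∀ p ∈ KK, (1 - p.1) * K * p.2 = 0) ∧
      ∃ b' : H, K a = (lam : ℂ) • b' ∧ ‖b - b'‖ ^ 2 ≤ η / lam ^ 2 := by
  classical
  have hη : 0 ≤ η := by
    have := h _ h1
    simpa using this
  have hη2 : 0 ≤ η / lam ^ 2 := by positivity
  have hlc : (lam : ℂ) ≠ 0 := by exact_mod_cast hlam.ne'
  have hF : ∀ F : Finset KK, ∃ K : H →L[ℂ] H, ‖K‖ ≤ 1 ∧
      (∀ p ∈ F, (1 - p.1.1) * K * p.1.2 = 0) ∧ ‖b - (lam : ℂ)⁻¹ • K a‖ ^ 2 ≤ η / lam ^ 2 := by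
    intro F
    obtain ⟨K, hK1, hK2, hK3⟩ := klemma_fin KK hproj hc1 hc2 h0 h1 hinf hsup a b lam η hlam h
      (F.toList.map Subtype.val) (by
        intro p hp
        obtain ⟨q, _, rfl⟩ := List.mem_map.mp hp
        exact q.2)
    refine ⟨K, hK1, ?_, hK3⟩
    intro p hp
    exact hK2 p.1 (List.mem_map.mpr ⟨p, Finset.mem_toList.mpr hp, rfl⟩)
  choose K hK1 hK2 hK3 using hF
  set 𝒰 : Ultrafilter (Finset KK) := Ultrafilter.of atTop with h𝒰
  have h𝒰le : (𝒰 : Filter (Finset KK)) ≤ atTop := Ultrafilter.of_le _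
  obtain ⟨K', hK'1, hK'2⟩ := exists_wot_limit 𝒰 K 1 hK1
  refine ⟨K', hK'1, ?_, (lam : ℂ)⁻¹ • K' a, ?_, ?_⟩
  · intro p hp
    ext x
    refine ext_inner_right ℂ fun y => ?_
    show ⟪(1 - p.1) (K' (p.2 x)), y⟫_ℂ = ⟪(0 : H), y⟫_ℂ
    rw [inner_zero_left]
    have hsym : ∀ z : H, ⟪(1 - p.1) z, y⟫_ℂ = ⟪z, (1 - p.1) y⟫_ℂ := fun z =>
      (hproj p hp).1.one_sub.isSelfAdjoint.isSymmetric z y
    rw [hsym]
    refine tendsto_nhds_unique (hK'2 (p.2 x) ((1 - p.1) y)) ?_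
    refine Tendsto.congr' ?_ tendsto_const_nhds
    have hev : ∀ᶠ F : Finset KK in atTop, (⟨p, hp⟩ : KK) ∈ F := by
      filter_upwards [Filter.eventually_ge_atTop ({⟨p, hp⟩} : Finset KK)] with F hF'
      exact hF' (Finset.mem_singleton_self _)
    filter_upwards [h𝒰le hev] with F hF'
    have h2 := hK2 F ⟨p, hp⟩ hF'
    have h3 := congrArg (fun T : H →L[ℂ] H => T x) h2
    have h4 : (1 - p.1) (K F (p.2 x)) = 0 := h3
    rw [← hsym, h4, inner_zero_left]
  · rw [smul_smul, mul_inv_cancel₀ hlc, one_smul]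
  · set z := b - (lam : ℂ)⁻¹ • K' a with hz
    have h2 : Tendsto (fun F => ⟪b - (lam : ℂ)⁻¹ • K F a, z⟫_ℂ) 𝒰 (𝓝 ⟪z, z⟫_ℂ) := by
      have h3 : ∀ T : H →L[ℂ] H, ⟪b - (lam : ℂ)⁻¹ • T a, z⟫_ℂ
          = ⟪b, z⟫_ℂ - (starRingEnd ℂ) ((lam : ℂ)⁻¹) * ⟪T a, z⟫_ℂ := by
        intro T
        rw [inner_sub_left, inner_smul_left]
      have h4 : ⟪z, z⟫_ℂ = ⟪b, z⟫_ℂ - (starRingEnd ℂ) ((lam : ℂ)⁻¹) * ⟪K' a, z⟫_ℂ := by
        rw [← h3 K']
      simp only [h3]
      rw [h4]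
      exact (tendsto_const_nhds).sub ((tendsto_const_nhds).mul (hK'2 a z))
    have h5 : ‖⟪z, z⟫_ℂ‖ ≤ √(η / lam ^ 2) * ‖z‖ := by
      refine le_of_tendsto h2.norm (Filter.Eventually.of_forall fun F => ?_)
      refine le_trans (norm_inner_le_norm _ _) ?_
      refine mul_le_mul_of_nonneg_right ?_ (norm_nonneg _)
      exact Real.le_sqrt_of_sq_le (hK3 F)
    have h6 : ‖⟪z, z⟫_ℂ‖ = ‖z‖ * ‖z‖ := by
      rw [inner_self_eq_norm_sq_to_K, norm_pow]
      simp [sq]
    rw [h6] at h5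
    rcases eq_or_lt_of_le (norm_nonneg z) with hz0 | hz0
    · rw [← hz0]; simpa using hη2
    · have h7 : ‖z‖ ≤ √(η / lam ^ 2) := le_of_mul_le_mul_right h5 hz0
      calc ‖z‖ ^ 2 ≤ √(η / lam ^ 2) ^ 2 := pow_le_pow_left₀ (norm_nonneg _) h7 2
        _ = η / lam ^ 2 := Real.sq_sqrt hη2

end Hop
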