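import Pool.Agent.Helper360.Hop.Defs

set_option maxHeartbeats 4000000

open scoped InnerProductSpace Topology ComplexConjugate
open Finset Filter

namespace Hop

variable {H : Type*} [NormedAddCommGroup H] [InnerProductSpace ℂ H] [CompleteSpace H]

theorem hopA0_prod (EE : Set (H →L[ℂ] H)) (hp : ∀ E ∈ EE, IsStarProjection E)
    (hc : ∀ E ∈ EE, ∀ F ∈ EE, E * F = F * E) (l : List (H →L[ℂ] H)) (hl : ∀ E ∈ l, E ∈ EE) :
    IsStarProjection (l.map (fun E => 1 - E)).prod ∧
      (∀ F ∈ EE, (l.map (fun E => 1 - E)).prod * F = F * (l.map (fun E => 1 - E)).prod) ∧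
      (∀ E ∈ l, (l.map (fun E => 1 - E)).prod * E = 0) ∧
      (∀ W : H →L[ℂ] H, (∀ E ∈ EE, E * W = 0) → (l.map (fun E => 1 - E)).prod * W = W) := by
  induction l with
  | nil =>
    refine ⟨?_, ?_, ?_, ?_⟩
    · simp only [List.map_nil, List.prod_nil]
      exact IsStarProjection.one _
    · intro F _
      simp
    · intro E hE
      simp at hE
    · intro W _
      simp
  | cons a l ih =>
    have haE : a ∈ EE := hl a (List.mem_cons_self ..)
    obtain ⟨h1, h2, h3, h4⟩ := ih (fun E hE => hl E (List.mem_cons_of_mem a hE))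
    rw [List.map_cons, List.prod_cons]
    have hcomm : (1 - a) * (l.map (fun E => 1 - E)).prod =
        (l.map (fun E => 1 - E)).prod * (1 - a) := by
      rw [sub_mul, mul_sub, one_mul, mul_one, h2 a haE]
    have ha : IsStarProjection (1 - a) := (hp a haE).one_sub
    refine ⟨?_, ?_, ?_, ?_⟩
    · refine ⟨?_, ?_⟩
      · show (1 - a) * (l.map (fun E => 1 - E)).prod * ((1 - a) * (l.map (fun E => 1 - E)).prod) =
          (1 - a) * (l.map (fun E => 1 - E)).prod
        calc (1 - a) * (l.map (fun E => 1 - E)).prod * ((1 - a) * (l.map (fun E => 1 - E)).prod)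
            = (1 - a) * ((l.map (fun E => 1 - E)).prod * (1 - a)) *
              (l.map (fun E => 1 - E)).prod := by noncomm_ring
          _ = (1 - a) * ((1 - a) * (l.map (fun E => 1 - E)).prod) *
              (l.map (fun E => 1 - E)).prod := by rw [hcomm]
          _ = ((1 - a) * (1 - a)) * ((l.map (fun E => 1 - E)).prod *
              (l.map (fun E => 1 - E)).prod) := by simp only [mul_assoc]
          _ = (1 - a) * (l.map (fun E => 1 - E)).prod := by
              rw [mul_self_proj ha, mul_self_proj h1]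
      · show star ((1 - a) * (l.map (fun E => 1 - E)).prod) = (1 - a) * (l.map (fun E => 1 - E)).prod
        rw [star_mul, star_proj ha, star_proj h1, hcomm]
    · intro F hF
      have e : (1 - a) * F = F * (1 - a) := by
        rw [sub_mul, mul_sub, one_mul, mul_one, hc a haE F hF]
      rw [mul_assoc, h2 F hF, ← mul_assoc, e, mul_assoc]
    · intro E hE
      rcases List.mem_cons.1 hE with h | h
      · rw [h, hcomm, mul_assoc, sub_mul, one_mul, mul_self_proj (hp a haE), sub_self, mul_zero]
      · rw [mul_assoc, h3 E h, mul_zero]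
    · intro W hW
      rw [mul_assoc, h4 W hW, sub_mul, one_mul, hW a haE, sub_zero]

/- ================= TARGET ================= -/
/-- general supremum of commuting projections -/
theorem exists_sup (EE : Set (H →L[ℂ] H)) (hp : ∀ E ∈ EE, IsStarProjection E)
    (hc : ∀ E ∈ EE, ∀ F ∈ EE, E * F = F * E) :
    ∃ U : H →L[ℂ] H, IsStarProjection U ∧ (∀ E ∈ EE, U * E = E) ∧
      (∀ x, (∀ E ∈ EE, E x = 0) → U x = 0) ∧
      (∀ S : H →L[ℂ] H, (∀ E ∈ EE, S * E = E * S) → S * U = U * S) ∧
      (∀ x : H, ∀ η > 0, ∃ l : List (H →L[ℂ] H), (∀ E ∈ l, E ∈ EE) ∧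
        ∀ l' : List (H →L[ℂ] H), (∀ E ∈ l', E ∈ EE) → l ⊆ l' → ‖U x - unionL l' x‖ < η) := by
  obtain ⟨V, hV⟩ : ∃ V : Submodule ℂ H, V = Submodule.span ℂ {y | ∃ E ∈ EE, ∃ w, y = E w} :=
    ⟨_, rfl⟩
  haveI hcs : CompleteSpace V.topologicalClosure :=
    (Submodule.isClosed_topologicalClosure V).completeSpace_coe
  obtain ⟨U, hU⟩ : ∃ U : H →L[ℂ] H, U = V.topologicalClosure.starProjection := ⟨_, rfl⟩
  have hUp : IsStarProjection U := by
    rw [hU]
    exact isStarProjection_starProjection
  have hUself : ∀ v, v ∈ V.topologicalClosure → U v = v := by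
    intro v hv
    rw [hU]
    exact Submodule.starProjection_eq_self_iff.2 hv
  have hUmem : ∀ v, U v ∈ V.topologicalClosure := by
    intro v
    rw [hU]
    exact Submodule.starProjection_apply_mem _ v
  have hEV : ∀ E ∈ EE, ∀ w, E w ∈ V := by
    intro E hE w
    rw [hV]
    exact Submodule.subset_span ⟨E, hE, w, rfl⟩
  have h1 : ∀ E ∈ EE, U * E = E := by
    intro E hE
    ext w
    exact hUself _ (V.le_topologicalClosure (hEV E hE w))
  have h1' : ∀ E ∈ EE, E * U = E := by
    intro E hE
    have h := congrArg star (h1 E hE)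
    rwa [star_mul, star_proj hUp, star_proj (hp E hE)] at h
  have h2 : ∀ x, (∀ E ∈ EE, E x = 0) → U x = 0 := by
    intro x hx
    rw [hU, Submodule.starProjection_apply_eq_zero_iff, Submodule.orthogonal_closure,
      Submodule.mem_orthogonal]
    intro u hu
    rw [hV] at hu
    induction hu using Submodule.span_induction with
    | mem y hy =>
      obtain ⟨E, hE, w, rfl⟩ := hy
      have h3 : ⟪E w, x⟫_ℂ = ⟪w, E x⟫_ℂ := by
        have h4 : ContinuousLinearMap.adjoint E = E := star_proj (hp E hE)
        conv_lhs => rw [← h4]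
        exact ContinuousLinearMap.adjoint_inner_left E x w
      rw [h3, hx E hE, inner_zero_right]
    | zero => exact inner_zero_left _
    | add y z _ _ hy hz => rw [inner_add_left, hy, hz, add_zero]
    | smul c y _ hy => rw [inner_smul_left, hy, mul_zero]
  have h3 : ∀ S : H →L[ℂ] H, (∀ E ∈ EE, S * E = E * S) → S * U = U * S := by
    intro S hS
    have hSV : ∀ v ∈ V, S v ∈ V := by
      intro v hv
      rw [hV] at hv
      induction hv using Submodule.span_induction with
      | mem y hy =>
        obtain ⟨E, hE, w, rfl⟩ := hy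
        have h4 : S (E w) = E (S w) := by
          have := congrArg (fun T : H →L[ℂ] H => T w) (hS E hE)
          exact this
        rw [h4]
        exact hEV E hE _
      | zero => rw [map_zero]; exact V.zero_mem
      | add y z _ _ hy hz => rw [map_add]; exact V.add_mem hy hz
      | smul c y _ hy => rw [map_smul]; exact V.smul_mem c hy
    have hSM : ∀ v ∈ V.topologicalClosure, S v ∈ V.topologicalClosure := by
      intro v hv
      have h4 : (V.topologicalClosure : Set H) = closure (V : Set H) :=
        Submodule.topologicalClosure_coe V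
      have h5 : v ∈ closure (V : Set H) := by rw [← h4]; exact hv
      have h6 : S v ∈ closure (V : Set H) :=
        map_mem_closure S.continuous h5 (fun y hy => hSV y hy)
      rw [← h4] at h6
      exact h6
    ext x
    show S (U x) = U (S x)
    have h4 : U (S (U x)) = S (U x) := hUself _ (hSM _ (hUmem x))
    have h5 : U (S (x - U x)) = 0 := by
      apply h2
      intro E hE
      have h6 : E (S (x - U x)) = S (E (x - U x)) := by
        have := congrArg (fun T : H →L[ℂ] H => T (x - U x)) (hS E hE)
        exact this.symm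
      have h7 : E (x - U x) = 0 := by
        rw [map_sub]
        have h8 : E (U x) = E x := by
          have := congrArg (fun T : H →L[ℂ] H => T x) (h1' E hE)
          exact this
        rw [h8, sub_self]
      rw [h6, h7, map_zero]
    rw [map_sub, map_sub, h4, sub_eq_zero] at h5
    exact h5.symm
  refine ⟨U, hUp, h1, h2, h3, ?_⟩
  intro x η hη
  have hz : ∀ z ∈ V, ∃ l : List (H →L[ℂ] H), (∀ E ∈ l, E ∈ EE) ∧
      ∀ l' : List (H →L[ℂ] H), (∀ E ∈ l', E ∈ EE) → l ⊆ l' →
        ((l'.map (fun E => 1 - E)).prod : H →L[ℂ] H) z = 0 := by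
    intro z hz
    rw [hV] at hz
    induction hz using Submodule.span_induction with
    | mem y hy =>
      obtain ⟨E, hE, w, rfl⟩ := hy
      refine ⟨[E], by simpa using hE, ?_⟩
      intro l' hl' hsub
      have h4 := (hopA0_prod EE hp hc l' hl').2.2.1 E (hsub (by simp))
      have := congrArg (fun T : H →L[ℂ] H => T w) h4
      exact this
    | zero => exact ⟨[], by simp, fun l' _ _ => map_zero _⟩
    | add y z _ _ hy hz =>
      obtain ⟨l1, a1, b1⟩ := hy
      obtain ⟨l2, a2, b2⟩ := hz
      refine ⟨l1 ++ l2, ?_, ?_⟩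
      · intro E hE
        rcases List.mem_append.1 hE with h | h
        · exact a1 E h
        · exact a2 E h
      · intro l' hl' hsub
        rw [map_add, b1 l' hl' (fun E hE => hsub (List.mem_append_left _ hE)),
          b2 l' hl' (fun E hE => hsub (List.mem_append_right _ hE)), add_zero]
    | smul c y _ hy =>
      obtain ⟨l1, a1, b1⟩ := hy
      refine ⟨l1, a1, ?_⟩
      intro l' hl' hsub
      rw [map_smul, b1 l' hl' hsub, smul_zero]
  have h4 : U x ∈ closure (V : Set H) := by
    have h5 : (V.topologicalClosure : Set H) = closure (V : Set H) :=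
      Submodule.topologicalClosure_coe V
    rw [← h5]
    exact hUmem x
  obtain ⟨z, hzV, hzd⟩ := Metric.mem_closure_iff.1 h4 η hη
  obtain ⟨l, hl1, hl2⟩ := hz z hzV
  refine ⟨l, hl1, ?_⟩
  intro l' hl' hsub
  obtain ⟨p1, p2, p3, p4⟩ := hopA0_prod EE hp hc l' hl'
  have hW : ((l'.map (fun E => 1 - E)).prod : H →L[ℂ] H) * (1 - U) = 1 - U := by
    apply p4
    intro E hE
    rw [mul_sub, mul_one, h1' E hE, sub_self]
  have h5 : U x - unionL l' x = ((l'.map (fun E => 1 - E)).prod : H →L[ℂ] H) (U x - z) := by
    have h6 : ((l'.map (fun E => 1 - E)).prod : H →L[ℂ] H) (x - U x) = x - U x := by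
      have := congrArg (fun T : H →L[ℂ] H => T x) hW
      exact this
    rw [map_sub, hl2 l' hl' hsub, sub_zero]
    show U x - (x - ((l'.map (fun E => 1 - E)).prod : H →L[ℂ] H) x) = _
    rw [map_sub] at h6
    have h7 : ((l'.map (fun E => 1 - E)).prod : H →L[ℂ] H) x - (x - U x) =
        ((l'.map (fun E => 1 - E)).prod : H →L[ℂ] H) (U x) := by
      rw [← h6]
      abel
    rw [← h7]
    abel
  rw [h5]
  calc ‖((l'.map (fun E => 1 - E)).prod : H →L[ℂ] H) (U x - z)‖
      ≤ ‖((l'.map (fun E => 1 - E)).prod : H →L[ℂ] H)‖ * ‖U x - z‖ := ContinuousLinearMap.le_opNorm _ _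
    _ ≤ 1 * ‖U x - z‖ := mul_le_mul_of_nonneg_right p1.norm_le (norm_nonneg _)
    _ = dist (U x) z := by rw [one_mul, dist_eq_norm]
    _ < η := hzd

end Hop
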