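import Pool.Agent.Helper360.Hop.Defs
import Pool.Agent.Helper360.Hop.Sup
set_option maxHeartbeats 4000000

open scoped InnerProductSpace Topology ComplexConjugate
open Finset Filter

namespace Hop

variable {H : Type*} [NormedAddCommGroup H] [InnerProductSpace ℂ H] [CompleteSpace H]

theorem a1_unionL_cons (E : H →L[ℂ] H) (l : List (H →L[ℂ] H)) :
    unionL (E :: l) = E + unionL l - E * unionL l := by
  unfold unionL
  rw [List.map_cons, List.prod_cons]
  noncomm_ring

theorem a1_unionL_mem (L : CSL H) (l : List (H →L[ℂ] H)) (hl : ∀ E ∈ l, E ∈ L.carrier) :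
    unionL l ∈ L.carrier := by
  induction l with
  | nil =>
    have : unionL ([] : List (H →L[ℂ] H)) = 0 := by simp [unionL]
    rw [this]
    exact L.zero_mem
  | cons E l ih =>
    rw [a1_unionL_cons]
    exact L.sup_mem _ (hl E List.mem_cons_self) _
      (ih fun F hF => hl F (List.mem_cons_of_mem _ hF))

theorem a1_prod_mem (L : CSL H) (l : List (H →L[ℂ] H)) (hl : ∀ E ∈ l, 1 - E ∈ L.carrier) :
    (l.map (fun E => 1 - E)).prod ∈ L.carrier := by
  induction l with
  | nil => simpa using L.one_mem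
  | cons E l ih =>
    rw [List.map_cons, List.prod_cons]
    exact L.inf_mem _ (hl E List.mem_cons_self) _
      (ih fun F hF => hl F (List.mem_cons_of_mem _ hF))

/- ================= TARGET ================= -/
/-- A1 -/
theorem CSL.exists_sup (L : CSL H) (S : Set (H →L[ℂ] H)) (hS : S ⊆ L.carrier) :
    ∃ D ∈ L.carrier, (∀ P ∈ S, D * P = P) ∧ (∀ x, (∀ P ∈ S, P x = 0) → D x = 0) := by
  obtain ⟨U, hU, h1, h2, -, h4⟩ := _root_.Hop.exists_sup S (fun E hE => L.proj E (hS hE))
    (fun E hE F hF => L.comm E (hS hE) F (hS hF))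
  refine ⟨U, ?_, h1, h2⟩
  apply L.sot_closed
  intro s ε hε
  choose l hl hl2 using fun x : H => h4 x ε hε
  refine ⟨unionL (s.toList.flatMap l), ?_, ?_⟩
  · apply a1_unionL_mem
    intro E hE
    obtain ⟨x, -, hx⟩ := List.mem_flatMap.1 hE
    exact hS (hl x E hx)
  · intro x hx
    apply hl2 x
    · intro E hE
      obtain ⟨y, -, hy⟩ := List.mem_flatMap.1 hE
      exact hl y E hy
    · intro E hE
      exact List.mem_flatMap.2 ⟨x, Finset.mem_toList.2 hx, hE⟩

theorem CSL.exists_inf (L : CSL H) (S : Set (H →L[ℂ] H)) (hS : S ⊆ L.carrier) :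
    ∃ D ∈ L.carrier, (∀ P ∈ S, P * D = D) ∧ (∀ x, (∀ P ∈ S, P x = x) → D x = x) := by
  obtain ⟨U, hU, h1, h2, -, h4⟩ := _root_.Hop.exists_sup {E | ∃ P ∈ S, E = 1 - P}
    (by
      rintro E ⟨P, hP, rfl⟩
      exact (L.proj P (hS hP)).one_sub)
    (by
      rintro E ⟨P, hP, rfl⟩ F ⟨Q, hQ, rfl⟩
      have := L.comm P (hS hP) Q (hS hQ)
      calc (1 - P) * (1 - Q) = 1 - P - Q + P * Q := by noncomm_ring
        _ = 1 - P - Q + Q * P := by rw [this]
        _ = (1 - Q) * (1 - P) := by noncomm_ring)
  refine ⟨1 - U, ?_, ?_, ?_⟩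
  · apply L.sot_closed
    intro s ε hε
    choose l hl hl2 using fun x : H => h4 x ε hε
    refine ⟨((s.toList.flatMap l).map (fun E => 1 - E)).prod, ?_, ?_⟩
    · apply a1_prod_mem
      intro E hE
      obtain ⟨x, -, hx⟩ := List.mem_flatMap.1 hE
      obtain ⟨P, hP, rfl⟩ := hl x E hx
      rw [sub_sub_cancel]
      exact hS hP
    · intro x hx
      have h5 := hl2 x (s.toList.flatMap l) (by
        intro E hE
        obtain ⟨y, -, hy⟩ := List.mem_flatMap.1 hE
        exact hl y E hy) (by
        intro E hE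
        exact List.mem_flatMap.2 ⟨x, Finset.mem_toList.2 hx, hE⟩)
      have h6 : unionL (s.toList.flatMap l) =
        1 - ((s.toList.flatMap l).map (fun E => 1 - E)).prod := rfl
      have h7 : ((s.toList.flatMap l).map (fun E => 1 - E)).prod =
        1 - unionL (s.toList.flatMap l) := by rw [h6, sub_sub_cancel]
      rw [h7]
      have h8 : (1 - U) x - (1 - unionL (s.toList.flatMap l)) x =
          -(U x - unionL (s.toList.flatMap l) x) := by
        simp only [ContinuousLinearMap.sub_apply, ContinuousLinearMap.one_apply]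
        abel
      rw [h8, norm_neg]
      exact h5
  · intro P hP
    have h5 := h1 (1 - P) ⟨P, hP, rfl⟩
    have h6 := congrArg star h5
    rw [star_mul, star_sub, star_one, star_proj hU, star_proj (L.proj P (hS hP))] at h6
    have h7 : P * (1 - U) = P + (1 - P) * U - U := by noncomm_ring
    rw [h7, h6]
    noncomm_ring
  · intro x hx
    have h5 : U x = 0 := by
      apply h2
      rintro E ⟨P, hP, rfl⟩
      rw [ContinuousLinearMap.sub_apply, ContinuousLinearMap.one_apply, hx P hP, sub_self]
    rw [ContinuousLinearMap.sub_apply, ContinuousLinearMap.one_apply, h5, sub_zero]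

end Hop
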