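import Pool.Agent.Helper360.Hop.Defs
import Pool.Agent.Helper360.Hop.Klemma
import Pool.Agent.Helper360.Hop.SupCSL
set_option maxHeartbeats 4000000

open scoped InnerProductSpace Topology ComplexConjugate
open Finset Filter

namespace Hop

variable {H : Type*} [NormedAddCommGroup H] [InnerProductSpace ℂ H] [CompleteSpace H]

/- ================= TARGET ================= -/
theorem A2_mul (S T : H →L[ℂ] H) (x : H) : (S * T) x = S (T x) := rfl

theorem A2_sub (S T : H →L[ℂ] H) (x : H) : (S - T) x = S x - T x := rfl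

theorem A2_add (S T : H →L[ℂ] H) (x : H) : (S + T) x = S x + T x := rfl

theorem A2_one (x : H) : (1 : H →L[ℂ] H) x = x := rfl

theorem A2_zero (x : H) : (0 : H →L[ℂ] H) x = 0 := rfl

theorem A2_sym {D : H →L[ℂ] H} (hD : IsStarProjection D) (x y : H) :
    ⟪D x, y⟫_ℂ = ⟪x, D y⟫_ℂ := hD.isSelfAdjoint.isSymmetric x y

theorem A2_pyth {D : H →L[ℂ] H} (hD : IsStarProjection D) (x : H) :
    ‖x‖ ^ 2 = ‖D x‖ ^ 2 + ‖(1 - D) x‖ ^ 2 := by
  have h0 : D (D x) = D x := by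
    have := congrArg (fun T : H →L[ℂ] H => T x) (mul_self_proj hD)
    simpa using this
  have h1 : ⟪D x, (1 - D) x⟫_ℂ = 0 := by
    rw [A2_sym hD]
    have h2 : D ((1 - D) x) = 0 := by
      rw [A2_sub, A2_one, map_sub, h0, sub_self]
    rw [h2, inner_zero_right]
  have h2 : x = D x + (1 - D) x := by
    rw [A2_sub, A2_one]; abel
  have h3 := norm_add_sq (𝕜 := ℂ) (D x) ((1 - D) x)
  rw [← h2, h1] at h3
  simpa using h3

theorem A2_norm_le {D : H →L[ℂ] H} (hD : IsStarProjection D) (x : H) : ‖D x‖ ≤ ‖x‖ := by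
  have h := A2_pyth hD x
  have h2 : ‖D x‖ ^ 2 ≤ ‖x‖ ^ 2 := by rw [h]; linarith [sq_nonneg ‖(1 - D) x‖]
  exact le_of_sq_le_sq h2 (norm_nonneg _)

theorem A2_norm_le' {D : H →L[ℂ] H} (hD : IsStarProjection D) (x : H) : ‖(1 - D) x‖ ≤ ‖x‖ := by
  have h := A2_pyth hD x
  have h2 : ‖(1 - D) x‖ ^ 2 ≤ ‖x‖ ^ 2 := by rw [h]; linarith [sq_nonneg ‖D x‖]
  exact le_of_sq_le_sq h2 (norm_nonneg _)

theorem A2_key (L : CSL H) (P : H →L[ℂ] H) (hP : IsStarProjection P)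
    (hinv : ∀ S ∈ AlgL L, (1 - P) * S * P = 0) {ξ ζ : H} (hξ : P ξ = ξ) (hζ : P ζ = 0)
    {m : ℝ} (hm : 0 < m) : ∃ D ∈ L.carrier, ‖(1 - D) ξ‖ ^ 2 + ‖D ζ‖ ^ 2 < m := by
  by_contra hcon
  push Not at hcon
  obtain ⟨K, _, hK2, b', hb1, hb2⟩ := klemma {p : (H →L[ℂ] H) × (H →L[ℂ] H) |
      p.1 ∈ L.carrier ∧ p.2 = p.1}
    (by rintro ⟨a, b⟩ ⟨h1, h2⟩; simp only at h1 h2; subst h2; exact ⟨L.proj _ h1, L.proj _ h1⟩)
    (by rintro ⟨a, b⟩ ⟨h1, h2⟩ ⟨a', b'⟩ ⟨h1', h2'⟩; exact L.comm _ h1 _ h1')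
    (by
      rintro ⟨a, b⟩ ⟨h1, h2⟩ ⟨a', b'⟩ ⟨h1', h2'⟩
      simp only at h1 h2 h1' h2' ⊢
      subst h2 h2'
      exact L.comm _ h1 _ h1')
    ⟨L.zero_mem, rfl⟩ ⟨L.one_mem, rfl⟩
    (by
      rintro ⟨a, b⟩ ⟨h1, h2⟩ ⟨a', b'⟩ ⟨h1', h2'⟩
      simp only at h1 h2 h1' h2' ⊢
      subst h2 h2'
      exact ⟨L.inf_mem _ h1 _ h1', rfl⟩)
    (by
      rintro ⟨a, b⟩ ⟨h1, h2⟩ ⟨a', b'⟩ ⟨h1', h2'⟩
      simp only at h1 h2 h1' h2' ⊢
      subst h2 h2'
      exact ⟨L.sup_mem _ h1 _ h1', rfl⟩)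
    ξ ζ 1 (‖ζ‖ ^ 2 - m) one_pos (by
      rintro ⟨a, b⟩ ⟨h1, h2⟩
      simp only at h1 h2 ⊢
      subst h2
      have h3 := hcon _ h1
      have h4 := A2_pyth (L.proj _ h1) ζ
      linarith)
  have hKA : K ∈ AlgL L := fun Q hQ => hK2 (Q, Q) ⟨hQ, rfl⟩
  have h1 := hinv K hKA
  rw [Complex.ofReal_one, one_smul] at hb1
  have h2 : P b' = b' := by
    have h3 := congrArg (fun T : H →L[ℂ] H => T ξ) h1
    simp only [A2_mul, A2_sub,
      A2_one, A2_zero, hξ, hb1] at h3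
    exact (sub_eq_zero.1 h3).symm
  have h3 : ⟪ζ, b'⟫_ℂ = 0 := by
    rw [← h2, ← A2_sym hP, hζ, inner_zero_left]
  have h4 := norm_sub_sq (𝕜 := ℂ) ζ b'
  rw [h3] at h4
  simp only [map_zero, mul_zero, sub_zero] at h4
  rw [one_pow, div_one, h4] at hb2
  have := sq_nonneg ‖b'‖
  linarith

/-- iterated unions -/
noncomputable def A2_un (D : ℕ → (H →L[ℂ] H)) : ℕ → (H →L[ℂ] H)
  | 0 => D 0
  | N + 1 => A2_un D N + D (N + 1) - A2_un D N * D (N + 1)

theorem A2_un_mem (L : CSL H) {D : ℕ → (H →L[ℂ] H)} (hD : ∀ k, D k ∈ L.carrier) (N : ℕ) :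
    A2_un D N ∈ L.carrier := by
  induction N with
  | zero => exact hD 0
  | succ N ih => exact L.sup_mem _ ih _ (hD _)

theorem A2_mul_un (L : CSL H) {D : ℕ → (H →L[ℂ] H)} (hD : ∀ k, D k ∈ L.carrier) {j N : ℕ}
    (hj : j ≤ N) : D j * A2_un D N = D j := by
  induction N, hj using Nat.le_induction with
  | base =>
    cases j with
    | zero => exact mul_self_proj (L.proj _ (hD 0))
    | succ j =>
      have h1 := L.comm _ (hD (j + 1)) _ (A2_un_mem L hD j)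
      have h2 := mul_self_proj (L.proj _ (hD (j + 1)))
      calc D (j + 1) * A2_un D (j + 1) = D (j + 1) * A2_un D j + D (j + 1) * D (j + 1) -
            D (j + 1) * A2_un D j * D (j + 1) := by
            rw [A2_un]; noncomm_ring
        _ = A2_un D j * D (j + 1) + D (j + 1) - A2_un D j * (D (j + 1) * D (j + 1)) := by
            rw [h1, h2, mul_assoc, h2]
        _ = D (j + 1) := by rw [h2]; abel
  | succ N _ ih =>
    calc D j * A2_un D (N + 1) = D j * A2_un D N + D j * D (N + 1) -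
          D j * A2_un D N * D (N + 1) := by
          rw [A2_un]; noncomm_ring
      _ = D j := by rw [ih]; abel

theorem A2_sup_bound (L : CSL H) {D : ℕ → (H →L[ℂ] H)} (hD : ∀ k, D k ∈ L.carrier) {ζ : H}
    {C : ℝ} (hC : ∀ k, ‖D k ζ‖ ≤ C * (1 / 2) ^ k) {E : H →L[ℂ] H} (hE : E ∈ L.carrier)
    (hE2 : ∀ x, (∀ k, D k x = 0) → E x = 0) : ‖E ζ‖ ≤ 3 * C := by
  have hC0 : 0 ≤ C := by
    have := hC 0
    rw [pow_zero, mul_one] at this
    exact (norm_nonneg _).trans this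
  have hstep : ∀ N, dist (A2_un D N ζ) (A2_un D (N + 1) ζ) ≤ C * (1 / 2) ^ N := by
    intro N
    have h1 : A2_un D (N + 1) ζ - A2_un D N ζ = (1 - A2_un D N) (D (N + 1) ζ) := by
      rw [A2_un]
      simp only [A2_sub, A2_add,
        A2_mul, A2_one]
      abel
    rw [dist_comm, dist_eq_norm, h1]
    refine (A2_norm_le' (L.proj _ (A2_un_mem L hD N)) _).trans ((hC _).trans ?_)
    rw [pow_succ]
    have : (0 : ℝ) ≤ (1 / 2) ^ N := by positivity
    have h2 : (1 / 2 : ℝ) ^ N * (1 / 2) ≤ (1 / 2) ^ N := by linarith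
    exact mul_le_mul_of_nonneg_left h2 hC0
  have hcs := cauchySeq_of_le_geometric (1 / 2) C (by norm_num) hstep
  obtain ⟨y, hy⟩ := cauchySeq_tendsto_of_complete hcs
  have h0 := dist_le_of_le_geometric_of_tendsto₀ (1 / 2) C (by norm_num) hstep hy
  have hDy : ∀ j, D j y = D j ζ := by
    intro j
    have h1 : Tendsto (fun N => D j (A2_un D N ζ)) atTop (𝓝 (D j y)) :=
      ((D j).continuous.tendsto y).comp hy
    have h2 : Tendsto (fun N => D j (A2_un D N ζ)) atTop (𝓝 (D j ζ)) := by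
      apply tendsto_const_nhds.congr'
      filter_upwards [eventually_ge_atTop j] with N hN
      have h3 := congrArg (fun T : H →L[ℂ] H => T ζ) (A2_mul_un L hD hN)
      simpa using h3.symm
    exact tendsto_nhds_unique h1 h2
  have h3 : E ζ = E y := by
    have := hE2 (ζ - y) (fun k => by rw [map_sub, hDy, sub_self])
    rw [map_sub] at this
    exact sub_eq_zero.1 this
  rw [h3]
  refine (A2_norm_le (L.proj _ hE) y).trans ?_
  have h4 : ‖y‖ ≤ ‖A2_un D 0 ζ‖ + dist (A2_un D 0 ζ) y := by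
    rw [dist_comm, dist_eq_norm]
    have := norm_add_le (A2_un D 0 ζ) (y - A2_un D 0 ζ)
    rwa [add_sub_cancel] at this
  have h5 : ‖A2_un D 0 ζ‖ ≤ C := by
    have := hC 0
    rw [pow_zero, mul_one] at this
    exact this
  have h6 : C / (1 - 1 / 2) = 2 * C := by ring
  rw [h6] at h0
  linarith

theorem A2_sep (L : CSL H) (P : H →L[ℂ] H) (hP : IsStarProjection P)
    (hinv : ∀ S ∈ AlgL L, (1 - P) * S * P = 0) {ξ ζ : H} (hξ : P ξ = ξ) (hζ : P ζ = 0) :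
    ∃ D ∈ L.carrier, D ξ = ξ ∧ D ζ = 0 := by
  have h1 : ∀ n : ℕ, ∃ D ∈ L.carrier, ‖(1 - D) ξ‖ ≤ (1 / 2) ^ n ∧ ‖D ζ‖ ≤ (1 / 2) ^ n := by
    intro n
    obtain ⟨D, hD, hlt⟩ := A2_key L P hP hinv hξ hζ (m := ((1 / 2) ^ n) ^ 2) (by positivity)
    have h2 := sq_nonneg ‖(1 - D) ξ‖
    have h3 := sq_nonneg ‖D ζ‖
    exact ⟨D, hD, le_of_sq_le_sq (by linarith) (by positivity),
      le_of_sq_le_sq (by linarith) (by positivity)⟩
  choose D hD hD1 hD2 using h1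
  have h2 : ∀ n : ℕ, ∃ E ∈ L.carrier, E ξ = ξ ∧ ‖E ζ‖ ≤ 3 * (1 / 2) ^ n := by
    intro n
    obtain ⟨E, hE, hE1, hE2⟩ := L.exists_sup (Set.range fun k => D (n + k))
      (by rintro _ ⟨k, rfl⟩; exact hD _)
    refine ⟨E, hE, ?_, ?_⟩
    · have h3 : ∀ k, ‖(1 - E) ξ‖ ≤ (1 / 2) ^ (n + k) := by
        intro k
        have h4 : (1 - E) = (1 - E) * (1 - D (n + k)) := by
          have := hE1 _ ⟨k, rfl⟩
          simp only at this
          calc (1 - E) = 1 - E - D (n + k) + D (n + k) := by abel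
            _ = 1 - E - D (n + k) + E * D (n + k) := by rw [this]
            _ = (1 - E) * (1 - D (n + k)) := by noncomm_ring
        rw [h4, A2_mul]
        exact (A2_norm_le' (L.proj _ hE) _).trans (hD1 _)
      have h5 : Tendsto (fun k : ℕ => (1 / 2 : ℝ) ^ (n + k)) atTop (𝓝 0) := by
        have := (tendsto_pow_atTop_nhds_zero_of_lt_one (r := (1 / 2 : ℝ)) (by norm_num)
          (by norm_num)).const_mul ((1 / 2 : ℝ) ^ n)
        rw [mul_zero] at this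
        exact this.congr fun k => by rw [pow_add]
      have h6 : ‖(1 - E) ξ‖ ≤ 0 := ge_of_tendsto' h5 h3
      have h7 := norm_le_zero_iff.1 h6
      rw [A2_sub, A2_one] at h7
      exact (sub_eq_zero.1 h7).symm
    · apply A2_sup_bound L (D := fun k => D (n + k)) (fun k => hD _) _ hE
      · intro x hx
        exact hE2 x (by rintro _ ⟨k, rfl⟩; exact hx k)
      · intro k
        have := hD2 (n + k)
        rwa [pow_add] at this
  choose E hE hE1 hE2 using h2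
  obtain ⟨D', hD', hD'1, hD'2⟩ := L.exists_inf (Set.range E) (by rintro _ ⟨k, rfl⟩; exact hE _)
  refine ⟨D', hD', hD'2 ξ (by rintro _ ⟨k, rfl⟩; exact hE1 k), ?_⟩
  have h3 : ∀ n, ‖D' ζ‖ ≤ 3 * (1 / 2) ^ n := by
    intro n
    have h4 : D' = D' * E n := by
      rw [L.comm _ hD' _ (hE n)]
      exact (hD'1 _ ⟨n, rfl⟩).symm
    have h5 : D' ζ = D' (E n ζ) := by
      conv_lhs => rw [h4]
      rfl
    rw [h5]
    exact (A2_norm_le (L.proj _ hD') _).trans (hE2 n)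
  have h5 : Tendsto (fun n : ℕ => 3 * (1 / 2 : ℝ) ^ n) atTop (𝓝 0) := by
    have := (tendsto_pow_atTop_nhds_zero_of_lt_one (r := (1 / 2 : ℝ)) (by norm_num)
      (by norm_num)).const_mul (3 : ℝ)
    rwa [mul_zero] at this
  exact norm_le_zero_iff.1 (ge_of_tendsto' h5 h3)

/-- A2 -/
theorem reflexive (L : CSL H) (P : H →L[ℂ] H) (hP : IsStarProjection P)
    (hinv : ∀ S ∈ AlgL L, (1 - P) * S * P = 0) : P ∈ L.carrier := by
  have hPP : ∀ x, P (P x) = P x := fun x => by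
    have := congrArg (fun T : H →L[ℂ] H => T x) (mul_self_proj hP)
    simpa using this
  -- for every `ξ` in the range there is a member below `P` fixing `ξ`
  have h1 : ∀ ξ, P ξ = ξ → ∃ D ∈ L.carrier, D * P = D ∧ D ξ = ξ := by
    intro ξ hξ
    obtain ⟨D, hD, hD1, hD2⟩ := L.exists_inf {D | D ∈ L.carrier ∧ D ξ = ξ} (fun D hD => hD.1)
    refine ⟨D, hD, ?_, hD2 ξ (fun Q hQ => hQ.2)⟩
    ext x
    rw [A2_mul]
    have h2 : P (x - P x) = 0 := by rw [map_sub, hPP, sub_self]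
    obtain ⟨Q, hQ, hQ1, hQ2⟩ := A2_sep L P hP hinv hξ h2
    have h3 := hD1 Q ⟨hQ, hQ1⟩
    rw [← L.comm _ hD _ hQ] at h3
    have h4 : D (x - P x) = 0 := by
      have h5 := congrArg (fun T : H →L[ℂ] H => T (x - P x)) h3
      simp only [A2_mul, hQ2, map_zero] at h5
      exact h5.symm
    rw [map_sub] at h4
    exact (sub_eq_zero.1 h4).symm
  obtain ⟨D, hD, hD1, hD2⟩ := L.exists_sup {D | D ∈ L.carrier ∧ D * P = D} (fun D hD => hD.1)
  have h2 : D = P := by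
    ext x
    have h3 : D (x - P x) = 0 := by
      apply hD2
      intro Q hQ
      have h4 := congrArg (fun T : H →L[ℂ] H => T x) hQ.2
      simp only [A2_mul] at h4
      rw [map_sub, h4, sub_self]
    rw [map_sub] at h3
    rw [sub_eq_zero.1 h3]
    obtain ⟨Q, hQ, hQ1, hQ2⟩ := h1 (P x) (hPP x)
    have h5 := congrArg (fun T : H →L[ℂ] H => T (P x)) (hD1 Q ⟨hQ, hQ1⟩)
    simp only [A2_mul, hQ2] at h5
    exact h5
  rw [← h2]
  exact hD

end Hop
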