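import Pool.Agent.Helper360.Hop.Defs
import Pool.Agent.Helper360.Hop.Refl
set_option maxHeartbeats 4000000

open scoped InnerProductSpace Topology ComplexConjugate
open Finset Filter

namespace Hop

variable {H : Type*} [NormedAddCommGroup H] [InnerProductSpace ℂ H] [CompleteSpace H]

/-- auxiliary closed subspace -/
noncomputable def M4b_M (X : Set (H →L[ℂ] H)) (Q : H →L[ℂ] H) : Submodule ℂ H :=
  (Submodule.span ℂ {z | ∃ R ∈ X, ∃ y, z = R (Q y)}).topologicalClosure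

theorem M4b_le (X : Set (H →L[ℂ] H)) (Q : H →L[ℂ] H) (t : Submodule ℂ H) (ht : IsClosed (t : Set H))
    (h : ∀ R ∈ X, ∀ y, R (Q y) ∈ t) : M4b_M X Q ≤ t := by
  refine Submodule.topologicalClosure_minimal _ ?_ ht
  rw [Submodule.span_le]
  rintro z ⟨R, hR, y, rfl⟩
  exact h R hR y

theorem M4b_mem (X : Set (H →L[ℂ] H)) (Q : H →L[ℂ] H) (R : H →L[ℂ] H) (hR : R ∈ X) (y : H) :
    R (Q y) ∈ M4b_M X Q :=
  Submodule.le_topologicalClosure _ (Submodule.subset_span ⟨R, hR, y, rfl⟩)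

instance M4b_inst (X : Set (H →L[ℂ] H)) (Q : H →L[ℂ] H) : (M4b_M X Q).HasOrthogonalProjection := by
  unfold M4b_M; infer_instance

noncomputable def M4b_P (X : Set (H →L[ℂ] H)) (Q : H →L[ℂ] H) : H →L[ℂ] H :=
  (M4b_M X Q).starProjection

theorem M4b_proj (X : Set (H →L[ℂ] H)) (Q : H →L[ℂ] H) : IsStarProjection (M4b_P X Q) :=
  isStarProjection_starProjection

theorem M4b_P_mem (X : Set (H →L[ℂ] H)) (Q : H →L[ℂ] H) (x : H) : M4b_P X Q x ∈ M4b_M X Q :=
  Submodule.starProjection_apply_mem _ x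

theorem M4b_P_fix (X : Set (H →L[ℂ] H)) (Q : H →L[ℂ] H) (x : H) (hx : x ∈ M4b_M X Q) :
    M4b_P X Q x = x := Submodule.starProjection_eq_self_iff.2 hx

theorem M4b_kill (X : Set (H →L[ℂ] H)) (Q b : H →L[ℂ] H) (h : ∀ R ∈ X, b * R * Q = 0) :
    b * M4b_P X Q = 0 := by
  have hle : M4b_M X Q ≤ LinearMap.ker (b : H →ₗ[ℂ] H) := by
    refine M4b_le X Q _ ?_ fun R hR y => ?_
    · exact isClosed_singleton.preimage b.continuous
    · have h1 := congrArg (fun T : H →L[ℂ] H => T y) (h R hR)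
      exact h1
  ext x
  exact hle (M4b_P_mem X Q x)

theorem M4b_fixR (X : Set (H →L[ℂ] H)) (Q R : H →L[ℂ] H) (hR : R ∈ X) :
    M4b_P X Q * R * Q = R * Q := by
  ext x
  exact M4b_P_fix X Q _ (M4b_mem X Q R hR x)

theorem M4b_inv (X : Set (H →L[ℂ] H)) (Q S : H →L[ℂ] H) (hS : ∀ R ∈ X, S * R ∈ X) :
    (1 - M4b_P X Q) * S * M4b_P X Q = 0 := by
  refine M4b_kill X Q _ fun R hR => ?_
  have h1 := M4b_fixR X Q (S * R) (hS R hR)
  calc (1 - M4b_P X Q) * S * R * Q = S * R * Q - M4b_P X Q * (S * R) * Q := by noncomm_ring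
    _ = 0 := by rw [h1, sub_self]

theorem M4b_comm_proj (L : CSL H) (Q : H →L[ℂ] H) (hQB : Q ∈ BiComL L) (P : H →L[ℂ] H)
    (hP : P ∈ L.carrier) : P * Q = Q * P := hQB P (carrier_sub_ComL L hP)

theorem M4b_key (L : CSL H) (Q : H →L[ℂ] H) (hQ : IsStarProjection Q)
    (hQB : Q ∈ BiComL L) (hA : Anti L Q) (T : H →L[ℂ] H) (hT : T ∈ AlgL L) :
    M4b_P (AlgL L) Q ∈ L.carrier ∧ M4b_P (AlgL L) Q * Q = Q ∧
      Q * T * (1 - Q) * M4b_P (AlgL L) Q = 0 := by
  have hQQ := mul_self_proj hQ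
  have hQA : Q ∈ AlgL L := ComL_sub_AlgL L (BiComL_sub_ComL L hQB)
  have h1Q : (1 - Q) ∈ AlgL L := AlgL_sub L (AlgL_one L) hQA
  set D := M4b_P (AlgL L) Q with hD
  have hDL : D ∈ L.carrier := by
    refine reflexive L D (M4b_proj _ _) fun S hS => ?_
    exact M4b_inv (AlgL L) Q S fun R hR => AlgL_mul L hS hR
  have hDQ : D * Q = Q := by
    have := M4b_fixR (AlgL L) Q 1 (AlgL_one L)
    rwa [mul_one, one_mul] at this
  refine ⟨hDL, hDQ, ?_⟩
  set a := Q * T * (1 - Q) with ha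
  have haA : a ∈ AlgL L := AlgL_mul L (AlgL_mul L hQA hT) h1Q
  have h2 : ∀ P ∈ L.carrier, P * a * (1 - P) * D = 0 := by
    intro P hP
    refine M4b_kill (AlgL L) Q _ fun R hR => ?_
    have hPA : (1 - P) ∈ AlgL L :=
      AlgL_sub L (AlgL_one L) (ComL_sub_AlgL L (carrier_sub_ComL L hP))
    have hV := hA (T * (1 - Q) * (1 - P) * R)
      (AlgL_mul L (AlgL_mul L (AlgL_mul L hT h1Q) hPA) hR) P hP
    have hcQ := M4b_comm_proj L Q hQB P hP
    calc P * a * (1 - P) * R * Q = P * (Q * (T * (1 - Q) * (1 - P) * R) * Q) := by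
          rw [ha]; noncomm_ring
      _ = Q * (T * (1 - Q) * (1 - P) * R) * Q * P := hV
      _ = Q * (T * (1 - Q) * (1 - P) * R) * (Q * P) := by noncomm_ring
      _ = Q * (T * (1 - Q) * (1 - P) * R) * (P * Q) := by rw [hcQ]
      _ = Q * T * (1 - Q) * ((1 - P) * R * P) * Q := by noncomm_ring
      _ = 0 := by rw [hR P hP, mul_zero, zero_mul]
  have h3 : a * D ∈ ComL L := by
    intro P hP
    have e1 := (AlgL_iff L a).1 haA P hP
    have e2 := h2 P hP
    have e3 := L.comm P hP D hDL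
    calc P * (a * D) = P * a * P * D + P * a * (1 - P) * D := by noncomm_ring
      _ = a * P * D := by rw [e2, add_zero, ← e1]
      _ = a * (P * D) := mul_assoc a P D
      _ = a * (D * P) := by rw [e3]
      _ = a * D * P := (mul_assoc a D P).symm
  have h4 := hQB _ h3
  have h5 : Q * a = a := by rw [ha, ← mul_assoc, ← mul_assoc, hQQ]
  have h6 : a * Q = 0 := by
    calc a * Q = Q * T * (Q - Q * Q) := by rw [ha]; noncomm_ring
      _ = 0 := by rw [hQQ, sub_self, mul_zero]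
  calc a * D = Q * (a * D) := by rw [← mul_assoc, h5]
    _ = a * D * Q := h4.symm
    _ = a * (D * Q) := mul_assoc a D Q
    _ = 0 := by rw [hDQ, h6]

theorem M4b_key2 (L : CSL H) (Q : H →L[ℂ] H) (hQ : IsStarProjection Q)
    (hQB : Q ∈ BiComL L) (hA : Anti L Q) (T R : H →L[ℂ] H) (hT : T ∈ AlgL L) (hR : R ∈ AlgL L) :
    Q * T * (1 - Q) * R * Q = 0 := by
  obtain ⟨_, _, h⟩ := M4b_key L Q hQ hQB hA T hT
  calc Q * T * (1 - Q) * R * Q = Q * T * (1 - Q) * (R * Q) := by rw [mul_assoc]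
    _ = Q * T * (1 - Q) * (M4b_P (AlgL L) Q * R * Q) := by rw [M4b_fixR (AlgL L) Q R hR]
    _ = (Q * T * (1 - Q) * M4b_P (AlgL L) Q) * R * Q := by noncomm_ring
    _ = 0 := by rw [h, zero_mul, zero_mul]

/- ================= TARGET ================= -/
theorem antichain_vanish (L : CSL H) (Q : H →L[ℂ] H) (hQ : IsStarProjection Q)
    (hQB : Q ∈ BiComL L) (hA : Anti L Q) (T : H →L[ℂ] H) (hT : T ∈ AlgL L) :
    (∃ D ∈ L.carrier, D * Q = Q ∧ Q * T * (1 - Q) * D = 0) ∧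
    (∃ D' ∈ L.carrier, D' * Q = 0 ∧ (1 - D') * (1 - Q) * T * Q = 0) := by
  refine ⟨⟨M4b_P (AlgL L) Q, M4b_key L Q hQ hQB hA T hT⟩, ?_⟩
  have hQs := star_proj hQ
  set X : Set (H →L[ℂ] H) := {R | star R ∈ AlgL L} with hX
  set W := M4b_P X Q with hW
  have hWp : IsStarProjection W := M4b_proj X Q
  have hWs := star_proj hWp
  have hWW := mul_self_proj hWp
  have hinv : ∀ S ∈ AlgL L, (1 - W) * star S * W = 0 := by
    intro S hS
    refine M4b_inv X Q (star S) fun R hR => ?_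
    show star (star S * R) ∈ AlgL L
    rw [star_mul, star_star]
    exact AlgL_mul L hR hS
  have hD : (1 - W) ∈ L.carrier := by
    refine reflexive L (1 - W) hWp.one_sub fun S hS => ?_
    have h1 := congrArg star (hinv S hS)
    rw [star_mul, star_mul, star_star, star_sub, star_one, hWs, star_zero] at h1
    rw [sub_sub_cancel, mul_assoc]
    exact h1
  have hone : (1 : H →L[ℂ] H) ∈ X := by
    show star (1 : H →L[ℂ] H) ∈ AlgL L
    rw [star_one]; exact AlgL_one L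
  have hWQ : W * Q = Q := by
    have := M4b_fixR X Q 1 hone
    rwa [mul_one, one_mul] at this
  refine ⟨1 - W, hD, by rw [sub_mul, one_mul, hWQ, sub_self], ?_⟩
  rw [sub_sub_cancel]
  have h2 : star ((1 - Q) * T * Q) * W = 0 := by
    refine M4b_kill X Q _ fun R hR => ?_
    have h3 := congrArg star (M4b_key2 L Q hQ hQB hA (star R) T hR hT)
    rw [star_zero] at h3
    rw [← h3]
    simp only [star_mul, star_star, star_sub, star_one, hQs, mul_assoc]
  have h4 := congrArg star h2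
  rw [star_mul, star_star, star_zero, hWs, ← mul_assoc, ← mul_assoc] at h4
  exact h4

end Hop
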