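import Mathlib

set_option maxHeartbeats 4000000

open scoped InnerProductSpace
open Finset

namespace Hop

variable {H : Type*} [NormedAddCommGroup H] [InnerProductSpace ℂ H] [CompleteSpace H]

/-- A commutative subspace lattice on `H`; closed subspaces are identified with their orthogonal
projections.  It is a set of commuting orthogonal projections containing `0` and `1`, closed
under meet `PQ` and join `P + Q - PQ`, and closed in the strong operator topology. -/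
structure CSL (H : Type*) [NormedAddCommGroup H] [InnerProductSpace ℂ H] [CompleteSpace H] where
  carrier : Set (H →L[ℂ] H)
  proj : ∀ P ∈ carrier, IsStarProjection P
  comm : ∀ P ∈ carrier, ∀ Q ∈ carrier, P * Q = Q * P
  zero_mem : (0 : H →L[ℂ] H) ∈ carrier
  one_mem : (1 : H →L[ℂ] H) ∈ carrier
  inf_mem : ∀ P ∈ carrier, ∀ Q ∈ carrier, P * Q ∈ carrier
  sup_mem : ∀ P ∈ carrier, ∀ Q ∈ carrier, P + Q - P * Q ∈ carrier
  sot_closed : ∀ T : H →L[ℂ] H,
    (∀ (s : Finset H) (ε : ℝ), 0 < ε → ∃ P ∈ carrier, ∀ x ∈ s, ‖T x - P x‖ < ε) → T ∈ carrier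

/-- `Alg L` -/
def AlgL (L : CSL H) : Set (H →L[ℂ] H) := {T | ∀ P ∈ L.carrier, (1 - P) * T * P = 0}

/-- the commutant of `L` -/
def ComL (L : CSL H) : Set (H →L[ℂ] H) := {T | ∀ P ∈ L.carrier, P * T = T * P}

/-- the double commutant of `L` -/
def BiComL (L : CSL H) : Set (H →L[ℂ] H) := {T | ∀ S ∈ ComL L, S * T = T * S}

/-- power boundedness of `T S` uniformly in the unit ball of `Alg L` -/
def FS (L : CSL H) (T : H →L[ℂ] H) (B ε : ℝ) : Prop :=
  ∀ S ∈ AlgL L, ‖S‖ ≤ 1 → ∀ m : ℕ, ‖(T * S) ^ m‖ ≤ B * ε ^ m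

/-- finite chains `0 = D 0 ≤ D 1 ≤ ... ≤ D N = 1` in `L` -/
structure IsChn (L : CSL H) (N : ℕ) (D : ℕ → (H →L[ℂ] H)) : Prop where
  mem : ∀ k, D k ∈ L.carrier
  mono : ∀ k, D k * D (k + 1) = D k
  zero : D 0 = 0
  top : D N = 1

/-- blocks of a chain -/
def blk (D : ℕ → (H →L[ℂ] H)) (k : ℕ) : H →L[ℂ] H := D (k + 1) - D k

/-- crossing operators in `Alg L` with respect to a chain -/
def Cross (L : CSL H) (N : ℕ) (D : ℕ → (H →L[ℂ] H)) : Set (H →L[ℂ] H) :=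
  {R | R ∈ AlgL L ∧ ∀ k < N, blk D k * R * blk D k = 0}

/-- block diagonal part -/
def bdiag (N : ℕ) (D : ℕ → (H →L[ℂ] H)) (T : H →L[ℂ] H) : H →L[ℂ] H :=
  ∑ k ∈ range N, blk D k * T * blk D k

/-- quadratic form -/
noncomputable def qf (g : H →L[ℂ] H) (x : H) : ℝ := (⟪g x, x⟫_ℂ).re

/-- potentials: bounded increasing functions -/
structure Pot (L : CSL H) (C : ℝ) (g : H →L[ℂ] H) : Prop where
  sa : IsSelfAdjoint g
  comm : ∀ S ∈ ComL L, S * g = g * S
  lower : ∀ x, ‖x‖ ^ 2 ≤ qf g x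
  upper : ∀ x, qf g x ≤ C * ‖x‖ ^ 2
  mono : ∀ S ∈ AlgL L, ‖S‖ ≤ 1 → ∀ x, qf g (S x) ≤ qf g x

/-- lattice homomorphisms `L → {0,1}` (predicates on projections) -/
structure IsHom2 (L : CSL H) (φ : (H →L[ℂ] H) → Prop) : Prop where
  one : φ 1
  zero : ¬ φ 0
  inf : ∀ P ∈ L.carrier, ∀ Q ∈ L.carrier, (φ (P * Q) ↔ φ P ∧ φ Q)
  sup : ∀ P ∈ L.carrier, ∀ Q ∈ L.carrier, (φ (P + Q - P * Q) ↔ φ P ∨ φ Q)

/-- intervals of `L` -/
def IsInt (L : CSL H) (E : H →L[ℂ] H) : Prop :=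
  ∃ M₁ ∈ L.carrier, ∃ M₂ ∈ L.carrier, M₂ * M₁ = M₂ ∧ E = M₁ - M₂

/-- intervals `E` of `L` with `φ(E) = 1` -/
def InPhi (L : CSL H) (φ : (H →L[ℂ] H) → Prop) (E : H →L[ℂ] H) : Prop :=
  ∃ M₁ ∈ L.carrier, ∃ M₂ ∈ L.carrier, M₂ * M₁ = M₂ ∧ φ M₁ ∧ ¬ φ M₂ ∧ E = M₁ - M₂

/-- union of a list of commuting projections -/
noncomputable def unionL (l : List (H →L[ℂ] H)) : H →L[ℂ] H := 1 - (l.map (fun E => 1 - E)).prod

/-! ### basic facts -/

theorem star_proj {P : H →L[ℂ] H} (h : IsStarProjection P) : star P = P := h.isSelfAdjoint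

theorem mul_self_proj {P : H →L[ℂ] H} (h : IsStarProjection P) : P * P = P := h.isIdempotentElem

theorem carrier_sub_ComL (L : CSL H) : L.carrier ⊆ ComL L := fun P hP Q hQ => L.comm Q hQ P hP

theorem ComL_sub_AlgL (L : CSL H) : ComL L ⊆ AlgL L := by
  intro T hT P hP
  have h1 := hT P hP
  have h2 := mul_self_proj (L.proj P hP)
  calc (1 - P) * T * P = T * P - P * T * P := by noncomm_ring
    _ = T * P - T * P * P := by rw [h1]
    _ = T * P - T * (P * P) := by rw [mul_assoc]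
    _ = 0 := by rw [h2, sub_self]

theorem BiComL_sub_ComL (L : CSL H) : BiComL L ⊆ ComL L := fun _T hT P hP =>
  hT P (carrier_sub_ComL L hP)

theorem carrier_sub_BiComL (L : CSL H) : L.carrier ⊆ BiComL L := fun P hP _S hS => (hS P hP).symm

theorem AlgL_iff (L : CSL H) (T : H →L[ℂ] H) :
    T ∈ AlgL L ↔ ∀ P ∈ L.carrier, T * P = P * T * P := by
  constructor
  · intro h P hP
    have := h P hP
    have h2 : T * P - P * T * P = 0 := by
      rw [← this]; noncomm_ring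
    exact sub_eq_zero.mp h2
  · intro h P hP
    have := h P hP
    calc (1 - P) * T * P = T * P - P * T * P := by noncomm_ring
      _ = 0 := by rw [← this, sub_self]

theorem AlgL_mul (L : CSL H) {S T : H →L[ℂ] H} (hS : S ∈ AlgL L) (hT : T ∈ AlgL L) :
    S * T ∈ AlgL L := by
  rw [AlgL_iff] at *
  intro P hP
  calc S * T * P = S * (P * T * P) := by rw [mul_assoc, hT P hP]
    _ = (S * P) * T * P := by noncomm_ring
    _ = (P * S * P) * T * P := by rw [hS P hP]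
    _ = P * S * (P * T * P) := by noncomm_ring
    _ = P * S * (T * P) := by rw [← hT P hP]
    _ = P * (S * T) * P := by noncomm_ring

theorem AlgL_add (L : CSL H) {S T : H →L[ℂ] H} (hS : S ∈ AlgL L) (hT : T ∈ AlgL L) :
    S + T ∈ AlgL L := by
  intro P hP
  rw [mul_add, add_mul, hS P hP, hT P hP, add_zero]

theorem AlgL_sub (L : CSL H) {S T : H →L[ℂ] H} (hS : S ∈ AlgL L) (hT : T ∈ AlgL L) :
    S - T ∈ AlgL L := by
  intro P hP
  rw [mul_sub, sub_mul, hS P hP, hT P hP, sub_zero]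

theorem AlgL_smul (L : CSL H) (c : ℂ) {T : H →L[ℂ] H} (hT : T ∈ AlgL L) : c • T ∈ AlgL L := by
  intro P hP
  rw [mul_smul_comm, smul_mul_assoc, hT P hP, smul_zero]

theorem AlgL_neg (L : CSL H) {T : H →L[ℂ] H} (hT : T ∈ AlgL L) : -T ∈ AlgL L := by
  intro P hP
  rw [mul_neg, neg_mul, hT P hP, neg_zero]

theorem AlgL_zero (L : CSL H) : (0 : H →L[ℂ] H) ∈ AlgL L := by
  intro P hP; simp

theorem AlgL_one (L : CSL H) : (1 : H →L[ℂ] H) ∈ AlgL L := by
  apply ComL_sub_AlgL; intro P hP; simp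

theorem AlgL_pow (L : CSL H) {T : H →L[ℂ] H} (hT : T ∈ AlgL L) (m : ℕ) : T ^ m ∈ AlgL L := by
  induction m with
  | zero => simpa using AlgL_one L
  | succ n ih => rw [pow_succ]; exact AlgL_mul L ih hT

theorem AlgL_sum (L : CSL H) {ι : Type*} (s : Finset ι) (f : ι → (H →L[ℂ] H))
    (h : ∀ i ∈ s, f i ∈ AlgL L) : ∑ i ∈ s, f i ∈ AlgL L := by
  classical
  induction s using Finset.induction_on with
  | empty => simpa using AlgL_zero L
  | insert a s ha ih =>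
    rw [Finset.sum_insert ha]
    exact AlgL_add L (h a (Finset.mem_insert_self a s))
      (ih fun i hi => h i (Finset.mem_insert_of_mem hi))

theorem ComL_mul (L : CSL H) {S T : H →L[ℂ] H} (hS : S ∈ ComL L) (hT : T ∈ ComL L) :
    S * T ∈ ComL L := by
  intro P hP
  rw [← mul_assoc, hS P hP, mul_assoc, hT P hP, mul_assoc]

theorem ComL_add (L : CSL H) {S T : H →L[ℂ] H} (hS : S ∈ ComL L) (hT : T ∈ ComL L) :
    S + T ∈ ComL L := by
  intro P hP
  rw [mul_add, add_mul, hS P hP, hT P hP]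

theorem ComL_sub (L : CSL H) {S T : H →L[ℂ] H} (hS : S ∈ ComL L) (hT : T ∈ ComL L) :
    S - T ∈ ComL L := by
  intro P hP
  rw [mul_sub, sub_mul, hS P hP, hT P hP]

theorem ComL_smul (L : CSL H) (c : ℂ) {T : H →L[ℂ] H} (hT : T ∈ ComL L) : c • T ∈ ComL L := by
  intro P hP
  rw [mul_smul_comm, smul_mul_assoc, hT P hP]

theorem ComL_zero (L : CSL H) : (0 : H →L[ℂ] H) ∈ ComL L := by
  intro P hP; simp

theorem ComL_one (L : CSL H) : (1 : H →L[ℂ] H) ∈ ComL L := by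
  intro P hP; simp

theorem ComL_star (L : CSL H) {T : H →L[ℂ] H} (hT : T ∈ ComL L) : star T ∈ ComL L := by
  intro P hP
  have h := congrArg star (hT P hP)
  rw [star_mul, star_mul, star_proj (L.proj P hP)] at h
  exact h.symm

theorem blk_mem_BiComL {L : CSL H} {N : ℕ} {D : ℕ → (H →L[ℂ] H)} (hD : IsChn L N D) (k : ℕ) :
    blk D k ∈ BiComL L := by
  intro S hS
  rw [blk, mul_sub, sub_mul, hS _ (hD.mem _), hS _ (hD.mem _)]

theorem chn_mul {L : CSL H} {N : ℕ} {D : ℕ → (H →L[ℂ] H)} (hD : IsChn L N D) {j k : ℕ}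
    (hjk : j ≤ k) : D j * D k = D j := by
  induction k, hjk using Nat.le_induction with
  | base => exact mul_self_proj (L.proj _ (hD.mem j))
  | succ n hn ih =>
    calc D j * D (n + 1) = (D j * D n) * D (n + 1) := by rw [ih]
      _ = D j * (D n * D (n + 1)) := mul_assoc _ _ _
      _ = D j := by rw [hD.mono, ih]

theorem chn_mul' {L : CSL H} {N : ℕ} {D : ℕ → (H →L[ℂ] H)} (hD : IsChn L N D) {j k : ℕ}
    (hjk : j ≤ k) : D k * D j = D j := by
  rw [L.comm _ (hD.mem k) _ (hD.mem j)]; exact chn_mul hD hjk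

theorem blk_proj {L : CSL H} {N : ℕ} {D : ℕ → (H →L[ℂ] H)} (hD : IsChn L N D) (k : ℕ) :
    IsStarProjection (blk D k) :=
  (L.proj _ (hD.mem k)).sub_of_mul_eq_left (L.proj _ (hD.mem (k+1))) (hD.mono k)

theorem blk_mul_blk_of_lt {L : CSL H} {N : ℕ} {D : ℕ → (H →L[ℂ] H)} (hD : IsChn L N D) {j k : ℕ}
    (hjk : j < k) : blk D j * blk D k = 0 := by
  unfold blk
  rw [sub_mul, mul_sub, mul_sub, chn_mul hD (by omega : j + 1 ≤ k + 1),
    chn_mul hD (by omega : j + 1 ≤ k), chn_mul hD (by omega : j ≤ k + 1),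
    chn_mul hD (by omega : j ≤ k)]
  simp

theorem blk_mul_blk_of_gt {L : CSL H} {N : ℕ} {D : ℕ → (H →L[ℂ] H)} (hD : IsChn L N D) {j k : ℕ}
    (hjk : j < k) : blk D k * blk D j = 0 := by
  unfold blk
  rw [sub_mul, mul_sub, mul_sub, chn_mul' hD (by omega : j + 1 ≤ k + 1),
    chn_mul' hD (by omega : j + 1 ≤ k), chn_mul' hD (by omega : j ≤ k + 1),
    chn_mul' hD (by omega : j ≤ k)]
  simp

theorem blk_mul_blk_of_ne {L : CSL H} {N : ℕ} {D : ℕ → (H →L[ℂ] H)} (hD : IsChn L N D) {j k : ℕ}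
    (hjk : j ≠ k) : blk D j * blk D k = 0 := by
  rcases lt_or_gt_of_ne hjk with h | h
  · exact blk_mul_blk_of_lt hD h
  · exact blk_mul_blk_of_gt hD h

theorem sum_blk {L : CSL H} {N : ℕ} {D : ℕ → (H →L[ℂ] H)} (hD : IsChn L N D) :
    ∑ k ∈ range N, blk D k = 1 := by
  unfold blk
  rw [Finset.sum_range_sub, hD.top, hD.zero, sub_zero]

end Hop
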