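import Pool.Agent.Helper360.Hop.Defs

set_option maxHeartbeats 4000000

open scoped InnerProductSpace Topology ComplexConjugate
open Finset Filter

namespace Hop

variable {H : Type*} [NormedAddCommGroup H] [InnerProductSpace ℂ H] [CompleteSpace H]

/-- cyclic projections -/
theorem cells_cyc (L : CSL H) (e : H) : ∃ R : H →L[ℂ] H, IsStarProjection R ∧ R ∈ ComL L ∧
    R e = e ∧ (∀ T : H →L[ℂ] H, T ∈ ComL L → T e = 0 → T * R = 0) ∧
    (∀ v, ∀ τ : ℝ, 0 < τ → ∃ w ∈ Submodule.span ℂ {v | ∃ Q ∈ L.carrier, v = Q e},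
      ‖R v - w‖ < τ) := by
  set S : Submodule ℂ H := Submodule.span ℂ {v | ∃ Q ∈ L.carrier, v = Q e} with hS
  set K : Submodule ℂ H := S.topologicalClosure with hK
  have : CompleteSpace K := (S.isClosed_topologicalClosure).completeSpace_coe
  have hmap : ∀ Q ∈ L.carrier, ∀ v ∈ S, Q v ∈ S := by
    intro Q hQ v hv
    induction hv using Submodule.span_induction with
    | mem v hv =>
      obtain ⟨Q', hQ', rfl⟩ := hv
      exact Submodule.subset_span ⟨Q * Q', L.inf_mem Q hQ Q' hQ', rfl⟩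
    | zero => rw [map_zero]; exact S.zero_mem
    | add a b _ _ ha hb => rw [map_add]; exact S.add_mem ha hb
    | smul c a _ ha => rw [map_smul]; exact S.smul_mem c ha
  have hmapK : ∀ Q ∈ L.carrier, ∀ v ∈ K, Q v ∈ K := by
    intro Q hQ v hv
    have h1 : Set.MapsTo Q (S : Set H) (S : Set H) := fun v hv => hmap Q hQ v hv
    exact h1.closure Q.continuous hv
  have heK : e ∈ K := by
    apply S.le_topologicalClosure
    exact Submodule.subset_span ⟨1, L.one_mem, rfl⟩
  refine ⟨K.starProjection, isStarProjection_starProjection, ?_, ?_, ?_, ?_⟩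
  · intro Q hQ
    have hst : star K.starProjection = K.starProjection :=
      (isStarProjection_starProjection (U := K)).isSelfAdjoint
    have h1 : K.starProjection * Q * K.starProjection = Q * K.starProjection := by
      ext v
      show K.starProjection (Q (K.starProjection v)) = Q (K.starProjection v)
      rw [Submodule.starProjection_eq_self_iff]
      apply hmapK Q hQ
      exact K.starProjection_apply_mem v
    have h2 := congrArg star h1
    rw [star_mul, star_mul, star_mul, hst, star_proj (L.proj Q hQ), ← mul_assoc, h1] at h2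
    exact h2
  · rw [Submodule.starProjection_eq_self_iff]
    exact heK
  · intro T hT hTe
    have h1 : S ≤ LinearMap.ker T.toLinearMap := by
      rw [hS, Submodule.span_le]
      rintro v ⟨Q, hQ, rfl⟩
      show T (Q e) = 0
      have h2 : (Q * T) e = (T * Q) e := by rw [hT Q hQ]
      have h3 : Q (T e) = T (Q e) := h2
      rw [← h3, hTe, map_zero]
    have h2 : K ≤ LinearMap.ker T.toLinearMap :=
      S.topologicalClosure_minimal h1 T.isClosed_ker
    ext v
    show T (K.starProjection v) = 0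
    exact h2 (K.starProjection_apply_mem v)
  · intro v τ hτ
    have h1 : K.starProjection v ∈ closure (S : Set H) := K.starProjection_apply_mem v
    obtain ⟨w, hw, hd⟩ := Metric.mem_closure_iff.1 h1 τ hτ
    exact ⟨w, hw, by rwa [dist_eq_norm] at hd⟩

theorem cells_dec (L : CSL H) (p : ℕ) (x : Fin p → H) :
    ∃ (e : Fin p → H) (R : Fin p → (H →L[ℂ] H)), (∀ j, IsStarProjection (R j)) ∧
      (∀ j, R j ∈ ComL L) ∧ (∀ i j, i ≠ j → R i * R j = 0) ∧ (∀ j, R j (e j) = e j) ∧
      (∀ i, x i = ∑ j, R j (x i)) ∧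
      (∀ j, ∀ v, ∀ τ : ℝ, 0 < τ →
        ∃ w ∈ Submodule.span ℂ {v | ∃ Q ∈ L.carrier, v = Q (e j)}, ‖R j v - w‖ < τ) := by
  induction p with
  | zero =>
    exact ⟨fun _ => 0, fun _ => 0, fun j => j.elim0, fun j => j.elim0, fun j => j.elim0,
      fun j => j.elim0, fun j => j.elim0, fun j => j.elim0⟩
  | succ p ih =>
    obtain ⟨e, R, h1, h2, h3, h4, h5, h6⟩ := ih (fun i => x i.castSucc)
    set y : H := x (Fin.last p) - ∑ j, R j (x (Fin.last p)) with hy
    have hRy : ∀ j, R j y = 0 := by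
      intro j
      rw [hy, map_sub, map_sum, Finset.sum_eq_single j]
      · have : R j (R j (x (Fin.last p))) = (R j * R j) (x (Fin.last p)) := rfl
        rw [this, mul_self_proj (h1 j), sub_self]
      · intro k _ hk
        have : R j (R k (x (Fin.last p))) = (R j * R k) (x (Fin.last p)) := rfl
        rw [this, h3 j k hk.symm]
        rfl
      · intro hj
        exact absurd (Finset.mem_univ j) hj
    obtain ⟨R', g1, g2, g3, g4, g5⟩ := cells_cyc L y
    have hRR' : ∀ j, R j * R' = 0 := fun j => g4 (R j) (h2 j) (hRy j)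
    have hR'R : ∀ j, R' * R j = 0 := by
      intro j
      have := congrArg star (hRR' j)
      rwa [star_mul, star_zero, star_proj g1, star_proj (h1 j)] at this
    refine ⟨Fin.snoc e y, Fin.snoc (α := fun _ => H →L[ℂ] H) R R', ?_, ?_, ?_, ?_, ?_, ?_⟩
    · rw [Fin.forall_fin_succ']
      refine ⟨fun i => ?_, ?_⟩
      · rw [Fin.snoc_castSucc]; exact h1 i
      · rw [Fin.snoc_last]; exact g1
    · rw [Fin.forall_fin_succ']
      refine ⟨fun i => ?_, ?_⟩
      · rw [Fin.snoc_castSucc]; exact h2 i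
      · rw [Fin.snoc_last]; exact g2
    · rw [Fin.forall_fin_succ']
      refine ⟨fun i => ?_, ?_⟩
      · rw [Fin.forall_fin_succ']
        refine ⟨fun j hij => ?_, fun _ => ?_⟩
        · rw [Fin.snoc_castSucc, Fin.snoc_castSucc]
          exact h3 i j fun h => hij (by rw [h])
        · rw [Fin.snoc_castSucc, Fin.snoc_last]; exact hRR' i
      · rw [Fin.forall_fin_succ']
        refine ⟨fun j _ => ?_, fun h => absurd rfl h⟩
        rw [Fin.snoc_castSucc, Fin.snoc_last]; exact hR'R j
    · rw [Fin.forall_fin_succ']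
      refine ⟨fun i => ?_, ?_⟩
      · rw [Fin.snoc_castSucc, Fin.snoc_castSucc]; exact h4 i
      · rw [Fin.snoc_last, Fin.snoc_last]; exact g3
    · rw [Fin.forall_fin_succ']
      refine ⟨fun i => ?_, ?_⟩
      · rw [Fin.sum_univ_castSucc]
        simp only [Fin.snoc_castSucc, Fin.snoc_last]
        have e1 := h5 i
        have e2 : R' (x i.castSucc) = 0 := by
          rw [e1, map_sum]
          apply Finset.sum_eq_zero
          intro j _
          have : R' (R j (x i.castSucc)) = (R' * R j) (x i.castSucc) := rfl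
          rw [this, hR'R j]
          rfl
        rw [e2, add_zero]
        exact e1
      · rw [Fin.sum_univ_castSucc]
        simp only [Fin.snoc_castSucc, Fin.snoc_last]
        have e1 : x (Fin.last p) = ∑ j, R j (x (Fin.last p)) + y := by rw [hy]; abel
        have e2 : R' (x (Fin.last p)) = y := by
          rw [e1, map_add, map_sum, g3]
          rw [Finset.sum_eq_zero, zero_add]
          intro j _
          have : ∀ z, R' (R j z) = (R' * R j) z := fun z => rfl
          rw [this, hR'R j]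
          rfl
        rw [e2]
        exact e1
    · rw [Fin.forall_fin_succ']
      refine ⟨fun i => ?_, ?_⟩
      · rw [Fin.snoc_castSucc, Fin.snoc_castSucc]; exact h6 i
      · rw [Fin.snoc_last, Fin.snoc_last]; exact g5

theorem cells_part (L : CSL H) (N : ℕ) (D : ℕ → (H →L[ℂ] H)) (hD : IsChn L N D)
    (𝒢 : Finset (H →L[ℂ] H)) (h𝒢 : ∀ G ∈ 𝒢, G ∈ L.carrier) :
    ∃ (ι : Type) (_ : Fintype ι) (q : ι → (H →L[ℂ] H)),
      (∀ s, IsStarProjection (q s)) ∧ (∀ s, q s ∈ BiComL L) ∧
      (∀ s t, s ≠ t → q s * q t = 0) ∧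
      (∑ s, q s = 1) ∧ (∀ s, ∃ k < N, blk D k * q s = q s) ∧
      (∀ G ∈ 𝒢, ∀ s, G * q s = q s ∨ G * q s = 0) := by
  classical
  induction 𝒢 using Finset.induction_on with
  | empty =>
    refine ⟨Fin N, inferInstance, fun s => blk D s, fun s => blk_proj hD s,
      fun s => blk_mem_BiComL hD s, fun s t hst => ?_, ?_, fun s => ⟨s, s.2, ?_⟩, ?_⟩
    · exact blk_mul_blk_of_ne hD fun h => hst (Fin.ext h)
    · rw [Fin.sum_univ_eq_sum_range (fun k => blk D k), sum_blk hD]
    · exact mul_self_proj (blk_proj hD s)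
    · intro G hG
      exact absurd hG (Finset.notMem_empty G)
  | insert G 𝒢' hG ih =>
    obtain ⟨ι, hι, q, h1, h2, h3, h4, h5, h6⟩ :=
      ih fun G' hG' => h𝒢 G' (Finset.mem_insert_of_mem hG')
    have hGL : G ∈ L.carrier := h𝒢 G (Finset.mem_insert_self _ _)
    have hGp := L.proj G hGL
    have hGG : G * G = G := mul_self_proj hGp
    have hGC : ∀ A ∈ L.carrier, G * A = A * G := fun A hA => L.comm G hGL A hA
    have hc : ∀ s, G * q s = q s * G := fun s => h2 s G (carrier_sub_ComL L hGL)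
    refine ⟨ι ⊕ ι, inferInstance, Sum.elim (fun s => G * q s) (fun s => (1 - G) * q s),
      ?_, ?_, ?_, ?_, ?_, ?_⟩
    · rintro (s | s)
      · exact hGp.mul (h1 s) (hc s)
      · refine hGp.one_sub.mul (h1 s) ?_
        show (1 - G) * q s = q s * (1 - G)
        rw [sub_mul, mul_sub, hc s, one_mul, mul_one]
    · rintro (s | s) T hT
      · show T * (G * q s) = G * q s * T
        rw [← mul_assoc, ← hT G hGL, mul_assoc, h2 s T hT, mul_assoc]
      · show T * ((1 - G) * q s) = (1 - G) * q s * T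
        have e1 : T * (1 - G) = (1 - G) * T := by rw [mul_sub, sub_mul, ← hT G hGL, mul_one, one_mul]
        rw [← mul_assoc, e1, mul_assoc, h2 s T hT, mul_assoc]
    · rintro (s | s) (t | t) hst
      · show G * q s * (G * q t) = 0
        have hne : s ≠ t := fun h => hst (by rw [h])
        calc G * q s * (G * q t) = G * (q s * G) * q t := by noncomm_ring
          _ = G * (G * q s) * q t := by rw [hc]
          _ = G * G * (q s * q t) := by noncomm_ring
          _ = 0 := by rw [h3 s t hne, mul_zero]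
      · show G * q s * ((1 - G) * q t) = 0
        calc G * q s * ((1 - G) * q t) = (G * q s) * q t - (G * q s) * G * q t := by noncomm_ring
          _ = (G * q s) * q t - (q s * G) * G * q t := by rw [hc]
          _ = (G * q s) * q t - q s * (G * G) * q t := by noncomm_ring
          _ = 0 := by rw [hGG, hc, sub_self]
      · show (1 - G) * q s * (G * q t) = 0
        calc (1 - G) * q s * (G * q t) = (q s * G) * q t - G * (q s * G) * q t := by noncomm_ring
          _ = (q s * G) * q t - G * (G * q s) * q t := by rw [hc]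
          _ = (q s * G) * q t - (G * G) * q s * q t := by noncomm_ring
          _ = 0 := by rw [hGG, hc, sub_self]
      · show (1 - G) * q s * ((1 - G) * q t) = 0
        have hne : s ≠ t := fun h => hst (by rw [h])
        have e1 : q s * (1 - G) = (1 - G) * q s := by rw [mul_sub, sub_mul, hc, mul_one, one_mul]
        calc (1 - G) * q s * ((1 - G) * q t) = (1 - G) * (q s * (1 - G)) * q t := by noncomm_ring
          _ = (1 - G) * ((1 - G) * q s) * q t := by rw [e1]
          _ = (1 - G) * (1 - G) * (q s * q t) := by noncomm_ring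
          _ = 0 := by rw [h3 s t hne, mul_zero]
    · rw [Fintype.sum_sum_type]
      simp only [Sum.elim_inl, Sum.elim_inr]
      rw [← Finset.mul_sum, ← Finset.mul_sum, h4]
      noncomm_ring
    · have hGb : ∀ k, blk D k * G = G * blk D k := fun k =>
        (blk_mem_BiComL hD k G (carrier_sub_ComL L hGL)).symm
      rintro (s | s)
      · obtain ⟨k, hk, hks⟩ := h5 s
        refine ⟨k, hk, ?_⟩
        show blk D k * (G * q s) = G * q s
        rw [← mul_assoc, hGb, mul_assoc, hks]
      · obtain ⟨k, hk, hks⟩ := h5 s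
        refine ⟨k, hk, ?_⟩
        show blk D k * ((1 - G) * q s) = (1 - G) * q s
        rw [← mul_assoc, mul_sub, hGb, mul_one, sub_mul, mul_assoc G, hks, sub_mul, one_mul]
    · intro G' hG'
      rw [Finset.mem_insert] at hG'
      rcases hG' with rfl | hG'
      · rintro (s | s)
        · left
          show G' * (G' * q s) = G' * q s
          rw [← mul_assoc, hGG]
        · right
          show G' * ((1 - G') * q s) = 0
          rw [← mul_assoc, mul_sub, hGG, mul_one, sub_self, zero_mul]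
      · have hG'L := h𝒢 G' (Finset.mem_insert_of_mem hG')
        have hcc := hGC G' hG'L
        rintro (s | s)
        · rcases h6 G' hG' s with h | h
          · left
            show G' * (G * q s) = G * q s
            rw [← mul_assoc, ← hcc, mul_assoc, h]
          · right
            show G' * (G * q s) = 0
            rw [← mul_assoc, ← hcc, mul_assoc, h, mul_zero]
        · have e1 : G' * (1 - G) = (1 - G) * G' := by rw [mul_sub, sub_mul, hcc, mul_one, one_mul]
          rcases h6 G' hG' s with h | h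
          · left
            show G' * ((1 - G) * q s) = (1 - G) * q s
            rw [← mul_assoc, e1, mul_assoc, h]
          · right
            show G' * ((1 - G) * q s) = 0
            rw [← mul_assoc, e1, mul_assoc, h, mul_zero]

theorem cells_span (L : CSL H) (e w : H)
    (hw : w ∈ Submodule.span ℂ {v | ∃ Q ∈ L.carrier, v = Q e}) :
    ∃ 𝒢 : Finset (H →L[ℂ] H), (∀ G ∈ 𝒢, G ∈ L.carrier) ∧
      ∀ (ι : Type) [Fintype ι] (q : ι → (H →L[ℂ] H)), ∑ s, q s = 1 →
        (∀ G ∈ 𝒢, ∀ s, G * q s = q s ∨ G * q s = 0) → ∃ c : ι → ℂ, w = ∑ s, c s • q s e := by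
  classical
  induction hw using Submodule.span_induction with
  | mem v hv =>
    obtain ⟨Q, hQ, rfl⟩ := hv
    refine ⟨{Q}, ?_, ?_⟩
    · intro G hG
      rw [Finset.mem_singleton] at hG
      rw [hG]; exact hQ
    · intro ι _ q hq hs
      have hs' := hs Q (Finset.mem_singleton_self Q)
      refine ⟨fun s => if Q * q s = q s then 1 else 0, ?_⟩
      have e1 : Q e = (Q * ∑ s, q s) e := by rw [hq, mul_one]
      rw [e1, Finset.mul_sum, _root_.sum_apply]
      refine Finset.sum_congr rfl fun s _ => ?_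
      show (Q * q s) e = (if Q * q s = q s then (1 : ℂ) else 0) • (q s) e
      split_ifs with h
      · rw [h, one_smul]
      · rcases hs' s with h' | h'
        · exact absurd h' h
        · rw [h', zero_smul]; rfl
  | zero =>
    refine ⟨∅, fun G hG => absurd hG (Finset.notMem_empty G), fun ι _ q _ _ => ⟨fun _ => 0, ?_⟩⟩
    simp
  | add a b _ _ ha hb =>
    obtain ⟨𝒢₁, h1, h2⟩ := ha
    obtain ⟨𝒢₂, g1, g2⟩ := hb
    refine ⟨𝒢₁ ∪ 𝒢₂, ?_, ?_⟩
    · intro G hG
      rcases Finset.mem_union.1 hG with h | h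
      · exact h1 G h
      · exact g1 G h
    · intro ι _ q hq hs
      obtain ⟨c1, hc1⟩ := h2 ι q hq fun G hG => hs G (Finset.mem_union_left _ hG)
      obtain ⟨c2, hc2⟩ := g2 ι q hq fun G hG => hs G (Finset.mem_union_right _ hG)
      refine ⟨fun s => c1 s + c2 s, ?_⟩
      rw [hc1, hc2, ← Finset.sum_add_distrib]
      exact Finset.sum_congr rfl fun s _ => by rw [add_smul]
  | smul a b _ hb =>
    obtain ⟨𝒢₂, g1, g2⟩ := hb
    refine ⟨𝒢₂, g1, ?_⟩
    intro ι _ q hq hs
    obtain ⟨c2, hc2⟩ := g2 ι q hq hs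
    refine ⟨fun s => a * c2 s, ?_⟩
    rw [hc2, Finset.smul_sum]
    exact Finset.sum_congr rfl fun s _ => by rw [mul_smul]

/- ================= TARGET ================= -/
/-- F -/
theorem cells (L : CSL H) (N : ℕ) (D : ℕ → (H →L[ℂ] H)) (hD : IsChn L N D)
    (p : ℕ) (x : Fin p → H) (τ : ℝ) (hτ : 0 < τ) :
    ∃ (M : ℕ) (f : Fin M → H) (P : Fin M → (H →L[ℂ] H)) (c : Fin p → Fin M → ℂ),
      (∀ j, ‖f j‖ = 1) ∧ (∀ j, IsStarProjection (P j)) ∧ (∀ j, P j ∈ ComL L) ∧
      (∀ i j, i ≠ j → P i * P j = 0) ∧ (∀ j, P j (f j) = f j) ∧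
      (∀ j, ∃ k < N, blk D k * P j = P j) ∧
      (∀ i, ‖x i - ∑ j, c i j • f j‖ ≤ τ) := by
  classical
  obtain ⟨e, R, h1, h2, h3, h4, h5, h6⟩ := cells_dec L p x
  have hp1 : (0 : ℝ) < p + 1 := by positivity
  choose w hw hwd using fun (i j : Fin p) => h6 j (x i) (τ / (p + 1)) (by positivity)
  choose 𝒢 h𝒢L h𝒢 using fun (i j : Fin p) => cells_span L (e j) (w i j) (hw i j)
  set 𝒜 : Finset (H →L[ℂ] H) := (Finset.univ : Finset (Fin p × Fin p)).biUnion
    fun ij => 𝒢 ij.1 ij.2 with h𝒜
  have h𝒜L : ∀ G ∈ 𝒜, G ∈ L.carrier := by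
    intro G hG
    rw [h𝒜, Finset.mem_biUnion] at hG
    obtain ⟨ij, -, hij⟩ := hG
    exact h𝒢L _ _ G hij
  obtain ⟨ι, hι, q, q1, q2, q3, q4, q5, q6⟩ := cells_part L N D hD 𝒜 h𝒜L
  have hex : ∀ i j, ∃ c : ι → ℂ, w i j = ∑ s, c s • q s (e j) := by
    intro i j
    apply h𝒢 i j ι q q4
    intro G hG
    apply q6
    rw [h𝒜, Finset.mem_biUnion]
    exact ⟨(i, j), Finset.mem_univ _, hG⟩
  choose c hc using hex
  have hcom : ∀ s j, R j * q s = q s * R j := fun s j => q2 s (R j) (h2 j)
  let κ := {a : Fin p × ι // q a.2 (e a.1) ≠ 0}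
  let E : Fin (Fintype.card κ) ≃ κ := (Fintype.equivFin κ).symm
  let f : κ → H := fun a => ((‖q a.1.2 (e a.1.1)‖⁻¹ : ℝ) : ℂ) • q a.1.2 (e a.1.1)
  let P : κ → (H →L[ℂ] H) := fun a => q a.1.2 * R a.1.1
  let cc : Fin p → κ → ℂ := fun i a => c i a.1.1 a.1.2 * ((‖q a.1.2 (e a.1.1)‖ : ℝ) : ℂ)
  refine ⟨Fintype.card κ, fun m => f (E m), fun m => P (E m), fun i m => cc i (E m), ?_, ?_, ?_,
    ?_, ?_, ?_, ?_⟩
  · intro m
    have hne : ‖q (E m).1.2 (e (E m).1.1)‖ ≠ 0 := norm_ne_zero_iff.2 (E m).2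
    show ‖((‖q (E m).1.2 (e (E m).1.1)‖⁻¹ : ℝ) : ℂ) • q (E m).1.2 (e (E m).1.1)‖ = 1
    rw [norm_smul, Complex.norm_real, norm_inv, norm_norm, inv_mul_cancel₀ hne]
  · intro m
    exact (q1 _).mul (h1 _) (hcom _ _).symm
  · intro m
    exact ComL_mul L (BiComL_sub_ComL L (q2 _)) (h2 _)
  · intro m n hmn
    have hne : (E m) ≠ (E n) := fun h => hmn (E.injective h)
    show q (E m).1.2 * R (E m).1.1 * (q (E n).1.2 * R (E n).1.1) = 0
    have e1 : q (E m).1.2 * R (E m).1.1 * (q (E n).1.2 * R (E n).1.1) =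
        (q (E m).1.2 * q (E n).1.2) * (R (E m).1.1 * R (E n).1.1) := by
      calc q (E m).1.2 * R (E m).1.1 * (q (E n).1.2 * R (E n).1.1)
          = q (E m).1.2 * (R (E m).1.1 * q (E n).1.2) * R (E n).1.1 := by noncomm_ring
        _ = q (E m).1.2 * (q (E n).1.2 * R (E m).1.1) * R (E n).1.1 := by rw [hcom]
        _ = _ := by noncomm_ring
    rw [e1]
    by_cases hs : (E m).1.2 = (E n).1.2
    · have hj : (E m).1.1 ≠ (E n).1.1 := by
        intro hj
        apply hne
        apply Subtype.ext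
        exact Prod.ext hj hs
      rw [h3 _ _ hj, mul_zero]
    · rw [q3 _ _ hs, zero_mul]
  · intro m
    show (q (E m).1.2 * R (E m).1.1)
      (((‖q (E m).1.2 (e (E m).1.1)‖⁻¹ : ℝ) : ℂ) • q (E m).1.2 (e (E m).1.1)) = _
    rw [map_smul]
    congr 1
    have e1 : (q (E m).1.2 * R (E m).1.1) (q (E m).1.2 (e (E m).1.1)) =
      (q (E m).1.2 * (R (E m).1.1 * q (E m).1.2)) (e (E m).1.1) := rfl
    rw [e1, hcom, ← mul_assoc, mul_self_proj (q1 _)]
    show q (E m).1.2 (R (E m).1.1 (e (E m).1.1)) = _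
    rw [h4]
  · intro m
    obtain ⟨k, hk, hks⟩ := q5 (E m).1.2
    refine ⟨k, hk, ?_⟩
    show blk D k * (q (E m).1.2 * R (E m).1.1) = _
    rw [← mul_assoc, hks]
  · intro i
    have e1 : ∑ m, cc i (E m) • f (E m) = ∑ a : κ, cc i a • f a :=
      Equiv.sum_comp E (fun a => cc i a • f a)
    have e2 : ∑ a : κ, cc i a • f a = ∑ a : κ, c i a.1.1 a.1.2 • q a.1.2 (e a.1.1) := by
      refine Finset.sum_congr rfl fun a _ => ?_
      have hne : ‖q a.1.2 (e a.1.1)‖ ≠ 0 := norm_ne_zero_iff.2 a.2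
      have hne' : ((‖q a.1.2 (e a.1.1)‖ : ℝ) : ℂ) ≠ 0 := by exact_mod_cast hne
      show (c i a.1.1 a.1.2 * ((‖q a.1.2 (e a.1.1)‖ : ℝ) : ℂ)) •
        (((‖q a.1.2 (e a.1.1)‖⁻¹ : ℝ) : ℂ) • q a.1.2 (e a.1.1)) = _
      rw [smul_smul]
      congr 1
      push_cast
      field_simp
    have e3 : ∑ a : κ, c i a.1.1 a.1.2 • q a.1.2 (e a.1.1) =
        ∑ a : Fin p × ι, c i a.1 a.2 • q a.2 (e a.1) := by
      rw [← Finset.sum_filter_of_ne (s := (Finset.univ : Finset (Fin p × ι)))
        (p := fun a => q a.2 (e a.1) ≠ 0)]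
      · have hmem : ∀ a : Fin p × ι, a ∈ (Finset.univ : Finset (Fin p × ι)).filter
            (fun a => q a.2 (e a.1) ≠ 0) ↔ q a.2 (e a.1) ≠ 0 := fun a => by
          rw [Finset.mem_filter]
          exact ⟨fun h => h.2, fun h => ⟨Finset.mem_univ _, h⟩⟩
        exact (Finset.sum_subtype _ hmem (fun a => c i a.1 a.2 • q a.2 (e a.1))).symm
      · intro a _ ha h0
        apply ha
        rw [h0, smul_zero]
    have e4 : ∑ a : Fin p × ι, c i a.1 a.2 • q a.2 (e a.1) = ∑ j, w i j := by
      rw [Fintype.sum_prod_type]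
      exact Finset.sum_congr rfl fun j _ => (hc i j).symm
    rw [e1, e2, e3, e4]
    conv_lhs => rw [h5 i]
    rw [← Finset.sum_sub_distrib]
    calc ‖∑ j, (R j (x i) - w i j)‖ ≤ ∑ j : Fin p, ‖R j (x i) - w i j‖ := norm_sum_le _ _
      _ ≤ ∑ j : Fin p, τ / (p + 1) := Finset.sum_le_sum fun j _ => (hwd i j).le
      _ = p * (τ / (p + 1)) := by simp
      _ ≤ τ := by
        rw [mul_div_assoc', div_le_iff₀ hp1]
        nlinarith

end Hop
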