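import Pool.Agent.Helper360.Hop.Defs

set_option maxHeartbeats 4000000

open scoped InnerProductSpace Topology ComplexConjugate
open Finset Filter

namespace Hop

variable {H : Type*} [NormedAddCommGroup H] [InnerProductSpace ℂ H] [CompleteSpace H]

/-- thin intervals -/
inductive ThinR2 (L : CSL H) (T : H →L[ℂ] H) (ε : ℝ) : (H →L[ℂ] H) → (H →L[ℂ] H) → Prop
  | refl (A : H →L[ℂ] H) (hA : A ∈ L.carrier) : ThinR2 L T ε A A
  | step (A B C : H →L[ℂ] H) (hA : A ∈ L.carrier) (hB : B ∈ L.carrier) (hAB : A * B = A)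
      (hε : ‖(B - A) * T * (B - A)‖ < ε) (h : ThinR2 L T ε B C) : ThinR2 L T ε A C

theorem ThinR2.trans {L : CSL H} {T : H →L[ℂ] H} {ε : ℝ} {A B C : H →L[ℂ] H}
    (h : ThinR2 L T ε A B) (h' : ThinR2 L T ε B C) : ThinR2 L T ε A C := by
  induction h with
  | refl A hA => exact h'
  | step A B C hA hB hAB hε h ih => exact ThinR2.step A B _ hA hB hAB hε (ih h')

theorem ThinR2.chain {L : CSL H} {T : H →L[ℂ] H} {ε : ℝ} {A B : H →L[ℂ] H}
    (h : ThinR2 L T ε A B) : ∃ (N : ℕ) (D : ℕ → (H →L[ℂ] H)), (∀ k, D k ∈ L.carrier) ∧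
      (∀ k, D k * D (k + 1) = D k) ∧ D 0 = A ∧ D N = B ∧
      ∀ k < N, ‖blk D k * T * blk D k‖ < ε := by
  induction h with
  | refl A hA =>
    exact ⟨0, fun _ => A, fun _ => hA, fun _ => mul_self_proj (L.proj _ hA), rfl, rfl,
      fun k hk => absurd hk (Nat.not_lt_zero k)⟩
  | step A B C hA hB hAB hε h ih =>
    obtain ⟨N, D, h1, h2, h3, h4, h5⟩ := ih
    refine ⟨N + 1, fun k => Nat.casesOn k A D, ?_, ?_, rfl, h4, ?_⟩
    · intro k
      cases k with
      | zero => exact hA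
      | succ k => exact h1 k
    · intro k
      cases k with
      | zero =>
        show A * D 0 = A
        rw [h3]; exact hAB
      | succ k => exact h2 k
    · intro k hk
      cases k with
      | zero =>
        show ‖(D 0 - A) * T * (D 0 - A)‖ < ε
        rw [h3]; exact hε
      | succ k => exact h5 k (by omega)

theorem exists_decR2 (L : CSL H) (T : H →L[ℂ] H) (ε : ℝ) (hthin : ¬ ThinR2 L T ε 0 1)
    (s : Finset {P // P ∈ L.carrier}) : ∃ M₂ M₁ : H →L[ℂ] H, M₂ ∈ L.carrier ∧ M₁ ∈ L.carrier ∧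
      M₂ * M₁ = M₂ ∧ ¬ ThinR2 L T ε M₂ M₁ ∧
      ∀ P ∈ s, (M₁ - M₂) * P.1 = M₁ - M₂ ∨ (M₁ - M₂) * P.1 = 0 := by
  classical
  induction s using Finset.induction_on with
  | empty => exact ⟨0, 1, L.zero_mem, L.one_mem, by simp, hthin, by simp⟩
  | insert P s hP ih =>
    obtain ⟨M₂, M₁, h2, h1, h21, hnt, hdec⟩ := ih
    obtain ⟨P, hPL⟩ := P
    have hPP : P * P = P := mul_self_proj (L.proj P hPL)
    have h22 : M₂ * M₂ = M₂ := mul_self_proj (L.proj _ h2)
    have h11 : M₁ * M₁ = M₁ := mul_self_proj (L.proj _ h1)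
    have hc1 : P * M₁ = M₁ * P := L.comm _ hPL _ h1
    have hmid : M₂ + M₁ * P - M₂ * (M₁ * P) ∈ L.carrier :=
      L.sup_mem _ h2 _ (L.inf_mem _ h1 _ hPL)
    have e0 : M₂ * (M₁ * P) = M₂ * P := by rw [← mul_assoc, h21]
    rw [e0] at hmid
    set mid := M₂ + M₁ * P - M₂ * P with hm
    have e1 : M₂ * mid = M₂ := by
      rw [hm, mul_sub, mul_add, h22, e0, ← mul_assoc, h22]; abel
    have e2 : mid * M₁ = mid := by
      rw [hm, sub_mul, add_mul, h21, mul_assoc M₁ P, hc1, ← mul_assoc, h11, mul_assoc M₂ P, hc1,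
        ← mul_assoc, h21]
    have e3 : mid - M₂ = (M₁ - M₂) * P := by
      rw [hm, sub_mul]; abel
    have e4 : M₁ - mid = (M₁ - M₂) - (M₁ - M₂) * P := by
      rw [hm, sub_mul]; abel
    have hcomm : ∀ Q ∈ L.carrier, P * Q = Q * P := fun Q hQ => L.comm _ hPL _ hQ
    by_cases ht : ThinR2 L T ε M₂ mid
    · refine ⟨mid, M₁, hmid, h1, e2, fun h => hnt (ht.trans h), ?_⟩
      intro Q hQ
      rcases Finset.mem_insert.1 hQ with rfl | hQ
      · right
        simp only
        rw [e4, sub_mul, mul_assoc, hPP, sub_self]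
      · rcases hdec Q hQ with h | h
        · left
          rw [e4, sub_mul, mul_assoc, hcomm _ Q.2, ← mul_assoc, h]
        · right
          rw [e4, sub_mul, mul_assoc, hcomm _ Q.2, ← mul_assoc, h, zero_mul, sub_zero]
    · refine ⟨M₂, mid, h2, hmid, e1, ht, ?_⟩
      intro Q hQ
      rcases Finset.mem_insert.1 hQ with rfl | hQ
      · left
        simp only
        rw [e3, mul_assoc, hPP]
      · rcases hdec Q hQ with h | h
        · left
          rw [e3, mul_assoc, hcomm _ Q.2, ← mul_assoc, h]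
        · right
          rw [e3, mul_assoc, hcomm _ Q.2, ← mul_assoc, h, zero_mul]

theorem norm_projR2 {J : H →L[ℂ] H} (h : IsStarProjection J) : ‖J‖ ≤ 1 := by
  have h1 : ‖J‖ * ‖J‖ = ‖J‖ := by
    have := CStarRing.norm_star_mul_self (x := J)
    rw [star_proj h, mul_self_proj h] at this
    exact this.symm
  by_contra hcon
  push Not at hcon
  nlinarith

/- ================= TARGET ================= -/
/-- compactness of `Hom(L,2)` -/
theorem compact_hom (L : CSL H) (T : H →L[ℂ] H) (ε : ℝ)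
    (h : ∀ φ, IsHom2 L φ → ∃ E, InPhi L φ E ∧ ‖E * T * E‖ < ε) :
    ∃ (N : ℕ) (D : ℕ → (H →L[ℂ] H)), IsChn L N D ∧ ∀ k < N, ‖blk D k * T * blk D k‖ < ε := by
  classical
  by_cases hthin : ThinR2 L T ε 0 1
  · obtain ⟨N, D, h1, h2, h3, h4, h5⟩ := hthin.chain
    exact ⟨N, D, ⟨h1, h2, h3, h4⟩, h5⟩
  exfalso
  choose M₂ M₁ h2 h1 h21 hnt hdec using exists_decR2 L T ε hthin
  let U : Ultrafilter (Finset {P // P ∈ L.carrier}) := Ultrafilter.of atTop
  have hU : (U : Filter (Finset {P // P ∈ L.carrier})) ≤ atTop := Ultrafilter.of_le _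
  have hmem : ∀ P ∈ L.carrier, ∀ᶠ s in (U : Filter _), (M₁ s - M₂ s) * P = M₁ s - M₂ s ∨
      (M₁ s - M₂ s) * P = 0 := by
    intro P hP
    have h3 : ∀ᶠ s : Finset {P // P ∈ L.carrier} in atTop, ({⟨P, hP⟩} : Finset _) ≤ s :=
      eventually_ge_atTop _
    filter_upwards [hU h3] with s hs
    exact hdec s ⟨P, hP⟩ (hs (Finset.mem_singleton_self _))
  have hne : ∀ s, M₁ s - M₂ s ≠ 0 := by
    intro s hs
    apply hnt s
    rw [sub_eq_zero] at hs
    rw [hs]
    exact ThinR2.refl _ (h2 s)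
  let φ : (H →L[ℂ] H) → Prop := fun P => ∀ᶠ s in (U : Filter _), (M₁ s - M₂ s) * P = M₁ s - M₂ s
  have hφ : IsHom2 L φ := by
    refine ⟨?_, ?_, ?_, ?_⟩
    · exact Eventually.of_forall fun s => mul_one _
    · intro h0
      obtain ⟨s, hs⟩ := h0.exists
      rw [mul_zero] at hs
      exact hne s hs.symm
    · intro P hP Q hQ
      have hc : P * Q = Q * P := L.comm P hP Q hQ
      constructor
      · intro h3
        constructor
        · filter_upwards [h3, hmem P hP] with s hs hs2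
          rcases hs2 with h4 | h4
          · exact h4
          · rw [← mul_assoc, h4, zero_mul] at hs
            exact absurd hs.symm (hne s)
        · filter_upwards [h3, hmem Q hQ] with s hs hs2
          rcases hs2 with h4 | h4
          · exact h4
          · rw [hc, ← mul_assoc, h4, zero_mul] at hs
            exact absurd hs.symm (hne s)
      · rintro ⟨h3, h4⟩
        filter_upwards [h3, h4] with s hs hs2
        rw [← mul_assoc, hs, hs2]
    · intro P hP Q hQ
      have hc : P * Q = Q * P := L.comm P hP Q hQ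
      constructor
      · intro h3
        show (∀ᶠ s in (U : Filter _), (M₁ s - M₂ s) * P = M₁ s - M₂ s) ∨
          (∀ᶠ s in (U : Filter _), (M₁ s - M₂ s) * Q = M₁ s - M₂ s)
        rw [← Ultrafilter.eventually_or]
        filter_upwards [h3, hmem P hP, hmem Q hQ] with s hs hs2 hs3
        rcases hs2 with h4 | h4
        · exact Or.inl h4
        rcases hs3 with h5 | h5
        · exact Or.inr h5
        rw [mul_sub, mul_add, h4, h5, ← mul_assoc, h4, zero_mul, add_zero, sub_zero] at hs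
        exact absurd hs.symm (hne s)
      · rintro (h3 | h3)
        · filter_upwards [h3] with s hs
          rw [mul_sub, mul_add, ← mul_assoc, hs]; abel
        · filter_upwards [h3] with s hs
          rw [hc, mul_sub, mul_add, ← mul_assoc, hs]; abel
  obtain ⟨E, ⟨N₁, hN₁, N₂, hN₂, -, hφ1, hφ2, rfl⟩, hE⟩ := h φ hφ
  have hφ2' : ∀ᶠ s in (U : Filter _), (M₁ s - M₂ s) * N₂ = 0 := by
    have h3 : ∀ᶠ s in (U : Filter _), ¬ (M₁ s - M₂ s) * N₂ = M₁ s - M₂ s :=
      Ultrafilter.eventually_not.2 hφ2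
    filter_upwards [h3, hmem N₂ hN₂] with s hs hs2
    exact hs2.resolve_left hs
  obtain ⟨s, hs1, hs2⟩ := (hφ1.and hφ2').exists
  set J := M₁ s - M₂ s with hJ
  have hJE : J * (N₁ - N₂) = J := by rw [mul_sub, hs1, hs2, sub_zero]
  have hJc : ∀ Q ∈ L.carrier, J * Q = Q * J := by
    intro Q hQ
    rw [hJ, sub_mul, mul_sub, L.comm _ (h1 s) _ hQ, L.comm _ (h2 s) _ hQ]
  have hEJ : (N₁ - N₂) * J = J := by
    rw [sub_mul, ← hJc _ hN₁, ← hJc _ hN₂, hs1, hs2, sub_zero]
  have hJp : IsStarProjection J := (L.proj _ (h2 s)).sub_of_mul_eq_left (L.proj _ (h1 s)) (h21 s)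
  have hJn := norm_projR2 hJp
  apply hnt s
  refine ThinR2.step _ (M₁ s) _ (h2 s) (h1 s) (h21 s) ?_ (ThinR2.refl _ (h1 s))
  rw [← hJ]
  have e : J * T * J = J * ((N₁ - N₂) * T * (N₁ - N₂)) * J := by
    calc J * T * J = (J * (N₁ - N₂)) * T * ((N₁ - N₂) * J) := by rw [hJE, hEJ]
      _ = J * ((N₁ - N₂) * T * (N₁ - N₂)) * J := by noncomm_ring
  rw [e]
  calc ‖J * ((N₁ - N₂) * T * (N₁ - N₂)) * J‖ ≤ ‖J‖ * ‖(N₁ - N₂) * T * (N₁ - N₂)‖ * ‖J‖ :=
        (norm_mul_le _ _).trans (mul_le_mul_of_nonneg_right (norm_mul_le _ _) (norm_nonneg _))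
    _ ≤ 1 * ‖(N₁ - N₂) * T * (N₁ - N₂)‖ * 1 := by
        gcongr
    _ < ε := by rw [one_mul, mul_one]; exact hE

end Hop
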