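import Pool.Agent.Helper360.Hop.Defs
import Pool.Agent.Helper360.Hop.Refl
set_option maxHeartbeats 4000000

open scoped InnerProductSpace Topology ComplexConjugate
open Finset Filter

namespace Hop

variable {H : Type*} [NormedAddCommGroup H] [InnerProductSpace ℂ H] [CompleteSpace H]

theorem corner_exists_proj (L : CSL H) (V : Submodule ℂ H)
    (hV : ∀ S ∈ AlgL L, ∀ v ∈ V, S v ∈ V) :
    ∃ D ∈ L.carrier, (∀ v ∈ V, D v = v) ∧
      (∀ R : H →L[ℂ] H, (∀ v ∈ V, R v = 0) → R * D = 0) := by
  have hcl : ∀ S ∈ AlgL L, ∀ v ∈ V.topologicalClosure, S v ∈ V.topologicalClosure := by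
    intro S hS v hv
    have : Set.MapsTo (fun x => S x) (V : Set H) (V : Set H) := fun x hx => hV S hS x hx
    have h2 := this.closure S.continuous
    exact h2 hv
  have : CompleteSpace V.topologicalClosure :=
    (Submodule.isClosed_topologicalClosure V).completeSpace_coe
  refine ⟨V.topologicalClosure.starProjection, ?_, ?_, ?_⟩
  · refine reflexive L _ isStarProjection_starProjection ?_
    intro S hS
    ext x
    have h1 : V.topologicalClosure.starProjection x ∈ V.topologicalClosure :=
      Submodule.starProjection_apply_mem _ x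
    have h2 := hcl S hS _ h1
    have h3 := Submodule.starProjection_eq_self_iff.mpr h2
    simp [sub_mul, h3]
  · intro v hv
    exact Submodule.starProjection_eq_self_iff.mpr (Submodule.le_topologicalClosure V hv)
  · intro R hR
    ext x
    have h1 : V.topologicalClosure.starProjection x ∈ V.topologicalClosure :=
      Submodule.starProjection_apply_mem _ x
    have h2 : V.topologicalClosure ≤ LinearMap.ker (R : H →ₗ[ℂ] H) := by
      apply Submodule.topologicalClosure_minimal
      · intro v hv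
        simpa using hR v hv
      · exact R.isClosed_ker
    have h3 := h2 h1
    simpa [ContinuousLinearMap.mul_apply] using h3

theorem corner_norm_zero {W : H →L[ℂ] H} (C : ℝ)
    (h : ∀ ε > 0, ∃ m₀ : ℕ, ∀ m ≥ m₀, ‖(W * star W) ^ (m + 1)‖ ≤ C * ε ^ m) : W = 0 := by
  by_contra hW
  have hr : 0 < ‖W * star W‖ := by
    rw [CStarRing.norm_self_mul_star]
    have : 0 < ‖W‖ := norm_pos_iff.mpr hW
    positivity
  set r := ‖W * star W‖ with hrdef
  obtain ⟨m₀, hm⟩ := h (r / 2) (by positivity)
  have hsa : IsSelfAdjoint (W * star W) := IsSelfAdjoint.mul_star_self W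
  -- for all n large: r^(2^n) ≤ C (r/2)^(2^n-1)
  have key : ∀ n : ℕ, m₀ ≤ n → r * 2 ^ (2 ^ n - 1) ≤ C := by
    intro n hn
    have h1 : n < 2 ^ n := Nat.lt_two_pow_self
    have h2 := hm (2 ^ n - 1) (by omega)
    have h3 : 2 ^ n - 1 + 1 = 2 ^ n := by omega
    rw [h3] at h2
    have h4 : ‖(W * star W) ^ (2 ^ n)‖ = r ^ (2 ^ n) := by
      have := hsa.nnnorm_pow_two_pow n
      have h5 := congrArg NNReal.toReal this
      simpa using h5
    rw [h4] at h2
    have h6 : r ^ (2 ^ n) = r * r ^ (2 ^ n - 1) := by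
      rw [← pow_succ', h3]
    rw [h6, div_pow] at h2
    have h7 : 0 < r ^ (2 ^ n - 1) := by positivity
    have h8 : (0 : ℝ) < 2 ^ (2 ^ n - 1) := by positivity
    rw [mul_div_assoc'] at h2
    rw [le_div_iff₀ h8] at h2
    have h9 : r * 2 ^ (2 ^ n - 1) * r ^ (2 ^ n - 1) ≤ C * r ^ (2 ^ n - 1) := by
      nlinarith [h2]
    exact le_of_mul_le_mul_right h9 h7
  obtain ⟨k, hk⟩ := pow_unbounded_of_one_lt (C / r) (by norm_num : (1 : ℝ) < 2)
  have h10 := key (max m₀ (k + 1)) (le_max_left _ _)
  have h11 : k ≤ 2 ^ (max m₀ (k + 1)) - 1 := by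
    have : max m₀ (k + 1) < 2 ^ (max m₀ (k + 1)) := Nat.lt_two_pow_self
    have h12 : k + 1 ≤ max m₀ (k + 1) := le_max_right _ _
    omega
  have h13 : (2 : ℝ) ^ k ≤ 2 ^ (2 ^ (max m₀ (k + 1)) - 1) :=
    pow_le_pow_right₀ (by norm_num) h11
  rw [div_lt_iff₀ hr] at hk
  nlinarith

theorem corner (L : CSL H) (T : H →L[ℂ] H) (hT : T ∈ AlgL L)
    (hq : ∀ S ∈ AlgL L, ∀ ε > 0, ∃ m₀ : ℕ, ∀ m ≥ m₀, ‖(T * S) ^ m‖ ≤ ε ^ m)
    (φ : (H →L[ℂ] H) → Prop) (hφ : IsHom2 L φ)
    (P : H →L[ℂ] H) (hP : IsStarProjection P)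
    (hPφ : ∀ D ∈ L.carrier, (φ D → D * P = P) ∧ (¬ φ D → D * P = 0)) :
    ∃ E, InPhi L φ E ∧ P * T * E = 0 ∧ E * T * P = 0 := by
  by_cases hP0 : P = 0
  · refine ⟨1, ⟨1, L.one_mem, 0, L.zero_mem, by simp, hφ.one, hφ.zero, by simp⟩, ?_, ?_⟩ <;>
      simp [hP0]
  have hPP : P * P = P := mul_self_proj hP
  have hPs : star P = P := star_proj hP
  have hPD : ∀ D ∈ L.carrier, (φ D → P * D = P) ∧ (¬ φ D → P * D = 0) := by
    intro D hD
    have hDs := star_proj (L.proj D hD)
    refine ⟨fun h => ?_, fun h => ?_⟩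
    · have := congrArg star ((hPφ D hD).1 h)
      rwa [star_mul, hPs, hDs] at this
    · have := congrArg star ((hPφ D hD).2 h)
      rwa [star_mul, hPs, hDs, star_zero] at this
  have hcom : ∀ X : H →L[ℂ] H, P * X * P ∈ ComL L := by
    intro X D hD
    by_cases h : φ D
    · calc D * (P * X * P) = (D * P) * X * P := by noncomm_ring
        _ = P * X * (P * D) := by rw [(hPφ D hD).1 h, (hPD D hD).1 h]
        _ = P * X * P * D := by noncomm_ring
    · calc D * (P * X * P) = (D * P) * X * P := by noncomm_ring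
        _ = P * X * (P * D) := by rw [(hPφ D hD).2 h, (hPD D hD).2 h]; simp
        _ = P * X * P * D := by noncomm_ring
  have hPn : ‖P‖ ≤ 1 := by
    have h1 : ‖P‖ * ‖P‖ = ‖P‖ := by
      have := CStarRing.norm_self_mul_star (x := P)
      rw [hPs, hPP] at this
      exact this.symm
    nlinarith [norm_nonneg P, mul_self_nonneg (‖P‖ - 1)]
  -- Step 1
  have step1 : ∀ S ∈ AlgL L, P * T * S * P = 0 := by
    intro S hS
    set W := P * T * S * P with hWdef
    have hPW : P * W = W := by
      rw [hWdef, ← mul_assoc, ← mul_assoc, ← mul_assoc, hPP]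
    have hWP : W * P = W := by
      rw [hWdef, mul_assoc _ P P, hPP]
    have hsWP : star W * P = star W := by
      have := congrArg star hPW
      rwa [star_mul, hPs] at this
    have hPsW : P * star W = star W := by
      have := congrArg star hWP
      rwa [star_mul, hPs] at this
    set S' := S * (P * star W * P) with hS'def
    have hS' : S' ∈ AlgL L := AlgL_mul L hS (ComL_sub_AlgL L (hcom _))
    have hpow : ∀ m : ℕ, P * (T * S') ^ (m + 1) = (W * star W) ^ (m + 1) := by
      have h1 : P * (T * S') = W * star W := by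
        rw [hS'def, hPsW, hsWP, hWdef]
        have : P * T * S * P * star W = P * T * S * (P * star W) := by noncomm_ring
        rw [this, hPsW]; noncomm_ring
      intro m
      induction m with
      | zero => simpa using h1
      | succ n ih =>
        rw [pow_succ (T * S'), ← mul_assoc, ih, pow_succ (W * star W) (n + 1)]
        have h2 : (W * star W) ^ (n + 1) = (W * star W) ^ (n + 1) * P := by
          rw [pow_succ, mul_assoc ((W * star W) ^ n) (W * star W) P, mul_assoc W (star W) P, hsWP]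
        calc (W * star W) ^ (n + 1) * (T * S')
            = (W * star W) ^ (n + 1) * P * (T * S') := by rw [← h2]
          _ = (W * star W) ^ (n + 1) * (P * (T * S')) := by rw [mul_assoc]
          _ = (W * star W) ^ (n + 1) * (W * star W) := by rw [h1]
    apply corner_norm_zero (‖P‖ * 1)
    intro ε hε
    obtain ⟨m₀, hm⟩ := hq S' hS' (min ε 1) (by positivity)
    refine ⟨m₀, fun m hmm => ?_⟩
    rw [← hpow m]
    have hlt : (0:ℝ) < min ε 1 := by positivity
    calc ‖P * (T * S') ^ (m + 1)‖ ≤ ‖P‖ * ‖(T * S') ^ (m + 1)‖ := norm_mul_le _ _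
      _ ≤ ‖P‖ * (min ε 1) ^ (m + 1) :=
          mul_le_mul_of_nonneg_left (hm (m + 1) (by omega)) (norm_nonneg _)
      _ ≤ ‖P‖ * (min ε 1) ^ m := by
          apply mul_le_mul_of_nonneg_left _ (norm_nonneg _)
          exact pow_le_pow_of_le_one hlt.le (min_le_right _ _) (Nat.le_succ m)
      _ ≤ ‖P‖ * ε ^ m := by
          apply mul_le_mul_of_nonneg_left _ (norm_nonneg _)
          exact pow_le_pow_left₀ hlt.le (min_le_left _ _) m
      _ = ‖P‖ * 1 * ε ^ m := by ring
  -- Step 2
  have step2 : ∀ S ∈ AlgL L, P * S * T * P = 0 := by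
    intro S hS
    set W := P * S * T * P with hWdef
    have hPW : P * W = W := by
      rw [hWdef, ← mul_assoc, ← mul_assoc, ← mul_assoc, hPP]
    have hWP : W * P = W := by
      rw [hWdef, mul_assoc _ P P, hPP]
    have hsWP : star W * P = star W := by
      have := congrArg star hPW
      rwa [star_mul, hPs] at this
    have hPsW : P * star W = star W := by
      have := congrArg star hWP
      rwa [star_mul, hPs] at this
    set S' := (P * star W * P) * S with hS'def
    have hS' : S' ∈ AlgL L := AlgL_mul L (ComL_sub_AlgL L (hcom _)) hS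
    have hS'2 : S' = star W * S := by rw [hS'def, hPsW, hsWP]
    have hpow : ∀ m : ℕ, P * S * (T * S') ^ m * (T * star W) = (W * star W) ^ (m + 1) := by
      have h0 : P * S * T * star W = W * star W := by
        rw [hWdef]
        have : P * S * T * P * star W = P * S * T * (P * star W) := by noncomm_ring
        rw [this, hPsW]
      intro m
      induction m with
      | zero =>
        rw [pow_zero, mul_one, zero_add, pow_one, ← mul_assoc, h0]
      | succ n ih =>
        calc P * S * (T * S') ^ (n + 1) * (T * star W)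
            = P * S * (T * S') ^ n * (T * S') * (T * star W) := by
              rw [pow_succ]; noncomm_ring
          _ = P * S * (T * S') ^ n * (T * (star W * S)) * (T * star W) := by rw [hS'2]
          _ = (P * S * (T * S') ^ n * (T * star W)) * (S * T * star W) := by noncomm_ring
          _ = (W * star W) ^ (n + 1) * (S * T * star W) := by rw [ih]
          _ = (W * star W) ^ (n + 1) * P * (S * T * star W) := by
              have h2 : (W * star W) ^ (n + 1) = (W * star W) ^ (n + 1) * P := by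
                rw [pow_succ, mul_assoc ((W * star W) ^ n) (W * star W) P,
                  mul_assoc W (star W) P, hsWP]
              rw [← h2]
          _ = (W * star W) ^ (n + 1) * (P * S * T * star W) := by noncomm_ring
          _ = (W * star W) ^ (n + 1 + 1) := by rw [h0, ← pow_succ]
    apply corner_norm_zero (‖P * S‖ * ‖T * star W‖)
    intro ε hε
    obtain ⟨m₀, hm⟩ := hq S' hS' ε hε
    refine ⟨m₀, fun m hmm => ?_⟩
    rw [← hpow m]
    calc ‖P * S * (T * S') ^ m * (T * star W)‖
        ≤ ‖P * S * (T * S') ^ m‖ * ‖T * star W‖ := norm_mul_le _ _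
      _ ≤ (‖P * S‖ * ‖(T * S') ^ m‖) * ‖T * star W‖ :=
          mul_le_mul_of_nonneg_right (norm_mul_le _ _) (norm_nonneg _)
      _ ≤ (‖P * S‖ * ε ^ m) * ‖T * star W‖ :=
          mul_le_mul_of_nonneg_right
            (mul_le_mul_of_nonneg_left (hm m hmm) (norm_nonneg _)) (norm_nonneg _)
      _ = ‖P * S‖ * ‖T * star W‖ * ε ^ m := by ring
  -- the two projections
  obtain ⟨D1, hD1, hD1v, hD1R⟩ := corner_exists_proj L
    (Submodule.span ℂ {x | ∃ S ∈ AlgL L, ∃ y, x = S (P y)}) (by
      intro S hS v hv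
      have : Submodule.span ℂ {x | ∃ S ∈ AlgL L, ∃ y, x = S (P y)} ≤
          (Submodule.span ℂ {x | ∃ S ∈ AlgL L, ∃ y, x = S (P y)}).comap (S : H →ₗ[ℂ] H) := by
        rw [Submodule.span_le]
        rintro x ⟨S₁, hS₁, y, rfl⟩
        exact Submodule.subset_span ⟨S * S₁, AlgL_mul L hS hS₁, y, rfl⟩
      exact this hv)
  obtain ⟨D2, hD2, hD2v, hD2R⟩ := corner_exists_proj L
    (Submodule.span ℂ {x | ∃ S ∈ AlgL L, ∃ y, x = S (T (P y))}) (by
      intro S hS v hv
      have : Submodule.span ℂ {x | ∃ S ∈ AlgL L, ∃ y, x = S (T (P y))} ≤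
          (Submodule.span ℂ {x | ∃ S ∈ AlgL L, ∃ y, x = S (T (P y))}).comap
            (S : H →ₗ[ℂ] H) := by
        rw [Submodule.span_le]
        rintro x ⟨S₁, hS₁, y, rfl⟩
        exact Submodule.subset_span ⟨S * S₁, AlgL_mul L hS hS₁, y, rfl⟩
      exact this hv)
  have hPTD1 : P * T * D1 = 0 := by
    apply hD1R
    intro v hv
    have : Submodule.span ℂ {x | ∃ S ∈ AlgL L, ∃ y, x = S (P y)} ≤
        LinearMap.ker ((P * T : H →L[ℂ] H) : H →ₗ[ℂ] H) := by
      rw [Submodule.span_le]
      rintro x ⟨S₁, hS₁, y, rfl⟩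
      have h1 := congrArg (fun R : H →L[ℂ] H => R y) (step1 S₁ hS₁)
      simpa [ContinuousLinearMap.mul_apply] using h1
    simpa using this hv
  have hPD2 : P * D2 = 0 := by
    apply hD2R
    intro v hv
    have : Submodule.span ℂ {x | ∃ S ∈ AlgL L, ∃ y, x = S (T (P y))} ≤
        LinearMap.ker (P : H →ₗ[ℂ] H) := by
      rw [Submodule.span_le]
      rintro x ⟨S₁, hS₁, y, rfl⟩
      have h1 := congrArg (fun R : H →L[ℂ] H => R y) (step2 S₁ hS₁)
      simpa [ContinuousLinearMap.mul_apply] using h1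
    simpa using this hv
  have hD1P : D1 * P = P := by
    ext y
    have := hD1v (P y) (Submodule.subset_span ⟨1, AlgL_one L, y, rfl⟩)
    simpa [ContinuousLinearMap.mul_apply] using this
  have hD2TP : D2 * T * P = T * P := by
    ext y
    have := hD2v (T (P y)) (Submodule.subset_span ⟨1, AlgL_one L, y, rfl⟩)
    simpa [ContinuousLinearMap.mul_apply] using this
  have hφ1 : φ D1 := by
    by_contra h
    have := (hPφ D1 hD1).2 h
    rw [hD1P] at this
    exact hP0 this
  have hφ2 : ¬ φ D2 := by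
    intro h
    have := (hPD D2 hD2).1 h
    rw [hPD2] at this
    exact hP0 this.symm
  refine ⟨D1 - D1 * D2, ⟨D1, hD1, D1 * D2, L.inf_mem _ hD1 _ hD2, ?_, hφ1, ?_, rfl⟩, ?_, ?_⟩
  · rw [mul_assoc, L.comm D2 hD2 D1 hD1, ← mul_assoc, mul_self_proj (L.proj _ hD1)]
  · intro h
    exact hφ2 ((hφ.inf _ hD1 _ hD2).1 h).2
  · rw [mul_sub, hPTD1, ← mul_assoc, hPTD1]; simp
  · calc (D1 - D1 * D2) * T * P = D1 * (T * P) - D1 * (D2 * T * P) := by noncomm_ring
      _ = 0 := by rw [hD2TP, sub_self]

end Hop
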