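import Pool.Agent.Helper360.Hop.Base

set_option maxHeartbeats 4000000

open scoped InnerProductSpace Topology ComplexConjugate
open Finset Filter

namespace Hop

variable {H : Type*} [NormedAddCommGroup H] [InnerProductSpace ℂ H] [CompleteSpace H]

/-- V/W property -/
def VW (L : CSL H) (T : H →L[ℂ] H) (δ : ℝ) (r : ℕ) : Prop :=
  ∀ (N : ℕ) (D : ℕ → (H →L[ℂ] H)), IsChn L N D → ∃ F : ℕ → (H →L[ℂ] H), IsChn L r F ∧
    ∀ a < r, (∀ k < N, ‖blk F a * blk D k * T * blk D k * blk F a‖ ≤ δ) ∨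
      (∀ R ∈ Cross L N D, blk F a * R * blk F a = 0)

/-- chains of length `N` with small blocks -/
def Good (L : CSL H) (T : H →L[ℂ] H) (δ : ℝ) (N : ℕ) : Prop :=
  ∃ D : ℕ → (H →L[ℂ] H), IsChn L N D ∧ ∀ k < N, ‖blk D k * T * blk D k‖ ≤ δ

/-- antichain projections -/
def Anti (L : CSL H) (Q : H →L[ℂ] H) : Prop := ∀ R ∈ AlgL L, Q * R * Q ∈ ComL L

/-- `Alg L` as a subalgebra of `B(H)` -/
def algL (L : CSL H) : Subalgebra ℂ (H →L[ℂ] H) where
  carrier := AlgL L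
  mul_mem' := fun ha hb => AlgL_mul L ha hb
  add_mem' := fun ha hb => AlgL_add L ha hb
  algebraMap_mem' := fun r => by
    rw [Algebra.algebraMap_eq_smul_one]; exact AlgL_smul L r (AlgL_one L)

end Hop
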