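import Pool.Agent.Helper360.Hop.Defs

set_option maxHeartbeats 4000000

open scoped InnerProductSpace Topology ComplexConjugate
open Finset Filter

namespace Hop

variable {H : Type*} [NormedAddCommGroup H] [InnerProductSpace ℂ H] [CompleteSpace H]

theorem R3_compl_norm {P : H →L[ℂ] H} (hP : IsStarProjection P) : ‖1 - P‖ ≤ 1 :=
  hP.one_sub.norm_le

/-- if `V ∈ Alg L`, `‖V‖ < 1` and `(1 + V) W = 1` then `W ∈ Alg L` -/
theorem R3_inv_mem (L : CSL H) {V W : H →L[ℂ] H} (hV : V ∈ AlgL L) (hn : ‖V‖ < 1)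
    (hW : (1 + V) * W = 1) : W ∈ AlgL L := by
  intro P hP
  have hPP := mul_self_proj (L.proj P hP)
  have h1 := hV P hP
  set X := (1 - P) * W * P with hX
  have h2 : (1 - P) * (1 + V) * X = 0 := by
    have e1 : (1 - P) * (1 + V) * ((1 - P) * W * P)
        = (1 - P) * ((1 + V) * W) * P - ((1 - P) * P) * W * P - ((1 - P) * V * P) * W * P := by
      noncomm_ring
    have e2 : (1 - P) * P = 0 := by rw [sub_mul, one_mul, hPP, sub_self]
    rw [hX, e1, hW, h1, mul_one, e2]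
    simp
  have h3 : (1 - P) * X = X := by
    have e2 : (1 - P) * (1 - P) = 1 - P := by
      rw [mul_sub, mul_one, sub_mul, one_mul, hPP]; abel
    calc (1 - P) * X = ((1 - P) * (1 - P)) * W * P := by rw [hX]; noncomm_ring
      _ = X := by rw [e2]
  have h4 : X = -((1 - P) * V * X) := by
    have e1 : (1 - P) * (1 + V) * X = (1 - P) * X + (1 - P) * V * X := by noncomm_ring
    rw [e1, h3] at h2
    exact eq_neg_of_add_eq_zero_left h2
  have h5 : ‖X‖ ≤ ‖V‖ * ‖X‖ := by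
    calc ‖X‖ = ‖(1 - P) * V * X‖ := by
          conv_lhs => rw [h4]
          rw [norm_neg]
      _ ≤ ‖(1 - P) * V‖ * ‖X‖ := norm_mul_le _ _
      _ ≤ (‖1 - P‖ * ‖V‖) * ‖X‖ := mul_le_mul_of_nonneg_right (norm_mul_le _ _) (norm_nonneg _)
      _ ≤ (1 * ‖V‖) * ‖X‖ := by
          apply mul_le_mul_of_nonneg_right _ (norm_nonneg _)
          exact mul_le_mul_of_nonneg_right (R3_compl_norm (L.proj P hP)) (norm_nonneg _)
      _ = ‖V‖ * ‖X‖ := by rw [one_mul]
  have h6 : ‖X‖ = 0 := by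
    have := norm_nonneg X
    nlinarith
  exact norm_eq_zero.1 h6

theorem R3_step (L : CSL H) {N : ℕ} {D : ℕ → (H →L[ℂ] H)} (hD : IsChn L N D) {U : H →L[ℂ] H}
    (hU : U ∈ AlgL L) (k : ℕ) (hn : ‖blk D k * U * blk D k‖ < 1) {Z : H →L[ℂ] H}
    (hZ : Z ∈ AlgL L) (h : Z * (1 + U) * D k = D k) :
    ∃ Z' ∈ AlgL L, Z' * (1 + U) * D (k + 1) = D (k + 1) := by
  set E := blk D k with hE
  have hEp := blk_proj hD k
  have hEE : E * E = E := mul_self_proj hEp
  have hEA : E ∈ AlgL L := ComL_sub_AlgL L (BiComL_sub_ComL L (blk_mem_BiComL hD k))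
  set V := E * U * E with hV
  have hVA : V ∈ AlgL L := AlgL_mul L (AlgL_mul L hEA hU) hEA
  have hEV : E * V = V := by
    rw [hV, ← mul_assoc, ← mul_assoc, hEE]
  have hVE : V * E = V := by
    rw [hV, mul_assoc, hEE]
  -- the inverse of 1 + V
  obtain ⟨W, hW1, hW2⟩ : ∃ W : H →L[ℂ] H, (1 + V) * W = 1 ∧ W * (1 + V) = 1 := by
    have hn' : ‖-V‖ < 1 := by rw [norm_neg]; exact hn
    have hval : ((Units.oneSub (-V) hn' : (H →L[ℂ] H)ˣ) : H →L[ℂ] H) = 1 + V := by
      show 1 - (-V) = 1 + V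
      rw [sub_neg_eq_add]
    refine ⟨(((Units.oneSub (-V) hn')⁻¹ : (H →L[ℂ] H)ˣ) : H →L[ℂ] H), ?_, ?_⟩
    · have := (Units.oneSub (-V) hn').mul_inv
      rw [hval] at this
      exact this
    · have := (Units.oneSub (-V) hn').inv_mul
      rw [hval] at this
      exact this
  have hWA : W ∈ AlgL L := R3_inv_mem L hVA hn hW1
  set Y := E * W * E with hY
  have hYA : Y ∈ AlgL L := AlgL_mul L (AlgL_mul L hEA hWA) hEA
  have hDk : D k * E = 0 := by
    rw [hE, blk, mul_sub, hD.mono, mul_self_proj (L.proj _ (hD.mem k)), sub_self]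
  have hDk' : E * D k = 0 := by
    rw [hE, blk, sub_mul, chn_mul' hD (Nat.le_succ k), mul_self_proj (L.proj _ (hD.mem k)), sub_self]
  have hD1 : D (k + 1) = D k + E := by rw [hE, blk]; abel
  have hUD : U * D k = D k * U * D k := (AlgL_iff L U).1 hU _ (hD.mem k)
  have hYD : Y * (1 + U) * D k = 0 := by
    have e1 : Y * (1 + U) * D k = Y * D k + Y * (U * D k) := by noncomm_ring
    have e2 : Y * D k = 0 := by
      rw [hY, mul_assoc, hDk', mul_zero]
    rw [e1, hUD, e2, zero_add]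
    calc Y * (D k * U * D k) = (Y * D k) * U * D k := by noncomm_ring
      _ = 0 := by rw [e2]; simp
  have hYE : Y * (1 + U) * E = E := by
    have e1 : Y * (1 + U) * E = E * W * (E * E + E * U * E) := by
      rw [hY]; noncomm_ring
    have e2 : E * E + E * U * E = (1 + V) * E := by
      rw [hEE, add_mul, one_mul, hVE]
    rw [e1, e2]
    calc E * W * ((1 + V) * E) = E * (W * (1 + V)) * E := by noncomm_ring
      _ = E := by rw [hW2, mul_one, hEE]
  have hYD1 : Y * (1 + U) * D (k + 1) = E := by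
    rw [hD1, mul_add, hYD, hYE, zero_add]
  refine ⟨Z + Y - Z * (1 + U) * Y, ?_, ?_⟩
  · exact AlgL_sub L (AlgL_add L hZ hYA)
      (AlgL_mul L (AlgL_mul L hZ (AlgL_add L (AlgL_one L) hU)) hYA)
  · have e1 : (Z + Y - Z * (1 + U) * Y) * (1 + U) * D (k + 1)
        = Z * (1 + U) * D (k + 1) + Y * (1 + U) * D (k + 1)
          - Z * (1 + U) * (Y * (1 + U) * D (k + 1)) := by noncomm_ring
    rw [e1, hYD1, hD1, mul_add, h]
    abel

theorem R3_inv (L : CSL H) {N : ℕ} {D : ℕ → (H →L[ℂ] H)} (hD : IsChn L N D) {U : H →L[ℂ] H}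
    (hU : U ∈ AlgL L) (hn : ∀ k < N, ‖blk D k * U * blk D k‖ < 1) :
    ∃ Z ∈ AlgL L, Z * (1 + U) = 1 := by
  have key : ∀ k ≤ N, ∃ Z ∈ AlgL L, Z * (1 + U) * D k = D k := by
    intro k
    induction k with
    | zero => intro _; exact ⟨0, AlgL_zero L, by rw [hD.zero]; simp⟩
    | succ k ih =>
      intro hk
      obtain ⟨Z, hZ, h⟩ := ih (by omega)
      exact R3_step L hD hU k (hn k (by omega)) hZ h
  obtain ⟨Z, hZ, h⟩ := key N le_rfl
  rw [hD.top, mul_one] at h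
  exact ⟨Z, hZ, h⟩

/-- multiplicativity of the diagonal blocks -/
theorem R3_blk_mul (L : CSL H) {N : ℕ} {D : ℕ → (H →L[ℂ] H)} (hD : IsChn L N D)
    {S T : H →L[ℂ] H} (hS : S ∈ AlgL L) (hT : T ∈ AlgL L) (k : ℕ) :
    blk D k * (S * T) * blk D k = (blk D k * S * blk D k) * (blk D k * T * blk D k) := by
  set E := blk D k with hE
  have hEE : E * E = E := mul_self_proj (blk_proj hD k)
  have hDk' : E * D k = 0 := by
    rw [hE, blk, sub_mul, chn_mul' hD (Nat.le_succ k), mul_self_proj (L.proj _ (hD.mem k)), sub_self]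
  have hD1 : D (k + 1) = D k + E := by rw [hE, blk]; abel
  have hTD : T * D (k + 1) = D (k + 1) * T * D (k + 1) := (AlgL_iff L T).1 hT _ (hD.mem (k + 1))
  have hSD : S * D k = D k * S * D k := (AlgL_iff L S).1 hS _ (hD.mem k)
  have hDE : D (k + 1) * E = E := by
    rw [hE, blk, mul_sub, mul_self_proj (L.proj _ (hD.mem (k + 1))), chn_mul' hD (Nat.le_succ k)]
  have hTE : T * E = D (k + 1) * T * E := by
    calc T * E = (T * D (k + 1)) * E := by rw [mul_assoc, hDE]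
      _ = D (k + 1) * T * (D (k + 1) * E) := by rw [hTD]; noncomm_ring
      _ = D (k + 1) * T * E := by rw [hDE]
  have hESD : E * S * D k = 0 := by
    rw [mul_assoc, hSD]
    calc E * (D k * S * D k) = (E * D k) * S * D k := by noncomm_ring
      _ = 0 := by rw [hDk']; simp
  calc E * (S * T) * E = E * S * (T * E) := by noncomm_ring
    _ = E * S * (D (k + 1) * T * E) := by rw [← hTE]
    _ = (E * S * D k) * T * E + E * S * E * T * E := by rw [hD1]; noncomm_ring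
    _ = E * S * (E * E) * T * E := by rw [hESD, hEE]; simp
    _ = (E * S * E) * (E * T * E) := by noncomm_ring

/- ================= TARGET ================= -/
theorem easy_inclusion (L : CSL H) (T : algL L)
    (h : ∀ ε > 0, ∃ (N : ℕ) (D : ℕ → (H →L[ℂ] H)), IsChn L N D ∧
      ∀ k < N, ‖blk D k * (T : H →L[ℂ] H) * blk D k‖ < ε) : T ∈ Ring.jacobson (algL L) := by
  rw [← Ideal.jacobson_bot, Ideal.mem_jacobson_iff]
  intro S
  have hSA : (S : H →L[ℂ] H) ∈ AlgL L := S.2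
  have hTA : (T : H →L[ℂ] H) ∈ AlgL L := T.2
  have hpos : (0:ℝ) < 1 / (‖(S : H →L[ℂ] H)‖ + 1) := by positivity
  obtain ⟨N, D, hD, hb⟩ := h _ hpos
  have hn : ∀ k < N, ‖blk D k * ((S : H →L[ℂ] H) * (T : H →L[ℂ] H)) * blk D k‖ < 1 := by
    intro k hk
    rw [R3_blk_mul L hD hSA hTA k]
    have hE : ‖blk D k‖ ≤ 1 := (blk_proj hD k).norm_le
    have h1 : ‖blk D k * (S : H →L[ℂ] H) * blk D k‖ ≤ ‖(S : H →L[ℂ] H)‖ := by
      calc ‖blk D k * (S : H →L[ℂ] H) * blk D k‖ ≤ ‖blk D k * (S : H →L[ℂ] H)‖ * ‖blk D k‖ :=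
            norm_mul_le _ _
        _ ≤ (‖blk D k‖ * ‖(S : H →L[ℂ] H)‖) * ‖blk D k‖ :=
            mul_le_mul_of_nonneg_right (norm_mul_le _ _) (norm_nonneg _)
        _ ≤ (1 * ‖(S : H →L[ℂ] H)‖) * 1 := by gcongr
        _ = ‖(S : H →L[ℂ] H)‖ := by ring
    have h2 := hb k hk
    calc ‖(blk D k * (S : H →L[ℂ] H) * blk D k) * (blk D k * (T : H →L[ℂ] H) * blk D k)‖
        ≤ ‖blk D k * (S : H →L[ℂ] H) * blk D k‖ * ‖blk D k * (T : H →L[ℂ] H) * blk D k‖ :=
          norm_mul_le _ _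
      _ ≤ ‖(S : H →L[ℂ] H)‖ * (1 / (‖(S : H →L[ℂ] H)‖ + 1)) :=
          mul_le_mul h1 h2.le (norm_nonneg _) (norm_nonneg _)
      _ < 1 := by
          rw [mul_one_div, div_lt_one (by positivity)]
          linarith
  obtain ⟨Z, hZ, hZ2⟩ := R3_inv L hD (AlgL_mul L hSA hTA) hn
  refine ⟨⟨Z, hZ⟩, ?_⟩
  rw [Ideal.mem_bot]
  apply Subtype.ext
  show Z * (S : H →L[ℂ] H) * (T : H →L[ℂ] H) + Z - 1 = 0
  rw [mul_add, mul_one] at hZ2
  rw [mul_assoc, add_comm, hZ2, sub_self]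

end Hop
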