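import Pool.Agent.Helper360.Hop.Defs

set_option maxHeartbeats 4000000

open scoped InnerProductSpace Topology ComplexConjugate
open Finset Filter

namespace Hop

variable {H : Type*} [NormedAddCommGroup H] [InnerProductSpace ℂ H] [CompleteSpace H]

/- ================= TARGET ================= -/
/-- pinching by one projection -/
def H1a_pin (P T : H →L[ℂ] H) : H →L[ℂ] H := P * T * P + (1 - P) * T * (1 - P)

theorem H1a_words (P T S : H →L[ℂ] H) (hPP : P * P = P) (hS : S * P = P * S * P) (m : ℕ) :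
    ∃ W : H →L[ℂ] H, P * W = W ∧
      ((H1a_pin P T + P * T * (1 - P)) * S) ^ m = (H1a_pin P T * S) ^ m + W ∧
      ((H1a_pin P T - P * T * (1 - P)) * S) ^ m = (H1a_pin P T * S) ^ m - W := by
  have hT'P : H1a_pin P T * P = P * T * P := by
    calc H1a_pin P T * P = P * T * (P * P) + (1 - P) * T * (P - P * P) := by
          unfold H1a_pin; noncomm_ring
      _ = P * T * P := by rw [hPP, sub_self, mul_zero, add_zero]
  have hSP : (1 - P) * (S * P) = 0 := by
    calc (1 - P) * (S * P) = (1 - P) * (P * S * P) := by rw [← hS]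
      _ = (P - P * P) * S * P := by noncomm_ring
      _ = 0 := by rw [hPP, sub_self, zero_mul, zero_mul]
  induction m with
  | zero => exact ⟨0, by simp, by simp, by simp⟩
  | succ m ih =>
    obtain ⟨W, hW, h1, h2⟩ := ih
    have h3 : H1a_pin P T * S * W = P * T * P * S * W := by
      calc H1a_pin P T * S * W = H1a_pin P T * S * (P * W) := by rw [hW]
        _ = H1a_pin P T * (S * P) * W := by noncomm_ring
        _ = H1a_pin P T * (P * S * P) * W := by rw [← hS]
        _ = (H1a_pin P T * P) * S * (P * W) := by noncomm_ring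
        _ = P * T * P * S * W := by rw [hT'P, hW]
    have h4 : P * T * (1 - P) * S * W = 0 := by
      calc P * T * (1 - P) * S * W = P * T * (1 - P) * S * (P * W) := by rw [hW]
        _ = P * T * ((1 - P) * (S * P)) * W := by noncomm_ring
        _ = 0 := by rw [hSP, mul_zero, zero_mul]
    refine ⟨H1a_pin P T * S * W + P * T * (1 - P) * S * (H1a_pin P T * S) ^ m, ?_, ?_, ?_⟩
    · rw [h3]
      calc P * (P * T * P * S * W + P * T * (1 - P) * S * (H1a_pin P T * S) ^ m)
          = (P * P) * T * P * S * W + (P * P) * T * (1 - P) * S * (H1a_pin P T * S) ^ m := by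
            noncomm_ring
        _ = _ := by rw [hPP]
    · rw [pow_succ', h1, pow_succ']
      calc (H1a_pin P T + P * T * (1 - P)) * S * ((H1a_pin P T * S) ^ m + W)
          = H1a_pin P T * S * (H1a_pin P T * S) ^ m + (H1a_pin P T * S * W +
              P * T * (1 - P) * S * (H1a_pin P T * S) ^ m) + P * T * (1 - P) * S * W := by
            noncomm_ring
        _ = _ := by rw [h4, add_zero]
    · rw [pow_succ', h2, pow_succ']
      calc (H1a_pin P T - P * T * (1 - P)) * S * ((H1a_pin P T * S) ^ m - W)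
          = H1a_pin P T * S * (H1a_pin P T * S) ^ m - (H1a_pin P T * S * W +
              P * T * (1 - P) * S * (H1a_pin P T * S) ^ m) + P * T * (1 - P) * S * W := by
            noncomm_ring
        _ = _ := by rw [h4, add_zero]

theorem H1a_pin_mem (L : CSL H) {P T : H →L[ℂ] H} (hP : P ∈ L.carrier) (hT : T ∈ AlgL L) :
    H1a_pin P T ∈ AlgL L := by
  have hPA : P ∈ AlgL L := ComL_sub_AlgL L (carrier_sub_ComL L hP)
  have hQA : 1 - P ∈ AlgL L := AlgL_sub L (AlgL_one L) hPA
  exact AlgL_add L (AlgL_mul L (AlgL_mul L hPA hT) hPA) (AlgL_mul L (AlgL_mul L hQA hT) hQA)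

theorem H1a_conj_pow (u A : H →L[ℂ] H) (hu : u * u = 1) (m : ℕ) : (u * A * u) ^ m = u * A ^ m * u := by
  induction m with
  | zero => simp [hu]
  | succ m ih =>
    rw [pow_succ, ih, pow_succ]
    calc u * A ^ m * u * (u * A * u) = u * A ^ m * (u * u) * A * u := by noncomm_ring
      _ = u * (A ^ m * A) * u := by rw [hu]; noncomm_ring

theorem H1a_FS_pin (L : CSL H) {P T : H →L[ℂ] H} (hP : P ∈ L.carrier) (hT : T ∈ AlgL L) (B ε : ℝ)
    (hFS : FS L T B ε) : FS L (H1a_pin P T) B ε := by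
  intro S hS hS1 m
  have hPP := mul_self_proj (L.proj P hP)
  have hPs := star_proj (L.proj P hP)
  have hSP := (AlgL_iff L S).1 hS P hP
  have hTP := (AlgL_iff L T).1 hT P hP
  obtain ⟨W, hW, h1, h2⟩ := H1a_words P T S hPP hSP m
  have hTX : H1a_pin P T + P * T * (1 - P) = T := by
    calc H1a_pin P T + P * T * (1 - P) = T + (P * T * P - T * P) := by
          unfold H1a_pin; noncomm_ring
      _ = T := by rw [← hTP, sub_self, add_zero]
  set u : H →L[ℂ] H := P + P - 1 with hu
  have hu2 : u * u = 1 := by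
    calc u * u = 4 • (P * P) - 4 • P + 1 := by rw [hu]; noncomm_ring
      _ = 1 := by rw [hPP, sub_self, zero_add]
  have hus : star u = u := by
    rw [hu, star_sub, star_add, hPs, star_one]
  have hun : ‖u‖ ≤ 1 := by
    have h3 : ‖star u * u‖ = ‖u‖ * ‖u‖ := CStarRing.norm_star_mul_self
    rw [hus, hu2] at h3
    have h4 : ‖(1 : H →L[ℂ] H)‖ ≤ 1 := ContinuousLinearMap.norm_id_le
    nlinarith [norm_nonneg u]
  have huT : u * T * u = H1a_pin P T - P * T * (1 - P) := by
    calc u * T * u = H1a_pin P T - P * T * (1 - P) + (P * T * P - T * P) := by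
          rw [hu]; unfold H1a_pin; noncomm_ring
      _ = _ := by rw [← hTP, sub_self, add_zero]
  have huA : u ∈ AlgL L := by
    have hPA : P ∈ AlgL L := ComL_sub_AlgL L (carrier_sub_ComL L hP)
    exact AlgL_sub L (AlgL_add L hPA hPA) (AlgL_one L)
  have hSu : u * S * u ∈ AlgL L := AlgL_mul L (AlgL_mul L huA hS) huA
  have hSu1 : ‖u * S * u‖ ≤ 1 := by
    calc ‖u * S * u‖ ≤ ‖u‖ * ‖S‖ * ‖u‖ := norm_mul₃_le
      _ ≤ 1 * 1 * 1 := by
          apply mul_le_mul _ hun (norm_nonneg _) (by norm_num)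
          exact mul_le_mul hun hS1 (norm_nonneg _) zero_le_one
      _ = 1 := by norm_num
  have hA := hFS S hS hS1 m
  have hA' := hFS (u * S * u) hSu hSu1 m
  have h5 : (u * T * u * S) ^ m = u * (T * (u * S * u)) ^ m * u := by
    rw [← H1a_conj_pow u _ hu2]
    congr 1
    calc u * T * u * S = u * T * u * S * (u * u) := by rw [hu2, mul_one]
      _ = u * (T * (u * S * u)) * u := by noncomm_ring
  have h6 : ‖(u * T * u * S) ^ m‖ ≤ B * ε ^ m := by
    rw [h5]
    calc ‖u * (T * (u * S * u)) ^ m * u‖ ≤ ‖u‖ * ‖(T * (u * S * u)) ^ m‖ * ‖u‖ := norm_mul₃_le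
      _ ≤ 1 * ‖(T * (u * S * u)) ^ m‖ * 1 := by
          apply mul_le_mul _ hun (norm_nonneg _) (by positivity)
          exact mul_le_mul_of_nonneg_right hun (norm_nonneg _)
      _ = ‖(T * (u * S * u)) ^ m‖ := by ring
      _ ≤ B * ε ^ m := hA'
  rw [hTX] at h1
  rw [← huT] at h2
  have h7 : (H1a_pin P T * S) ^ m = (1 / 2 : ℂ) • ((T * S) ^ m + (u * T * u * S) ^ m) := by
    rw [h1, h2, add_add_sub_cancel, ← two_smul ℂ, smul_smul]
    norm_num
  rw [h7, norm_smul]
  have h8 := norm_add_le ((T * S) ^ m) ((u * T * u * S) ^ m)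
  have h9 : ‖(1 / 2 : ℂ)‖ = 1 / 2 := by norm_num
  rw [h9]
  linarith

/-- partial pinchings -/
def H1a_T (D : ℕ → (H →L[ℂ] H)) (T : H →L[ℂ] H) (j : ℕ) : H →L[ℂ] H :=
  ∑ k ∈ range j, blk D k * T * blk D k + (1 - D j) * T * (1 - D j)

theorem H1a_T_succ {L : CSL H} {N : ℕ} {D : ℕ → (H →L[ℂ] H)} (hD : IsChn L N D) (T : H →L[ℂ] H) (j : ℕ) :
    H1a_T D T (j + 1) = H1a_pin (D (j + 1)) (H1a_T D T j) := by
  have hb : ∀ k, k < j → D (j + 1) * blk D k = blk D k := by
    intro k hk
    unfold blk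
    rw [mul_sub, chn_mul' hD (by omega : k + 1 ≤ j + 1), chn_mul' hD (by omega : k ≤ j + 1)]
  have hb' : ∀ k, k < j → blk D k * D (j + 1) = blk D k := by
    intro k hk
    unfold blk
    rw [sub_mul, chn_mul hD (by omega : k + 1 ≤ j + 1), chn_mul hD (by omega : k ≤ j + 1)]
  have h1 : D (j + 1) * (1 - D j) = blk D j := by
    rw [mul_sub, mul_one, chn_mul' hD (by omega : j ≤ j + 1)]; rfl
  have h1' : (1 - D j) * D (j + 1) = blk D j := by
    rw [sub_mul, one_mul, chn_mul hD (by omega : j ≤ j + 1)]; rfl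
  have h2 : (1 - D (j + 1)) * (1 - D j) = 1 - D (j + 1) := by
    calc (1 - D (j + 1)) * (1 - D j) = 1 - D (j + 1) - D j + D (j + 1) * D j := by noncomm_ring
      _ = _ := by rw [chn_mul' hD (by omega : j ≤ j + 1)]; abel
  have h2' : (1 - D j) * (1 - D (j + 1)) = 1 - D (j + 1) := by
    calc (1 - D j) * (1 - D (j + 1)) = 1 - D (j + 1) - D j + D j * D (j + 1) := by noncomm_ring
      _ = _ := by rw [chn_mul hD (by omega : j ≤ j + 1)]; abel
  have h3 : D (j + 1) * (∑ k ∈ range j, blk D k * T * blk D k) = ∑ k ∈ range j, blk D k * T * blk D k := by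
    rw [Finset.mul_sum]
    refine Finset.sum_congr rfl (fun k hk => ?_)
    rw [← mul_assoc, ← mul_assoc, hb k (Finset.mem_range.1 hk)]
  have h3' : (∑ k ∈ range j, blk D k * T * blk D k) * D (j + 1) = ∑ k ∈ range j, blk D k * T * blk D k := by
    rw [Finset.sum_mul]
    refine Finset.sum_congr rfl (fun k hk => ?_)
    rw [mul_assoc, hb' k (Finset.mem_range.1 hk)]
  unfold H1a_T H1a_pin
  rw [Finset.sum_range_succ]
  set SG := ∑ k ∈ range j, blk D k * T * blk D k with hSG
  have e1 : D (j + 1) * (SG + (1 - D j) * T * (1 - D j)) * D (j + 1)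
      = SG + blk D j * T * blk D j := by
    calc D (j + 1) * (SG + (1 - D j) * T * (1 - D j)) * D (j + 1)
        = (D (j + 1) * SG) * D (j + 1) + (D (j + 1) * (1 - D j)) * T * ((1 - D j) * D (j + 1)) := by
          noncomm_ring
      _ = _ := by rw [h3, h3', h1, h1']
  have e2 : (1 - D (j + 1)) * (SG + (1 - D j) * T * (1 - D j)) * (1 - D (j + 1))
      = (1 - D (j + 1)) * T * (1 - D (j + 1)) := by
    calc (1 - D (j + 1)) * (SG + (1 - D j) * T * (1 - D j)) * (1 - D (j + 1))
        = (SG - D (j + 1) * SG) * (1 - D (j + 1)) +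
            ((1 - D (j + 1)) * (1 - D j)) * T * ((1 - D j) * (1 - D (j + 1))) := by
          noncomm_ring
      _ = _ := by rw [h3, sub_self, zero_mul, zero_add, h2, h2']
  rw [e1, e2]

/-- H1a -/
theorem FS_bdiag (L : CSL H) (T : H →L[ℂ] H) (hT : T ∈ AlgL L) (B ε : ℝ) (hFS : FS L T B ε)
    (N : ℕ) (D : ℕ → (H →L[ℂ] H)) (hD : IsChn L N D) : FS L (bdiag N D T) B ε := by
  have key : ∀ j, H1a_T D T j ∈ AlgL L ∧ FS L (H1a_T D T j) B ε := by
    intro j
    induction j with
    | zero =>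
      have : H1a_T D T 0 = T := by
        unfold H1a_T
        rw [Finset.range_zero, Finset.sum_empty, hD.zero, sub_zero, one_mul, mul_one, zero_add]
      rw [this]
      exact ⟨hT, hFS⟩
    | succ j ih =>
      rw [H1a_T_succ hD T j]
      exact ⟨H1a_pin_mem L (hD.mem _) ih.1, H1a_FS_pin L (hD.mem _) ih.1 B ε ih.2⟩
  have h1 : H1a_T D T N = bdiag N D T := by
    unfold H1a_T bdiag
    rw [hD.top, sub_self, zero_mul, zero_mul, add_zero]
  rw [← h1]
  exact (key N).2

end Hop
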