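import Pool.Agent.Helper360.Hop.Defs
import Pool.Agent.Helper360.Hop.Wot
set_option maxHeartbeats 4000000

open scoped InnerProductSpace Topology ComplexConjugate
open Finset Filter

namespace Hop

variable {H : Type*} [NormedAddCommGroup H] [InnerProductSpace ℂ H] [CompleteSpace H]

/- ================= TARGET ================= -/

section S0aux

theorem S0_isp {L : CSL H} {φ : (H →L[ℂ] H) → Prop} {E : H →L[ℂ] H} (h : InPhi L φ E) :
    IsStarProjection E := by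
  obtain ⟨M₁, h1, M₂, h2, h12, -, -, rfl⟩ := h
  exact (L.proj _ h2).sub_of_mul_eq_left (L.proj _ h1) h12

theorem S0_com {L : CSL H} {φ : (H →L[ℂ] H) → Prop} {E : H →L[ℂ] H} (h : InPhi L φ E) :
    E ∈ ComL L := by
  obtain ⟨M₁, h1, M₂, h2, h12, -, -, rfl⟩ := h
  exact ComL_sub L (carrier_sub_ComL L h1) (carrier_sub_ComL L h2)

theorem S0_bicom {L : CSL H} {φ : (H →L[ℂ] H) → Prop} {E : H →L[ℂ] H} (h : InPhi L φ E) :
    ∀ S ∈ ComL L, S * E = E * S := by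
  obtain ⟨M₁, h1, M₂, h2, h12, -, -, rfl⟩ := h
  intro S hS
  rw [mul_sub, sub_mul, carrier_sub_BiComL L h1 S hS, carrier_sub_BiComL L h2 S hS]

theorem S0_comp {L : CSL H} {φ : (H →L[ℂ] H) → Prop} {E : H →L[ℂ] H} (h : InPhi L φ E)
    {A B : H →L[ℂ] H} (hA : A ∈ AlgL L) (hB : B ∈ AlgL L) :
    E * A * E * B * E = E * (A * B) * E := by
  obtain ⟨M₁, h1, M₂, h2, h12, -, -, hE⟩ := h
  have hc := L.comm _ h1 _ h2
  have h11 := mul_self_proj (L.proj _ h1)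
  have hE1 : E = M₁ * (1 - M₂) := by rw [hE, mul_sub, mul_one, hc, h12]
  have hM1E : M₁ * E = E := by
    rw [hE1, ← mul_assoc, h11]
  have e1 : E * A * M₂ = 0 := by
    have := hA M₂ h2
    calc E * A * M₂ = M₁ * ((1 - M₂) * A * M₂) := by rw [hE1]; noncomm_ring
      _ = 0 := by rw [this, mul_zero]
  have e2 : E * A * E = E * A * M₁ := by
    calc E * A * E = E * A * (M₁ - M₂) := by rw [← hE]
      _ = E * A * M₁ - E * A * M₂ := mul_sub _ _ _
      _ = E * A * M₁ := by rw [e1, sub_zero]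
  have hB1 := (AlgL_iff L B).mp hB M₁ h1
  have e3 : M₁ * B * E = B * E := by
    calc M₁ * B * E = M₁ * B * (M₁ * E) := by rw [hM1E]
      _ = (M₁ * B * M₁) * E := by noncomm_ring
      _ = B * M₁ * E := by rw [← hB1]
      _ = B * (M₁ * E) := by rw [mul_assoc]
      _ = B * E := by rw [hM1E]
  calc E * A * E * B * E = E * A * M₁ * B * E := by rw [e2]
    _ = E * A * (M₁ * B * E) := by noncomm_ring
    _ = E * A * (B * E) := by rw [e3]
    _ = E * (A * B) * E := by noncomm_ring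

theorem S0_mul {L : CSL H} {φ : (H →L[ℂ] H) → Prop} (hφ : IsHom2 L φ) {E F : H →L[ℂ] H}
    (hE : InPhi L φ E) (hF : InPhi L φ F) : InPhi L φ (E * F) := by
  obtain ⟨M₁, h1, M₂, h2, h12, p1, p2, rfl⟩ := hE
  obtain ⟨N₁, k1, N₂, k2, k12, q1, q2, rfl⟩ := hF
  have c1 := L.comm _ h1 _ h2
  have c2 := L.comm _ k1 _ k2
  have c3 := L.comm _ h1 _ k1
  have c4 := L.comm _ h1 _ k2
  have c5 := L.comm _ h2 _ k1
  have c6 := L.comm _ h2 _ k2
  have i1 := mul_self_proj (L.proj _ h1)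
  have i2 := mul_self_proj (L.proj _ h2)
  have i3 := mul_self_proj (L.proj _ k1)
  have i4 := mul_self_proj (L.proj _ k2)
  have g1 : (M₁ * N₂) * (M₂ * N₁) = M₂ * N₂ := by
    calc (M₁ * N₂) * (M₂ * N₁) = M₁ * (N₂ * M₂) * N₁ := by noncomm_ring
      _ = M₁ * (M₂ * N₂) * N₁ := by rw [c6]
      _ = (M₁ * M₂) * (N₂ * N₁) := by noncomm_ring
      _ = M₂ * N₂ := by rw [c1, h12, k12]
  have g2 : (M₁ * N₂) * (M₁ * N₁) = M₁ * N₂ := by
    calc (M₁ * N₂) * (M₁ * N₁) = M₁ * (N₂ * M₁) * N₁ := by noncomm_ring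
      _ = M₁ * (M₁ * N₂) * N₁ := by rw [c4]
      _ = (M₁ * M₁) * (N₂ * N₁) := by noncomm_ring
      _ = M₁ * N₂ := by rw [i1, k12]
  have g3 : (M₂ * N₁) * (M₁ * N₁) = M₂ * N₁ := by
    calc (M₂ * N₁) * (M₁ * N₁) = M₂ * (N₁ * M₁) * N₁ := by noncomm_ring
      _ = M₂ * (M₁ * N₁) * N₁ := by rw [c3]
      _ = (M₂ * M₁) * (N₁ * N₁) := by noncomm_ring
      _ = M₂ * N₁ := by rw [h12, i3]
  have g4 : (M₂ * N₂) * (M₁ * N₁) = M₂ * N₂ := by
    calc (M₂ * N₂) * (M₁ * N₁) = M₂ * (N₂ * M₁) * N₁ := by noncomm_ring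
      _ = M₂ * (M₁ * N₂) * N₁ := by rw [c4]
      _ = (M₂ * M₁) * (N₂ * N₁) := by noncomm_ring
      _ = M₂ * N₂ := by rw [h12, k12]
  refine ⟨M₁ * N₁, L.inf_mem _ h1 _ k1, M₁ * N₂ + M₂ * N₁ - (M₁ * N₂) * (M₂ * N₁),
    L.sup_mem _ (L.inf_mem _ h1 _ k2) _ (L.inf_mem _ h2 _ k1), ?_, ?_, ?_, ?_⟩
  · rw [g1, sub_mul, add_mul, g2, g3, g4]
  · exact (hφ.inf _ h1 _ k1).mpr ⟨p1, q1⟩
  · rw [hφ.sup _ (L.inf_mem _ h1 _ k2) _ (L.inf_mem _ h2 _ k1), hφ.inf _ h1 _ k2,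
      hφ.inf _ h2 _ k1]
    rintro (⟨-, h⟩ | ⟨h, -⟩)
    · exact q2 h
    · exact p2 h
  · rw [g1]
    noncomm_ring

theorem S0_opn {Q : H →L[ℂ] H} (h : IsStarProjection Q) (x : H) : ‖Q x‖ ≤ ‖x‖ := by
  calc ‖Q x‖ ≤ ‖Q‖ * ‖x‖ := Q.le_opNorm x
    _ ≤ 1 * ‖x‖ := mul_le_mul_of_nonneg_right h.norm_le (norm_nonneg x)
    _ = ‖x‖ := one_mul _

theorem S0_con {A : H →L[ℂ] H} (h : ‖A‖ ≤ 1) (x : H) : ‖A x‖ ≤ ‖x‖ := by
  calc ‖A x‖ ≤ ‖A‖ * ‖x‖ := A.le_opNorm x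
    _ ≤ 1 * ‖x‖ := mul_le_mul_of_nonneg_right h (norm_nonneg x)
    _ = ‖x‖ := one_mul _

theorem S0_small {L : CSL H} {φ : (H →L[ℂ] H) → Prop} (hφ : IsHom2 L φ) {P : H →L[ℂ] H}
    (hPE : ∀ E, InPhi L φ E → E * P = P)
    (hPlim : ∀ x : H, ∀ η > 0, ∃ E, InPhi L φ E ∧ ‖(E - P) x‖ < η)
    {E : H →L[ℂ] H} (hE : InPhi L φ E) {η : ℝ} (hη : 0 < η) (s : Finset H) :
    ∃ E', InPhi L φ E' ∧ E' * E = E' ∧ ∀ x ∈ s, ‖(E' - P) x‖ < η := by
  classical
  induction s using Finset.induction_on with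
  | empty => exact ⟨E, hE, mul_self_proj (S0_isp hE), by simp⟩
  | insert a s ha ih =>
    obtain ⟨E', hE', hEE', hs⟩ := ih
    obtain ⟨E'', hE'', ha''⟩ := hPlim a η hη
    refine ⟨E'' * E', S0_mul hφ hE'' hE', by rw [mul_assoc, hEE'], ?_⟩
    have hcomm : E'' * E' = E' * E'' := (S0_bicom hE' E'' (S0_com hE''))
    intro x hx
    rcases Finset.mem_insert.mp hx with rfl | hx
    · have e1 : E'' * E' - P = E' * (E'' - P) := by
        rw [mul_sub, hPE E' hE', hcomm]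
      rw [e1, mul_apply_eq_comp]
      exact (S0_opn (S0_isp hE') _).trans_lt ha''
    · have e1 : E'' * E' - P = E'' * (E' - P) := by
        rw [mul_sub, hPE E'' hE'']
      rw [e1, mul_apply_eq_comp]
      exact (S0_opn (S0_isp hE'') _).trans_lt (hs x hx)

/-- claim A -/
theorem S0_claimA (L : CSL H) (T : H →L[ℂ] H) (hT1 : ‖T‖ ≤ 1)
    (X : H →L[ℂ] H) (hX : IsStarProjection X) (hXA : X ∈ AlgL L) (ε : ℝ) (hε : 0 < ε)
    (hneg : ∀ B > 0, ¬ FS L (X * T * X) B ε) (B : ℝ) (hB : 0 < B) :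
    ∃ S ∈ AlgL L, ‖S‖ ≤ 1 ∧ S = X * S * X ∧ ∃ k : ℕ, ∃ ξ : H, ‖ξ‖ ≤ 1 ∧
      B * ε ^ (k + 1) < ‖((T * S) ^ (k + 1)) ξ‖ := by
  by_contra hcon
  push Not at hcon
  have hXX := mul_self_proj hX
  have hXn := hX.norm_le
  have hcon' : ∀ S ∈ AlgL L, ‖S‖ ≤ 1 → S = X * S * X → ∀ k : ℕ,
      ‖(T * S) ^ (k + 1)‖ ≤ B * ε ^ (k + 1) := by
    intro S hS hS1 hSX k
    refine ContinuousLinearMap.opNorm_le_bound _ (by positivity) (fun x => ?_)
    by_cases hx : x = 0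
    · rw [hx, map_zero, norm_zero, mul_zero]
    have hx' : 0 < ‖x‖ := norm_pos_iff.mpr hx
    have h1 := hcon S hS hS1 hSX k (((‖x‖⁻¹ : ℝ) : ℂ) • x) (by
      rw [norm_smul, Complex.norm_real, norm_inv, norm_norm, inv_mul_cancel₀ hx'.ne'])
    rw [map_smul, norm_smul, Complex.norm_real, norm_inv, norm_norm] at h1
    rwa [inv_mul_le_iff₀ hx', mul_comm ‖x‖] at h1
  refine hneg (B / ε + 1 / ε + 1) (by positivity) ?_
  intro S hS hS1 m
  set S' := X * S * X with hS'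
  have hS'A : S' ∈ AlgL L := AlgL_mul L (AlgL_mul L hXA hS) hXA
  have hS'1 : ‖S'‖ ≤ 1 := by
    calc ‖X * S * X‖ ≤ ‖X * S‖ * ‖X‖ := norm_mul_le _ _
      _ ≤ (‖X‖ * ‖S‖) * ‖X‖ := mul_le_mul_of_nonneg_right (norm_mul_le _ _) (norm_nonneg _)
      _ ≤ (1 * 1) * 1 := by
          apply mul_le_mul _ hXn (norm_nonneg _) (by norm_num)
          exact mul_le_mul hXn hS1 (norm_nonneg _) (by norm_num)
      _ = 1 := by norm_num
  have hS'X : S' = X * S' * X := by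
    rw [hS']
    calc X * S * X = (X * X) * S * (X * X) := by rw [hXX]
      _ = X * (X * S * X) * X := by noncomm_ring
  have hform : ∀ k : ℕ, (X * T * X * S) ^ (k + 1) = X * (T * S') ^ k * (T * X * S) := by
    intro k
    induction k with
    | zero => simp only [pow_zero, pow_one, zero_add]; noncomm_ring
    | succ n ih =>
      rw [pow_succ, ih, pow_succ (T * S') n]
      rw [hS']
      calc X * (T * (X * S * X)) ^ n * (T * X * S) * (X * T * X * S)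
          = X * (T * (X * S * X)) ^ n * (T * (X * S * X)) * (T * X * S) := by noncomm_ring
        _ = _ := by noncomm_ring
  rcases m with _ | m
  · rw [pow_zero, pow_zero, mul_one]
    have h1 : ‖(1 : H →L[ℂ] H)‖ ≤ 1 := ContinuousLinearMap.norm_id_le
    have : 0 < B / ε + 1 / ε := by positivity
    linarith
  · rw [hform]
    have h2 : ‖T * X * S‖ ≤ 1 := by
      calc ‖T * X * S‖ ≤ ‖T * X‖ * ‖S‖ := norm_mul_le _ _
        _ ≤ (‖T‖ * ‖X‖) * ‖S‖ := mul_le_mul_of_nonneg_right (norm_mul_le _ _) (norm_nonneg _)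
        _ ≤ (1 * 1) * 1 := by
            apply mul_le_mul _ hS1 (norm_nonneg _) (by norm_num)
            exact mul_le_mul hT1 hXn (norm_nonneg _) (by norm_num)
        _ = 1 := by norm_num
    have h3 : ‖X * (T * S') ^ m * (T * X * S)‖ ≤ ‖(T * S') ^ m‖ := by
      calc ‖X * (T * S') ^ m * (T * X * S)‖ ≤ ‖X * (T * S') ^ m‖ * ‖T * X * S‖ := norm_mul_le _ _
        _ ≤ (‖X‖ * ‖(T * S') ^ m‖) * ‖T * X * S‖ :=
            mul_le_mul_of_nonneg_right (norm_mul_le _ _) (norm_nonneg _)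
        _ ≤ (1 * ‖(T * S') ^ m‖) * 1 := by
            apply mul_le_mul _ h2 (norm_nonneg _) (by positivity)
            exact mul_le_mul_of_nonneg_right hXn (norm_nonneg _)
        _ = _ := by ring
    refine h3.trans ?_
    have hpow : 0 < ε ^ (m + 1) := by positivity
    rcases m with _ | m
    · rw [pow_zero]
      have h1 : ‖(1 : H →L[ℂ] H)‖ ≤ 1 := ContinuousLinearMap.norm_id_le
      refine h1.trans ?_
      have h5 : (B / ε + 1 / ε + 1) * ε ^ (0 + 1) = B + 1 + ε := by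
        rw [zero_add, pow_one, add_mul, add_mul, div_mul_cancel₀ _ hε.ne',
          div_mul_cancel₀ _ hε.ne', one_mul]
      rw [h5]
      linarith
    · refine (hcon' S' hS'A hS'1 hS'X m).trans ?_
      have h5 : (B / ε + 1 / ε + 1) * ε ^ (m + 1 + 1) =
          B * ε ^ (m + 1) + ε ^ (m + 1) + ε ^ (m + 1 + 1) := by
        have q1 : B / ε * ε = B := div_mul_cancel₀ _ hε.ne'
        have q2 : 1 / ε * ε = 1 := div_mul_cancel₀ _ hε.ne'
        calc (B / ε + 1 / ε + 1) * ε ^ (m + 1 + 1)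
            = (B / ε * ε) * ε ^ (m + 1) + (1 / ε * ε) * ε ^ (m + 1) + ε ^ (m + 1 + 1) := by ring
          _ = _ := by rw [q1, q2, one_mul]
      rw [h5]
      have : 0 < ε ^ (m + 1) := by positivity
      linarith

/-- perturbation -/
theorem S0_pert (T S E E' P R : H →L[ℂ] H) (hT1 : ‖T‖ ≤ 1) (hS1 : ‖S‖ ≤ 1) (hR1 : ‖R‖ ≤ 1)
    (hE : IsStarProjection E) (hE' : IsStarProjection E') (hEE : E' * E = E')
    (hPP : P * P = P) (hEP : E * P = P) (hPE : P * E = P) (hE'P : E' * P = P) (hPE' : P * E' = P)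
    (hS : S = (E - P) * S * (E - P)) (hR : R = (E' - P) * R * (E' - P))
    (ξ : H) (η : ℝ) (hη : 0 ≤ η) (m : ℕ)
    (h1 : ∀ i < m, ‖(E' - P) (((T * S) ^ i) ξ)‖ ≤ η)
    (h2 : ∀ i < m, ‖(E' - P) (S (((T * S) ^ i) ξ))‖ ≤ η) :
    ∀ i ≤ m, ‖((T * ((E - E') * S * (E - E') + R)) ^ i) ξ - ((T * S) ^ i) ξ‖ ≤
      3 * η * (2 ^ i - 1) := by
  have hD : IsStarProjection (E - E') := hE'.sub_of_mul_eq_left hE hEE
  have hXX : (E - P) * (E - P) = E - P := by
    rw [mul_sub, sub_mul, sub_mul, mul_self_proj hE, hEP, hPE, hPP]; abel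
  have hXX' : (E' - P) * (E' - P) = E' - P := by
    rw [mul_sub, sub_mul, sub_mul, mul_self_proj hE', hE'P, hPE', hPP]; abel
  have hSX : S * (E - P) = S := by
    conv_lhs => rw [hS]
    rw [mul_assoc, hXX, ← hS]
  have hXS : (E - P) * S = S := by
    conv_lhs => rw [hS]
    rw [← mul_assoc, ← mul_assoc, hXX, ← hS]
  have hRX : R * (E' - P) = R := by
    conv_lhs => rw [hR]
    rw [mul_assoc, hXX', ← hR]
  have hDX : E - E' = (E - P) - (E' - P) := by abel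
  have hid : (E - E') * S * (E - E') + R - S =
      -((E' - P) * S) - (E - E') * S * (E' - P) + R * (E' - P) := by
    have e1 : S * (E - E') = S - S * (E' - P) := by
      conv_lhs => rw [hDX, mul_sub, hSX]
    have e2 : (E - E') * S = S - (E' - P) * S := by
      conv_lhs => rw [hDX, sub_mul, hXS]
    calc (E - E') * S * (E - E') + R - S
        = (E - E') * (S * (E - E')) + R - S := by rw [mul_assoc]
      _ = (E - E') * S - (E - E') * S * (E' - P) + R - S := by rw [e1, mul_sub, mul_assoc]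
      _ = S - (E' - P) * S - (E - E') * S * (E' - P) + R - S := by rw [← e2]
      _ = -((E' - P) * S) - (E - E') * S * (E' - P) + R * (E' - P) := by rw [hRX]; abel
  have hdiff : ∀ v : H, ‖((E - E') * S * (E - E') + R) v - S v‖ ≤
      ‖(E' - P) (S v)‖ + 2 * ‖(E' - P) v‖ := by
    intro v
    have e1 : ((E - E') * S * (E - E') + R) v - S v =
        -((E' - P) (S v)) - ((E - E') (S ((E' - P) v))) + R ((E' - P) v) := by
      have := congrArg (fun A : H →L[ℂ] H => A v) hid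
      simpa only [sub_apply, add_apply,
        neg_apply, mul_apply_eq_comp] using this
    rw [e1]
    have n1 : ‖(E - E') (S ((E' - P) v))‖ ≤ ‖(E' - P) v‖ :=
      (S0_opn hD _).trans (S0_con hS1 _)
    have n2 : ‖R ((E' - P) v)‖ ≤ ‖(E' - P) v‖ := S0_con hR1 _
    calc _ ≤ ‖-((E' - P) (S v)) - ((E - E') (S ((E' - P) v)))‖ + ‖R ((E' - P) v)‖ :=
          norm_add_le _ _
      _ ≤ ‖-((E' - P) (S v))‖ + ‖(E - E') (S ((E' - P) v))‖ + ‖R ((E' - P) v)‖ := by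
          gcongr; exact norm_sub_le _ _
      _ ≤ _ := by rw [norm_neg]; linarith
  have hS'n : ∀ v : H, ‖((E - E') * S * (E - E') + R) v‖ ≤ 2 * ‖v‖ := by
    intro v
    rw [add_apply]
    have n1 : ‖((E - E') * S * (E - E')) v‖ ≤ ‖v‖ := by
      rw [mul_apply_eq_comp, mul_apply_eq_comp]
      exact (S0_opn hD _).trans ((S0_con hS1 _).trans (S0_opn hD _))
    have n2 := S0_con hR1 v
    calc _ ≤ ‖((E - E') * S * (E - E')) v‖ + ‖R v‖ := norm_add_le _ _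
      _ ≤ _ := by linarith
  intro i
  induction i with
  | zero => intro _; simp
  | succ n ih =>
    intro hn
    have ih' := ih (by omega)
    set S' := (E - E') * S * (E - E') + R with hS'
    set u := ((T * S') ^ n) ξ with hu
    set x := ((T * S) ^ n) ξ with hx
    have e1 : ((T * S') ^ (n + 1)) ξ - ((T * S) ^ (n + 1)) ξ = T (S' (u - x) + (S' x - S x)) := by
      rw [pow_succ', pow_succ']
      simp only [mul_apply_eq_comp, map_sub, map_add]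
      rw [← hu, ← hx]
      abel
    rw [e1]
    have e2 := hdiff x
    have e3 := h1 n (by omega)
    have e4 := h2 n (by omega)
    calc ‖T (S' (u - x) + (S' x - S x))‖ ≤ ‖S' (u - x) + (S' x - S x)‖ := S0_con hT1 _
      _ ≤ ‖S' (u - x)‖ + ‖S' x - S x‖ := norm_add_le _ _
      _ ≤ 2 * ‖u - x‖ + (‖(E' - P) (S x)‖ + 2 * ‖(E' - P) x‖) := add_le_add (hS'n _) e2
      _ ≤ 2 * (3 * η * (2 ^ n - 1)) + (η + 2 * η) := by
          have : ‖(E' - P) x‖ ≤ η := e3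
          have : ‖(E' - P) (S x)‖ ≤ η := e4
          linarith
      _ = 3 * η * (2 ^ (n + 1) - 1) := by rw [pow_succ]; ring

theorem S0_step (L : CSL H) (T : H →L[ℂ] H) (hT1 : ‖T‖ ≤ 1)
    (φ : (H →L[ℂ] H) → Prop) (hφ : IsHom2 L φ)
    (P : H →L[ℂ] H) (hP : IsStarProjection P) (hPB : P ∈ BiComL L)
    (hPE : ∀ E, InPhi L φ E → E * P = P)
    (hPlim : ∀ x : H, ∀ η > 0, ∃ E, InPhi L φ E ∧ ‖(E - P) x‖ < η)
    (ε : ℝ) (hε : 0 < ε)
    (hneg : ∀ E, InPhi L φ E → ∀ B > 0, ¬ FS L ((E - P) * T * (E - P)) B ε)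
    (n : ℕ) (E : H →L[ℂ] H) (hE : InPhi L φ E) :
    ∃ (E' S : H →L[ℂ] H) (k : ℕ) (ξ : H), InPhi L φ E' ∧ E' * E = E' ∧ S ∈ AlgL L ∧ ‖S‖ ≤ 1 ∧
      n ≤ k ∧ ‖ξ‖ ≤ 1 ∧ ∀ R : H →L[ℂ] H, ‖R‖ ≤ 1 → R = (E' - P) * R * (E' - P) →
        ε ^ k < ‖((T * ((E - E') * S * (E - E') + R)) ^ (k + 1)) ξ‖ := by
  classical
  have hPE' : ∀ E, InPhi L φ E → P * E = P := fun E hE => by
    rw [← hPB E (S0_com hE)]; exact hPE E hE
  have hX : IsStarProjection (E - P) := hP.sub_of_mul_eq_left (S0_isp hE) (hPE' E hE)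
  have hXA : E - P ∈ AlgL L :=
    AlgL_sub L (ComL_sub_AlgL L (S0_com hE)) (ComL_sub_AlgL L (BiComL_sub_ComL L hPB))
  set b : ℝ := max 1 (1 / ε) with hb
  have hb1 : 1 ≤ b := le_max_left _ _
  have hbε : 1 ≤ b * ε := by
    have : 1 / ε ≤ b := le_max_right _ _
    rwa [div_le_iff₀ hε] at this
  have hb0 : 0 < b := by linarith
  obtain ⟨S, hSA, hS1, hSX, k, ξ, hξ, hbig⟩ := S0_claimA L T hT1 (E - P) hX hXA ε hε (hneg E hE)
    (b ^ (n + 1)) (by positivity)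
  have hTS : ‖T * S‖ ≤ 1 := by
    calc ‖T * S‖ ≤ ‖T‖ * ‖S‖ := norm_mul_le _ _
      _ ≤ 1 * 1 := mul_le_mul hT1 hS1 (norm_nonneg _) (by norm_num)
      _ = 1 := by norm_num
  have hle1 : ‖((T * S) ^ (k + 1)) ξ‖ ≤ 1 := by
    have h1 : ‖(T * S) ^ (k + 1)‖ ≤ 1 :=
      (norm_pow_le' _ (Nat.succ_pos k)).trans (pow_le_one₀ (norm_nonneg _) hTS)
    exact (S0_con h1 ξ).trans hξ
  have hnk : n ≤ k := by
    by_contra hlt
    have h1 : n + 1 = (n - k) + (k + 1) := by omega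
    have h2 : 1 ≤ b ^ (n + 1) * ε ^ (k + 1) := by
      rw [h1, pow_add, mul_assoc, ← mul_pow]
      exact one_le_mul_of_one_le_of_one_le (one_le_pow₀ hb1) (one_le_pow₀ hbε)
    linarith
  have hBε : ε ^ k ≤ b ^ (n + 1) * ε ^ (k + 1) := by
    have h1 : 1 ≤ b ^ n * (b * ε) := one_le_mul_of_one_le_of_one_le (one_le_pow₀ hb1) hbε
    have h2 : 0 < ε ^ k := by positivity
    calc ε ^ k = 1 * ε ^ k := (one_mul _).symm
      _ ≤ (b ^ n * (b * ε)) * ε ^ k := mul_le_mul_of_nonneg_right h1 h2.le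
      _ = _ := by rw [pow_succ, pow_succ]; ring
  set δ := ‖((T * S) ^ (k + 1)) ξ‖ - b ^ (n + 1) * ε ^ (k + 1) with hδ
  have hδ0 : 0 < δ := by linarith
  set η := δ / (3 * 2 ^ (k + 1)) with hη
  have hη0 : 0 < η := by positivity
  set s : Finset H := (Finset.range (k + 1)).image (fun i => ((T * S) ^ i) ξ) ∪
    (Finset.range (k + 1)).image (fun i => S (((T * S) ^ i) ξ)) with hs
  obtain ⟨E', hE', hEE, hsm⟩ := S0_small hφ hPE hPlim hE hη0 s
  refine ⟨E', S, k, ξ, hE', hEE, hSA, hS1, hnk, hξ, ?_⟩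
  intro R hR1 hR
  have hpert := S0_pert T S E E' P R hT1 hS1 hR1 (S0_isp hE) (S0_isp hE') hEE (mul_self_proj hP)
    (hPE E hE) (hPE' E hE) (hPE E' hE') (hPE' E' hE') hSX hR ξ η hη0.le (k + 1)
    (fun i hi => (hsm _ (by
      rw [hs]; exact Finset.mem_union_left _ (Finset.mem_image_of_mem _ (Finset.mem_range.mpr hi)))).le)
    (fun i hi => (hsm _ (by
      rw [hs]; exact Finset.mem_union_right _ (Finset.mem_image_of_mem (fun i => S (((T * S) ^ i) ξ))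
        (Finset.mem_range.mpr hi)))).le)
    (k + 1) le_rfl
  have h3 : 3 * η * (2 ^ (k + 1) - 1) < δ := by
    have h4 : 3 * η * 2 ^ (k + 1) = δ := by
      rw [hη]; field_simp
    have : 3 * η * (2 ^ (k + 1) - 1) = 3 * η * 2 ^ (k + 1) - 3 * η := by ring
    rw [this, h4]
    linarith
  set u := ((T * ((E - E') * S * (E - E') + R)) ^ (k + 1)) ξ with hu
  have h5 : ‖((T * S) ^ (k + 1)) ξ‖ ≤ ‖u‖ + ‖u - ((T * S) ^ (k + 1)) ξ‖ := by
    have := norm_sub_norm_le (((T * S) ^ (k + 1)) ξ) u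
    rw [norm_sub_rev] at this
    linarith
  linarith

theorem S0_wot {𝒰 : Ultrafilter ℕ} {K : ℕ → (H →L[ℂ] H)} {S : H →L[ℂ] H}
    (hlim : ∀ x y : H, Tendsto (fun n => ⟪K n x, y⟫_ℂ) 𝒰 (𝓝 ⟪S x, y⟫_ℂ))
    {A : H →L[ℂ] H} (hA : IsSelfAdjoint A) (B : H →L[ℂ] H) (x y : H) :
    Tendsto (fun n => ⟪(A * K n * B) x, y⟫_ℂ) 𝒰 (𝓝 ⟪(A * S * B) x, y⟫_ℂ) := by
  have h := hlim (B x) (A y)
  have e : ∀ Z : H →L[ℂ] H, ⟪(A * Z * B) x, y⟫_ℂ = ⟪Z (B x), A y⟫_ℂ := by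
    intro Z
    rw [mul_apply_eq_comp, mul_apply_eq_comp]
    exact hA.isSymmetric (Z (B x)) y
  simp only [e]
  exact h

theorem S0_wot_eq {𝒰 : Ultrafilter ℕ} {K : ℕ → (H →L[ℂ] H)} {S : H →L[ℂ] H}
    (hlim : ∀ x y : H, Tendsto (fun n => ⟪K n x, y⟫_ℂ) 𝒰 (𝓝 ⟪S x, y⟫_ℂ))
    {A A' : H →L[ℂ] H} (hA : IsSelfAdjoint A) (hA' : IsSelfAdjoint A') (B B' Q : H →L[ℂ] H)
    (hev : ∀ᶠ n in (𝒰 : Filter ℕ), A * K n * B = Q + A' * K n * B') :
    A * S * B = Q + A' * S * B' := by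
  apply ContinuousLinearMap.ext
  intro x
  apply ext_inner_right ℂ
  intro y
  have h1 := S0_wot hlim hA B x y
  have h2 := (S0_wot hlim hA' B' x y).const_add ⟪Q x, y⟫_ℂ
  have h3 : Tendsto (fun n => ⟪(A * K n * B) x, y⟫_ℂ) 𝒰
      (𝓝 (⟪Q x, y⟫_ℂ + ⟪(A' * S * B') x, y⟫_ℂ)) := by
    refine h2.congr' ?_
    filter_upwards [hev] with n hn
    rw [hn, add_apply, inner_add_left]
  rw [tendsto_nhds_unique h1 h3, add_apply, inner_add_left]

theorem S0_wot_zero {𝒰 : Ultrafilter ℕ} {K : ℕ → (H →L[ℂ] H)} {S : H →L[ℂ] H}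
    (hlim : ∀ x y : H, Tendsto (fun n => ⟪K n x, y⟫_ℂ) 𝒰 (𝓝 ⟪S x, y⟫_ℂ))
    {A : H →L[ℂ] H} (hA : IsSelfAdjoint A) (B : H →L[ℂ] H)
    (hev : ∀ n, A * K n * B = 0) : A * S * B = 0 := by
  have := S0_wot_eq hlim hA (IsSelfAdjoint.zero (H →L[ℂ] H)) B 0 0
    (Eventually.of_forall (fun n => by rw [hev n]; simp))
  rw [this]; simp

theorem S0_pow {L : CSL H} {φ : (H →L[ℂ] H) → Prop} {E : H →L[ℂ] H} (h : InPhi L φ E)
    {T S : H →L[ℂ] H} (hT : T ∈ AlgL L) (hS : S ∈ AlgL L) (k : ℕ) :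
    (T * (E * S * E)) ^ (k + 1) = T * (E * S * E) * (E * (T * S) ^ k * E) := by
  have hEE := mul_self_proj (S0_isp h)
  have hTS := AlgL_mul L hT hS
  induction k with
  | zero =>
    simp only [pow_zero, zero_add, pow_one, mul_one, hEE]
    calc T * (E * S * E) = T * (E * S * (E * E)) := by rw [hEE]
      _ = _ := by noncomm_ring
  | succ n ih =>
    rw [pow_succ, ih]
    have e1 := S0_comp h hT hS
    have e2 := S0_comp h (AlgL_pow L hTS n) hTS
    calc T * (E * S * E) * (E * (T * S) ^ n * E) * (T * (E * S * E))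
        = T * (E * S * E) * (E * (T * S) ^ n * (E * T * E * S * E)) := by noncomm_ring
      _ = T * (E * S * E) * (E * (T * S) ^ n * (E * (T * S) * E)) := by rw [e1]
      _ = T * (E * S * E) * (E * (T * S) ^ n * E * (T * S) * E) := by noncomm_ring
      _ = T * (E * S * E) * (E * ((T * S) ^ n * (T * S)) * E) := by rw [e2]
      _ = _ := by rw [← pow_succ]

end S0aux

theorem localise (L : CSL H) (T : H →L[ℂ] H) (hT : T ∈ AlgL L) (hT1 : ‖T‖ ≤ 1)
    (hq : ∀ S ∈ AlgL L, ∀ ε > 0, ∃ m₀ : ℕ, ∀ m ≥ m₀, ‖(T * S) ^ m‖ ≤ ε ^ m)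
    (φ : (H →L[ℂ] H) → Prop) (hφ : IsHom2 L φ)
    (P : H →L[ℂ] H) (hP : IsStarProjection P) (hPB : P ∈ BiComL L)
    (hPE : ∀ E, InPhi L φ E → E * P = P)
    (hPlim : ∀ x : H, ∀ η > 0, ∃ E, InPhi L φ E ∧ ‖(E - P) x‖ < η)
    (ε : ℝ) (hε : 0 < ε) :
    ∃ E, InPhi L φ E ∧ ∃ B > 0, FS L ((E - P) * T * (E - P)) B ε := by
  classical
  by_contra hcon
  push Not at hcon
  have hone : InPhi L φ 1 :=
    ⟨1, L.one_mem, 0, L.zero_mem, by simp, hφ.one, hφ.zero, by simp⟩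
  have hPE' : ∀ E, InPhi L φ E → P * E = P := fun E hE => by
    rw [← hPB E (S0_com hE)]; exact hPE E hE
  choose F Sf kf ξf hF1 hF2 hF3 hF4 hF5 hF6 hF7 using
    fun (n : ℕ) (E : {E : H →L[ℂ] H // InPhi L φ E}) =>
      S0_step L T hT1 φ hφ P hP hPB hPE hPlim ε hε hcon n E.1 E.2
  let Es : ℕ → {E : H →L[ℂ] H // InPhi L φ E} := fun n =>
    Nat.rec ⟨1, hone⟩ (fun n E => ⟨F n E, hF1 n E⟩) n
  obtain ⟨E, hEdef⟩ : ∃ E : ℕ → (H →L[ℂ] H), E = fun n => (Es n).1 := ⟨_, rfl⟩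
  obtain ⟨S, hSdef⟩ : ∃ S : ℕ → (H →L[ℂ] H), S = fun n => Sf n (Es n) := ⟨_, rfl⟩
  have hE : ∀ n, InPhi L φ (E n) := fun n => by rw [hEdef]; exact (Es n).2
  have hE0 : E 0 = 1 := by rw [hEdef]; rfl
  have hEs : ∀ n, E (n + 1) = F n (Es n) := fun n => by rw [hEdef]
  have hm1 : ∀ n, E (n + 1) * E n = E (n + 1) := fun n => by
    rw [hEs]
    have := hF2 n (Es n)
    rw [hEdef]; exact this
  have hSA : ∀ n, S n ∈ AlgL L := fun n => by rw [hSdef]; exact hF3 n (Es n)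
  have hS1 : ∀ n, ‖S n‖ ≤ 1 := fun n => by rw [hSdef]; exact hF4 n (Es n)
  have hR : ∀ n, ∀ R : H →L[ℂ] H, ‖R‖ ≤ 1 → R = (E (n + 1) - P) * R * (E (n + 1) - P) →
      ε ^ kf n (Es n) < ‖((T * ((E n - E (n + 1)) * S n * (E n - E (n + 1)) + R)) ^
        (kf n (Es n) + 1)) (ξf n (Es n))‖ := by
    intro n R h1 h2
    have := hF7 n (Es n) R h1 (by rw [← hEs]; exact h2)
    rw [← hEs] at this
    rw [hSdef]
    have hEn : (Es n).1 = E n := by rw [hEdef]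
    rw [hEn] at this
    exact this
  have hcomm : ∀ i j, E i * E j = E j * E i := fun i j => S0_bicom (hE j) (E i) (S0_com (hE i))
  have hmono : ∀ i j, i ≤ j → E j * E i = E j := by
    intro i j hij
    induction j, hij using Nat.le_induction with
    | base => exact mul_self_proj (S0_isp (hE i))
    | succ n hn ih =>
      calc E (n + 1) * E i = E (n + 1) * E n * E i := by rw [hm1]
        _ = E (n + 1) * (E n * E i) := mul_assoc _ _ _
        _ = E (n + 1) := by rw [ih, hm1]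
  have hmono' : ∀ i j, i ≤ j → E i * E j = E j := fun i j hij => by rw [hcomm]; exact hmono i j hij
  -- blocks
  have hΔ : ∀ i, IsStarProjection (E i - E (i + 1)) := fun i =>
    (S0_isp (hE (i + 1))).sub_of_mul_eq_left (S0_isp (hE i)) (hm1 i)
  have hΔA : ∀ i, E i - E (i + 1) ∈ AlgL L := fun i =>
    AlgL_sub L (ComL_sub_AlgL L (S0_com (hE i))) (ComL_sub_AlgL L (S0_com (hE (i + 1))))
  have hl0 : ∀ i j, i < j → E j * (E i - E (i + 1)) = 0 := fun i j h => by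
    rw [mul_sub, hmono i j h.le, hmono (i + 1) j h, sub_self]
  have hr0 : ∀ i j, i < j → (E i - E (i + 1)) * E j = 0 := fun i j h => by
    rw [sub_mul, hmono' i j h.le, hmono' (i + 1) j h, sub_self]
  have hl1 : ∀ i j, j ≤ i → E j * (E i - E (i + 1)) = E i - E (i + 1) := fun i j h => by
    rw [mul_sub, hmono' j i h, hmono' j (i + 1) (by omega)]
  have hr1 : ∀ i j, j ≤ i → (E i - E (i + 1)) * E j = E i - E (i + 1) := fun i j h => by
    rw [sub_mul, hmono j i h, hmono j (i + 1) (by omega)]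
  obtain ⟨G, hG⟩ : ∃ G : ℕ → (H →L[ℂ] H), G = fun i =>
    (E i - E (i + 1)) * S i * (E i - E (i + 1)) := ⟨_, rfl⟩
  have hGi : ∀ i, G i = (E i - E (i + 1)) * S i * (E i - E (i + 1)) := fun i => by rw [hG]
  obtain ⟨K, hK⟩ : ∃ K : ℕ → (H →L[ℂ] H), K = fun n => ∑ i ∈ range n, G i := ⟨_, rfl⟩
  have hKn : ∀ n, K n = ∑ i ∈ range n, G i := fun n => by rw [hK]
  have hGlt : ∀ i j, i < j → E j * G i = 0 := fun i j h => by
    rw [hGi, ← mul_assoc, ← mul_assoc, hl0 i j h, zero_mul, zero_mul]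
  have hGc : ∀ i j, E j * G i * E j = (if i = j then G j else 0) + E (j + 1) * G i * E (j + 1) := by
    intro i j
    rcases lt_trichotomy i j with h | h | h
    · rw [hGlt i j h, hGlt i (j + 1) (by omega), if_neg h.ne]; simp
    · subst h
      rw [if_pos rfl, hGlt i (i + 1) (by omega), zero_mul, add_zero]
      rw [hGi, ← mul_assoc, ← mul_assoc, hl1 i i le_rfl, mul_assoc, mul_assoc, hr1 i i le_rfl,
        ← mul_assoc]
    · rw [if_neg h.ne', zero_add, hGi]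
      rw [← mul_assoc, ← mul_assoc, hl1 i j h.le, mul_assoc, mul_assoc, hr1 i j h.le,
        ← mul_assoc (E (j + 1)), ← mul_assoc (E (j + 1)), hl1 i (j + 1) h, mul_assoc _ _ (E (j + 1)),
        hr1 i (j + 1) h, mul_assoc]
  have hKc : ∀ j n, j < n → E j * K n * E j = G j + E (j + 1) * K n * E (j + 1) := by
    intro j n hjn
    rw [hKn, Finset.mul_sum, Finset.sum_mul, Finset.mul_sum, Finset.sum_mul]
    rw [Finset.sum_congr rfl (fun i _ => hGc i j), Finset.sum_add_distrib,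
      Finset.sum_ite_eq' (range n) j (fun _ => G j), if_pos (Finset.mem_range.mpr hjn)]
  have hEK : ∀ n, E n * K n = 0 := by
    intro n
    rw [hKn, Finset.mul_sum]
    exact Finset.sum_eq_zero (fun i hi => hGlt i n (Finset.mem_range.mp hi))
  have hsymm : ∀ {Q : H →L[ℂ] H}, IsStarProjection Q → ∀ x y : H, ⟪Q x, y⟫_ℂ = ⟪x, Q y⟫_ℂ :=
    fun {Q} hQ x y => hQ.isSelfAdjoint.isSymmetric x y
  have hKnorm : ∀ n x, ‖K n x‖ * ‖K n x‖ ≤ ‖(1 - E n) x‖ * ‖(1 - E n) x‖ := by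
    intro n
    induction n with
    | zero =>
      intro x
      rw [hKn, hE0]; simp
    | succ n ih =>
      intro x
      have e1 : K (n + 1) x = K n x + G n x := by
        rw [hKn, hKn, Finset.sum_range_succ, add_apply]
      have e2 : (1 - E (n + 1)) x = (1 - E n) x + (E n - E (n + 1)) x := by
        rw [← add_apply]; congr 1; abel
      have o1 : ⟪K n x, G n x⟫_ℂ = 0 := by
        have : G n x = E n (G n x) := by
          rw [← mul_apply_eq_comp, hGi, ← mul_assoc, ← mul_assoc, hl1 n n le_rfl]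
        rw [this, ← hsymm (S0_isp (hE n)), ← mul_apply_eq_comp, hEK]
        simp
      have o2 : ⟪(1 - E n) x, (E n - E (n + 1)) x⟫_ℂ = 0 := by
        have : (E n - E (n + 1)) x = E n ((E n - E (n + 1)) x) := by
          rw [← mul_apply_eq_comp, hl1 n n le_rfl]
        rw [this, ← hsymm (S0_isp (hE n)), ← mul_apply_eq_comp, mul_sub, mul_one,
          mul_self_proj (S0_isp (hE n)), sub_self]
        simp
      rw [e1, e2, norm_add_sq_eq_norm_sq_add_norm_sq_of_inner_eq_zero _ _ o1,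
        norm_add_sq_eq_norm_sq_add_norm_sq_of_inner_eq_zero _ _ o2]
      have e3 : ‖G n x‖ ≤ ‖(E n - E (n + 1)) x‖ := by
        rw [hGi, mul_apply_eq_comp, mul_apply_eq_comp]
        exact (S0_opn (hΔ n) _).trans (S0_con (hS1 n) _)
      exact add_le_add (ih x) (mul_self_le_mul_self (norm_nonneg _) e3)
  have hK1 : ∀ n, ‖K n‖ ≤ 1 := by
    intro n
    refine ContinuousLinearMap.opNorm_le_bound _ zero_le_one (fun x => ?_)
    rw [one_mul]
    have h1 := hKnorm n x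
    have h2 : ‖K n x‖ ≤ ‖(1 - E n) x‖ := by
      by_contra hlt
      rw [not_le] at hlt
      have := mul_self_lt_mul_self (norm_nonneg ((1 - E n) x)) hlt
      linarith
    refine h2.trans (S0_opn ?_ x)
    exact (S0_isp (hE n)).one_sub
  obtain ⟨W, hW1, hlim⟩ := exists_wot_limit (Filter.hyperfilter ℕ) K 1 hK1
  have hKA : ∀ n, K n ∈ AlgL L := by
    intro n
    rw [hKn]
    refine AlgL_sum L _ _ (fun i _ => ?_)
    rw [hGi]
    exact AlgL_mul L (AlgL_mul L (hΔA i) (hSA i)) (hΔA i)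
  have hWA : W ∈ AlgL L := by
    intro M hM
    exact S0_wot_zero hlim (L.proj M hM).one_sub.isSelfAdjoint M (fun n => hKA n M hM)
  have hPG : ∀ i, P * G i = 0 := fun i => by
    have hz : P * (E i - E (i + 1)) = 0 := by
      rw [mul_sub, hPE' _ (hE i), hPE' _ (hE (i + 1)), sub_self]
    rw [hGi, ← mul_assoc, ← mul_assoc, hz, zero_mul, zero_mul]
  have hGP : ∀ i, G i * P = 0 := fun i => by
    have hz : (E i - E (i + 1)) * P = 0 := by
      rw [sub_mul, hPE _ (hE i), hPE _ (hE (i + 1)), sub_self]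
    rw [hGi, mul_assoc, hz, mul_zero]
  have hPW : P * W = 0 := by
    have := S0_wot_zero hlim hP.isSelfAdjoint 1 (fun n => by
      rw [hKn, mul_one, Finset.mul_sum]
      exact Finset.sum_eq_zero (fun i _ => hPG i))
    rwa [mul_one] at this
  have hWP : W * P = 0 := by
    have := S0_wot_zero hlim (IsSelfAdjoint.one (H →L[ℂ] H)) P (fun n => by
      rw [hKn, one_mul, Finset.sum_mul]
      exact Finset.sum_eq_zero (fun i _ => hGP i))
    rwa [one_mul] at this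
  have hWc : ∀ j, E j * W * E j = G j + E (j + 1) * W * E (j + 1) := by
    intro j
    refine S0_wot_eq hlim (S0_isp (hE j)).isSelfAdjoint (S0_isp (hE (j + 1))).isSelfAdjoint _ _ _ ?_
    have : ∀ᶠ n in (atTop : Filter ℕ), E j * K n * E j = G j + E (j + 1) * K n * E (j + 1) := by
      filter_upwards [eventually_gt_atTop j] with n hn
      exact hKc j n hn
    exact Nat.hyperfilter_le_atTop this
  obtain ⟨m₀, hm₀⟩ := hq W hWA ε hε
  have hnE : ∀ n, ‖E n‖ ≤ 1 := fun n => (S0_isp (hE n)).norm_le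
  have hEWE : ∀ n, ‖E n * W * E n‖ ≤ 1 := by
    intro n
    calc ‖E n * W * E n‖ ≤ ‖E n * W‖ * ‖E n‖ := norm_mul_le _ _
      _ ≤ (‖E n‖ * ‖W‖) * ‖E n‖ := mul_le_mul_of_nonneg_right (norm_mul_le _ _) (norm_nonneg _)
      _ ≤ (1 * 1) * 1 := by
          apply mul_le_mul _ (hnE n) (norm_nonneg _) (by norm_num)
          exact mul_le_mul (hnE n) hW1 (norm_nonneg _) (by norm_num)
      _ = 1 := by norm_num
  have hfin := hR m₀ (E (m₀ + 1) * W * E (m₀ + 1)) (hEWE _) (by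
    have q1 : (E (m₀ + 1) - P) * E (m₀ + 1) = E (m₀ + 1) - P := by
      rw [sub_mul, mul_self_proj (S0_isp (hE _)), hPE' _ (hE _)]
    have q2 : E (m₀ + 1) * (E (m₀ + 1) - P) = E (m₀ + 1) - P := by
      rw [mul_sub, mul_self_proj (S0_isp (hE _)), hPE _ (hE _)]
    have q3 : (E (m₀ + 1) - P) * W = E (m₀ + 1) * W := by rw [sub_mul, hPW, sub_zero]
    have q4 : W * (E (m₀ + 1) - P) = W * E (m₀ + 1) := by rw [mul_sub, hWP, sub_zero]
    calc E (m₀ + 1) * W * E (m₀ + 1) = (E (m₀ + 1) - P) * W * E (m₀ + 1) := by rw [q3]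
      _ = (E (m₀ + 1) - P) * (W * E (m₀ + 1)) := mul_assoc _ _ _
      _ = (E (m₀ + 1) - P) * (W * (E (m₀ + 1) - P)) := by rw [q4]
      _ = ((E (m₀ + 1) - P) * E (m₀ + 1)) * W * (E (m₀ + 1) * (E (m₀ + 1) - P)) := by
          rw [q1, q2, mul_assoc]
      _ = _ := by noncomm_ring)
  rw [← hGi, ← hWc, S0_pow (hE m₀) hT hWA] at hfin
  set k := kf m₀ (Es m₀) with hk
  have hkm : m₀ ≤ k := hF5 m₀ (Es m₀)
  have hξ : ‖ξf m₀ (Es m₀)‖ ≤ 1 := hF6 m₀ (Es m₀)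
  have hTW := hm₀ k hkm
  have hbound : ‖(T * (E m₀ * W * E m₀) * (E m₀ * (T * W) ^ k * E m₀))‖ ≤ ‖(T * W) ^ k‖ := by
    have b1 : ‖T * (E m₀ * W * E m₀)‖ ≤ 1 := by
      calc _ ≤ ‖T‖ * ‖E m₀ * W * E m₀‖ := norm_mul_le _ _
        _ ≤ 1 * 1 := mul_le_mul hT1 (hEWE _) (norm_nonneg _) (by norm_num)
        _ = 1 := by norm_num
    have b2 : ‖E m₀ * (T * W) ^ k * E m₀‖ ≤ ‖(T * W) ^ k‖ := by
      calc _ ≤ ‖E m₀ * (T * W) ^ k‖ * ‖E m₀‖ := norm_mul_le _ _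
        _ ≤ (‖E m₀‖ * ‖(T * W) ^ k‖) * ‖E m₀‖ :=
            mul_le_mul_of_nonneg_right (norm_mul_le _ _) (norm_nonneg _)
        _ ≤ (1 * ‖(T * W) ^ k‖) * 1 := by
            apply mul_le_mul _ (hnE m₀) (norm_nonneg _) (by positivity)
            exact mul_le_mul_of_nonneg_right (hnE m₀) (norm_nonneg _)
        _ = _ := by ring
    calc _ ≤ ‖T * (E m₀ * W * E m₀)‖ * ‖E m₀ * (T * W) ^ k * E m₀‖ := norm_mul_le _ _
      _ ≤ 1 * ‖(T * W) ^ k‖ := mul_le_mul b1 b2 (norm_nonneg _) (by norm_num)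
      _ = _ := one_mul _
  have hlast : ‖(T * (E m₀ * W * E m₀) * (E m₀ * (T * W) ^ k * E m₀)) (ξf m₀ (Es m₀))‖ ≤ ε ^ k := by
    calc _ ≤ ‖T * (E m₀ * W * E m₀) * (E m₀ * (T * W) ^ k * E m₀)‖ * ‖ξf m₀ (Es m₀)‖ :=
          ContinuousLinearMap.le_opNorm _ _
      _ ≤ ε ^ k * 1 := mul_le_mul (hbound.trans hTW) hξ (norm_nonneg _) (by positivity)
      _ = _ := mul_one _
  exact absurd hfin (not_lt.mpr hlast)

end Hop
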