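import Pool.Agent.Helper360.Hop.Defs
import Pool.Agent.Helper360.Hop.Refl
set_option maxHeartbeats 4000000

open scoped InnerProductSpace Topology ComplexConjugate
open Finset Filter

namespace Hop

variable {H : Type*} [NormedAddCommGroup H] [InnerProductSpace ℂ H] [CompleteSpace H]

theorem job6133_exists_proj {ι : Sort*} (J : ι → (H →L[ℂ] H)) :
    ∃ N : H →L[ℂ] H, IsStarProjection N ∧ (∀ i, N * J i = J i) ∧
      ∀ T : H →L[ℂ] H, (∀ i, T * J i = 0) → T * N = 0 := by
  let K : Submodule ℂ H := (⨆ i, LinearMap.range (J i).toLinearMap).topologicalClosure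
  have hK : IsClosed (K : Set H) := Submodule.isClosed_topologicalClosure _
  have : CompleteSpace K := hK.completeSpace_coe
  refine ⟨K.starProjection, isStarProjection_starProjection, ?_, ?_⟩
  · intro i
    ext x
    show K.starProjection (J i x) = J i x
    apply Submodule.starProjection_eq_self_iff.2
    apply Submodule.le_topologicalClosure
    exact (le_iSup (fun i => LinearMap.range (J i).toLinearMap) i) ⟨x, rfl⟩
  · intro T hT
    have hle : K ≤ LinearMap.ker T.toLinearMap := by
      apply Submodule.topologicalClosure_minimal _ _ (ContinuousLinearMap.isClosed_ker T)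
      apply iSup_le
      rintro i _ ⟨x, rfl⟩
      have := congrArg (fun S : H →L[ℂ] H => S x) (hT i)
      exact this
    ext x
    exact hle (Submodule.starProjection_apply_mem K x)

theorem job6133_anti (L : CSL H) (Q : H →L[ℂ] H) (hQB : Q ∈ BiComL L)
    (h0 : ∀ D ∈ L.carrier, ∀ R ∈ AlgL L, Q * D * R * (1 - D) * Q = 0) : Anti L Q := by
  intro R hR P hP
  have hQP : P * Q = Q * P := hQB P (carrier_sub_ComL L hP)
  have hRP : R * P = P * R * P := (AlgL_iff L R).1 hR P hP
  have e1 : P * (Q * R * Q) = Q * P * R * P * Q := by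
    calc P * (Q * R * Q) = (P * Q) * R * Q := by simp only [mul_assoc]
      _ = Q * P * R * Q := by rw [hQP]
      _ = Q * P * R * P * Q + Q * P * R * (1 - P) * Q := by noncomm_ring
      _ = Q * P * R * P * Q := by rw [h0 P hP R hR, add_zero]
  have e2 : (Q * R * Q) * P = Q * P * R * P * Q := by
    calc (Q * R * Q) * P = Q * R * (Q * P) := by simp only [mul_assoc]
      _ = Q * R * (P * Q) := by rw [hQP]
      _ = Q * (R * P) * Q := by simp only [mul_assoc]
      _ = Q * (P * R * P) * Q := by rw [hRP]
      _ = Q * P * R * P * Q := by simp only [mul_assoc]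
  rw [e1, e2]

theorem job6133_BiComL_sub (L : CSL H) {S T : H →L[ℂ] H} (hS : S ∈ BiComL L) (hT : T ∈ BiComL L) :
    S - T ∈ BiComL L := by
  intro R hR
  rw [mul_sub, sub_mul, hS R hR, hT R hR]

/- ================= TARGET ================= -/
theorem find_antichain (L : CSL H) (r : ℕ) (Q : H →L[ℂ] H) (hQ : IsStarProjection Q)
    (hQB : Q ∈ BiComL L)
    (hnil : ∀ (D R : ℕ → (H →L[ℂ] H)), (∀ i, D i ∈ L.carrier) → (∀ i, R i ∈ AlgL L) →
      ((List.range r).map (fun i => Q * D i * R i * (1 - D i) * Q)).prod = 0)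
    (φ : (H →L[ℂ] H) → Prop) (hφ : IsHom2 L φ) :
    ∃ E, InPhi L φ E ∧ Anti L (E * Q) := by
  induction r generalizing Q with
  | zero =>
    have h1 := hnil (fun _ => 0) (fun _ => 0) (fun _ => L.zero_mem) (fun _ => AlgL_zero L)
    simp at h1
    exact absurd (h1 ▸ hφ.one) hφ.zero
  | succ r ih =>
    have hQC : Q ∈ ComL L := BiComL_sub_ComL L hQB
    have hQA : Q ∈ AlgL L := ComL_sub_AlgL L hQC
    have hQQ : Q * Q = Q := mul_self_proj hQ
    have hQD : ∀ D ∈ L.carrier, D * Q = Q * D := fun D hD => hQB D (carrier_sub_ComL L hD)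
    rcases Nat.eq_zero_or_pos r with hr | hr
    · subst hr
      refine ⟨1, ⟨1, L.one_mem, 0, L.zero_mem, by simp, hφ.one, hφ.zero, by simp⟩, ?_⟩
      rw [one_mul]
      apply job6133_anti L Q hQB
      intro D hD R hR
      have := hnil (fun _ => D) (fun _ => R) (fun _ => hD) (fun _ => hR)
      simpa using this
    -- strict elements
    obtain ⟨J, hJdef⟩ : ∃ J : {D // D ∈ L.carrier} × {R // R ∈ AlgL L} → (H →L[ℂ] H),
        ∀ i, J i = Q * i.1.1 * i.2.1 * (1 - i.1.1) * Q := ⟨_, fun i => rfl⟩
    obtain ⟨N, hN, hNJ, hNmin⟩ := job6133_exists_proj J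
    have hNN : N * N = N := mul_self_proj hN
    have hNs : star N = N := star_proj hN
    have hQs : star Q = Q := star_proj hQ
    have hQJ : ∀ i, Q * J i = J i := by
      intro i
      rw [hJdef]
      calc Q * (Q * i.1.1 * i.2.1 * (1 - i.1.1) * Q)
          = (Q * Q) * i.1.1 * i.2.1 * (1 - i.1.1) * Q := by simp only [mul_assoc]
        _ = _ := by rw [hQQ]
    have hJQ : ∀ i, J i * Q = J i := by
      intro i
      rw [hJdef, mul_assoc, hQQ]
    have hQN : Q * N = N := by
      have h1 := hNmin (1 - Q) (fun i => by rw [sub_mul, one_mul, hQJ, sub_self])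
      rw [sub_mul, one_mul, sub_eq_zero] at h1
      exact h1.symm
    have hNQ : N * Q = N := by
      have h1 := congrArg star hQN
      rw [star_mul, hNs, hQs] at h1
      exact h1
    have hSN : ∀ S ∈ ComL L, N * S * N = S * N := by
      intro S hS
      have h1 := hNmin ((1 - N) * S) (fun i => by
        have h2 : S * J i = J (i.1, ⟨S * i.2.1, AlgL_mul L (ComL_sub_AlgL L hS) i.2.2⟩) := by
          rw [hJdef, hJdef]
          have h3 : S * Q = Q * S := hQB S hS
          have h4 : i.1.1 * S = S * i.1.1 := hS _ i.1.2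
          calc S * (Q * i.1.1 * i.2.1 * (1 - i.1.1) * Q)
              = (S * Q) * i.1.1 * i.2.1 * (1 - i.1.1) * Q := by simp only [mul_assoc]
            _ = Q * (S * i.1.1) * i.2.1 * (1 - i.1.1) * Q := by rw [h3]; simp only [mul_assoc]
            _ = Q * i.1.1 * (S * i.2.1) * (1 - i.1.1) * Q := by rw [← h4]; simp only [mul_assoc]
        rw [mul_assoc, h2, sub_mul, one_mul, hNJ, sub_self])
      rw [sub_mul, one_mul, sub_mul, sub_eq_zero] at h1
      exact h1.symm
    have hNB : N ∈ BiComL L := by
      intro S hS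
      have h1 := hSN S hS
      have h2 := hSN (star S) (ComL_star L hS)
      have h3 := congrArg star h2
      rw [star_mul, star_mul, star_mul, star_star, hNs] at h3
      rw [← h1, mul_assoc]
      exact h3
    have hNC : N ∈ ComL L := BiComL_sub_ComL L hNB
    have hNA : N ∈ AlgL L := ComL_sub_AlgL L hNC
    have hND : ∀ D ∈ L.carrier, D * N = N * D := fun D hD => hNB D (carrier_sub_ComL L hD)
    have hQRN : ∀ R ∈ AlgL L, (Q - N) * R * N = 0 := by
      intro R hR
      have h1 := hNmin ((1 - N) * (Q * R)) (fun i => by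
        have h2 : (Q * R) * J i = J (i.1, ⟨R * Q * i.1.1 * i.2.1,
            AlgL_mul L (AlgL_mul L (AlgL_mul L hR hQA)
              (ComL_sub_AlgL L (carrier_sub_ComL L i.1.2))) i.2.2⟩) := by
          rw [hJdef, hJdef]
          have h3 : (R * Q) * i.1.1 = i.1.1 * (R * Q) * i.1.1 :=
            (AlgL_iff L _).1 (AlgL_mul L hR hQA) _ i.1.2
          calc (Q * R) * (Q * i.1.1 * i.2.1 * (1 - i.1.1) * Q)
              = Q * ((R * Q) * i.1.1) * i.2.1 * (1 - i.1.1) * Q := by simp only [mul_assoc]
            _ = Q * (i.1.1 * (R * Q) * i.1.1) * i.2.1 * (1 - i.1.1) * Q := by rw [← h3]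
            _ = Q * i.1.1 * (R * Q * i.1.1 * i.2.1) * (1 - i.1.1) * Q := by
                simp only [mul_assoc]
        rw [mul_assoc, h2, sub_mul, one_mul, hNJ, sub_self])
      calc (Q - N) * R * N = (Q - N * Q) * R * N := by rw [hNQ]
        _ = (1 - N) * (Q * R) * N := by noncomm_ring
        _ = 0 := h1
    -- the second projection
    obtain ⟨G, hGdef⟩ : ∃ G : {R // R ∈ AlgL L} → (H →L[ℂ] H), ∀ i, G i = i.1 * N :=
      ⟨_, fun i => rfl⟩
    obtain ⟨D₀, hD₀, hD₀G, hD₀min⟩ := job6133_exists_proj G
    have hD₀L : D₀ ∈ L.carrier := by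
      apply reflexive L D₀ hD₀
      intro S hS
      apply hD₀min
      intro i
      have h2 : S * G i = G ⟨S * i.1, AlgL_mul L hS i.2⟩ := by
        rw [hGdef, hGdef, mul_assoc]
      rw [mul_assoc, h2, sub_mul, one_mul, hD₀G, sub_self]
    have hD₀N : D₀ * N = N := by
      have h2 := hD₀G ⟨1, AlgL_one L⟩
      rw [hGdef] at h2
      simpa using h2
    have hND₀ : N * D₀ = N := by
      rw [← hND D₀ hD₀L, hD₀N]
    have hQD₀ : Q * D₀ = N := by
      have h1 := hD₀min ((1 - N) * Q) (fun i => by
        rw [hGdef]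
        have h2 := hQRN i.1 i.2
        calc (1 - N) * Q * (i.1 * N) = (Q - N * Q) * i.1 * N := by noncomm_ring
          _ = (Q - N) * i.1 * N := by rw [hNQ]
          _ = 0 := h2)
      calc Q * D₀ = (1 - N) * Q * D₀ + (N * Q) * D₀ := by noncomm_ring
        _ = N := by rw [h1, zero_add, hNQ, hND₀]
    have hD₀Q : D₀ * Q = N := by rw [hQD _ hD₀L, hQD₀]
    by_cases hφD : φ D₀
    · -- apply the induction hypothesis to `N`
      obtain ⟨E', ⟨M₁, hM₁, M₂, hM₂, hM, hφ1, hφ2, hE'⟩, hanti⟩ := ih N hN hNB (by
        intro D R hD hR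
        -- strict elements of N are strict elements of Q
        have hconv : ∀ i, N * D i * R i * (1 - D i) * N =
            Q * D i * (N * R i * N) * (1 - D i) * Q := by
          intro i
          have a1 := hND _ (hD i)
          have a2 : (1 - D i) * N = N * (1 - D i) := by
            rw [sub_mul, one_mul, a1, mul_sub, mul_one]
          have a3 : (1 - D i) * Q = Q * (1 - D i) := by
            rw [sub_mul, one_mul, hQD _ (hD i), mul_sub, mul_one]
          calc N * D i * R i * (1 - D i) * N = (N * D i) * R i * ((1 - D i) * N) := by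
                simp only [mul_assoc]
            _ = (N * D i) * R i * (N * (1 - D i)) := by rw [a2]
            _ = ((Q * N) * D i) * R i * ((N * Q) * (1 - D i)) := by rw [hQN, hNQ]
            _ = (Q * (N * D i)) * R i * (N * (Q * (1 - D i))) := by simp only [mul_assoc]
            _ = (Q * (D i * N)) * R i * (N * ((1 - D i) * Q)) := by rw [a1, a3]
            _ = Q * D i * (N * R i * N) * (1 - D i) * Q := by simp only [mul_assoc]
        obtain ⟨P', hP'⟩ : ∃ P' : H →L[ℂ] H,
            P' = ((List.range r).map (fun i => N * D i * R i * (1 - D i) * N)).prod := ⟨_, rfl⟩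
        have hPN : P' * N = 0 := by
          apply hNmin
          intro j
          have h1 := hnil (fun i => if i < r then D i else j.1.1)
            (fun i => if i < r then N * R i * N else j.2.1)
            (fun i => by
              by_cases hi : i < r
              · simp only [hi, if_true]; exact hD i
              · simp only [hi, if_false]; exact j.1.2)
            (fun i => by
              by_cases hi : i < r
              · simp only [hi, if_true]; exact AlgL_mul L (AlgL_mul L hNA (hR i)) hNA
              · simp only [hi, if_false]; exact j.2.2)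
          rw [List.range_succ, List.map_append, List.prod_append, List.map_singleton,
            List.prod_singleton] at h1
          have h2 : (List.range r).map (fun i => Q * (if i < r then D i else j.1.1) *
              (if i < r then N * R i * N else j.2.1) *
              (1 - (if i < r then D i else j.1.1)) * Q) =
              (List.range r).map (fun i => N * D i * R i * (1 - D i) * N) := by
            apply List.map_congr_left
            intro i hi
            rw [List.mem_range] at hi
            rw [if_pos hi, if_pos hi, hconv]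
          rw [h2, ← hP'] at h1
          simp only [lt_irrefl, if_false] at h1
          rw [hJdef]
          exact h1
        have hPN' : P' * N = P' := by
          obtain ⟨s, rfl⟩ : ∃ s, r = s + 1 := ⟨r - 1, by omega⟩
          rw [hP', List.range_succ, List.map_append, List.prod_append, List.map_singleton,
            List.prod_singleton]
          calc _ = ((List.range s).map (fun i => N * D i * R i * (1 - D i) * N)).prod *
                (N * D s * R s * (1 - D s) * (N * N)) := by simp only [mul_assoc]
            _ = _ := by rw [hNN]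
        rw [← hP', ← hPN', hPN])
      refine ⟨E' * D₀, ⟨M₁ * D₀, L.inf_mem _ hM₁ _ hD₀L, M₂ * D₀, L.inf_mem _ hM₂ _ hD₀L, ?_,
        (hφ.inf _ hM₁ _ hD₀L).2 ⟨hφ1, hφD⟩, fun h => hφ2 ((hφ.inf _ hM₂ _ hD₀L).1 h).1, ?_⟩, ?_⟩
      · have a1 := L.comm _ hD₀L _ hM₁
        have a2 := mul_self_proj hD₀
        calc M₂ * D₀ * (M₁ * D₀) = M₂ * (D₀ * M₁) * D₀ := by simp only [mul_assoc]
          _ = (M₂ * M₁) * (D₀ * D₀) := by rw [a1]; simp only [mul_assoc]
          _ = M₂ * D₀ := by rw [hM, a2]
      · rw [hE', sub_mul]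
      · rw [mul_assoc, hD₀Q]
        exact hanti
    · refine ⟨1 - D₀, ⟨1, L.one_mem, D₀, hD₀L, mul_one _, hφ.one, hφD, rfl⟩, ?_⟩
      have e1 : (1 - D₀) * Q = Q - N := by rw [sub_mul, one_mul, hD₀Q]
      rw [e1]
      apply job6133_anti L (Q - N) (job6133_BiComL_sub L hQB hNB)
      intro D hD R hR
      have h1 := hNJ (⟨D, hD⟩, ⟨R, hR⟩)
      rw [hJdef] at h1
      have h2 : (Q - N) * Q = Q - N := by rw [sub_mul, hQQ, hNQ]
      have h3 : Q * (Q - N) = Q - N := by rw [mul_sub, hQQ, hQN]
      have h4 : (Q - N) * (Q * D * R * (1 - D) * Q) = 0 := by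
        have h5 := hQJ (⟨D, hD⟩, ⟨R, hR⟩)
        rw [hJdef] at h5
        rw [sub_mul, h5]
        exact sub_eq_zero.2 h1.symm
      calc (Q - N) * D * R * (1 - D) * (Q - N)
          = ((Q - N) * Q) * D * R * (1 - D) * (Q * (Q - N)) := by rw [h2, h3]
        _ = ((Q - N) * (Q * D * R * (1 - D) * Q)) * (Q - N) := by simp only [mul_assoc]
        _ = 0 := by rw [h4, zero_mul]

end Hop
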