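import Pool.Agent.Helper360.Hop.Defs

set_option maxHeartbeats 4000000

open scoped InnerProductSpace Topology ComplexConjugate
open Finset Filter

namespace Hop

variable {H : Type*} [NormedAddCommGroup H] [InnerProductSpace ℂ H] [CompleteSpace H]

theorem j6130_norm_le {J : H →L[ℂ] H} (h : IsStarProjection J) : ‖J‖ ≤ 1 := by
  have h1 : ‖J * J‖ = ‖J‖ * ‖J‖ := by
    have := CStarRing.norm_star_mul_self (x := J)
    rwa [star_proj h] at this
  rw [mul_self_proj h] at h1
  by_contra hcon
  push Not at hcon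
  nlinarith

/-- the doubled chain -/
noncomputable def j6130_ref (P : H →L[ℂ] H) (D : ℕ → (H →L[ℂ] H)) (k : ℕ) : H →L[ℂ] H :=
  if k % 2 = 0 then D (k / 2) else D (k / 2) + D (k / 2 + 1) * P - D (k / 2) * (D (k / 2 + 1) * P)

theorem j6130_ref_even (P : H →L[ℂ] H) (D : ℕ → (H →L[ℂ] H)) (j : ℕ) :
    j6130_ref P D (2 * j) = D j := by
  unfold j6130_ref
  rw [if_pos (by omega), Nat.mul_div_cancel_left j (by norm_num)]

theorem j6130_ref_odd (P : H →L[ℂ] H) (D : ℕ → (H →L[ℂ] H)) (j : ℕ) :
    j6130_ref P D (2 * j + 1) = D j + D (j + 1) * P - D j * (D (j + 1) * P) := by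
  unfold j6130_ref
  rw [if_neg (by omega), show (2 * j + 1) / 2 = j by omega]

theorem j6130_decided (L : CSL H) (ps : List (H →L[ℂ] H)) (hps : ∀ P ∈ ps, P ∈ L.carrier) :
    ∃ N, ∃ D : ℕ → (H →L[ℂ] H), IsChn L N D ∧
      ∀ k, ∀ P ∈ ps, blk D k * P = blk D k ∨ blk D k * P = 0 := by
  induction ps with
  | nil =>
    refine ⟨1, fun k => if k = 0 then 0 else 1, ⟨?_, ?_, ?_, ?_⟩, ?_⟩
    · intro k
      by_cases h : k = 0
      · simp only [h, if_true]; exact L.zero_mem
      · simp only [h, if_false]; exact L.one_mem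
    · intro k
      by_cases h : k = 0
      · simp [h]
      · simp [h]
    · simp
    · simp
    · intro k P hP
      simp at hP
  | cons P ps ih =>
    obtain ⟨N, D, hD, hdec⟩ := ih (fun Q hQ => hps Q (List.mem_cons_of_mem _ hQ))
    have hP : P ∈ L.carrier := hps P List.mem_cons_self
    have hPP := mul_self_proj (L.proj P hP)
    have hDP : ∀ k, D k * P = P * D k := fun k => L.comm _ (hD.mem k) _ hP
    have hDD : ∀ k, D k * D k = D k := fun k => mul_self_proj (L.proj _ (hD.mem k))
    have hDc : ∀ j k, D j * D k = D k * D j := fun j k => L.comm _ (hD.mem j) _ (hD.mem k)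
    have hmono' : ∀ k, D (k + 1) * D k = D k := fun k => by rw [hDc, hD.mono]
    have hodd : ∀ j, j6130_ref P D (2 * j + 1) = D j + D (j + 1) * P - D j * P := by
      intro j
      rw [j6130_ref_odd, ← mul_assoc, hD.mono]
    have hb_even : ∀ j, blk (j6130_ref P D) (2 * j) = blk D j * P := by
      intro j
      unfold blk
      rw [hodd, j6130_ref_even, sub_mul]
      abel
    have hb_odd : ∀ j, blk (j6130_ref P D) (2 * j + 1) = blk D j - blk D j * P := by
      intro j
      unfold blk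
      rw [hodd, show 2 * j + 1 + 1 = 2 * (j + 1) by ring, j6130_ref_even, sub_mul]
      abel
    have hcomm : ∀ j, ∀ Q ∈ L.carrier, blk D j * Q = Q * blk D j := by
      intro j Q hQ
      unfold blk
      rw [sub_mul, mul_sub, L.comm _ (hD.mem (j+1)) _ hQ, L.comm _ (hD.mem j) _ hQ]
    refine ⟨2 * N, j6130_ref P D, ⟨?_, ?_, ?_, ?_⟩, ?_⟩
    · intro k
      obtain ⟨j, rfl | rfl⟩ := Nat.even_or_odd' k
      · rw [j6130_ref_even]; exact hD.mem j
      · rw [j6130_ref_odd]
        exact L.sup_mem _ (hD.mem j) _ (L.inf_mem _ (hD.mem (j + 1)) _ hP)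
    · intro k
      obtain ⟨j, rfl | rfl⟩ := Nat.even_or_odd' k
      · rw [hodd, j6130_ref_even, mul_sub, mul_add, hDD, ← mul_assoc, hD.mono, ← mul_assoc, hDD]
        abel
      · rw [hodd, show 2 * j + 1 + 1 = 2 * (j + 1) by ring, j6130_ref_even, sub_mul, add_mul, hD.mono,
          mul_assoc, ← hDP, ← mul_assoc, hDD, mul_assoc (D j), ← hDP, ← mul_assoc, hD.mono]
    · have := j6130_ref_even P D 0
      rw [mul_zero] at this
      rw [this, hD.zero]
    · rw [j6130_ref_even, hD.top]
    · intro k Q hQ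
      obtain ⟨j, rfl | rfl⟩ := Nat.even_or_odd' k
      · rw [hb_even]
        rcases List.mem_cons.mp hQ with rfl | hQ
        · left
          rw [mul_assoc, hPP]
        · have hQL := hps Q (List.mem_cons_of_mem _ hQ)
          rw [mul_assoc, L.comm P hP Q hQL, ← mul_assoc]
          rcases hdec j Q hQ with h | h
          · left; rw [h]
          · right; rw [h, zero_mul]
      · rw [hb_odd]
        rcases List.mem_cons.mp hQ with rfl | hQ
        · right
          rw [sub_mul, mul_assoc, hPP, sub_self]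
        · have hQL := hps Q (List.mem_cons_of_mem _ hQ)
          rw [sub_mul, mul_assoc, L.comm P hP Q hQL, ← mul_assoc]
          rcases hdec j Q hQ with h | h
          · left; rw [h]
          · right; rw [h, zero_mul, sub_zero]

theorem j6130_L1 (J : H →L[ℂ] H) (l : List (H →L[ℂ] H)) (h : ∀ E ∈ l, J * E = 0) :
    J * (l.map (fun E => 1 - E)).prod = J := by
  induction l with
  | nil => simp
  | cons E l ih =>
    rw [List.map_cons, List.prod_cons, ← mul_assoc, mul_sub, mul_one, h E List.mem_cons_self, sub_zero]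
    exact ih (fun F hF => h F (List.mem_cons_of_mem _ hF))

theorem j6130_L2 (J : H →L[ℂ] H) (l : List (H →L[ℂ] H)) (h : ∀ E ∈ l, J * E = J ∨ J * E = 0)
    (E₀ : H →L[ℂ] H) (hE₀ : E₀ ∈ l) (hJ : J * E₀ = J) :
    J * (l.map (fun E => 1 - E)).prod = 0 := by
  induction l with
  | nil => simp at hE₀
  | cons E l ih =>
    rw [List.map_cons, List.prod_cons, ← mul_assoc, mul_sub, mul_one]
    rcases h E List.mem_cons_self with h1 | h1
    · rw [h1, sub_self, zero_mul]
    · rw [h1, sub_zero]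
      rcases List.mem_cons.mp hE₀ with rfl | hE₀
      · rw [hJ] at h1
        rw [h1, zero_mul]
      · exact ih (fun F hF => h F (List.mem_cons_of_mem _ hF)) hE₀

theorem j6130_R0 (J : H →L[ℂ] H) (l : List (H →L[ℂ] H)) (h : ∀ E ∈ l, E * J = J ∨ E * J = 0) :
    (l.map (fun E => 1 - E)).prod * J = J ∨ (l.map (fun E => 1 - E)).prod * J = 0 := by
  induction l with
  | nil => left; simp
  | cons E l ih =>
    rw [List.map_cons, List.prod_cons, mul_assoc]
    rcases ih (fun F hF => h F (List.mem_cons_of_mem _ hF)) with h1 | h1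
    · rw [h1, sub_mul, one_mul]
      rcases h E List.mem_cons_self with h2 | h2
      · right; rw [h2, sub_self]
      · left; rw [h2, sub_zero]
    · right; rw [h1, mul_zero]

theorem j6130_R2 (J : H →L[ℂ] H) (l : List (H →L[ℂ] H)) (h : ∀ E ∈ l, E * J = J ∨ E * J = 0)
    (E₀ : H →L[ℂ] H) (hE₀ : E₀ ∈ l) (hJ : E₀ * J = J) :
    (l.map (fun E => 1 - E)).prod * J = 0 := by
  induction l with
  | nil => simp at hE₀
  | cons E l ih =>
    have h' : ∀ F ∈ l, F * J = J ∨ F * J = 0 := fun F hF => h F (List.mem_cons_of_mem _ hF)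
    rw [List.map_cons, List.prod_cons, mul_assoc]
    rcases List.mem_cons.mp hE₀ with rfl | hE₀
    · rcases j6130_R0 J l h' with h1 | h1
      · rw [h1, sub_mul, one_mul, hJ, sub_self]
      · rw [h1, mul_zero]
    · rw [ih h' hE₀, mul_zero]

/- ================= TARGET ================= -/
/-- finiteness for finite unions of small intervals -/
theorem good_union (L : CSL H) (T : H →L[ℂ] H) (hT : T ∈ AlgL L) (δ : ℝ) (hδ : 0 < δ)
    (l : List (H →L[ℂ] H)) (hl : ∀ E ∈ l, IsInt L E ∧ ‖E * T * E‖ ≤ δ) :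
    ∃ N, Good L (unionL l * T * unionL l) δ N := by
  classical
  -- endpoints
  have hex : ∀ E : H →L[ℂ] H, ∃ p : (H →L[ℂ] H) × (H →L[ℂ] H), E ∈ l →
      (p.1 ∈ L.carrier ∧ p.2 ∈ L.carrier ∧ p.2 * p.1 = p.2 ∧ E = p.1 - p.2) := by
    intro E
    by_cases hE : E ∈ l
    · obtain ⟨M₁, h1, M₂, h2, h3, h4⟩ := (hl E hE).1
      exact ⟨(M₁, M₂), fun _ => ⟨h1, h2, h3, h4⟩⟩
    · exact ⟨(0, 0), fun h => absurd h hE⟩
  choose p hp using hex
  set ps : List (H →L[ℂ] H) := l.map (fun E => (p E).1) ++ l.map (fun E => (p E).2) with hps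
  have hpsL : ∀ P ∈ ps, P ∈ L.carrier := by
    intro P hP
    rw [hps, List.mem_append, List.mem_map, List.mem_map] at hP
    rcases hP with ⟨E, hE, rfl⟩ | ⟨E, hE, rfl⟩
    · exact (hp E hE).1
    · exact (hp E hE).2.1
  obtain ⟨N, D, hD, hdec⟩ := j6130_decided L ps hpsL
  refine ⟨N, D, hD, ?_⟩
  intro k _
  set J := blk D k with hJ
  have hJp : IsStarProjection J := blk_proj hD k
  have hcomm : ∀ Q ∈ L.carrier, J * Q = Q * J := by
    intro Q hQ
    rw [hJ]
    unfold blk
    rw [sub_mul, mul_sub, L.comm _ (hD.mem (k+1)) _ hQ, L.comm _ (hD.mem k) _ hQ]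
  have hJE : ∀ E ∈ l, J * E = J ∨ J * E = 0 := by
    intro E hE
    obtain ⟨h1, h2, h3, h4⟩ := hp E hE
    have hm1 : (p E).1 ∈ ps := by
      rw [hps, List.mem_append]
      exact Or.inl (List.mem_map.mpr ⟨E, hE, rfl⟩)
    have hm2 : (p E).2 ∈ ps := by
      rw [hps, List.mem_append]
      exact Or.inr (List.mem_map.mpr ⟨E, hE, rfl⟩)
    rw [h4, mul_sub]
    rcases hdec k _ hm2 with e2 | e2
    · right
      have e1 : J * (p E).1 = J := by
        calc J * (p E).1 = J * (p E).2 * (p E).1 := by rw [e2]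
          _ = J * ((p E).2 * (p E).1) := mul_assoc _ _ _
          _ = J := by rw [h3, e2]
      rw [e1, e2, sub_self]
    · rcases hdec k _ hm1 with e1 | e1
      · left; rw [e1, e2, sub_zero]
      · right; rw [e1, e2, sub_zero]
  have hEcomm : ∀ E ∈ l, E * J = J * E := by
    intro E hE
    obtain ⟨h1, h2, _, h4⟩ := hp E hE
    rw [h4, mul_sub, sub_mul, hcomm _ h1, hcomm _ h2]
  by_cases hA : ∃ E₀ ∈ l, J * E₀ = J
  · obtain ⟨E₀, hE₀, hJE₀⟩ := hA
    have hE₀J : E₀ * J = J := by rw [hEcomm E₀ hE₀, hJE₀]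
    have e1 : J * unionL l = J := by
      unfold unionL
      rw [mul_sub, mul_one, j6130_L2 J l hJE E₀ hE₀ hJE₀, sub_zero]
    have e2 : unionL l * J = J := by
      unfold unionL
      rw [sub_mul, one_mul, j6130_R2 J l (fun E hE => by rw [hEcomm E hE]; exact hJE E hE) E₀ hE₀ hE₀J,
        sub_zero]
    have e3 : J * (unionL l * T * unionL l) * J = J * (E₀ * T * E₀) * J := by
      calc J * (unionL l * T * unionL l) * J = (J * unionL l) * T * (unionL l * J) := by noncomm_ring
        _ = J * T * J := by rw [e1, e2]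
        _ = (J * E₀) * T * (E₀ * J) := by rw [hJE₀, hE₀J]
        _ = J * (E₀ * T * E₀) * J := by noncomm_ring
    rw [e3]
    have n1 := j6130_norm_le hJp
    have n2 := (hl E₀ hE₀).2
    calc ‖J * (E₀ * T * E₀) * J‖ ≤ ‖J * (E₀ * T * E₀)‖ * ‖J‖ := norm_mul_le _ _
      _ ≤ (‖J‖ * ‖E₀ * T * E₀‖) * ‖J‖ := mul_le_mul_of_nonneg_right (norm_mul_le _ _) (norm_nonneg _)
      _ ≤ (1 * δ) * 1 := by
          apply mul_le_mul _ n1 (norm_nonneg _) (by positivity)
          exact mul_le_mul n1 n2 (norm_nonneg _) zero_le_one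
      _ = δ := by ring
  · push Not at hA
    have hz : ∀ E ∈ l, J * E = 0 := fun E hE => (hJE E hE).resolve_left (hA E hE)
    have e1 : J * unionL l = 0 := by
      unfold unionL
      rw [mul_sub, mul_one, j6130_L1 J l hz, sub_self]
    have e3 : J * (unionL l * T * unionL l) * J = 0 := by
      calc J * (unionL l * T * unionL l) * J = (J * unionL l) * (T * unionL l * J) := by noncomm_ring
        _ = 0 := by rw [e1, zero_mul]
    rw [e3, norm_zero]
    exact hδ.le

end Hop
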