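import Pool.Agent.Helper360.Hop.Defs
import Pool.Agent.Helper360.Hop.Wot
import Pool.Agent.Helper360.Hop.Refl
set_option maxHeartbeats 4000000

open scoped InnerProductSpace Topology ComplexConjugate
open Finset Filter

namespace Hop

variable {H : Type*} [NormedAddCommGroup H] [InnerProductSpace ℂ H] [CompleteSpace H]

section G_aux

/-- positive part of `g - t` -/
noncomputable def G_h (g : H →L[ℂ] H) (t : ℝ) : H →L[ℂ] H := cfc (fun x : ℝ => max (x - t) 0) g

/-- negative part of `g - t` -/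
noncomputable def G_n (g : H →L[ℂ] H) (t : ℝ) : H →L[ℂ] H := cfc (fun x : ℝ => max (t - x) 0) g

/-- kernel of the positive part -/
noncomputable def G_K (g : H →L[ℂ] H) (t : ℝ) : Submodule ℂ H :=
  LinearMap.ker ((G_h g t : H →L[ℂ] H) : H →ₗ[ℂ] H)

instance G_K_complete (g : H →L[ℂ] H) (t : ℝ) : CompleteSpace (G_K g t) :=
  (ContinuousLinearMap.isClosed_ker (G_h g t)).completeSpace_coe

theorem G_mem_K {g : H →L[ℂ] H} {t : ℝ} {x : H} : x ∈ G_K g t ↔ G_h g t x = 0 := LinearMap.mem_ker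

/-- the cut -/
noncomputable def G_D (g : H →L[ℂ] H) (t : ℝ) : H →L[ℂ] H := (G_K g t).starProjection

theorem G_D_eq_self {g : H →L[ℂ] H} {t : ℝ} {x : H} : G_D g t x = x ↔ G_h g t x = 0 := by
  unfold G_D
  rw [Submodule.starProjection_eq_self_iff, G_mem_K]

theorem G_D_proj (g : H →L[ℂ] H) (t : ℝ) : IsStarProjection (G_D g t) := isStarProjection_starProjection

theorem G_h_D (g : H →L[ℂ] H) (t : ℝ) (x : H) : G_h g t (G_D g t x) = 0 := by
  rw [← G_D_eq_self]
  have h := mul_self_proj (G_D_proj g t)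
  exact congrArg (fun T : H →L[ℂ] H => T x) h

theorem G_dec {g : H →L[ℂ] H} (hg : IsSelfAdjoint g) (t : ℝ) (x : H) :
    g x = (t : ℂ) • x + G_h g t x - G_n g t x := by
  have e1 : cfc (fun x : ℝ => (t + max (x - t) 0) - max (t - x) 0) g = g := by
    conv_rhs => rw [← cfc_id' ℝ g]
    congr 1
    funext y
    rcases le_total y t with h | h
    · rw [max_eq_right (by linarith), max_eq_left (by linarith)]; ring
    · rw [max_eq_left (by linarith), max_eq_right (by linarith)]; ring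
  have e2 : cfc (fun x : ℝ => (t + max (x - t) 0) - max (t - x) 0) g =
      algebraMap ℝ (H →L[ℂ] H) t + G_h g t - G_n g t := by
    rw [cfc_sub (fun x : ℝ => t + max (x - t) 0) (fun x : ℝ => max (t - x) 0) g
      (by fun_prop) (by fun_prop),
      cfc_add g (fun _ : ℝ => t) (fun x : ℝ => max (x - t) 0) (by fun_prop) (by fun_prop),
      cfc_const t g]
    rfl
  have e3 : g = algebraMap ℝ (H →L[ℂ] H) t + G_h g t - G_n g t := by rw [← e2, e1]
  conv_lhs => rw [e3]
  have e4 : (algebraMap ℝ (H →L[ℂ] H) t) x = (t : ℂ) • x := by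
    rw [Algebra.algebraMap_eq_smul_one]
    simp
  show (algebraMap ℝ (H →L[ℂ] H) t) x + G_h g t x - G_n g t x = _
  rw [e4]

theorem G_mul (g : H →L[ℂ] H) (t : ℝ) : G_h g t * G_n g t = 0 := by
  unfold G_h G_n
  rw [← cfc_mul (fun x : ℝ => max (x - t) 0) (fun x : ℝ => max (t - x) 0) g
    (by fun_prop) (by fun_prop)]
  have : (fun x : ℝ => max (x - t) 0 * max (t - x) 0) = fun _ => 0 := by
    funext y
    rcases le_total y t with h | h
    · rw [max_eq_right (by linarith : y - t ≤ 0)]; ring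
    · rw [max_eq_right (by linarith : t - y ≤ 0)]; ring
  rw [this]
  exact cfc_const_zero ℝ g

theorem G_n_sa {g : H →L[ℂ] H} (t : ℝ) : IsSelfAdjoint (G_n g t) := cfc_predicate _ _

theorem G_h_sa {g : H →L[ℂ] H} (t : ℝ) : IsSelfAdjoint (G_h g t) := cfc_predicate _ _

theorem G_n_pos {g : H →L[ℂ] H} (t : ℝ) (x : H) : 0 ≤ (⟪G_n g t x, x⟫_ℂ).re := by
  have h : 0 ≤ G_n g t := cfc_nonneg fun y _ => le_max_right _ _
  exact ((ContinuousLinearMap.nonneg_iff_isPositive _).1 h).re_inner_nonneg_left x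

theorem G_h_pos {g : H →L[ℂ] H} (t : ℝ) (x : H) : 0 ≤ (⟪G_h g t x, x⟫_ℂ).re := by
  have h : 0 ≤ G_h g t := cfc_nonneg fun y _ => le_max_right _ _
  exact ((ContinuousLinearMap.nonneg_iff_isPositive _).1 h).re_inner_nonneg_left x

theorem G_fac (g : H →L[ℂ] H) {s t : ℝ} (hst : s ≤ t) {x : H} (hx : G_h g s x = 0) :
    G_h g t x = 0 := by
  rcases hst.eq_or_lt with rfl | hlt
  · exact hx
  have hden : ∀ y : ℝ, max (y - s) (t - s) ≠ 0 := fun y =>
    (lt_of_lt_of_le (by linarith : (0 : ℝ) < t - s) (le_max_right _ _)).ne'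
  have hcont : Continuous (fun y : ℝ => max (y - t) 0 / max (y - s) (t - s)) :=
    (by fun_prop : Continuous fun y : ℝ => max (y - t) 0).div (by fun_prop) hden
  have e : G_h g t = cfc (fun y : ℝ => max (y - t) 0 / max (y - s) (t - s)) g * G_h g s := by
    unfold G_h
    rw [← cfc_mul (fun y : ℝ => max (y - t) 0 / max (y - s) (t - s)) (fun x : ℝ => max (x - s) 0) g
      hcont.continuousOn (by fun_prop)]
    congr 1
    funext y
    rcases le_total y t with h | h
    · rw [max_eq_right (by linarith : y - t ≤ 0)]; ring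
    · rw [max_eq_left (by linarith : (0 : ℝ) ≤ y - s), max_eq_left (by linarith : t - s ≤ y - s),
        div_mul_cancel₀]
      exact (by linarith : (0 : ℝ) < y - s).ne'
  rw [e]
  show (cfc (fun y : ℝ => max (y - t) 0 / max (y - s) (t - s)) g) (G_h g s x) = 0
  rw [hx, map_zero]

theorem G_lip (g : H →L[ℂ] H) (t : ℝ) {τ : ℝ} (hτ : 0 ≤ τ) : ‖G_h g t - G_h g (t + τ)‖ ≤ τ := by
  unfold G_h
  rw [← cfc_sub (fun x : ℝ => max (x - t) 0) (fun x : ℝ => max (x - (t + τ)) 0) g
    (by fun_prop) (by fun_prop)]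
  refine norm_cfc_le hτ fun y _ => ?_
  rw [Real.norm_eq_abs, abs_le]
  rcases le_total y t with h | h
  · rw [max_eq_right (by linarith : y - t ≤ 0), max_eq_right (by linarith : y - (t + τ) ≤ 0)]
    constructor <;> linarith
  · rw [max_eq_left (by linarith : 0 ≤ y - t)]
    rcases le_total y (t + τ) with h' | h'
    · rw [max_eq_right (by linarith : y - (t + τ) ≤ 0)]
      constructor <;> linarith
    · rw [max_eq_left (by linarith : 0 ≤ y - (t + τ))]
      constructor <;> linarith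

theorem G_qf_le {g : H →L[ℂ] H} (hg : IsSelfAdjoint g) (t : ℝ) {x : H} (hx : G_D g t x = x) :
    qf g x ≤ t * ‖x‖ ^ 2 := by
  rw [G_D_eq_self] at hx
  unfold qf
  rw [G_dec hg t x, hx, add_zero, inner_sub_left, inner_smul_left, inner_self_eq_norm_sq_to_K]
  have h1 := G_n_pos (g := g) t x
  have h2 : ((starRingEnd ℂ) (t : ℂ) * ((‖x‖ : ℂ)) ^ 2).re = t * ‖x‖ ^ 2 := by
    rw [Complex.conj_ofReal, ← Complex.ofReal_pow, ← Complex.ofReal_mul, Complex.ofReal_re]
  have h3 : ((starRingEnd ℂ) (t : ℂ) * ((‖x‖ : ℂ)) ^ 2 - ⟪G_n g t x, x⟫_ℂ).re =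
      t * ‖x‖ ^ 2 - (⟪G_n g t x, x⟫_ℂ).re := by rw [Complex.sub_re, h2]
  have h4 : ((starRingEnd ℂ) (t : ℂ) * ((‖x‖ : ℂ)) ^ 2 - ⟪G_n g t x, x⟫_ℂ).re ≤ t * ‖x‖ ^ 2 := by
    rw [h3]; linarith
  exact h4

theorem G_qf_ge {g : H →L[ℂ] H} (hg : IsSelfAdjoint g) (t : ℝ) {x : H} (hx : G_D g t x = 0) :
    t * ‖x‖ ^ 2 ≤ qf g x := by
  have hx' : x ∈ (G_K g t)ᗮ := (Submodule.starProjection_apply_eq_zero_iff _).1 hx
  have hn : G_n g t x = 0 := by
    refine ext_inner_right ℂ fun y => ?_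
    have h1 : ⟪G_n g t x, y⟫_ℂ = ⟪x, G_n g t y⟫_ℂ := by
      have := (G_n_sa (g := g) t)
      exact this.isSymmetric x y
    rw [h1, inner_zero_left]
    refine Submodule.inner_left_of_mem_orthogonal ?_ hx'
    rw [G_mem_K]
    exact congrArg (fun T : H →L[ℂ] H => T y) (G_mul g t)
  unfold qf
  rw [G_dec hg t x, hn, sub_zero, inner_add_left, inner_smul_left, inner_self_eq_norm_sq_to_K]
  have h1 := G_h_pos (g := g) t x
  have h2 : ((starRingEnd ℂ) (t : ℂ) * ((‖x‖ : ℂ)) ^ 2).re = t * ‖x‖ ^ 2 := by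
    rw [Complex.conj_ofReal, ← Complex.ofReal_pow, ← Complex.ofReal_mul, Complex.ofReal_re]
  have h3 : ((starRingEnd ℂ) (t : ℂ) * ((‖x‖ : ℂ)) ^ 2 + ⟪G_h g t x, x⟫_ℂ).re =
      t * ‖x‖ ^ 2 + (⟪G_h g t x, x⟫_ℂ).re := by rw [Complex.add_re, h2]
  have h4 : t * ‖x‖ ^ 2 ≤ ((starRingEnd ℂ) (t : ℂ) * ((‖x‖ : ℂ)) ^ 2 + ⟪G_h g t x, x⟫_ℂ).re := by
    rw [h3]; linarith
  exact h4

theorem G_D_ComL (L : CSL H) {g : H →L[ℂ] H} (hsa : IsSelfAdjoint g)
    (hcomm : ∀ S ∈ ComL L, S * g = g * S) (t : ℝ) : G_D g t ∈ ComL L := by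
  intro P hP
  have hgP : Commute g P := (hcomm P (carrier_sub_ComL L hP)).symm
  have hhP : Commute (G_h g t) P := hsa.commute_cfc hgP _
  -- P maps the kernel into itself
  have h1 : ∀ x, G_D g t (P (G_D g t x)) = P (G_D g t x) := by
    intro x
    rw [G_D_eq_self]
    have h2 : G_h g t (P (G_D g t x)) = P (G_h g t (G_D g t x)) :=
      congrArg (fun T : H →L[ℂ] H => T (G_D g t x)) hhP.eq
    rw [h2, G_h_D, map_zero]
  have h3 : G_D g t * P * G_D g t = P * G_D g t := by
    ext x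
    exact h1 x
  have h4 := congrArg star h3
  rw [star_mul, star_mul, star_mul, star_proj (L.proj P hP), star_proj (G_D_proj g t)] at h4
  -- h4 : D * (P * D) = D * P
  rw [← h3, mul_assoc]
  exact h4

end G_aux

/- ================= TARGET ================= -/
/-- G -/
theorem pot_cut (L : CSL H) (C : ℝ) (g : H →L[ℂ] H) (hg : Pot L C g) :
    ∃ D : ℝ → (H →L[ℂ] H), (∀ t, D t ∈ L.carrier) ∧ (∀ s t, s ≤ t → D s * D t = D s) ∧
      (∀ t x, D t x = x → qf g x ≤ t * ‖x‖ ^ 2) ∧
      (∀ t x, D t x = 0 → t * ‖x‖ ^ 2 ≤ qf g x) := by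
  have hsa := hg.sa
  have hCom : ∀ t, G_D g t ∈ ComL L := fun t => G_D_ComL L hsa hg.comm t
  refine ⟨G_D g, fun t => ?_, fun s t hst => ?_, fun t x hx => G_qf_le hsa t hx,
    fun t x hx => G_qf_ge hsa t hx⟩
  · refine reflexive L _ (G_D_proj g t) fun S hS => ?_
    by_cases ht : t < 1
    · -- the cut is zero
      have h0 : G_D g t = 0 := by
        ext x
        have h1 : G_D g t (G_D g t x) = G_D g t x :=
          congrArg (fun T : H →L[ℂ] H => T x) (mul_self_proj (G_D_proj g t))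
        have h2 := G_qf_le hsa t h1
        have h3 := hg.lower (G_D g t x)
        have h4 : ‖G_D g t x‖ ^ 2 ≤ t * ‖G_D g t x‖ ^ 2 := h3.trans h2
        have h5 : 0 ≤ ‖G_D g t x‖ ^ 2 := by positivity
        have h6 : ‖G_D g t x‖ ^ 2 = 0 := by nlinarith
        simpa using h6
      rw [h0, mul_zero]
    · push Not at ht
      have key : ∀ τ : ℝ, 0 < τ → (1 - G_D g (t + τ)) * S * G_D g t = 0 := by
        intro τ hτ
        set R0 := (1 - G_D g (t + τ)) * S * G_D g t with hR0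
        have hR0A : R0 ∈ AlgL L :=
          AlgL_mul L (AlgL_mul L (AlgL_sub L (AlgL_one L) (ComL_sub_AlgL L (hCom _))) hS)
            (ComL_sub_AlgL L (hCom _))
        have hDR : ∀ x, G_D g (t + τ) (R0 x) = 0 := by
          intro x
          have e : G_D g (t + τ) * R0 = 0 := by
            rw [hR0, ← mul_assoc, ← mul_assoc, mul_sub, mul_one, mul_self_proj (G_D_proj g _),
              sub_self, zero_mul, zero_mul]
          exact congrArg (fun T : H →L[ℂ] H => T x) e
        have hRD : ∀ x, R0 (G_D g t x) = R0 x := by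
          intro x
          have e : R0 * G_D g t = R0 := by
            rw [hR0, mul_assoc, mul_self_proj (G_D_proj g _)]
          exact congrArg (fun T : H →L[ℂ] H => T x) e
        have hDn : ∀ x, ‖G_D g t x‖ ≤ ‖x‖ := fun x =>
          (G_K g t).norm_starProjection_apply_le x
        have hpow : ∀ x, (t + τ) * ‖R0 x‖ ^ 2 ≤ t * (‖R0‖ * ‖x‖) ^ 2 := by
          intro x
          by_cases hz : ‖R0‖ = 0
          · have h0 : R0 = 0 := norm_eq_zero.1 hz
            rw [h0]
            simp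
          have hpos : 0 < ‖R0‖ := lt_of_le_of_ne (norm_nonneg _) (Ne.symm hz)
          have h1 : (t + τ) * ‖R0 x‖ ^ 2 ≤ qf g (R0 x) := G_qf_ge hsa _ (hDR x)
          have hR1 : (((‖R0‖)⁻¹ : ℝ) : ℂ) • R0 ∈ AlgL L := AlgL_smul L _ hR0A
          have hR2 : ‖(((‖R0‖)⁻¹ : ℝ) : ℂ) • R0‖ ≤ 1 := by
            rw [norm_smul, Complex.norm_real, norm_inv, norm_norm, inv_mul_cancel₀ hz]
          have h2 := hg.mono _ hR1 hR2 (G_D g t x)
          have h3 : qf g (((((‖R0‖)⁻¹ : ℝ) : ℂ) • R0) (G_D g t x)) =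
              (‖R0‖⁻¹) ^ 2 * qf g (R0 x) := by
            unfold qf
            rw [ContinuousLinearMap.smul_apply, hRD, map_smul, inner_smul_left, inner_smul_right,
              Complex.conj_ofReal, ← mul_assoc, ← Complex.ofReal_mul, Complex.re_ofReal_mul]
            ring
          rw [h3] at h2
          have h4 : qf g (G_D g t x) ≤ t * ‖G_D g t x‖ ^ 2 :=
            G_qf_le hsa t (congrArg (fun T : H →L[ℂ] H => T x) (mul_self_proj (G_D_proj g t)))
          have h5 : ‖G_D g t x‖ ^ 2 ≤ ‖x‖ ^ 2 := pow_le_pow_left₀ (norm_nonneg _) (hDn x) 2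
          have h6 : (‖R0‖⁻¹) ^ 2 * qf g (R0 x) ≤ t * ‖x‖ ^ 2 :=
            (h2.trans h4).trans (mul_le_mul_of_nonneg_left h5 (by linarith))
          have h7 : qf g (R0 x) ≤ t * (‖R0‖ * ‖x‖) ^ 2 := by
            have h8 := mul_le_mul_of_nonneg_left h6 (sq_nonneg ‖R0‖)
            have h9 : ‖R0‖ ^ 2 * ((‖R0‖⁻¹) ^ 2 * qf g (R0 x)) = qf g (R0 x) := by
              field_simp
            rw [h9] at h8
            calc qf g (R0 x) ≤ ‖R0‖ ^ 2 * (t * ‖x‖ ^ 2) := h8
              _ = t * (‖R0‖ * ‖x‖) ^ 2 := by ring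
          exact h1.trans h7
        -- conclude
        set c := Real.sqrt (t / (t + τ)) with hc
        have htτ : 0 < t + τ := by linarith
        have hc0 : 0 ≤ c := Real.sqrt_nonneg _
        have hc2 : c ^ 2 = t / (t + τ) := Real.sq_sqrt (by positivity)
        have hc1 : c < 1 := by
          have h1 : c ^ 2 < 1 := by
            rw [hc2, div_lt_one htτ]; linarith
          nlinarith
        have hb : ∀ x, ‖R0 x‖ ≤ (c * ‖R0‖) * ‖x‖ := by
          intro x
          refine abs_le_of_sq_le_sq' ?_ (by positivity) |>.2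
          have h1 := hpow x
          have h2 : ‖R0 x‖ ^ 2 ≤ t / (t + τ) * (‖R0‖ * ‖x‖) ^ 2 := by
            rw [div_mul_eq_mul_div, le_div_iff₀ htτ]
            linarith
          rw [← hc2] at h2
          calc ‖R0 x‖ ^ 2 ≤ c ^ 2 * (‖R0‖ * ‖x‖) ^ 2 := h2
            _ = (c * ‖R0‖ * ‖x‖) ^ 2 := by ring
        have h1 : ‖R0‖ ≤ c * ‖R0‖ := R0.opNorm_le_bound (by positivity) hb
        have h2 : ‖R0‖ = 0 := by
          have := norm_nonneg R0
          nlinarith
        exact norm_eq_zero.1 h2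
      -- let τ → 0
      ext x
      set y := S (G_D g t x) with hy
      have hyD : ∀ τ : ℝ, 0 < τ → G_h g (t + τ) y = 0 := by
        intro τ hτ
        rw [← G_D_eq_self]
        have h1 := congrArg (fun T : H →L[ℂ] H => T x) (key τ hτ)
        have h2 : y - G_D g (t + τ) y = 0 := h1
        exact (sub_eq_zero.1 h2).symm
      have hhy : G_h g t y = 0 := by
        have h1 : ∀ τ : ℝ, 0 < τ → ‖G_h g t y‖ ≤ τ * ‖y‖ := by
          intro τ hτ
          have h2 : G_h g t y = (G_h g t - G_h g (t + τ)) y := by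
            show G_h g t y = G_h g t y - G_h g (t + τ) y
            rw [hyD τ hτ, sub_zero]
          rw [h2]
          exact (ContinuousLinearMap.le_opNorm _ _).trans
            (mul_le_mul_of_nonneg_right (G_lip g t hτ.le) (norm_nonneg _))
        by_contra hne
        have hpos : 0 < ‖G_h g t y‖ := norm_pos_iff.2 hne
        have h3 := h1 (‖G_h g t y‖ / (2 * (‖y‖ + 1))) (by positivity)
        have h4 : ‖G_h g t y‖ / (2 * (‖y‖ + 1)) * ‖y‖ ≤ ‖G_h g t y‖ / 2 := by
          rw [div_mul_eq_mul_div, div_le_div_iff₀ (by positivity) (by norm_num)]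
          have := norm_nonneg y
          nlinarith
        linarith
      show y - G_D g t y = 0
      rw [G_D_eq_self.2 hhy, sub_self]
  · have h1 : G_D g t * G_D g s = G_D g s := by
      ext x
      show G_D g t (G_D g s x) = G_D g s x
      rw [G_D_eq_self]
      exact G_fac g hst (G_h_D g s x)
    have h2 := congrArg star h1
    rwa [star_mul, star_proj (G_D_proj g t), star_proj (G_D_proj g s)] at h2

end Hop
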