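import Pool.Agent.Helper360.Hop.Defs
import Pool.Agent.Helper360.Hop.Wot
import Pool.Agent.Helper360.Hop.PotCut
set_option maxHeartbeats 4000000

open scoped InnerProductSpace Topology ComplexConjugate
open Finset Filter

namespace Hop

variable {H : Type*} [NormedAddCommGroup H] [InnerProductSpace ℂ H] [CompleteSpace H]

/-! ### auxiliary lemmas -/

theorem m3_qf_proj {P : H →L[ℂ] H} (hP : IsStarProjection P) (x : H) : qf P x = ‖P x‖ ^ 2 := by
  unfold qf
  have h : P (P x) = P x := by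
    rw [← ContinuousLinearMap.mul_apply, mul_self_proj hP]
  have h2 : ⟪P (P x), x⟫_ℂ = ⟪P x, P x⟫_ℂ := by
    have h3 := ContinuousLinearMap.adjoint_inner_left P x (P x)
    rw [← ContinuousLinearMap.star_eq_adjoint, star_proj hP] at h3
    exact h3
  rw [← h, h2, h, inner_self_eq_norm_sq_to_K]
  norm_cast

theorem m3_proj_le {P : H →L[ℂ] H} (hP : IsStarProjection P) (x : H) : ‖P x‖ ≤ ‖x‖ := by
  refine (P.le_opNorm x).trans ?_
  have := IsStarProjection.norm_le P hP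
  exact mul_le_of_le_one_left (norm_nonneg x) this

theorem m3_qf_one (x : H) : qf (1 : H →L[ℂ] H) x = ‖x‖ ^ 2 := by
  have h : IsStarProjection (1 : H →L[ℂ] H) := IsStarProjection.one _
  rw [m3_qf_proj h]
  rfl

theorem m3_qf_add (a b : H →L[ℂ] H) (x : H) : qf (a + b) x = qf a x + qf b x := by
  unfold qf
  rw [ContinuousLinearMap.add_apply, inner_add_left, Complex.add_re]

theorem m3_qf_sub (a b : H →L[ℂ] H) (x : H) : qf (a - b) x = qf a x - qf b x := by
  unfold qf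
  rw [ContinuousLinearMap.sub_apply, inner_sub_left, Complex.sub_re]

theorem m3_qf_smul (c : ℝ) (a : H →L[ℂ] H) (x : H) : qf ((c : ℂ) • a) x = c * qf a x := by
  unfold qf
  rw [ContinuousLinearMap.smul_apply, inner_smul_left, Complex.conj_ofReal, Complex.re_ofReal_mul]

theorem m3_qf_sum {ι : Type*} (s : Finset ι) (f : ι → (H →L[ℂ] H)) (x : H) :
    qf (∑ i ∈ s, f i) x = ∑ i ∈ s, qf (f i) x := by
  classical
  induction s using Finset.induction_on with
  | empty => simp [qf]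
  | insert a s ha ih => rw [Finset.sum_insert ha, Finset.sum_insert ha, m3_qf_add, ih]

/-- the potential of a chain -/
noncomputable def m3g (D : ℕ → (H →L[ℂ] H)) (N : ℕ) (M : ℝ) : H →L[ℂ] H :=
  ∑ k ∈ range N, ((M ^ k : ℝ) : ℂ) • blk D k

theorem m3_F1 {L : CSL H} {N : ℕ} {D : ℕ → (H →L[ℂ] H)} (hD : IsChn L N D) (M : ℝ) (x : H) :
    qf (m3g D N M) x = ∑ k ∈ range N, M ^ k * ‖blk D k x‖ ^ 2 := by
  unfold m3g
  rw [m3_qf_sum]
  refine Finset.sum_congr rfl fun k _ => ?_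
  rw [m3_qf_smul, m3_qf_proj (blk_proj hD k)]

theorem m3_sum_sq {L : CSL H} {N : ℕ} {D : ℕ → (H →L[ℂ] H)} (hD : IsChn L N D) (x : H) :
    ∑ k ∈ range N, ‖blk D k x‖ ^ 2 = ‖x‖ ^ 2 := by
  have h := m3_F1 hD 1 x
  have h2 : m3g D N 1 = 1 := by
    unfold m3g
    simp only [one_pow, Complex.ofReal_one, one_smul]
    exact sum_blk hD
  rw [h2, m3_qf_one] at h
  simpa using h.symm

theorem m3_abel (M : ℝ) (B : ℕ → ℝ) (n : ℕ) :
    ∑ k ∈ range n, M ^ k * (B k - B (k + 1)) + M ^ n * B n =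
      B 0 + ∑ k ∈ range n, (M ^ (k + 1) - M ^ k) * B (k + 1) := by
  induction n with
  | zero => simp
  | succ n ih =>
    rw [Finset.sum_range_succ, Finset.sum_range_succ, ← add_assoc (B 0), ← ih]
    ring

theorem m3_F2 {L : CSL H} {N : ℕ} {D : ℕ → (H →L[ℂ] H)} (hD : IsChn L N D) (M : ℝ) (x : H) :
    qf (m3g D N M) x = ‖x‖ ^ 2 +
      ∑ k ∈ range N, (M ^ (k + 1) - M ^ k) * ‖(1 - D (k + 1)) x‖ ^ 2 := by
  have hB : ∀ k, ‖(1 - D k) x‖ ^ 2 = ‖x‖ ^ 2 - qf (D k) x := by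
    intro k
    rw [← m3_qf_proj (L.proj _ (hD.mem k)).one_sub, m3_qf_sub, m3_qf_one]
  have h := m3_abel M (fun k => ‖(1 - D k) x‖ ^ 2) N
  rw [hD.zero, hD.top, sub_zero, sub_self] at h
  have h0 : ‖(1 : H →L[ℂ] H) x‖ = ‖x‖ := rfl
  rw [h0, ContinuousLinearMap.zero_apply, norm_zero, zero_pow two_ne_zero, mul_zero, add_zero] at h
  rw [← h, m3_F1 hD]
  refine Finset.sum_congr rfl fun k _ => ?_
  rw [hB, hB, ← m3_qf_proj (blk_proj hD k), blk, m3_qf_sub]
  ring

theorem m3_alg {L : CSL H} {S P : H →L[ℂ] H} (hS : S ∈ AlgL L) (hP : P ∈ L.carrier) (x : H) :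
    (1 - P) (S x) = (1 - P) (S ((1 - P) x)) := by
  have h := hS P hP
  have h2 : (1 - P) (S (P x)) = 0 := by
    have := DFunLike.congr_fun h x
    exact this
  have h3 : (1 - P) x = x - P x := rfl
  rw [h3, map_sub, map_sub, h2, sub_zero]

theorem m3_pot {L : CSL H} {N : ℕ} {D : ℕ → (H →L[ℂ] H)} (hD : IsChn L N D) {M : ℝ}
    (hM : 1 ≤ M) : Pot L (M ^ N) (m3g D N M) where
  sa := by
    show star (m3g D N M) = m3g D N M
    unfold m3g
    rw [star_sum]
    refine Finset.sum_congr rfl fun k _ => ?_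
    rw [star_smul, star_proj (blk_proj hD k)]
    congr 1
    exact Complex.conj_ofReal _
  comm := by
    intro S hS
    unfold m3g
    rw [Finset.mul_sum, Finset.sum_mul]
    refine Finset.sum_congr rfl fun k _ => ?_
    rw [mul_smul_comm, smul_mul_assoc, blk_mem_BiComL hD k S hS]
  lower := by
    intro x
    rw [m3_F1 hD, ← m3_sum_sq hD x]
    refine Finset.sum_le_sum fun k _ => ?_
    have := one_le_pow₀ hM (n := k)
    nlinarith [sq_nonneg ‖blk D k x‖]
  upper := by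
    intro x
    rw [m3_F1 hD, ← m3_sum_sq hD x, Finset.mul_sum]
    refine Finset.sum_le_sum fun k hk => ?_
    have : M ^ k ≤ M ^ N := pow_le_pow_right₀ hM (Finset.mem_range.1 hk).le
    gcongr
  mono := by
    intro S hS hS1 x
    rw [m3_F2 hD, m3_F2 hD]
    have h1 : ‖S x‖ ≤ ‖x‖ := (S.le_opNorm x).trans (mul_le_of_le_one_left (norm_nonneg x) hS1)
    refine add_le_add (by gcongr) (Finset.sum_le_sum fun k _ => ?_)
    have h2 : 0 ≤ M ^ (k + 1) - M ^ k := sub_nonneg.2 (pow_le_pow_right₀ hM (Nat.le_succ k))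
    have h3 : ‖(1 - D (k + 1)) (S x)‖ ≤ ‖(1 - D (k + 1)) x‖ := by
      rw [m3_alg hS (hD.mem _)]
      refine (m3_proj_le (L.proj _ (hD.mem (k+1))).one_sub _).trans ?_
      exact (S.le_opNorm _).trans (mul_le_of_le_one_left (norm_nonneg _) hS1)
    gcongr

/-- the real inequality for the crossing part -/
theorem m3_real {M : ℝ} (hM : 1 ≤ M) {B B' : ℕ → ℝ} (hB : ∀ k, 0 ≤ B k) (hB01 : B 1 ≤ B 0) (N : ℕ)
    (hBB : ∀ k, k < N → B' k ≤ 4 * B (k + 1)) (hN : B' N = 0) :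
    M * (B' 0 + ∑ k ∈ range N, (M ^ (k + 1) - M ^ k) * B' (k + 1)) ≤
      4 * (B 0 + ∑ k ∈ range N, (M ^ (k + 1) - M ^ k) * B (k + 1)) := by
  rcases N with _ | n
  · rw [hN]
    simp only [Finset.range_zero, Finset.sum_empty, add_zero, mul_zero]
    have := hB 0
    linarith
  · have hc : ∀ k, 0 ≤ M ^ (k + 1) - M ^ k := fun k =>
      sub_nonneg.2 (pow_le_pow_right₀ hM (Nat.le_succ k))
    have hM0 : 0 ≤ M := by linarith
    have e1 : ∑ k ∈ range (n + 1), (M ^ (k + 1) - M ^ k) * B' (k + 1) ≤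
        ∑ k ∈ range n, (M ^ (k + 1) - M ^ k) * (4 * B (k + 2)) := by
      rw [Finset.sum_range_succ, hN, mul_zero, add_zero]
      refine Finset.sum_le_sum fun k hk => ?_
      have := hBB (k + 1) (by have := Finset.mem_range.1 hk; omega)
      exact mul_le_mul_of_nonneg_left this (hc k)
    have e2 : M * ∑ k ∈ range n, (M ^ (k + 1) - M ^ k) * (4 * B (k + 2)) =
        4 * ∑ k ∈ range n, (M ^ (k + 2) - M ^ (k + 1)) * B (k + 2) := by
      rw [Finset.mul_sum, Finset.mul_sum]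
      refine Finset.sum_congr rfl fun k _ => ?_
      ring
    have e3 : ∑ k ∈ range (n + 1), (M ^ (k + 1) - M ^ k) * B (k + 1) =
        ∑ k ∈ range n, (M ^ (k + 2) - M ^ (k + 1)) * B (k + 2) + (M - 1) * B 1 := by
      rw [Finset.sum_range_succ']
      simp
    have e4 := hBB 0 (Nat.succ_pos n)
    rw [zero_add] at e4
    rw [e3]
    have e5 := mul_le_mul_of_nonneg_left e1 hM0
    rw [e2] at e5
    have e6 := mul_le_mul_of_nonneg_left e4 hM0
    rw [mul_add]
    nlinarith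

theorem m3_blk_bdiag {L : CSL H} {N : ℕ} {D : ℕ → (H →L[ℂ] H)} (hD : IsChn L N D)
    (T : H →L[ℂ] H) {k : ℕ} (hk : k < N) : blk D k * bdiag N D T = blk D k * T * blk D k := by
  unfold bdiag
  rw [Finset.mul_sum, Finset.sum_eq_single k]
  · rw [← mul_assoc, ← mul_assoc, mul_self_proj (blk_proj hD k)]
  · intro j _ hj
    rw [← mul_assoc, ← mul_assoc, blk_mul_blk_of_ne hD (Ne.symm hj), zero_mul, zero_mul]
  · intro h
    exact absurd (Finset.mem_range.2 hk) h

theorem m3_bdiag_le {L : CSL H} {N : ℕ} {D : ℕ → (H →L[ℂ] H)} (hD : IsChn L N D)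
    (T : H →L[ℂ] H) (hT : ‖T‖ ≤ 1) (x : H) : ‖bdiag N D T x‖ ≤ ‖x‖ := by
  rw [← sq_le_sq₀ (norm_nonneg _) (norm_nonneg _), ← m3_sum_sq hD, ← m3_sum_sq hD x]
  refine Finset.sum_le_sum fun k hk => ?_
  have h : blk D k (bdiag N D T x) = blk D k (T (blk D k x)) := by
    have := DFunLike.congr_fun (m3_blk_bdiag hD T (Finset.mem_range.1 hk)) x
    exact this
  rw [h]
  have h2 : ‖blk D k (T (blk D k x))‖ ≤ ‖blk D k x‖ := by
    refine (m3_proj_le (blk_proj hD k) _).trans ?_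
    exact (T.le_opNorm _).trans (mul_le_of_le_one_left (norm_nonneg _) hT)
  gcongr

theorem m3_cross {L : CSL H} {N : ℕ} {D : ℕ → (H →L[ℂ] H)} (hD : IsChn L N D)
    {T : H →L[ℂ] H} (hT : T ∈ AlgL L) {k : ℕ} (hk : k < N) :
    (1 - D k) * (T - bdiag N D T) * D (k + 1) = 0 := by
  have a1 : (1 - D k) * T * D (k + 1) = blk D k * T * blk D k := by
    have h1 := (AlgL_iff L T).1 hT _ (hD.mem (k + 1))
    have h2 := (AlgL_iff L T).1 hT _ (hD.mem k)
    have h3 : (1 - D k) * D (k + 1) = blk D k := by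
      rw [sub_mul, one_mul, hD.mono k, blk]
    have h4 : blk D k * D k = 0 := by
      rw [blk, sub_mul, chn_mul' hD (Nat.le_succ k), chn_mul hD le_rfl, sub_self]
    have h5 : blk D k * T * D k = 0 := by
      rw [mul_assoc, h2, ← mul_assoc, ← mul_assoc, h4, zero_mul, zero_mul]
    have h6 : D (k + 1) = blk D k + D k := by rw [blk]; abel
    calc (1 - D k) * T * D (k + 1) = (1 - D k) * (T * D (k + 1)) := by rw [mul_assoc]
      _ = (1 - D k) * (D (k + 1) * T * D (k + 1)) := by rw [h1]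
      _ = ((1 - D k) * D (k + 1)) * T * D (k + 1) := by noncomm_ring
      _ = blk D k * T * D (k + 1) := by rw [h3]
      _ = blk D k * T * (blk D k + D k) := by rw [← h6]
      _ = _ := by rw [mul_add, h5, add_zero]
  have a2 : (1 - D k) * bdiag N D T * D (k + 1) = blk D k * T * blk D k := by
    unfold bdiag
    rw [Finset.mul_sum, Finset.sum_mul, Finset.sum_eq_single k]
    · have h1 : (1 - D k) * blk D k = blk D k := by
        rw [sub_mul, one_mul, blk, mul_sub, hD.mono k, chn_mul hD le_rfl, sub_self, sub_zero]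
      have h2 : blk D k * D (k + 1) = blk D k := by
        rw [blk, sub_mul, hD.mono k, chn_mul hD le_rfl]
      calc (1 - D k) * (blk D k * T * blk D k) * D (k + 1) =
          ((1 - D k) * blk D k) * T * (blk D k * D (k + 1)) := by noncomm_ring
        _ = _ := by rw [h1, h2]
    · intro j _ hj
      rcases lt_or_gt_of_ne hj with h | h
      · have h1 : (1 - D k) * blk D j = 0 := by
          rw [sub_mul, one_mul, blk, mul_sub, chn_mul' hD (show j + 1 ≤ k by omega),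
            chn_mul' hD (show j ≤ k by omega), sub_self]
        calc (1 - D k) * (blk D j * T * blk D j) * D (k + 1) =
            ((1 - D k) * blk D j) * T * blk D j * D (k + 1) := by noncomm_ring
          _ = 0 := by rw [h1]; simp
      · have h1 : blk D j * D (k + 1) = 0 := by
          rw [blk, sub_mul, chn_mul' hD (show k + 1 ≤ j + 1 by omega),
            chn_mul' hD (show k + 1 ≤ j by omega), sub_self]
        calc (1 - D k) * (blk D j * T * blk D j) * D (k + 1) =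
            (1 - D k) * blk D j * T * (blk D j * D (k + 1)) := by noncomm_ring
          _ = 0 := by rw [h1, mul_zero]
    · intro h
      exact absurd (Finset.mem_range.2 hk) h
  rw [mul_sub, sub_mul, a1, a2, sub_self]

theorem m3_ineq {L : CSL H} {N : ℕ} {D : ℕ → (H →L[ℂ] H)} (hD : IsChn L N D)
    {T : H →L[ℂ] H} (hT : T ∈ AlgL L) (hT1 : ‖T‖ ≤ 1) {δ : ℝ} (hδ : 0 < δ) (hδ1 : δ ≤ 1)
    (hb : ∀ k < N, ‖blk D k * T * blk D k‖ ≤ δ) (x : H) :
    qf (m3g D N (4 / δ ^ 2)) (T x) ≤ 4 * δ ^ 2 * qf (m3g D N (4 / δ ^ 2)) x := by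
  obtain ⟨M, hMdef⟩ : ∃ M, M = 4 / δ ^ 2 := ⟨_, rfl⟩
  rw [← hMdef]
  have hM : 1 ≤ M := by
    rw [hMdef, le_div_iff₀ (by positivity)]
    nlinarith
  have hM0 : 0 ≤ M := by linarith
  obtain ⟨Td, hTd⟩ : ∃ Td, Td = bdiag N D T := ⟨_, rfl⟩
  obtain ⟨Tc, hTc⟩ : ∃ Tc, Tc = T - Td := ⟨_, rfl⟩
  have hTx : T x = Td x + Tc x := by
    rw [hTc, ContinuousLinearMap.sub_apply]
    abel
  have hTd1 : ∀ y, ‖Td y‖ ≤ ‖y‖ := fun y => by rw [hTd]; exact m3_bdiag_le hD T hT1 y
  have hTc1 : ∀ y, ‖Tc y‖ ≤ 2 * ‖y‖ := by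
    intro y
    rw [hTc, ContinuousLinearMap.sub_apply]
    refine (norm_sub_le _ _).trans ?_
    have h1 : ‖T y‖ ≤ ‖y‖ := (T.le_opNorm _).trans (mul_le_of_le_one_left (norm_nonneg _) hT1)
    have := hTd1 y
    linarith
  -- diagonal part
  have p1 : qf (m3g D N M) (Td x) ≤ δ ^ 2 * qf (m3g D N M) x := by
    rw [m3_F1 hD, m3_F1 hD, Finset.mul_sum]
    refine Finset.sum_le_sum fun k hk => ?_
    have h : blk D k (Td x) = (blk D k * T * blk D k) (blk D k x) := by
      have h1 := DFunLike.congr_fun (m3_blk_bdiag hD T (Finset.mem_range.1 hk)) x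
      rw [hTd]
      refine Eq.trans h1 ?_
      show blk D k (T (blk D k x)) = blk D k (T (blk D k (blk D k x)))
      rw [← ContinuousLinearMap.mul_apply (blk D k) (blk D k), mul_self_proj (blk_proj hD k)]
    have h2 : ‖blk D k (Td x)‖ ≤ δ * ‖blk D k x‖ := by
      rw [h]
      refine (ContinuousLinearMap.le_opNorm _ _).trans ?_
      have := hb k (Finset.mem_range.1 hk)
      gcongr
    calc M ^ k * ‖blk D k (Td x)‖ ^ 2 ≤ M ^ k * (δ * ‖blk D k x‖) ^ 2 := by gcongr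
      _ = _ := by ring
  -- crossing part
  have p2 : qf (m3g D N M) (Tc x) ≤ δ ^ 2 * qf (m3g D N M) x := by
    have h := m3_real hM (B := fun k => ‖(1 - D k) x‖ ^ 2) (B' := fun k => ‖(1 - D k) (Tc x)‖ ^ 2)
      (fun k => sq_nonneg _) (by
        have h0 : (1 - D 0) x = x := by rw [hD.zero, sub_zero]; rfl
        rw [h0]
        have := m3_proj_le (L.proj _ (hD.mem 1)).one_sub x
        gcongr) N (by
        intro k hk
        have h1 := m3_cross hD hT hk
        rw [← hTd, ← hTc] at h1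
        have h2 : (1 - D k) (Tc (D (k + 1) x)) = 0 := by
          have := DFunLike.congr_fun h1 x
          exact this
        have h3 : (1 - D k) (Tc x) = (1 - D k) (Tc ((1 - D (k + 1)) x)) := by
          have : (1 - D (k + 1)) x = x - D (k + 1) x := rfl
          rw [this, map_sub, map_sub, h2, sub_zero]
        have h4 : ‖(1 - D k) (Tc x)‖ ≤ 2 * ‖(1 - D (k + 1)) x‖ := by
          rw [h3]
          exact (m3_proj_le (L.proj _ (hD.mem k)).one_sub _).trans (hTc1 _)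
        calc ‖(1 - D k) (Tc x)‖ ^ 2 ≤ (2 * ‖(1 - D (k + 1)) x‖) ^ 2 := by gcongr
          _ = _ := by ring) (by
        rw [hD.top, sub_self]
        simp)
    have e0 : ∀ y : H, ‖(1 - D 0) y‖ = ‖y‖ := fun y => by rw [hD.zero, sub_zero]; rfl
    rw [e0, e0, ← m3_F2 hD, ← m3_F2 hD] at h
    have hMd : M * δ ^ 2 = 4 := by
      rw [hMdef]
      field_simp
    have h5 : M * δ ^ 2 * qf (m3g D N M) (Tc x) ≤ 4 * (δ ^ 2 * qf (m3g D N M) x) := by
      have := mul_le_mul_of_nonneg_left h (sq_nonneg δ)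
      linarith
    rw [hMd] at h5
    linarith
  -- sum
  have p3 : qf (m3g D N M) (Td x + Tc x) ≤ 2 * qf (m3g D N M) (Td x) + 2 * qf (m3g D N M) (Tc x) := by
    rw [m3_F1 hD, m3_F1 hD, m3_F1 hD, Finset.mul_sum, Finset.mul_sum, ← Finset.sum_add_distrib]
    refine Finset.sum_le_sum fun k _ => ?_
    rw [map_add]
    have h1 : ‖blk D k (Td x) + blk D k (Tc x)‖ ^ 2 ≤
        2 * ‖blk D k (Td x)‖ ^ 2 + 2 * ‖blk D k (Tc x)‖ ^ 2 := by
      have := norm_add_le (blk D k (Td x)) (blk D k (Tc x))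
      have h2 : ‖blk D k (Td x) + blk D k (Tc x)‖ ^ 2 ≤
        (‖blk D k (Td x)‖ + ‖blk D k (Tc x)‖) ^ 2 := by gcongr
      nlinarith [sq_nonneg (‖blk D k (Td x)‖ - ‖blk D k (Tc x)‖)]
    have h3 : 0 ≤ M ^ k := by positivity
    calc M ^ k * ‖blk D k (Td x) + blk D k (Tc x)‖ ^ 2 ≤
        M ^ k * (2 * ‖blk D k (Td x)‖ ^ 2 + 2 * ‖blk D k (Tc x)‖ ^ 2) := by gcongr
      _ = _ := by ring
  rw [hTx]
  linarith

/-! unions -/

theorem m3_union {L : CSL H} (l : List (H →L[ℂ] H)) (hl : ∀ E ∈ l, IsInt L E) :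
    IsStarProjection (unionL l) ∧ unionL l ∈ BiComL L := by
  have key : IsStarProjection (l.map (fun E => 1 - E)).prod ∧
      (l.map (fun E => 1 - E)).prod ∈ BiComL L := by
    induction l with
    | nil =>
      simp only [List.map_nil, List.prod_nil]
      exact ⟨IsStarProjection.one _, fun S _ => by rw [mul_one, one_mul]⟩
    | cons E l ih =>
      obtain ⟨ih1, ih2⟩ := ih fun F hF => hl F (List.mem_cons_of_mem E hF)
      obtain ⟨M₁, h1, M₂, h2, h3, h4⟩ := hl E List.mem_cons_self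
      rw [List.map_cons, List.prod_cons]
      have hE : IsStarProjection (1 - E) := by
        rw [h4]
        exact ((L.proj _ h2).sub_of_mul_eq_left (L.proj _ h1) h3).one_sub
      have hEB : (1 - E) ∈ BiComL L := by
        intro S hS
        rw [h4, mul_sub, mul_sub, sub_mul, sub_mul, ← hS _ h1, ← hS _ h2, mul_one, one_mul]
      refine ⟨hE.mul ih1 ?_, ?_⟩
      · exact ih2 _ (BiComL_sub_ComL L hEB)
      · intro S hS
        rw [← mul_assoc, hEB S hS, mul_assoc, ih2 S hS, mul_assoc]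
  unfold unionL
  refine ⟨key.1.one_sub, ?_⟩
  intro S hS
  rw [mul_sub, sub_mul, key.2 S hS, mul_one, one_mul]

theorem m3_qf_diff (G : H →L[ℂ] H) {c : ℝ} (hG : ‖G‖ ≤ c) (u v : H) :
    |qf G u - qf G v| ≤ c * ‖u - v‖ * (‖u‖ + ‖v‖) := by
  have e : qf G u - qf G v = (⟪G (u - v), u⟫_ℂ + ⟪G v, u - v⟫_ℂ).re := by
    unfold qf
    rw [← Complex.sub_re, map_sub, inner_sub_left, inner_sub_right]
    congr 1
    ring
  rw [e]
  refine (Complex.abs_re_le_norm _).trans ((norm_add_le _ _).trans ?_)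
  have h1 : ‖⟪G (u - v), u⟫_ℂ‖ ≤ c * ‖u - v‖ * ‖u‖ := by
    refine (norm_inner_le_norm _ _).trans ?_
    have := G.le_opNorm (u - v)
    gcongr
    exact this.trans (by gcongr)
  have h2 : ‖⟪G v, u - v⟫_ℂ‖ ≤ c * ‖u - v‖ * ‖v‖ := by
    refine (norm_inner_le_norm _ _).trans ?_
    have h3 : ‖G v‖ ≤ c * ‖v‖ := (G.le_opNorm v).trans (by gcongr)
    calc ‖G v‖ * ‖u - v‖ ≤ c * ‖v‖ * ‖u - v‖ := by gcongr
      _ = _ := by ring
  linarith

theorem m3_g_norm {L : CSL H} {N : ℕ} {D : ℕ → (H →L[ℂ] H)} (hD : IsChn L N D) {M : ℝ}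
    (hM : 1 ≤ M) : ‖m3g D N M‖ ≤ ∑ k ∈ range N, M ^ k := by
  unfold m3g
  refine (norm_sum_le _ _).trans (Finset.sum_le_sum fun k _ => ?_)
  rw [norm_smul, Complex.norm_real, Real.norm_of_nonneg (by positivity)]
  exact mul_le_of_le_one_right (by positivity) (IsStarProjection.norm_le _ (blk_proj hD k))

/-- the final cutting step -/
theorem m3_final (L : CSL H) {δ C : ℝ} (hδ : 0 < δ) {g : H →L[ℂ] H} (hg : Pot L C g)
    {V : H →L[ℂ] H} (hV : ∀ x, qf g (V x) ≤ 4 * δ ^ 2 * qf g x) : ∃ q, Good L V (3 * δ) q := by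
  obtain ⟨Dt, d1, d2, d3, d4⟩ := pot_cut L C g hg
  obtain ⟨q, hq⟩ := pow_unbounded_of_one_lt C (one_lt_two (α := ℝ))
  obtain ⟨D', hD'⟩ : ∃ D' : ℕ → (H →L[ℂ] H), ∀ k, D' k =
    if k = 0 then 0 else if k < q + 1 then Dt (2 ^ k) else 1 := ⟨_, fun _ => rfl⟩
  have hchn : IsChn L (q + 1) D' := by
    refine ⟨fun k => ?_, fun k => ?_, ?_, ?_⟩
    · rw [hD']
      split_ifs
      · exact L.zero_mem
      · exact d1 _
      · exact L.one_mem
    · rw [hD' k, hD' (k + 1), if_neg (Nat.succ_ne_zero k)]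
      by_cases h0 : k = 0
      · rw [if_pos h0, zero_mul]
      · rw [if_neg h0]
        by_cases h1 : k + 1 < q + 1
        · rw [if_pos h1, if_pos (by omega)]
          exact d2 _ _ (pow_le_pow_right₀ one_le_two (Nat.le_succ k))
        · rw [if_neg h1, mul_one]
    · rw [hD', if_pos rfl]
    · rw [hD', if_neg (Nat.succ_ne_zero q), if_neg (lt_irrefl _)]
  refine ⟨q + 1, D', hchn, fun k hk => ?_⟩
  obtain ⟨Y, hY⟩ : ∃ Y, Y = blk D' k := ⟨_, rfl⟩
  rw [← hY]
  have hYp : IsStarProjection Y := by rw [hY]; exact blk_proj hchn k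
  have hYY : ∀ w, Y (Y w) = Y w := fun w => by
    rw [← ContinuousLinearMap.mul_apply, mul_self_proj hYp]
  have hlow : ∀ w, Y w = w → 2 ^ k * ‖w‖ ^ 2 ≤ qf g w := by
    intro w hw
    by_cases h0 : k = 0
    · rw [h0, pow_zero, one_mul]
      exact hg.lower w
    · have h1 : D' k w = 0 := by
        have h2 : D' k * Y = 0 := by
          rw [hY, blk, mul_sub, hchn.mono k, chn_mul hchn le_rfl, sub_self]
        have h3 := DFunLike.congr_fun h2 w
        rw [ContinuousLinearMap.mul_apply, hw] at h3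
        exact h3
      rw [hD', if_neg h0, if_pos hk] at h1
      exact d4 _ _ h1
  have hupp : ∀ w, Y w = w → qf g w ≤ 2 ^ (k + 1) * ‖w‖ ^ 2 := by
    intro w hw
    by_cases h1 : k + 1 < q + 1
    · have h2 : D' (k + 1) w = w := by
        have h3 : D' (k + 1) * Y = Y := by
          rw [hY, blk, mul_sub, chn_mul' hchn (Nat.le_succ k), chn_mul hchn le_rfl]
        have h4 := DFunLike.congr_fun h3 w
        rw [ContinuousLinearMap.mul_apply, hw] at h4
        exact h4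
      rw [hD', if_neg (Nat.succ_ne_zero k), if_pos h1] at h2
      exact d3 _ _ h2
    · refine (hg.upper w).trans ?_
      have h2 : (2 : ℝ) ^ q ≤ 2 ^ (k + 1) := pow_le_pow_right₀ one_le_two (by omega)
      have h3 : C ≤ 2 ^ (k + 1) := hq.le.trans h2
      gcongr
  have hYA : Y ∈ AlgL L := by
    rw [hY]
    exact ComL_sub_AlgL L (BiComL_sub_ComL L (blk_mem_BiComL hchn k))
  refine ContinuousLinearMap.opNorm_le_bound _ (by positivity) fun x => ?_
  show ‖Y (V (Y x))‖ ≤ 3 * δ * ‖x‖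
  have e1 := hlow (Y (V (Y x))) (hYY _)
  have e2 := hg.mono Y hYA (IsStarProjection.norm_le _ hYp) (V (Y x))
  have e3 := hV (Y x)
  have e4 := hupp (Y x) (hYY _)
  have e5 : 4 * δ ^ 2 * qf g (Y x) ≤ 4 * δ ^ 2 * (2 ^ (k + 1) * ‖Y x‖ ^ 2) := by gcongr
  have e6 : ‖Y (V (Y x))‖ ^ 2 ≤ 8 * δ ^ 2 * ‖Y x‖ ^ 2 := by
    have h1 : 2 ^ k * ‖Y (V (Y x))‖ ^ 2 ≤ 2 ^ k * (8 * δ ^ 2 * ‖Y x‖ ^ 2) := by
      have : (2 : ℝ) ^ k * (8 * δ ^ 2 * ‖Y x‖ ^ 2) = 4 * δ ^ 2 * (2 ^ (k + 1) * ‖Y x‖ ^ 2) := by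
        rw [pow_succ]; ring
      rw [this]
      linarith
    exact le_of_mul_le_mul_left h1 (by positivity)
  have e7 : ‖Y x‖ ≤ ‖x‖ := m3_proj_le hYp x
  rw [← sq_le_sq₀ (norm_nonneg _) (by positivity)]
  have e8 : ‖Y x‖ ^ 2 ≤ ‖x‖ ^ 2 := by gcongr
  calc ‖Y (V (Y x))‖ ^ 2 ≤ 8 * δ ^ 2 * ‖Y x‖ ^ 2 := e6
    _ ≤ 9 * δ ^ 2 * ‖x‖ ^ 2 := by
      have : 0 ≤ δ ^ 2 := sq_nonneg _
      have h9 : 0 ≤ ‖x‖ ^ 2 := sq_nonneg _
      nlinarith [mul_le_mul_of_nonneg_left e8 this, mul_nonneg this h9]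
    _ = (3 * δ * ‖x‖) ^ 2 := by ring

/- ================= TARGET ================= -/
/-- limit -/
theorem limit_chain (L : CSL H) (T : H →L[ℂ] H) (hT : T ∈ AlgL L) (hT1 : ‖T‖ ≤ 1) (δ : ℝ)
    (hδ : 0 < δ) (N₀ : ℕ) (EE : Set (H →L[ℂ] H)) (hEE : ∀ E ∈ EE, IsInt L E)
    (h : ∀ l : List (H →L[ℂ] H), (∀ E ∈ l, E ∈ EE) → Good L (unionL l * T * unionL l) δ N₀)
    (U : H →L[ℂ] H) (hU : IsStarProjection U)
    (hUlim : ∀ x : H, ∀ η > 0, ∃ l : List (H →L[ℂ] H), (∀ E ∈ l, E ∈ EE) ∧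
        ∀ l' : List (H →L[ℂ] H), (∀ E ∈ l', E ∈ EE) → l ⊆ l' → ‖U x - unionL l' x‖ < η) :
    ∃ q, Good L (U * T * U) (3 * δ) q := by
  classical
  have hnUTU : ∀ W : H →L[ℂ] H, IsStarProjection W → ‖W * T * W‖ ≤ 1 := by
    intro W hW
    have h1 := IsStarProjection.norm_le W hW
    calc ‖W * T * W‖ ≤ ‖W‖ * ‖T‖ * ‖W‖ :=
          (norm_mul_le _ _).trans (by gcongr; exact norm_mul_le _ _)
      _ ≤ 1 * 1 * 1 := by gcongr
      _ = 1 := by norm_num
  rcases lt_or_ge 1 δ with hδ1 | hδ1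
  · refine ⟨1, fun k => if k = 0 then 0 else 1, ⟨?_, ?_, ?_, ?_⟩, ?_⟩
    · intro k
      split_ifs
      · exact L.zero_mem
      · exact L.one_mem
    · intro k
      simp
    · simp
    · simp
    · intro k hk
      have hk0 : k = 0 := by omega
      subst hk0
      have hb : blk (fun k => if k = 0 then (0 : H →L[ℂ] H) else 1) 0 = 1 := by
        unfold blk
        simp
      rw [hb, one_mul, mul_one]
      have := hnUTU U hU
      linarith
  let ι := {l : List (H →L[ℂ] H) // ∀ E ∈ l, E ∈ EE}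
  have hX : ∀ l : ι, IsStarProjection (unionL l.1) ∧ unionL l.1 ∈ BiComL L :=
    fun l => m3_union l.1 (fun E hE => hEE E (l.2 E hE))
  choose D hD using fun l : ι => h l.1 l.2
  obtain ⟨M, hM⟩ : ∃ M, M = 4 / δ ^ 2 := ⟨_, rfl⟩
  have hM1 : 1 ≤ M := by
    rw [hM, le_div_iff₀ (by positivity)]
    nlinarith
  obtain ⟨G, hG⟩ : ∃ G : ι → (H →L[ℂ] H), ∀ l, G l = m3g (D l) N₀ M := ⟨_, fun _ => rfl⟩
  obtain ⟨c, hc⟩ : ∃ c, c = ∑ k ∈ range N₀, M ^ k := ⟨_, rfl⟩
  have hGc : ∀ l, ‖G l‖ ≤ c := fun l => by rw [hG, hc]; exact m3_g_norm (hD l).1 hM1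
  have hc0 : 0 ≤ c := by
    rw [hc]
    exact Finset.sum_nonneg fun k _ => by positivity
  -- the ultrafilter
  haveI : Nonempty ι := ⟨⟨[], fun E hE => absurd hE List.not_mem_nil⟩⟩
  let F : Filter ι := ⨅ l : ι, 𝓟 {l' : ι | l.1 ⊆ l'.1}
  haveI hF : F.NeBot := by
    refine iInf_neBot_of_directed' ?_ ?_
    · intro a b
      refine ⟨⟨a.1 ++ b.1, fun E hE => ?_⟩, ?_, ?_⟩
      · rcases List.mem_append.1 hE with h | h
        · exact a.2 E h
        · exact b.2 E h
      · refine principal_mono.2 fun l' hl' => ?_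
        exact fun x hx => hl' (List.mem_append_left _ hx)
      · refine principal_mono.2 fun l' hl' => ?_
        exact fun x hx => hl' (List.mem_append_right _ hx)
    · intro l
      rw [principal_neBot_iff]
      exact ⟨l, fun x hx => hx⟩
  obtain ⟨𝒰, h𝒰⟩ : ∃ 𝒰 : Ultrafilter ι, (𝒰 : Filter ι) ≤ F := ⟨Ultrafilter.of F, Ultrafilter.of_le F⟩
  have hev : ∀ l : ι, ∀ᶠ l' : ι in (𝒰 : Filter ι), l.1 ⊆ l'.1 := fun l =>
    h𝒰 (mem_iInf_of_mem l (mem_principal_self _))
  obtain ⟨g, -, hg2⟩ := exists_wot_limit 𝒰 G c hGc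
  have hXlim : ∀ z, Tendsto (fun l : ι => unionL l.1 z) 𝒰 (𝓝 (U z)) := by
    intro z
    rw [Metric.tendsto_nhds]
    intro η hη
    obtain ⟨l, hl, hl'⟩ := hUlim z η hη
    filter_upwards [hev ⟨l, hl⟩] with l' hl''
    rw [dist_eq_norm, norm_sub_rev]
    exact hl' l'.1 l'.2 hl''
  have hqf : ∀ x, Tendsto (fun l => qf (G l) x) 𝒰 (𝓝 (qf g x)) := fun x =>
    (Complex.continuous_re.tendsto _).comp (hg2 x x)
  have hpotl : ∀ l, Pot L (M ^ N₀) (G l) := fun l => by rw [hG]; exact m3_pot (hD l).1 hM1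
  have hpot : Pot L (M ^ N₀) g := by
    refine ⟨?_, ?_, ?_, ?_, ?_⟩
    · show star g = g
      ext x
      refine ext_inner_right ℂ fun y => ?_
      rw [ContinuousLinearMap.star_eq_adjoint, ContinuousLinearMap.adjoint_inner_left]
      have h1 := hg2 x y
      have h2 : Tendsto (fun l => ⟪G l x, y⟫_ℂ) 𝒰 (𝓝 ⟪x, g y⟫_ℂ) := by
        have h3 := (Complex.continuous_conj.tendsto _).comp (hg2 y x)
        rw [inner_conj_symm] at h3
        refine h3.congr fun l => ?_
        rw [Function.comp_apply, inner_conj_symm]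
        have h4 := ContinuousLinearMap.adjoint_inner_left (G l) y x
        rw [← ContinuousLinearMap.star_eq_adjoint, (hpotl l).sa.star_eq] at h4
        exact h4.symm
      exact tendsto_nhds_unique h2 h1
    · intro S hS
      ext x
      refine ext_inner_right ℂ fun y => ?_
      rw [ContinuousLinearMap.mul_apply, ContinuousLinearMap.mul_apply,
        ← ContinuousLinearMap.adjoint_inner_right]
      have h1 := hg2 x (ContinuousLinearMap.adjoint S y)
      have h2 := hg2 (S x) y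
      refine tendsto_nhds_unique (h1.congr fun l => ?_) h2
      rw [ContinuousLinearMap.adjoint_inner_right]
      have h3 := DFunLike.congr_fun ((hpotl l).comm S hS) x
      rw [ContinuousLinearMap.mul_apply, ContinuousLinearMap.mul_apply] at h3
      rw [h3]
    · intro x
      exact ge_of_tendsto' (hqf x) fun l => (hpotl l).lower x
    · intro x
      exact le_of_tendsto' (hqf x) fun l => (hpotl l).upper x
    · intro S hS hS1 x
      exact le_of_tendsto_of_tendsto' (hqf (S x)) (hqf x) fun l => (hpotl l).mono S hS hS1 x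
  have hineq : ∀ x, qf g ((U * T * U) x) ≤ 4 * δ ^ 2 * qf g x := by
    intro x
    have hTl : ∀ l : ι, qf (G l) ((unionL l.1 * T * unionL l.1) x) ≤ 4 * δ ^ 2 * qf (G l) x := by
      intro l
      have hXA : unionL l.1 ∈ AlgL L := ComL_sub_AlgL L (BiComL_sub_ComL L (hX l).2)
      rw [hG, hM]
      exact m3_ineq (hD l).1 (AlgL_mul L (AlgL_mul L hXA hT) hXA) (hnUTU _ (hX l).1) hδ hδ1
        (hD l).2 x
    obtain ⟨v, hv⟩ : ∃ v, v = (U * T * U) x := ⟨_, rfl⟩
    have hvn : ‖v‖ ≤ ‖x‖ := by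
      rw [hv]
      exact ((U * T * U).le_opNorm x).trans (mul_le_of_le_one_left (norm_nonneg x) (hnUTU U hU))
    have hun : ∀ l : ι, ‖(unionL l.1 * T * unionL l.1) x‖ ≤ ‖x‖ := fun l =>
      ((unionL l.1 * T * unionL l.1).le_opNorm x).trans
        (mul_le_of_le_one_left (norm_nonneg x) (hnUTU _ (hX l).1))
    have hdist : Tendsto (fun l : ι => ‖(unionL l.1 * T * unionL l.1) x - v‖) 𝒰 (𝓝 0) := by
      have h1 := (tendsto_iff_norm_sub_tendsto_zero.1 (hXlim x))
      have h2 := (tendsto_iff_norm_sub_tendsto_zero.1 (hXlim (T (U x))))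
      have h3 := h1.add h2
      rw [add_zero] at h3
      refine squeeze_zero (fun l => norm_nonneg _) (fun l => ?_) h3
      have e : (unionL l.1 * T * unionL l.1) x - v =
          unionL l.1 (T (unionL l.1 x - U x)) + (unionL l.1 (T (U x)) - U (T (U x))) := by
        rw [hv, map_sub, map_sub]
        show unionL l.1 (T (unionL l.1 x)) - U (T (U x)) = _
        abel
      rw [e]
      refine (norm_add_le _ _).trans ?_
      gcongr
      refine (m3_proj_le (hX l).1 _).trans ?_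
      exact (T.le_opNorm _).trans (mul_le_of_le_one_left (norm_nonneg _) hT1)
    have hlim : Tendsto (fun l : ι => qf (G l) ((unionL l.1 * T * unionL l.1) x)) 𝒰
        (𝓝 (qf g v)) := by
      have h1 : Tendsto (fun l : ι => qf (G l) ((unionL l.1 * T * unionL l.1) x) - qf (G l) v) 𝒰
          (𝓝 0) := by
        have h2 := hdist.const_mul (c * (2 * ‖x‖))
        rw [mul_zero] at h2
        refine squeeze_zero_norm (fun l => ?_) h2
        rw [Real.norm_eq_abs]
        refine (m3_qf_diff (G l) (hGc l) _ _).trans ?_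
        have h3 : ‖(unionL l.1 * T * unionL l.1) x‖ + ‖v‖ ≤ 2 * ‖x‖ := by
          have := hun l
          linarith
        calc _ ≤ c * ‖(unionL l.1 * T * unionL l.1) x - v‖ * (2 * ‖x‖) := by gcongr
          _ = _ := by ring
      have h4 := h1.add (hqf v)
      rw [zero_add] at h4
      refine h4.congr fun l => ?_
      ring
    rw [← hv]
    exact le_of_tendsto_of_tendsto' hlim ((hqf x).const_mul (4 * δ ^ 2)) hTl
  exact m3_final L hδ hpot hineq

end Hop
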