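import Pool.Agent.Helper360.Hop.Defs
import Pool.Agent.Helper360.Hop.Refl
set_option maxHeartbeats 4000000

open scoped InnerProductSpace Topology ComplexConjugate
open Finset Filter

namespace Hop

variable {H : Type*} [NormedAddCommGroup H] [InnerProductSpace ℂ H] [CompleteSpace H]

/-! auxiliary lemmas for M2 -/

theorem min_chain_top {L : CSL H} {N : ℕ} {D : ℕ → (H →L[ℂ] H)} (hD : IsChn L N D) {k : ℕ}
    (hk : N ≤ k) : D k = 1 := by
  have h := chn_mul hD hk
  rw [hD.top, one_mul] at h
  exact h

theorem min_chain_iv {L : CSL H} {N : ℕ} {D : ℕ → (H →L[ℂ] H)} (hD : IsChn L N D)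
    {a p q b : ℕ} (h1 : a ≤ p) (h2 : p ≤ q) (h3 : q ≤ b) :
    (D b - D a) * (D q - D p) = D q - D p := by
  rw [sub_mul, mul_sub, mul_sub, chn_mul' hD h3, chn_mul' hD (h2.trans h3), chn_mul hD (h1.trans h2),
    chn_mul hD h1]
  abel

theorem min_chain_iv' {L : CSL H} {N : ℕ} {D : ℕ → (H →L[ℂ] H)} (hD : IsChn L N D)
    {a p q b : ℕ} (h1 : a ≤ p) (h2 : p ≤ q) (h3 : q ≤ b) :
    (D q - D p) * (D b - D a) = D q - D p := by
  rw [sub_mul, mul_sub, mul_sub, chn_mul hD h3, chn_mul hD (h2.trans h3), chn_mul' hD (h1.trans h2),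
    chn_mul' hD h1]
  abel

theorem min_chain_dj {L : CSL H} {N : ℕ} {D : ℕ → (H →L[ℂ] H)} (hD : IsChn L N D)
    {a p q b : ℕ} (h1 : p ≤ q) (h2 : q ≤ a) (h3 : a ≤ b) :
    (D q - D p) * (D b - D a) = 0 := by
  rw [sub_mul, mul_sub, mul_sub, chn_mul hD (h2.trans h3), chn_mul hD h2,
    chn_mul hD ((h1.trans h2).trans h3), chn_mul hD (h1.trans h2)]
  abel

theorem min_chain_dj' {L : CSL H} {N : ℕ} {D : ℕ → (H →L[ℂ] H)} (hD : IsChn L N D)
    {a p q b : ℕ} (h1 : p ≤ q) (h2 : q ≤ a) (h3 : a ≤ b) :
    (D b - D a) * (D q - D p) = 0 := by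
  rw [sub_mul, mul_sub, mul_sub, chn_mul' hD (h2.trans h3), chn_mul' hD h2,
    chn_mul' hD ((h1.trans h2).trans h3), chn_mul' hD (h1.trans h2)]
  abel

theorem min_chain_sub_ComL {L : CSL H} {N : ℕ} {D : ℕ → (H →L[ℂ] H)} (hD : IsChn L N D)
    (p q : ℕ) : D q - D p ∈ ComL L :=
  ComL_sub L (carrier_sub_ComL L (hD.mem q)) (carrier_sub_ComL L (hD.mem p))

theorem min_chain_sub_AlgL {L : CSL H} {N : ℕ} {D : ℕ → (H →L[ℂ] H)} (hD : IsChn L N D)
    (p q : ℕ) : D q - D p ∈ AlgL L := ComL_sub_AlgL L (min_chain_sub_ComL hD p q)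

theorem min_chain_proj {L : CSL H} {N : ℕ} {D : ℕ → (H →L[ℂ] H)} (hD : IsChn L N D)
    {p q : ℕ} (h : p ≤ q) : IsStarProjection (D q - D p) :=
  (L.proj _ (hD.mem p)).sub_of_mul_eq_left (L.proj _ (hD.mem q)) (chn_mul hD h)

/-- sum of orthogonal vectors -/
theorem min_chain_pyth (M : ℕ) (y : ℕ → H) (h : ∀ j < M, ∀ k < M, j ≠ k → ⟪y j, y k⟫_ℂ = 0) :
    ‖∑ j ∈ range M, y j‖ ^ 2 = ∑ j ∈ range M, ‖y j‖ ^ 2 := by
  induction M with
  | zero => simp
  | succ n ih =>
    rw [Finset.sum_range_succ, Finset.sum_range_succ, ← ih (fun j hj k hk => h j (by omega) k (by omega))]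
    have horth : ⟪∑ j ∈ range n, y j, y n⟫_ℂ = 0 := by
      rw [sum_inner]
      apply Finset.sum_eq_zero
      intro j hj
      have := Finset.mem_range.1 hj
      exact h j (by omega) n (by omega) (by omega)
    have := norm_add_sq_eq_norm_sq_add_norm_sq_of_inner_eq_zero _ _ horth
    nlinarith

theorem min_chain_symm {P : H →L[ℂ] H} (h : IsStarProjection P) (x y : H) :
    ⟪P x, y⟫_ℂ = ⟪x, P y⟫_ℂ := h.isSelfAdjoint.isSymmetric x y

/-- norm of a block diagonal operator -/
theorem min_chain_bdiag (M : ℕ) (q : ℕ → (H →L[ℂ] H)) (A : H →L[ℂ] H) (δ : ℝ) (hδ : 0 ≤ δ)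
    (hq : ∀ j < M, IsStarProjection (q j)) (horth : ∀ j < M, ∀ k < M, j ≠ k → q j * q k = 0)
    (hA : ∀ j < M, ‖q j * A * q j‖ ≤ δ) : ‖∑ j ∈ range M, q j * A * q j‖ ≤ δ := by
  apply ContinuousLinearMap.opNorm_le_bound _ hδ
  intro x
  have horth2 : ∀ (u v : H), ∀ j < M, ∀ k < M, j ≠ k → ⟪q j u, q k v⟫_ℂ = 0 := by
    intro u v j hj k hk hjk
    rw [min_chain_symm (hq j hj), ← ContinuousLinearMap.mul_apply, horth j hj k hk hjk]
    simp
  have e1 : (∑ j ∈ range M, q j * A * q j) x = ∑ j ∈ range M, q j ((A * q j) x) := by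
    rw [ContinuousLinearMap.sum_apply]
    apply Finset.sum_congr rfl
    intro j _
    rw [mul_assoc]
    rfl
  have e2 : ‖∑ j ∈ range M, q j ((A * q j) x)‖ ^ 2 = ∑ j ∈ range M, ‖q j ((A * q j) x)‖ ^ 2 :=
    min_chain_pyth M _ (fun j hj k hk hjk => horth2 _ _ j hj k hk hjk)
  have e3 : ∀ j < M, ‖q j ((A * q j) x)‖ ^ 2 ≤ δ ^ 2 * ‖q j x‖ ^ 2 := by
    intro j hj
    have h1 : q j ((A * q j) x) = (q j * A * q j) (q j x) := by
      have h2 : q j * A * q j = q j * A * (q j * q j) := by rw [mul_self_proj (hq j hj)]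
      have h3 : (q j * A * q j) x = (q j * A * (q j * q j)) x := by rw [← h2]
      exact h3
    rw [h1, ← mul_pow]
    apply pow_le_pow_left₀ (norm_nonneg _)
    refine (ContinuousLinearMap.le_opNorm _ _).trans ?_
    exact mul_le_mul_of_nonneg_right (hA j hj) (norm_nonneg _)
  have e4 : ∑ j ∈ range M, ‖q j x‖ ^ 2 ≤ ‖x‖ ^ 2 := by
    have h1 := min_chain_pyth M (fun j => q j x) (fun j hj k hk hjk => horth2 _ _ j hj k hk hjk)
    rw [← h1]
    set s := ∑ j ∈ range M, q j x with hs
    have h2 : ⟪s, x - s⟫_ℂ = 0 := by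
      rw [hs, sum_inner]
      apply Finset.sum_eq_zero
      intro j hj
      have hj' := Finset.mem_range.1 hj
      rw [inner_sub_right, inner_sum, Finset.sum_eq_single j]
      · rw [← min_chain_symm (hq j hj'), ← ContinuousLinearMap.mul_apply, mul_self_proj (hq j hj'),
          sub_self]
      · intro k hk hkj
        exact horth2 _ _ j hj' k (Finset.mem_range.1 hk) (Ne.symm hkj)
      · intro hj2; exact absurd hj hj2
    have h3 := norm_add_sq_eq_norm_sq_add_norm_sq_of_inner_eq_zero _ _ h2
    rw [add_sub_cancel] at h3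
    nlinarith [norm_nonneg (x - s)]
  rw [e1]
  have e5 : ‖∑ j ∈ range M, q j ((A * q j) x)‖ ^ 2 ≤ (δ * ‖x‖) ^ 2 := by
    rw [e2, mul_pow]
    calc ∑ j ∈ range M, ‖q j ((A * q j) x)‖ ^ 2 ≤ ∑ j ∈ range M, δ ^ 2 * ‖q j x‖ ^ 2 :=
          Finset.sum_le_sum (fun j hj => e3 j (Finset.mem_range.1 hj))
      _ = δ ^ 2 * ∑ j ∈ range M, ‖q j x‖ ^ 2 := by rw [Finset.mul_sum]
      _ ≤ δ ^ 2 * ‖x‖ ^ 2 := mul_le_mul_of_nonneg_left e4 (by positivity)
  exact le_of_sq_le_sq e5 (by positivity)

theorem min_chain_cross {L : CSL H} {M : ℕ} {Γ : ℕ → (H →L[ℂ] H)} (hΓ : IsChn L M Γ) {j j' : ℕ}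
    (hjj : j ≠ j') {X Y S : H →L[ℂ] H} (hX : X ∈ AlgL L) (hY : Y ∈ AlgL L) (hS : S ∈ AlgL L)
    (hX' : blk Γ j * X = X) (hY' : Y * blk Γ j' = Y) : X * S * Y ∈ Cross L M Γ := by
  refine ⟨AlgL_mul L (AlgL_mul L hX hS) hY, fun k _ => ?_⟩
  by_cases hk : k = j
  · have h1 : Y * blk Γ k = 0 := by
      rw [← hY', mul_assoc, blk_mul_blk_of_ne hΓ (by omega), mul_zero]
    rw [mul_assoc, mul_assoc, h1]
    simp
  · have h1 : blk Γ k * X = 0 := by
      rw [← hX', ← mul_assoc, blk_mul_blk_of_ne hΓ hk, zero_mul]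
    rw [← mul_assoc, ← mul_assoc, h1]
    simp

/-- the data needed for one block of the chain `F` -/
def min_chain_Data (L : CSL H) (T : H →L[ℂ] H) (δ : ℝ) (K : ℕ) (f e : H →L[ℂ] H)
    (w : ℕ → (H →L[ℂ] H)) : Prop :=
  w 0 = 0 ∧ w K = 1 ∧ (∀ i, w i * w (i + 1) = w i) ∧ (∀ i, ∀ P ∈ L.carrier, P * w i = w i * P) ∧
    (∀ i, f + e * w i ∈ L.carrier) ∧
    ∀ i < K, ‖(e * (w (i + 1) - w i)) * T * (e * (w (i + 1) - w i))‖ ≤ δ

theorem min_chain_V {L : CSL H} {T : H →L[ℂ] H} {δ : ℝ} (hδ : 0 < δ) {r M : ℕ}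
    {F Γ : ℕ → (H →L[ℂ] H)} (hF : IsChn L r F) (hΓ : IsChn L M Γ) {K : ℕ} (hMK : M ≤ K) (a : ℕ)
    (hV : ∀ k < M, ‖blk F a * blk Γ k * T * blk Γ k * blk F a‖ ≤ δ) :
    ∃ w, min_chain_Data L T δ K (F a) (blk F a) w := by
  refine ⟨Γ, hΓ.zero, min_chain_top hΓ hMK, hΓ.mono, fun i P hP => L.comm P hP _ (hΓ.mem i), ?_, ?_⟩
  · intro i
    have h1 : F (a + 1) * Γ i ∈ L.carrier := L.inf_mem _ (hF.mem _) _ (hΓ.mem i)
    have h2 := L.sup_mem _ (hF.mem a) _ h1
    have e1 : F a * (F (a + 1) * Γ i) = F a * Γ i := by rw [← mul_assoc, hF.mono a]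
    rw [e1] at h2
    have e2 : F a + blk F a * Γ i = F a + F (a + 1) * Γ i - F a * Γ i := by
      rw [blk, sub_mul]; abel
    rw [e2]; exact h2
  · intro i _
    have hc : blk F a * blk Γ i = blk Γ i * blk F a := by
      have := min_chain_sub_ComL hF a (a + 1)
      have h1 := this _ (hΓ.mem (i + 1))
      have h2 := this _ (hΓ.mem i)
      unfold blk
      rw [mul_sub, sub_mul (Γ (i+1)), h1, h2]
    have e1 : (blk F a * (Γ (i + 1) - Γ i)) * T * (blk F a * (Γ (i + 1) - Γ i)) =
        blk F a * blk Γ i * T * blk Γ i * blk F a := by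
      have : blk F a * (Γ (i + 1) - Γ i) = blk F a * blk Γ i := rfl
      rw [this]
      nth_rewrite 2 [hc]
      noncomm_ring
    rw [e1]
    by_cases hi : i < M
    · exact hV i hi
    · have h0 : blk Γ i = 0 := by
        unfold blk
        rw [min_chain_top hΓ (by omega : M ≤ i + 1), min_chain_top hΓ (by omega : M ≤ i), sub_self]
      rw [h0]
      simpa using hδ.le

theorem min_chain_W {L : CSL H} {T : H →L[ℂ] H} (hT : T ∈ AlgL L) {δ : ℝ} (hδ : 0 < δ) {r N M l : ℕ}
    {F D : ℕ → (H →L[ℂ] H)} (hF : IsChn L r F) (hD : IsChn L N D)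
    (hΓ : IsChn L M (fun j => D (j * l))) (hDT : ∀ k < N, ‖blk D k * T * blk D k‖ ≤ δ)
    {K : ℕ} (hlK : l ≤ K) (a : ℕ)
    (hW : ∀ R ∈ Cross L M (fun j => D (j * l)), blk F a * R * blk F a = 0) :
    ∃ w, min_chain_Data L T δ K (F a) (blk F a) w := by
  set c : ℕ → ℕ → ℕ := fun i j => min (j * l + i) ((j + 1) * l) with hc
  set d : ℕ → ℕ → (H →L[ℂ] H) := fun i j => D (c i j) - D (j * l) with hd
  set w : ℕ → (H →L[ℂ] H) := fun i => ∑ j ∈ range M, d i j with hw
  have hc1 : ∀ i j, j * l ≤ c i j := by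
    intro i j
    simp only [hc]
    apply le_min (by omega)
    exact Nat.mul_le_mul_right l (by omega)
  have hc2 : ∀ i j, c i j ≤ (j + 1) * l := fun i j => min_le_right _ _
  have hc3 : ∀ i j, c i j ≤ c (i + 1) j := by
    intro i j
    simp only [hc]
    exact min_le_min (by omega) le_rfl
  have hblkΓ : ∀ j, blk (fun j => D (j * l)) j = D ((j + 1) * l) - D (j * l) := fun j => rfl
  -- products of pieces
  have hbound : ∀ {j j' : ℕ}, j < j' → (j + 1) * l ≤ j' * l := fun h => Nat.mul_le_mul_right l h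
  have hpiece : ∀ {j j' p q p' q' : ℕ}, j ≠ j' → j * l ≤ p → p ≤ q → q ≤ (j + 1) * l →
      j' * l ≤ p' → p' ≤ q' → q' ≤ (j' + 1) * l → (D q - D p) * (D q' - D p') = 0 := by
    intro j j' p q p' q' hjj h1 h2 h3 h4 h5 h6
    rcases lt_or_gt_of_ne hjj with h | h
    · exact min_chain_dj hD h2 ((h3.trans (hbound h)).trans h4) h5
    · exact min_chain_dj' hD h5 ((h6.trans (hbound h)).trans h1) h2
  have hw0 : w 0 = 0 := by
    simp only [hw]
    apply Finset.sum_eq_zero
    intro j _
    simp only [hd, hc]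
    have : min (j * l + 0) ((j + 1) * l) = j * l := by
      rw [add_zero]; exact min_eq_left (Nat.mul_le_mul_right l (by omega))
    rw [this, sub_self]
  have hwbig : ∀ i, l ≤ i → w i = 1 := by
    intro i hi
    rw [← sum_blk hΓ]
    simp only [hw]
    apply Finset.sum_congr rfl
    intro j _
    rw [hblkΓ]
    simp only [hd, hc]
    have : min (j * l + i) ((j + 1) * l) = (j + 1) * l := by
      apply min_eq_right
      rw [add_mul, one_mul]; omega
    rw [this]
  have hcommd : ∀ i j, ∀ P ∈ L.carrier, P * d i j = d i j * P := by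
    intro i j P hP
    exact min_chain_sub_ComL hD _ _ P hP
  have hcomm : ∀ i, ∀ P ∈ L.carrier, P * w i = w i * P := by
    intro i P hP
    simp only [hw]
    rw [Finset.mul_sum, Finset.sum_mul]
    exact Finset.sum_congr rfl (fun j _ => hcommd i j P hP)
  have hmulww : ∀ i i', (∀ j, c i j ≤ c i' j) → w i * w i' = w i := by
    intro i i' hcc
    simp only [hw]
    rw [Finset.sum_mul]
    apply Finset.sum_congr rfl
    intro j hj
    rw [Finset.mul_sum, Finset.sum_eq_single j]
    · exact min_chain_iv' hD le_rfl (hc1 i j) (hcc j)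
    · intro k _ hkj
      exact hpiece (Ne.symm hkj) le_rfl (hc1 i j) (hc2 i j) le_rfl (hc1 i' k) (hc2 i' k)
    · intro hj2; exact absurd hj hj2
  have hww : ∀ i, w i * w i = w i := fun i => hmulww i i (fun j => le_rfl)
  have hww1 : ∀ i, w i * w (i + 1) = w i := fun i => hmulww i (i + 1) (fun j => hc3 i j)
  have hwsa : ∀ i, star (w i) = w i := by
    intro i
    simp only [hw]
    rw [star_sum]
    exact Finset.sum_congr rfl (fun j _ => star_proj (min_chain_proj hD (hc1 i j)))
  -- algebra of f, e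
  set f := F a with hf
  set e := blk F a with he
  have hff : f * f = f := mul_self_proj (L.proj _ (hF.mem a))
  have hee : e * e = e := mul_self_proj (blk_proj hF a)
  have hfe : f * e = 0 := by
    rw [he, blk, mul_sub, hF.mono a, mul_self_proj (L.proj _ (hF.mem a)), sub_self]
  have hef : e * f = 0 := by
    rw [he, blk, sub_mul, chn_mul' hF (Nat.le_succ a), mul_self_proj (L.proj _ (hF.mem a)), sub_self]
  have hew : ∀ i, e * w i = w i * e := by
    intro i
    rw [he, blk, sub_mul, mul_sub, hcomm i _ (hF.mem _), hcomm i _ (hF.mem _)]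
  have hfw : ∀ i, f * w i = w i * f := fun i => hcomm i _ (hF.mem a)
  have hf'e : F (a + 1) * e = e := by
    rw [he, blk, mul_sub, mul_self_proj (L.proj _ (hF.mem (a+1))), chn_mul' hF (Nat.le_succ a)]
  have hf'f : F (a + 1) * f = f := chn_mul' hF (Nat.le_succ a)
  have hf'fe : F (a + 1) = f + e := by rw [he, blk]; abel
  refine ⟨w, hw0, hwbig K hlK, hww1, hcomm, ?_, ?_⟩
  · -- membership
    intro i
    apply reflexive
    · constructor
      · show (f + e * w i) * (f + e * w i) = f + e * w i
        have h1 : (f + e * w i) * (f + e * w i) = f * f + (f * e) * w i + (e * w i) * f +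
            (e * w i) * (e * w i) := by noncomm_ring
        have h2 : (e * w i) * f = 0 := by rw [hew, mul_assoc, hef, mul_zero]
        have h3 : (e * w i) * (e * w i) = e * w i := by
          nth_rewrite 2 [hew]
          rw [mul_assoc, ← mul_assoc (w i), hww, ← hew, ← mul_assoc, hee]
        rw [h1, hff, hfe, h2, h3]
        simp
      · show star (f + e * w i) = f + e * w i
        rw [star_add, star_mul, hwsa, star_proj (L.proj _ (hF.mem a)), star_proj (blk_proj hF a), hew]
    · intro S hS
      set u := 1 - w i with hu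
      have hdec : 1 - (f + e * w i) = (1 - F (a + 1)) + e * u := by
        rw [hf'fe, hu, mul_sub, mul_one]; abel
      have heu : e * u = u * e := by rw [hu, mul_sub, sub_mul, hew, mul_one, one_mul]
      have hSf' : (1 - F (a + 1)) * S * F (a + 1) = 0 := hS _ (hF.mem _)
      have hSf : (1 - f) * S * f = 0 := hS _ (hF.mem _)
      have t1 : (1 - F (a + 1)) * S * f = 0 := by
        calc (1 - F (a + 1)) * S * f = ((1 - F (a + 1)) * S * F (a + 1)) * f := by
              rw [mul_assoc _ (F (a + 1)) f, hf'f]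
          _ = 0 := by rw [hSf', zero_mul]
      have t2 : (1 - F (a + 1)) * S * (e * w i) = 0 := by
        calc (1 - F (a + 1)) * S * (e * w i) = ((1 - F (a + 1)) * S * F (a + 1)) * (e * w i) := by
              rw [mul_assoc _ (F (a + 1)) (e * w i), ← mul_assoc (F (a + 1)), hf'e]
          _ = 0 := by rw [hSf', zero_mul]
      have t3 : (e * u) * S * f = 0 := by
        have h1 : e * (1 - f) = e := by rw [mul_sub, mul_one, hef, sub_zero]
        calc (e * u) * S * f = u * (e * (1 - f)) * S * f := by rw [h1, heu]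
          _ = (u * e) * ((1 - f) * S * f) := by noncomm_ring
          _ = 0 := by rw [hSf, mul_zero]
      have t4 : (e * u) * S * (e * w i) = 0 := by
        have hu2 : u = ∑ j ∈ range M, (D ((j + 1) * l) - D (c i j)) := by
          rw [hu, ← sum_blk hΓ]
          simp only [hw]
          rw [← Finset.sum_sub_distrib]
          apply Finset.sum_congr rfl
          intro j _
          rw [hblkΓ]
          simp only [hd]
          abel
        have h1 : (e * u) * S * (e * w i) = e * (u * S * w i) * e := by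
          rw [hew]; noncomm_ring
        rw [h1, hu2]
        simp only [hw]
        rw [Finset.sum_mul, Finset.sum_mul, Finset.mul_sum, Finset.sum_mul]
        apply Finset.sum_eq_zero
        intro j _
        rw [Finset.mul_sum, Finset.mul_sum, Finset.sum_mul]
        apply Finset.sum_eq_zero
        intro k _
        by_cases hjk : j = k
        · subst hjk
          have h2 : (D ((j + 1) * l) - D (c i j)) * S * d i j = 0 := by
            have h3 : (1 - D (c i j)) * S * D (c i j) = 0 := hS _ (hD.mem _)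
            have h4 : (D ((j + 1) * l) - D (c i j)) =
                (D ((j + 1) * l) - D (c i j)) * (1 - D (c i j)) := by
              rw [mul_sub, mul_one, sub_mul, chn_mul' hD (hc2 i j), chn_mul hD le_rfl, sub_self,
                sub_zero]
            have h5 : d i j = D (c i j) * d i j := by
              simp only [hd]
              rw [mul_sub, chn_mul hD le_rfl, chn_mul' hD (hc1 i j)]
            rw [h4, h5]
            calc (D ((j + 1) * l) - D (c i j)) * (1 - D (c i j)) * S * (D (c i j) * d i j)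
                = (D ((j + 1) * l) - D (c i j)) * ((1 - D (c i j)) * S * D (c i j)) * d i j := by
                  noncomm_ring
              _ = 0 := by rw [h3]; simp
          rw [h2]; simp
        · apply hW
          apply min_chain_cross hΓ hjk (min_chain_sub_AlgL hD _ _) (min_chain_sub_AlgL hD _ _) hS
          · rw [hblkΓ]
            exact min_chain_iv hD (hc1 i j) (hc2 i j) le_rfl
          · rw [hblkΓ]
            exact min_chain_iv' hD le_rfl (hc1 i k) (hc2 i k)
      rw [hdec]
      calc (1 - F (a + 1) + e * u) * S * (f + e * w i)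
          = (1 - F (a + 1)) * S * f + (1 - F (a + 1)) * S * (e * w i) + (e * u) * S * f +
            (e * u) * S * (e * w i) := by noncomm_ring
        _ = 0 := by rw [t1, t2, t3, t4]; simp
  · -- norm
    intro i _
    set b : ℕ → (H →L[ℂ] H) := fun j => D (c (i + 1) j) - D (c i j) with hb
    have hq : w (i + 1) - w i = ∑ j ∈ range M, b j := by
      simp only [hw]
      rw [← Finset.sum_sub_distrib]
      apply Finset.sum_congr rfl
      intro j _
      simp only [hd, hb]
      abel
    have heq : e * (w (i + 1) - w i) = (w (i + 1) - w i) * e := by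
      rw [mul_sub, sub_mul, hew, hew]
    have h1 : (e * (w (i + 1) - w i)) * T * (e * (w (i + 1) - w i)) =
        e * ((∑ j ∈ range M, b j) * T * (∑ j ∈ range M, b j)) * e := by
      nth_rewrite 2 [heq]
      rw [hq]; noncomm_ring
    have h2 : e * ((∑ j ∈ range M, b j) * T * (∑ j ∈ range M, b j)) * e =
        e * (∑ j ∈ range M, b j * T * b j) * e := by
      rw [Finset.sum_mul, Finset.sum_mul, Finset.mul_sum, Finset.sum_mul, Finset.mul_sum,
        Finset.sum_mul]
      apply Finset.sum_congr rfl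
      intro j hj
      rw [Finset.mul_sum, Finset.mul_sum, Finset.sum_mul, Finset.sum_eq_single j]
      · intro k _ hkj
        apply hW
        apply min_chain_cross hΓ (Ne.symm hkj) (min_chain_sub_AlgL hD _ _)
          (min_chain_sub_AlgL hD _ _) hT
        · rw [hblkΓ]
          exact min_chain_iv hD (hc1 i j) (hc3 i j) (hc2 (i+1) j)
        · rw [hblkΓ]
          exact min_chain_iv' hD (hc1 i k) (hc3 i k) (hc2 (i+1) k)
      · intro hj2; exact absurd hj hj2
    rw [h1, h2]
    have h3 : ‖∑ j ∈ range M, b j * T * b j‖ ≤ δ := by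
      apply min_chain_bdiag M b T δ hδ.le
      · intro j _
        exact min_chain_proj hD (hc3 i j)
      · intro j _ k _ hjk
        exact hpiece hjk (hc1 i j) (hc3 i j) (hc2 (i+1) j) (hc1 i k) (hc3 i k) (hc2 (i+1) k)
      · intro j _
        by_cases hil : i < l
        · have e1 : c i j = j * l + i := by
            simp only [hc]
            apply min_eq_left
            rw [add_mul, one_mul]; omega
          have e2 : c (i + 1) j = j * l + i + 1 := by
            simp only [hc]
            rw [min_eq_left]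
            · ring
            · rw [add_mul, one_mul]; omega
          have e3 : b j = blk D (j * l + i) := by
            simp only [hb]
            rw [e1, e2]; rfl
          rw [e3]
          by_cases hN : j * l + i < N
          · exact hDT _ hN
          · have h0 : blk D (j * l + i) = 0 := by
              unfold blk
              rw [min_chain_top hD (by omega : N ≤ j * l + i + 1),
                min_chain_top hD (by omega : N ≤ j * l + i), sub_self]
            rw [h0]
            simpa using hδ.le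
        · have e1 : c i j = (j + 1) * l := by
            simp only [hc]
            apply min_eq_right
            rw [add_mul, one_mul]; omega
          have e2 : c (i + 1) j = (j + 1) * l := by
            simp only [hc]
            apply min_eq_right
            rw [add_mul, one_mul]; omega
          have e3 : b j = 0 := by
            simp only [hb]
            rw [e1, e2, sub_self]
          rw [e3]
          simpa using hδ.le
    have he1 : ‖e‖ ≤ 1 := (blk_proj hF a).norm_le
    calc ‖e * (∑ j ∈ range M, b j * T * b j) * e‖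
        ≤ ‖e‖ * ‖∑ j ∈ range M, b j * T * b j‖ * ‖e‖ :=
          (norm_mul_le _ _).trans (mul_le_mul_of_nonneg_right (norm_mul_le _ _) (norm_nonneg _))
      _ ≤ 1 * δ * 1 := by
          apply mul_le_mul (mul_le_mul he1 h3 (norm_nonneg _) zero_le_one) he1 (norm_nonneg _)
            (by positivity)
      _ = δ := by ring

theorem min_chain_pad {L : CSL H} {T : H →L[ℂ] H} {δ : ℝ} (hδ : 0 < δ) {N M : ℕ} (h : Good L T δ N)
    (hNM : N ≤ M) : Good L T δ M := by
  obtain ⟨D, hD, hDT⟩ := h
  refine ⟨D, ⟨hD.mem, hD.mono, hD.zero, min_chain_top hD hNM⟩, fun k _ => ?_⟩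
  by_cases hN : k < N
  · exact hDT _ hN
  · have h0 : blk D k = 0 := by
      unfold blk
      rw [min_chain_top hD (by omega : N ≤ k + 1), min_chain_top hD (by omega : N ≤ k), sub_self]
    rw [h0]
    simpa using hδ.le

theorem min_chain_assemble {L : CSL H} {T : H →L[ℂ] H} {δ : ℝ} {r K : ℕ}
    (hK : 0 < K) {F : ℕ → (H →L[ℂ] H)} (hF : IsChn L r F)
    (h : ∀ a < r, ∃ w, min_chain_Data L T δ K (F a) (blk F a) w) : Good L T δ (r * K) := by
  have h' : ∀ a, ∃ w : ℕ → (H →L[ℂ] H), a < r → min_chain_Data L T δ K (F a) (blk F a) w := by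
    intro a
    by_cases ha : a < r
    · obtain ⟨w, hw⟩ := h a ha
      exact ⟨w, fun _ => hw⟩
    · exact ⟨fun _ => 0, fun h => absurd h ha⟩
  choose w hw using h'
  set G : ℕ → (H →L[ℂ] H) := fun k => F (k / K) + blk F (k / K) * w (k / K) (k % K) with hG
  have hblk0 : ∀ a, r ≤ a → blk F a = 0 := by
    intro a ha
    unfold blk
    rw [min_chain_top hF (by omega : r ≤ a + 1), min_chain_top hF ha, sub_self]
  have hstep0 : ∀ a, F a + blk F a * w a 0 = F a := by
    intro a
    by_cases ha : a < r
    · rw [(hw a ha).1, mul_zero, add_zero]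
    · rw [hblk0 a (by omega), zero_mul, add_zero]
  have hGsucc : ∀ k, k / K < r → G (k + 1) = F (k / K) + blk F (k / K) * w (k / K) (k % K + 1) := by
    intro k hk
    by_cases hlast : k % K + 1 < K
    · have e1 : (k + 1) / K = k / K := by
        have := Nat.div_add_mod k K
        rw [Nat.div_eq_iff hK]
        constructor
        · rw [mul_comm]; omega
        · have h2 := Nat.div_add_mod k K
          rw [mul_comm]; omega
      have e2 : (k + 1) % K = k % K + 1 := by
        rw [Nat.add_mod, Nat.mod_eq_of_lt (show 1 < K by omega), Nat.mod_eq_of_lt hlast]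
      simp only [hG]
      rw [e1, e2]
    · have hlt := Nat.mod_lt k hK
      have hdm := Nat.div_add_mod k K
      have hk1 : k + 1 = (k / K + 1) * K := by
        rw [add_mul, one_mul, mul_comm]; omega
      have e1 : (k + 1) / K = k / K + 1 := by
        rw [hk1, Nat.mul_div_cancel _ hK]
      have e2 : (k + 1) % K = 0 := by
        rw [hk1, Nat.mul_mod_left]
      have e3 : k % K + 1 = K := by omega
      simp only [hG]
      rw [e1, e2, hstep0, e3, (hw _ hk).2.1, mul_one, blk]
      abel
  have hGbig : ∀ k, r ≤ k / K → G k = 1 := by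
    intro k hk
    simp only [hG]
    rw [hblk0 _ hk, zero_mul, add_zero, min_chain_top hF hk]
  refine ⟨G, ⟨?_, ?_, ?_, ?_⟩, ?_⟩
  · intro k
    by_cases hk : k / K < r
    · exact (hw _ hk).2.2.2.2.1 _
    · rw [hGbig k (by omega)]; exact L.one_mem
  · intro k
    by_cases hk : k / K < r
    · rw [hGsucc k hk]
      obtain ⟨_, _, h3, h4, _, _⟩ := hw _ hk
      simp only [hG]
      set a := k / K with ha
      set i := k % K with hi
      set f := F a with hf
      set e := blk F a with he
      have hff : f * f = f := mul_self_proj (L.proj _ (hF.mem a))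
      have hee : e * e = e := mul_self_proj (blk_proj hF a)
      have hfe : f * e = 0 := by
        rw [he, blk, mul_sub, hF.mono a, mul_self_proj (L.proj _ (hF.mem a)), sub_self]
      have hef : e * f = 0 := by
        rw [he, blk, sub_mul, chn_mul' hF (Nat.le_succ a), mul_self_proj (L.proj _ (hF.mem a)),
          sub_self]
      have hew : ∀ i, e * w a i = w a i * e := by
        intro i
        rw [he, blk, sub_mul, mul_sub, h4 i _ (hF.mem _), h4 i _ (hF.mem _)]
      have h1 : (f + e * w a i) * (f + e * w a (i + 1)) = f * f + (f * e) * w a (i + 1) +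
          (e * w a i) * f + (e * w a i) * (e * w a (i + 1)) := by noncomm_ring
      have h2 : (e * w a i) * f = 0 := by rw [hew, mul_assoc, hef, mul_zero]
      have h5 : (e * w a i) * (e * w a (i + 1)) = e * w a i := by
        rw [hew (i + 1), mul_assoc, ← mul_assoc (w a i), h3, ← hew, ← mul_assoc, hee]
      rw [h1, hff, hfe, h2, h5]
      simp
    · have h1 : r ≤ (k + 1) / K := le_trans (by omega) (Nat.div_le_div_right (Nat.le_succ k))
      rw [hGbig k (by omega), hGbig (k + 1) h1, one_mul]
  · simp only [hG]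
    rw [Nat.zero_div, Nat.zero_mod, hstep0, hF.zero]
  · apply hGbig
    rw [Nat.mul_div_cancel _ hK]
  · intro k hk
    have hkr : k / K < r := (Nat.div_lt_iff_lt_mul hK).2 hk
    have e1 : blk G k = blk F (k / K) * (w (k / K) (k % K + 1) - w (k / K) (k % K)) := by
      rw [blk, hGsucc k hkr]
      simp only [hG]
      rw [mul_sub]
      abel
    rw [e1]
    exact (hw _ hkr).2.2.2.2.2 _ (Nat.mod_lt k hK)

/- ================= TARGET ================= -/
/-- M2' -/
theorem min_chain (L : CSL H) (T : H →L[ℂ] H) (hT : T ∈ AlgL L) (δ : ℝ) (hδ : 0 < δ) (r : ℕ)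
    (hVW : VW L T δ r) (hfin : ∃ N, Good L T δ N) : Good L T δ (4 * r ^ 2 + 4 * r + 1) := by
  classical
  rcases Nat.eq_zero_or_pos r with hr | hr
  · subst hr
    obtain ⟨N, D, hD, _⟩ := hfin
    obtain ⟨F, hF, _⟩ := hVW N D hD
    have h01 : (0 : H →L[ℂ] H) = 1 := by rw [← hF.zero, hF.top]
    refine ⟨fun _ => 0, ⟨fun _ => L.zero_mem, fun _ => by simp, rfl, h01⟩, fun k _ => ?_⟩
    simpa [blk] using hδ.le
  · set N := Nat.find hfin with hNdef
    have hN : Good L T δ N := Nat.find_spec hfin
    obtain ⟨D, hD, hDT⟩ := hN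
    set l := 2 * r with hl
    have hlpos : 0 < l := by omega
    set M := N / l + 1 with hM
    have hNM : N ≤ M * l := by
      have h1 := Nat.div_add_mod N l
      have h2 := Nat.mod_lt N hlpos
      rw [hM, add_mul, one_mul, mul_comm]; omega
    have hΓ : IsChn L M (fun j => D (j * l)) := by
      refine ⟨fun k => hD.mem _, fun k => chn_mul hD (Nat.mul_le_mul_right l (by omega)), ?_,
        min_chain_top hD hNM⟩
      show D (0 * l) = 0
      rw [zero_mul, hD.zero]
    obtain ⟨F, hF, hFa⟩ := hVW M _ hΓ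
    set K := max M l with hK
    have hgood : Good L T δ (r * K) := by
      apply min_chain_assemble (lt_of_lt_of_le hlpos (le_max_right _ _)) hF
      intro a ha
      rcases hFa a ha with hV | hW
      · exact min_chain_V hδ hF hΓ (le_max_left _ _) a hV
      · exact min_chain_W hT hδ hF hD hΓ hDT (le_max_right _ _) a hW
    have hle : N ≤ r * K := Nat.find_min' hfin hgood
    apply min_chain_pad hδ (N := N) ⟨D, hD, hDT⟩
    rcases le_total M l with h | h
    · have : K = l := max_eq_right h
      rw [this, hl] at hle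
      nlinarith
    · have hKM : K = M := max_eq_left h
      rw [hKM, hM, mul_add, mul_one] at hle
      have h1 : 2 * (r * (N / l)) ≤ N := by
        have := Nat.div_mul_le_self N l
        calc 2 * (r * (N / l)) = N / l * l := by rw [hl]; ring
          _ ≤ N := this
      have h2 : N ≤ 2 * r := by omega
      nlinarith

end Hop
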