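import Pool.Agent.Helper360.Hop.Defs

set_option maxHeartbeats 4000000

open scoped InnerProductSpace Topology ComplexConjugate
open Finset Filter

namespace Hop

variable {H : Type*} [NormedAddCommGroup H] [InnerProductSpace ℂ H] [CompleteSpace H]

/-- auxiliary products from the top -/
def M3p_EE (D : ℕ → (H →L[ℂ] H)) (r : ℕ) : ℕ → (H →L[ℂ] H)
  | 0 => 1
  | m + 1 => D (r - (m + 1)) * M3p_EE D r m

theorem M3p_EE_mem (L : CSL H) {D : ℕ → (H →L[ℂ] H)} (hD : ∀ i, D i ∈ L.carrier) (r m : ℕ) :
    M3p_EE D r m ∈ L.carrier := by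
  induction m with
  | zero => exact L.one_mem
  | succ m ih => exact L.inf_mem _ (hD _) _ ih

/-- auxiliary chain -/
def M3p_G (D : ℕ → (H →L[ℂ] H)) (r : ℕ) : ℕ → (H →L[ℂ] H)
  | 0 => 0
  | k + 1 => M3p_EE D r (r - k)

theorem M3p_G_rec (D : ℕ → (H →L[ℂ] H)) {r i : ℕ} (hi : i < r) :
    M3p_G D r (i + 1) = D i * M3p_G D r (i + 2) := by
  have h1 : r - i = (r - (i + 1)) + 1 := by omega
  have h2 : r - ((r - (i + 1)) + 1) = i := by omega
  show M3p_EE D r (r - i) = D i * M3p_EE D r (r - (i + 1))
  rw [h1]
  show D (r - ((r - (i + 1)) + 1)) * M3p_EE D r (r - (i + 1)) = _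
  rw [h2]

theorem M3p_G_chn (L : CSL H) {D : ℕ → (H →L[ℂ] H)} (hD : ∀ i, D i ∈ L.carrier) (r : ℕ) :
    IsChn L (r + 1) (M3p_G D r) := by
  refine ⟨?_, ?_, rfl, ?_⟩
  · intro k
    cases k with
    | zero => exact L.zero_mem
    | succ k => exact M3p_EE_mem L hD r _
  · intro k
    cases k with
    | zero =>
      show (0 : H →L[ℂ] H) * _ = 0
      rw [zero_mul]
    | succ k =>
      rcases lt_or_ge k r with hk | hk
      · rw [M3p_G_rec D hk, mul_assoc]
        congr 1
        exact mul_self_proj (L.proj _ (M3p_EE_mem L hD r _))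
      · have h1 : r - k = 0 := by omega
        have h2 : r - (k + 1) = 0 := by omega
        show M3p_EE D r (r - k) * M3p_EE D r (r - (k + 1)) = M3p_EE D r (r - k)
        rw [h1, h2]
        show (1 : H →L[ℂ] H) * 1 = 1
        rw [mul_one]
  · show M3p_EE D r (r - r) = 1
    rw [Nat.sub_self]
    rfl

/-- products of blocks of two chains are intervals -/
theorem M3p_int {L : CSL H} {N M : ℕ} {F G : ℕ → (H →L[ℂ] H)} (hF : IsChn L N F)
    (hG : IsChn L M G) (a k : ℕ) : IsInt L (blk F a * blk G k) := by
  have f1 := hF.mem a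
  have f2 := hF.mem (a + 1)
  have g1 := hG.mem k
  have g2 := hG.mem (k + 1)
  have hFF : F a * F (a + 1) = F a := hF.mono a
  have hGG : G k * G (k + 1) = G k := hG.mono k
  have hF2 : F (a + 1) * F (a + 1) = F (a + 1) := mul_self_proj (L.proj _ f2)
  have hG2 : G (k + 1) * G (k + 1) = G (k + 1) := mul_self_proj (L.proj _ g2)
  have c1 : G (k + 1) * F (a + 1) = F (a + 1) * G (k + 1) := L.comm _ g2 _ f2
  have c2 : G k * F (a + 1) = F (a + 1) * G k := L.comm _ g1 _ f2
  have hGG' : G (k + 1) * G k = G k := by rw [L.comm _ g2 _ g1]; exact hGG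
  have hFF' : F (a + 1) * F a = F a := by rw [L.comm _ f2 _ f1]; exact hFF
  -- the product of the two pieces
  have e0 : (F a * G (k + 1)) * (F (a + 1) * G k) = F a * G k := by
    calc (F a * G (k + 1)) * (F (a + 1) * G k) = F a * (G (k + 1) * F (a + 1)) * G k := by
          noncomm_ring
      _ = F a * (F (a + 1) * G (k + 1)) * G k := by rw [c1]
      _ = (F a * F (a + 1)) * (G (k + 1) * G k) := by noncomm_ring
      _ = F a * G k := by rw [hFF, hGG']
  have e1 : (F a * G (k + 1)) * (F (a + 1) * G (k + 1)) = F a * G (k + 1) := by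
    calc (F a * G (k + 1)) * (F (a + 1) * G (k + 1)) =
          F a * (G (k + 1) * F (a + 1)) * G (k + 1) := by noncomm_ring
      _ = F a * (F (a + 1) * G (k + 1)) * G (k + 1) := by rw [c1]
      _ = (F a * F (a + 1)) * (G (k + 1) * G (k + 1)) := by noncomm_ring
      _ = F a * G (k + 1) := by rw [hFF, hG2]
  have e2 : (F (a + 1) * G k) * (F (a + 1) * G (k + 1)) = F (a + 1) * G k := by
    calc (F (a + 1) * G k) * (F (a + 1) * G (k + 1)) =
          F (a + 1) * (G k * F (a + 1)) * G (k + 1) := by noncomm_ring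
      _ = F (a + 1) * (F (a + 1) * G k) * G (k + 1) := by rw [c2]
      _ = (F (a + 1) * F (a + 1)) * (G k * G (k + 1)) := by noncomm_ring
      _ = F (a + 1) * G k := by rw [hF2, hGG]
  have e3 : (F a * G k) * (F (a + 1) * G (k + 1)) = F a * G k := by
    calc (F a * G k) * (F (a + 1) * G (k + 1)) =
          F a * (G k * F (a + 1)) * G (k + 1) := by noncomm_ring
      _ = F a * (F (a + 1) * G k) * G (k + 1) := by rw [c2]
      _ = (F a * F (a + 1)) * (G k * G (k + 1)) := by noncomm_ring
      _ = F a * G k := by rw [hFF, hGG]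
  refine ⟨F (a + 1) * G (k + 1), L.inf_mem _ f2 _ g2,
    F a * G (k + 1) + F (a + 1) * G k - (F a * G (k + 1)) * (F (a + 1) * G k),
    L.sup_mem _ (L.inf_mem _ f1 _ g2) _ (L.inf_mem _ f2 _ g1), ?_, ?_⟩
  · rw [e0, sub_mul, add_mul, e1, e2, e3]
  · rw [e0]
    unfold blk
    noncomm_ring

/- ================= TARGET ================= -/
/-- strict products vanish -/
theorem strict_nilp (L : CSL H) (T : H →L[ℂ] H) (hT : T ∈ AlgL L) (δ : ℝ) (r : ℕ)
    (hVW : VW L T δ r) (Q : H →L[ℂ] H) (hQ : IsStarProjection Q) (hQB : Q ∈ BiComL L)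
    (hQE : ∀ E, IsInt L E → ‖E * T * E‖ ≤ δ → Q * E = 0)
    (D R : ℕ → (H →L[ℂ] H)) (hD : ∀ i, D i ∈ L.carrier) (hR : ∀ i, R i ∈ AlgL L) :
    ((List.range r).map (fun i => Q * D i * R i * (1 - D i) * Q)).prod = 0 := by
  set J : ℕ → (H →L[ℂ] H) := fun i => Q * D i * R i * (1 - D i) * Q with hJ
  set G : ℕ → (H →L[ℂ] H) := M3p_G D r with hGdef
  have hG : IsChn L (r + 1) G := M3p_G_chn L hD r
  have hQQ : Q * Q = Q := mul_self_proj hQ
  have hQc : ∀ P ∈ L.carrier, P * Q = Q * P := BiComL_sub_ComL L hQB
  have hQA : Q ∈ AlgL L := ComL_sub_AlgL L (BiComL_sub_ComL L hQB)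
  have hcA : ∀ P ∈ L.carrier, P ∈ AlgL L := fun P hP =>
    ComL_sub_AlgL L (carrier_sub_ComL L hP)
  have hDD : ∀ i, D i * D i = D i := fun i => mul_self_proj (L.proj _ (hD i))
  have hJA : ∀ i, J i ∈ AlgL L := by
    intro i
    exact AlgL_mul L (AlgL_mul L (AlgL_mul L (AlgL_mul L hQA (hcA _ (hD i))) (hR i))
      (AlgL_sub L (AlgL_one L) (hcA _ (hD i)))) hQA
  have hDJ : ∀ i, D i * J i = J i := by
    intro i
    calc D i * (Q * D i * R i * (1 - D i) * Q) = (D i * Q) * D i * R i * (1 - D i) * Q := by
          noncomm_ring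
      _ = (Q * D i) * D i * R i * (1 - D i) * Q := by rw [hQc _ (hD i)]
      _ = Q * (D i * D i) * R i * (1 - D i) * Q := by noncomm_ring
      _ = Q * D i * R i * (1 - D i) * Q := by rw [hDD]
  have hJD : ∀ i, J i * (1 - D i) = J i := by
    intro i
    have h1 : (1 - D i) * Q * (1 - D i) = (1 - D i) * Q := by
      have h2 : Q * (1 - D i) = (1 - D i) * Q := by
        rw [mul_sub, sub_mul, hQc _ (hD i), mul_one, one_mul]
      have h3 : (1 - D i) * (1 - D i) = 1 - D i := by
        rw [mul_sub, mul_one, sub_mul, one_mul, hDD, sub_self, sub_zero]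
      rw [mul_assoc, h2, ← mul_assoc, h3]
    calc Q * D i * R i * (1 - D i) * Q * (1 - D i) =
          Q * D i * R i * ((1 - D i) * Q * (1 - D i)) := by simp only [mul_assoc]
      _ = Q * D i * R i * ((1 - D i) * Q) := by rw [h1]
      _ = Q * D i * R i * (1 - D i) * Q := by simp only [mul_assoc]
  have hQJ : ∀ i, Q * J i = J i := by
    intro i
    show Q * (Q * D i * R i * (1 - D i) * Q) = Q * D i * R i * (1 - D i) * Q
    simp only [← mul_assoc, hQQ]
  -- the modified operators
  set J' : ℕ → (H →L[ℂ] H) := fun i => G (i + 1) * J i * blk G (i + 1) with hJ'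
  have hJ'A : ∀ i, J' i ∈ AlgL L := by
    intro i
    refine AlgL_mul L (AlgL_mul L (hcA _ (hG.mem _)) (hJA i)) ?_
    exact AlgL_sub L (hcA _ (hG.mem _)) (hcA _ (hG.mem _))
  have hJ'C : ∀ i, J' i ∈ Cross L (r + 1) G := by
    intro i
    refine ⟨hJ'A i, fun k _ => ?_⟩
    by_cases hk : k = i + 1
    · subst hk
      have h1 : blk G (i + 1) * G (i + 1) = 0 := by
        unfold blk
        rw [sub_mul, chn_mul' hG (by omega : i + 1 ≤ i + 1 + 1), chn_mul hG le_rfl, sub_self]
      calc blk G (i + 1) * (G (i + 1) * J i * blk G (i + 1)) * blk G (i + 1) =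
            (blk G (i + 1) * G (i + 1)) * (J i * blk G (i + 1) * blk G (i + 1)) := by
            simp only [mul_assoc]
        _ = 0 := by rw [h1, zero_mul]
    · calc blk G k * (G (i + 1) * J i * blk G (i + 1)) * blk G k =
            blk G k * (G (i + 1) * J i) * (blk G (i + 1) * blk G k) := by
            simp only [mul_assoc]
        _ = 0 := by rw [blk_mul_blk_of_ne hG (fun h => hk h.symm), mul_zero]
  have hJJ' : ∀ i < r, J i * G (i + 2) = J' i := by
    intro i hi
    have h1 : J i * G (i + 2) = G (i + 2) * J i * G (i + 2) :=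
      (AlgL_iff L (J i)).1 (hJA i) _ (hG.mem _)
    have h2 : G (i + 1) = D i * G (i + 2) := M3p_G_rec D hi
    have h3 : G (i + 2) * J i = G (i + 1) * J i := by
      calc G (i + 2) * J i = G (i + 2) * (D i * J i) := by rw [hDJ]
        _ = (G (i + 2) * D i) * J i := by rw [mul_assoc]
        _ = (D i * G (i + 2)) * J i := by rw [L.comm _ (hG.mem _) _ (hD i)]
        _ = G (i + 1) * J i := by rw [← h2]
    have h4 : J i * G (i + 2) = J i * blk G (i + 1) := by
      calc J i * G (i + 2) = (J i * (1 - D i)) * G (i + 2) := by rw [hJD]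
        _ = J i * (G (i + 2) - D i * G (i + 2)) := by
            rw [mul_assoc, sub_mul, one_mul]
        _ = J i * blk G (i + 1) := by rw [← h2]; rfl
    calc J i * G (i + 2) = G (i + 2) * J i * G (i + 2) := h1
      _ = G (i + 1) * (J i * G (i + 2)) := by rw [h3, mul_assoc]
      _ = G (i + 1) * J i * blk G (i + 1) := by
          rw [h4]
          exact (mul_assoc (G (i + 1)) (J i) (blk G (i + 1))).symm
  have hGJ' : ∀ i, G (i + 1) * J' i = J' i := by
    intro i
    show G (i + 1) * (G (i + 1) * J i * blk G (i + 1)) = G (i + 1) * J i * blk G (i + 1)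
    rw [← mul_assoc, ← mul_assoc, chn_mul hG le_rfl]
  have hQJ' : ∀ i, Q * J' i = J' i := by
    intro i
    show Q * (G (i + 1) * J i * blk G (i + 1)) = G (i + 1) * J i * blk G (i + 1)
    calc Q * (G (i + 1) * J i * blk G (i + 1)) = (Q * G (i + 1)) * J i * blk G (i + 1) := by
          simp only [mul_assoc]
      _ = (G (i + 1) * Q) * J i * blk G (i + 1) := by rw [hQc _ (hG.mem _)]
      _ = G (i + 1) * (Q * J i) * blk G (i + 1) := by simp only [mul_assoc]
      _ = _ := by rw [hQJ]
  obtain ⟨F, hF, hVW'⟩ := hVW (r + 1) G hG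
  have hblk : ∀ a < r, ∀ i, blk F a * J' i * blk F a = 0 := by
    intro a ha i
    rcases hVW' a ha with hV | hW
    · have h1 : ∀ k ∈ range (r + 1), Q * blk F a * blk G k = 0 := by
        intro k hk
        have hc : blk G k * blk F a = blk F a * blk G k := by
          have := blk_mem_BiComL hG k
          have h2 : blk F a ∈ ComL L := BiComL_sub_ComL L (blk_mem_BiComL hF a)
          exact (this _ h2).symm
        rw [mul_assoc]
        apply hQE _ (M3p_int hF hG a k)
        have h3 := hV k (Finset.mem_range.1 hk)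
        have h4 : blk F a * blk G k * T * (blk F a * blk G k) =
            blk F a * blk G k * T * blk G k * blk F a := by
          rw [← hc]
          simp only [mul_assoc]
        rw [h4]
        exact h3
      have h5 : Q * blk F a = 0 := by
        calc Q * blk F a = Q * blk F a * ∑ k ∈ range (r + 1), blk G k := by
              rw [sum_blk hG, mul_one]
          _ = ∑ k ∈ range (r + 1), Q * blk F a * blk G k := by rw [Finset.mul_sum]
          _ = 0 := Finset.sum_eq_zero h1
      have h6 : blk F a * Q = 0 := by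
        have h7 : blk F a * Q = Q * blk F a := by
          unfold blk
          rw [sub_mul, mul_sub, hQc _ (hF.mem _), hQc _ (hF.mem _)]
        rw [h7, h5]
      calc blk F a * J' i * blk F a = blk F a * (Q * J' i) * blk F a := by rw [hQJ']
        _ = (blk F a * Q) * J' i * blk F a := by simp only [mul_assoc]
        _ = 0 := by rw [h6, zero_mul, zero_mul]
    · exact hW _ (hJ'C i)
  have hJF : ∀ a < r, ∀ i, J' i * F (a + 1) = F a * (J' i * F (a + 1)) := by
    intro a ha i
    have h1 : J' i * F (a + 1) = F (a + 1) * J' i * F (a + 1) :=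
      (AlgL_iff L (J' i)).1 (hJ'A i) _ (hF.mem _)
    have h2 : J' i * F a = F a * J' i * F a := (AlgL_iff L (J' i)).1 (hJ'A i) _ (hF.mem _)
    have h3 : blk F a * F a = 0 := by
      unfold blk
      rw [sub_mul, chn_mul' hF (by omega : a ≤ a + 1), chn_mul hF le_rfl, sub_self]
    have h4 : blk F a * (J' i * F (a + 1)) = 0 := by
      have h5 : F (a + 1) = F a + blk F a := by
        unfold blk
        rw [add_sub_cancel]
      calc blk F a * (J' i * F (a + 1)) = blk F a * (J' i * F a) + blk F a * J' i * blk F a := by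
            rw [h5]
            noncomm_ring
        _ = (blk F a * F a) * (J' i * F a) + 0 := by
            rw [hblk a ha i]
            congr 1
            rw [h2]
            simp only [mul_assoc]
            congr 1
            rw [← mul_assoc (F a) (F a), chn_mul hF le_rfl]
        _ = 0 := by rw [h3, zero_mul, zero_add]
    calc J' i * F (a + 1) = F (a + 1) * (J' i * F (a + 1)) := by
          rw [← mul_assoc]
          exact h1
      _ = F a * (J' i * F (a + 1)) + blk F a * (J' i * F (a + 1)) := by
          unfold blk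
          noncomm_ring
      _ = F a * (J' i * F (a + 1)) := by rw [h4, add_zero]
  -- induction
  have hind : ∀ i ≤ r, ((List.range i).map J).prod * G (i + 1) * F i = 0 := by
    intro i
    induction i with
    | zero =>
      intro _
      rw [hF.zero, mul_zero]
    | succ i ih =>
      intro hi
      have h1 := ih (by omega)
      rw [List.range_succ, List.map_append, List.prod_append, List.map_singleton,
        List.prod_singleton]
      calc ((List.range i).map J).prod * J i * G (i + 1 + 1) * F (i + 1) =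
            ((List.range i).map J).prod * ((J i * G (i + 2)) * F (i + 1)) := by
            simp only [mul_assoc]
        _ = ((List.range i).map J).prod * (J' i * F (i + 1)) := by rw [hJJ' i (by omega)]
        _ = ((List.range i).map J).prod * (F i * ((G (i + 1) * J' i) * F (i + 1))) := by
            rw [hGJ', ← hJF i (by omega) i]
        _ = ((List.range i).map J).prod * (F i * G (i + 1)) * (J' i * F (i + 1)) := by
            simp only [mul_assoc]
        _ = ((List.range i).map J).prod * (G (i + 1) * F i) * (J' i * F (i + 1)) := by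
            rw [L.comm _ (hF.mem _) _ (hG.mem _)]
        _ = (((List.range i).map J).prod * G (i + 1) * F i) * (J' i * F (i + 1)) := by
            simp only [mul_assoc]
        _ = 0 := by rw [h1, zero_mul]
  have hfin := hind r le_rfl
  rw [hG.top, hF.top, mul_one, mul_one] at hfin
  exact hfin

end Hop
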