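import Pool.Agent.Helper360.Hop.Defs

set_option maxHeartbeats 4000000

open scoped InnerProductSpace Topology ComplexConjugate
open Finset Filter

namespace Hop

variable {H : Type*} [NormedAddCommGroup H] [InnerProductSpace ℂ H] [CompleteSpace H]

/-- sign -/
def gsg (b : Bool) : ℂ := cond b 1 (-1)

theorem gsg_not (b : Bool) : gsg (!b) = - gsg b := by cases b <;> simp [gsg]
theorem gsg_mul (b : Bool) : gsg b * gsg b = 1 := by cases b <;> simp [gsg]
theorem gsg_conj (b : Bool) : conj (gsg b) = gsg b := by cases b <;> simp [gsg]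
theorem gsg_norm (b : Bool) : ‖gsg b‖ = 1 := by cases b <;> simp [gsg]

section
variable {ι : Type*} [Fintype ι] [DecidableEq ι]

/-- flipping one coordinate -/
def gflip (k : ι) (w : ι → Bool) : ι → Bool := Function.update w k (!(w k))

theorem gflip_inv (k : ι) : Function.Involutive (gflip k) := by
  intro w
  unfold gflip
  ext j
  by_cases h : j = k
  · subst h; simp
  · simp [Function.update_of_ne h]

theorem gsum_flip {M : Type*} [AddCommMonoid M] (k : ι) (f : (ι → Bool) → M) :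
    ∑ w, f (gflip k w) = ∑ w, f w :=
  Equiv.sum_comp (gflip_inv k).toPerm f

/-- Rademacher sum -/
def gX (a : ι → ℂ) (s : Finset ι) (w : ι → Bool) : ℂ := ∑ k ∈ s, a k * gsg (w k)

theorem gX_flip (a : ι → ℂ) (s : Finset ι) (k : ι) (hk : k ∉ s) (w : ι → Bool) :
    gX a s (gflip k w) = gX a s w := by
  unfold gX
  apply Finset.sum_congr rfl
  intro j hj
  have : j ≠ k := fun h => hk (h ▸ hj)
  unfold gflip
  rw [Function.update_of_ne this]

theorem gX_insert (a : ι → ℂ) (s : Finset ι) (k : ι) (hk : k ∉ s) (w : ι → Bool) :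
    gX a (insert k s) w = gX a s w + a k * gsg (w k) := by
  unfold gX
  rw [Finset.sum_insert hk, add_comm]

theorem gsum_odd (k : ι) (f : (ι → Bool) → ℂ) (hf : ∀ w, f (gflip k w) = - f w) :
    ∑ w, f w = 0 := by
  have h := gsum_flip k f
  simp only [hf, Finset.sum_neg_distrib] at h
  have h2 : (2 : ℂ) * ∑ w, f w = 0 := by linear_combination -h
  simpa using h2

theorem gX_bilin (a b : ι → ℂ) (s : Finset ι) :
    ∑ w : ι → Bool, conj (gX b s w) * gX a s w =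
      (Fintype.card (ι → Bool) : ℂ) * ∑ k ∈ s, conj (b k) * a k := by
  induction s using Finset.induction_on with
  | empty => simp [gX]
  | insert k s hk ih =>
    have h1 : ∀ w : ι → Bool, conj (gX b (insert k s) w) * gX a (insert k s) w =
        conj (gX b s w) * gX a s w +
        (conj (gX b s w) * (a k * gsg (w k)) + conj (b k) * gsg (w k) * gX a s w) +
        conj (b k) * a k := by
      intro w
      rw [gX_insert a s k hk, gX_insert b s k hk, map_add, map_mul, gsg_conj]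
      have := gsg_mul (w k)
      linear_combination (conj (b k) * a k) * this
    rw [Finset.sum_congr rfl (fun w _ => h1 w), Finset.sum_add_distrib, Finset.sum_add_distrib,
      ih, Finset.sum_insert hk]
    rw [gsum_odd k]
    · rw [Finset.sum_const, nsmul_eq_mul, Finset.card_univ]
      ring
    · intro w
      rw [gX_flip a s k hk, gX_flip b s k hk]
      have : gsg (gflip k w k) = - gsg (w k) := by
        unfold gflip; rw [Function.update_self, gsg_not]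
      rw [this]; ring

theorem gpt4 (x z : ℂ) : ‖x + z‖ ^ 4 + ‖x - z‖ ^ 4 ≤
    2 * ‖x‖ ^ 4 + 12 * ‖x‖ ^ 2 * ‖z‖ ^ 2 + 2 * ‖z‖ ^ 4 := by
  have h : ∀ y : ℂ, ‖y‖ ^ 4 = (y.re ^ 2 + y.im ^ 2) ^ 2 := by
    intro y
    rw [show (4 : ℕ) = 2 * 2 by norm_num, pow_mul, Complex.sq_norm, Complex.normSq_apply]
    ring
  have h2 : ∀ y : ℂ, ‖y‖ ^ 2 = (y.re ^ 2 + y.im ^ 2) := by
    intro y
    rw [Complex.sq_norm, Complex.normSq_apply]
    ring
  rw [h, h, h x, h z, h2 x, h2 z]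
  simp only [Complex.add_re, Complex.add_im, Complex.sub_re, Complex.sub_im]
  nlinarith [sq_nonneg (x.re * z.im - x.im * z.re)]

theorem gX_sq (a : ι → ℂ) (s : Finset ι) :
    ∑ w : ι → Bool, ‖gX a s w‖ ^ 2 =
      (Fintype.card (ι → Bool) : ℝ) * ∑ k ∈ s, ‖a k‖ ^ 2 := by
  have h := gX_bilin a a s
  have h2 : ∀ z : ℂ, conj z * z = ((‖z‖ ^ 2 : ℝ) : ℂ) := by
    intro z; rw [Complex.conj_mul', Complex.ofReal_pow]
  simp only [h2] at h
  exact_mod_cast h

theorem gX_four (a : ι → ℂ) (s : Finset ι) :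
    ∑ w : ι → Bool, ‖gX a s w‖ ^ 4 ≤
      (Fintype.card (ι → Bool) : ℝ) * (3 * (∑ k ∈ s, ‖a k‖ ^ 2) ^ 2) := by
  induction s using Finset.induction_on with
  | empty => simp [gX]
  | insert k s hk ih =>
    have h1 : ∑ w : ι → Bool, ‖gX a (insert k s) w‖ ^ 4 =
        ∑ w : ι → Bool, ‖gX a s w - a k * gsg (w k)‖ ^ 4 := by
      rw [← gsum_flip k]
      apply Finset.sum_congr rfl
      intro w _
      rw [gX_insert a s k hk, gX_flip a s k hk]
      have : gsg (gflip k w k) = - gsg (w k) := by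
        unfold gflip; rw [Function.update_self, gsg_not]
      rw [this]; congr 2; ring
    have h2 : ∑ w : ι → Bool, ‖gX a (insert k s) w‖ ^ 4 =
        ∑ w : ι → Bool, ‖gX a s w + a k * gsg (w k)‖ ^ 4 := by
      apply Finset.sum_congr rfl
      intro w _
      rw [gX_insert a s k hk]
    have h3 : 2 * ∑ w : ι → Bool, ‖gX a (insert k s) w‖ ^ 4 ≤
        ∑ w : ι → Bool, (2 * ‖gX a s w‖ ^ 4 + 12 * ‖a k‖ ^ 2 * ‖gX a s w‖ ^ 2 + 2 * ‖a k‖ ^ 4) := by
      calc 2 * ∑ w : ι → Bool, ‖gX a (insert k s) w‖ ^ 4 =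
          ∑ w : ι → Bool, (‖gX a s w + a k * gsg (w k)‖ ^ 4 + ‖gX a s w - a k * gsg (w k)‖ ^ 4) := by
            rw [Finset.sum_add_distrib, ← h1, ← h2]; ring
        _ ≤ _ := by
            apply Finset.sum_le_sum
            intro w _
            have h4 := gpt4 (gX a s w) (a k * gsg (w k))
            rw [norm_mul, gsg_norm, mul_one] at h4
            linarith
    rw [Finset.sum_add_distrib, Finset.sum_add_distrib, ← Finset.mul_sum, ← Finset.mul_sum,
      gX_sq, Finset.sum_const, nsmul_eq_mul, Finset.card_univ] at h3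
    rw [Finset.sum_insert hk]
    set S := ∑ k ∈ s, ‖a k‖ ^ 2 with hS
    set N := (Fintype.card (ι → Bool) : ℝ) with hN
    have hN0 : 0 ≤ N := Nat.cast_nonneg _
    have hS0 : 0 ≤ S := Finset.sum_nonneg (fun _ _ => by positivity)
    have hx : ‖a k‖ ^ 4 = (‖a k‖ ^ 2) ^ 2 := by ring
    rw [hx] at h3
    set A := ‖a k‖ ^ 2 with hA
    have hA0 : 0 ≤ A := by positivity
    nlinarith [mul_nonneg hN0 (sq_nonneg A)]

end

section
variable {Ω : Type*} [Fintype Ω]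

/-- embedding into `L²` -/
noncomputable def gL (f : Ω → ℂ) : EuclideanSpace ℂ Ω :=
  WithLp.toLp 2 (fun w => (((Real.sqrt (Fintype.card Ω))⁻¹ : ℝ) : ℂ) * f w)

theorem gL_inner (f g : Ω → ℂ) :
    ⟪gL f, gL g⟫_ℂ = ((Fintype.card Ω : ℝ)⁻¹ : ℝ) * ∑ w, conj (f w) * g w := by
  rw [PiLp.inner_apply, Finset.mul_sum]
  apply Finset.sum_congr rfl
  intro w _
  simp only [gL, RCLike.inner_apply, map_mul, Complex.conj_ofReal]
  have h : (((Real.sqrt (Fintype.card Ω))⁻¹ : ℝ) : ℂ) * (((Real.sqrt (Fintype.card Ω))⁻¹ : ℝ) : ℂ) =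
      ((Fintype.card Ω : ℝ)⁻¹ : ℝ) := by
    rw [← Complex.ofReal_mul, ← mul_inv, Real.mul_self_sqrt (Nat.cast_nonneg _)]
  linear_combination (conj (f w) * g w) * h

theorem gL_norm_sq (f : Ω → ℂ) : ‖gL f‖ ^ 2 = (Fintype.card Ω : ℝ)⁻¹ * ∑ w, ‖f w‖ ^ 2 := by
  have h := gL_inner f f
  rw [inner_self_eq_norm_sq_to_K] at h
  have h2 : ∀ z : ℂ, conj z * z = ((‖z‖ ^ 2 : ℝ) : ℂ) := by
    intro z; rw [Complex.conj_mul', Complex.ofReal_pow]
  simp only [h2] at h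
  have h3 : (((‖gL f‖ ^ 2 : ℝ)) : ℂ) = (((Fintype.card Ω : ℝ)⁻¹ * ∑ w, ‖f w‖ ^ 2 : ℝ) : ℂ) := by
    push_cast
    push_cast at h
    exact h
  exact_mod_cast h3

end

theorem gmid (z : ℂ) (hz : ‖z‖ ≤ 1) : ∃ w₁ w₂ : ℂ, ‖w₁‖ = 1 ∧ ‖w₂‖ = 1 ∧ (w₁ + w₂) / 2 = z := by
  by_cases h0 : z = 0
  · exact ⟨1, -1, by simp, by simp, by simp [h0]⟩
  have hn : 0 < ‖z‖ := norm_pos_iff.mpr h0
  set e : ℂ := z / (‖z‖ : ℂ) with he
  have hne : (‖z‖ : ℂ) ≠ 0 := by exact_mod_cast hn.ne'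
  have hen : ‖e‖ = 1 := by
    rw [he, norm_div, Complex.norm_real, norm_norm, div_self hn.ne']
  set r : ℝ := Real.sqrt (1 - ‖z‖ ^ 2) with hr
  have hr2 : r ^ 2 = 1 - ‖z‖ ^ 2 := by
    rw [hr, Real.sq_sqrt]; nlinarith
  have hw : ∀ σ : ℝ, σ ^ 2 = 1 → ‖((‖z‖ : ℝ) : ℂ) + ((σ * r : ℝ) : ℂ) * Complex.I‖ = 1 := by
    intro σ hσ
    rw [Complex.norm_add_mul_I, Real.sqrt_eq_one]
    nlinarith
  refine ⟨e * (((‖z‖ : ℝ) : ℂ) + (((1 : ℝ) * r : ℝ) : ℂ) * Complex.I),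
    e * (((‖z‖ : ℝ) : ℂ) + (((-1 : ℝ) * r : ℝ) : ℂ) * Complex.I), ?_, ?_, ?_⟩
  · rw [norm_mul, hen, hw 1 (by norm_num)]; norm_num
  · rw [norm_mul, hen, hw (-1) (by norm_num)]; norm_num
  · have : e * (‖z‖ : ℂ) = z := by
      rw [he]; field_simp
    push_cast
    linear_combination this

theorem gdisc {J : Type*} [Fintype J] (ψ : (J → ℂ) → ℝ)
    (hψ : ∀ x y : J → ℂ, ψ (fun j => (x j + y j) / 2) = (ψ x + ψ y) / 2) (d : ℝ)
    (h : ∀ s : J → ℂ, (∀ j, ‖s j‖ = 1) → ψ s ≤ d) (a : J → ℂ) (ha : ∀ j, ‖a j‖ ≤ 1) :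
    ψ a ≤ d := by
  classical
  have key : ∀ S : Finset J, ∀ a : J → ℂ, (∀ j, ‖a j‖ ≤ 1) → (∀ j, j ∉ S → ‖a j‖ = 1) →
      ψ a ≤ d := by
    intro S
    induction S using Finset.induction_on with
    | empty => intro a _ h2; exact h a (fun j => h2 j (by simp))
    | insert k S hk ih =>
      intro a h1 h2
      obtain ⟨w₁, w₂, e1, e2, e3⟩ := gmid (a k) (h1 k)
      have hx : ∀ w : ℂ, ‖w‖ = 1 → ψ (Function.update a k w) ≤ d := by
        intro w hw
        apply ih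
        · intro j
          by_cases hj : j = k
          · subst hj; rw [Function.update_self]; exact hw.le
          · rw [Function.update_of_ne hj]; exact h1 j
        · intro j hj
          by_cases hjk : j = k
          · subst hjk; rw [Function.update_self]; exact hw
          · rw [Function.update_of_ne hjk]
            exact h2 j (by simp [hjk, hj])
      have hE : a = fun j => (Function.update a k w₁ j + Function.update a k w₂ j) / 2 := by
        funext j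
        by_cases hj : j = k
        · subst hj; rw [Function.update_self, Function.update_self]; exact e3.symm
        · rw [Function.update_of_ne hj, Function.update_of_ne hj]; ring
      rw [hE, hψ]
      have := hx w₁ e1
      have := hx w₂ e2
      linarith
  exact key Finset.univ a ha (fun j hj => absurd (Finset.mem_univ j) hj)

theorem gdisc2 {I J : Type*} [Fintype I] [Fintype J] (Φ : (I → J → ℂ) →L[ℝ] ℝ) (d : ℝ)
    (h : ∀ (s : J → ℂ) (t : I → ℂ), (∀ j, ‖s j‖ = 1) → (∀ i, ‖t i‖ = 1) →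
      Φ (fun i j => conj (t i) * s j) ≤ d)
    (a : J → ℂ) (b : I → ℂ) (ha : ∀ j, ‖a j‖ ≤ 1) (hb : ∀ i, ‖b i‖ ≤ 1) :
    Φ (fun i j => conj (b i) * a j) ≤ d := by
  have hmid : ∀ X Y : I → J → ℂ, Φ (fun i j => (X i j + Y i j) / 2) = (Φ X + Φ Y) / 2 := by
    intro X Y
    have : (fun i j => (X i j + Y i j) / 2) = (1 / 2 : ℝ) • (X + Y) := by
      funext i j
      simp only [Pi.smul_apply, Pi.add_apply, Complex.real_smul]
      push_cast
      ring
    rw [this, map_smul, map_add, smul_eq_mul]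
    ring
  apply gdisc (fun b : I → ℂ => Φ (fun i j => conj (b i) * a j)) _ d _ b hb
  · intro x y
    show Φ _ = _
    rw [← hmid]
    congr 1
    funext i j
    rw [map_div₀, map_add, map_ofNat]
    ring
  · intro t ht
    apply gdisc (fun a : J → ℂ => Φ (fun i j => conj (t i) * a j)) _ d _ a ha
    · intro x y
      show Φ _ = _
      rw [← hmid]
      congr 1
      funext i j
      ring
    · intro s hs
      exact h s t hs ht

/-- Hilbert kernels -/
def GH {I J : Type*} (κ : I → J → ℂ) : Prop :=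
  ∃ (Ω : Type) (_ : Fintype Ω) (u : J → EuclideanSpace ℂ Ω) (v : I → EuclideanSpace ℂ Ω),
    (∀ j, ‖u j‖ ≤ 1) ∧ (∀ i, ‖v i‖ ≤ 1) ∧ κ = fun i j => ⟪v i, u j⟫_ℂ

theorem GH_norm {I J : Type*} [Fintype I] [Fintype J] {κ : I → J → ℂ} (h : GH κ) : ‖κ‖ ≤ 1 := by
  obtain ⟨Ω, _, u, v, hu, hv, rfl⟩ := h
  rw [pi_norm_le_iff_of_nonneg zero_le_one]
  intro i
  rw [pi_norm_le_iff_of_nonneg zero_le_one]
  intro j
  calc ‖⟪v i, u j⟫_ℂ‖ ≤ ‖v i‖ * ‖u j‖ := norm_inner_le_norm _ _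
    _ ≤ 1 * 1 := mul_le_mul (hv i) (hu j) (norm_nonneg _) zero_le_one
    _ = 1 := one_mul 1

open Classical in
/-- truncation -/
noncomputable def gtr (z : ℂ) : ℂ := if ‖z‖ ^ 2 ≤ 48 then z else 0

theorem gtr_norm (z : ℂ) : ‖gtr z‖ ^ 2 ≤ 48 := by
  unfold gtr; split_ifs with h
  · exact h
  · simp

theorem gtr_norm_le (z : ℂ) : ‖gtr z‖ ^ 2 ≤ ‖z‖ ^ 2 := by
  unfold gtr; split_ifs with h
  · exact le_rfl
  · simp

theorem gtr_sub (z : ℂ) : ‖z - gtr z‖ ^ 2 ≤ ‖z‖ ^ 4 / 48 := by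
  unfold gtr; split_ifs with h
  · rw [sub_self, norm_zero, zero_pow (by norm_num)]; positivity
  · rw [sub_zero]
    push Not at h
    have : ‖z‖ ^ 4 = ‖z‖ ^ 2 * ‖z‖ ^ 2 := by ring
    rw [this]
    have h0 : 0 ≤ ‖z‖ ^ 2 := by positivity
    nlinarith

theorem grothendieck_step {I J : Type*} [Fintype I] [Fintype J] (Φ : (I → J → ℂ) →L[ℝ] ℝ) (d γ : ℝ)
    (h : ∀ (s : J → ℂ) (t : I → ℂ), (∀ j, ‖s j‖ = 1) → (∀ i, ‖t i‖ = 1) →
      Φ (fun i j => conj (t i) * s j) ≤ d)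
    (hγ : ∀ κ : I → J → ℂ, GH κ → Φ κ ≤ γ) (κ : I → J → ℂ) (hκ : GH κ) :
    Φ κ ≤ 48 * d + γ / 2 := by
  classical
  obtain ⟨Ω, _, u, v, hu, hv, rfl⟩ := hκ
  set W := Ω → Bool with hW
  set X : J → W → ℂ := fun j => gX (fun k => u j k) Finset.univ with hX
  set Y : I → W → ℂ := fun i => gX (fun k => v i k) Finset.univ with hY
  set n : ℝ := (Fintype.card W : ℝ) with hn
  have hn0 : 0 < n := by
    rw [hn]; exact_mod_cast Fintype.card_pos
  have hnC : (n : ℂ) ≠ 0 := by exact_mod_cast hn0.ne'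
  -- second and fourth moments
  have hsqu : ∀ j, ∑ k, ‖u j k‖ ^ 2 ≤ 1 := by
    intro j
    rw [← EuclideanSpace.norm_sq_eq]
    have := hu j
    have h0 := norm_nonneg (u j)
    nlinarith
  have hsqv : ∀ i, ∑ k, ‖v i k‖ ^ 2 ≤ 1 := by
    intro i
    rw [← EuclideanSpace.norm_sq_eq]
    have := hv i
    have h0 := norm_nonneg (v i)
    nlinarith
  have hX2 : ∀ j, ∑ w, ‖X j w‖ ^ 2 ≤ n := by
    intro j
    have := gX_sq (fun k => u j k) Finset.univ
    rw [hX, this]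
    have := hsqu j
    nlinarith
  have hY2 : ∀ i, ∑ w, ‖Y i w‖ ^ 2 ≤ n := by
    intro i
    have := gX_sq (fun k => v i k) Finset.univ
    rw [hY, this]
    have := hsqv i
    nlinarith
  have hX4 : ∀ j, ∑ w, ‖X j w‖ ^ 4 ≤ 3 * n := by
    intro j
    refine (gX_four (fun k => u j k) Finset.univ).trans ?_
    have h1 := hsqu j
    have h2 : 0 ≤ ∑ k, ‖u j k‖ ^ 2 := Finset.sum_nonneg (fun _ _ => by positivity)
    have h3 : (∑ k, ‖u j k‖ ^ 2) ^ 2 ≤ 1 := by nlinarith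
    nlinarith
  have hY4 : ∀ i, ∑ w, ‖Y i w‖ ^ 4 ≤ 3 * n := by
    intro i
    refine (gX_four (fun k => v i k) Finset.univ).trans ?_
    have h1 := hsqv i
    have h2 : 0 ≤ ∑ k, ‖v i k‖ ^ 2 := Finset.sum_nonneg (fun _ _ => by positivity)
    have h3 : (∑ k, ‖v i k‖ ^ 2) ^ 2 ≤ 1 := by nlinarith
    nlinarith
  -- L² norms
  have hL1 : ∀ f : W → ℂ, ∑ w, ‖f w‖ ^ 2 ≤ n → ‖gL f‖ ≤ 1 := by
    intro f hf
    have h1 := gL_norm_sq f
    have h2 : ‖gL f‖ ^ 2 ≤ 1 := by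
      rw [h1, ← hn]
      rw [inv_mul_le_iff₀ hn0]; linarith
    have h0 := norm_nonneg (gL f)
    nlinarith
  have hL2 : ∀ f : W → ℂ, ∑ w, ‖f w‖ ^ 4 ≤ 3 * n →
      ‖(4 : ℂ) • gL (fun w => f w - gtr (f w))‖ ≤ 1 := by
    intro f hf
    have h1 := gL_norm_sq (fun w => f w - gtr (f w))
    have h2 : ∑ w, ‖f w - gtr (f w)‖ ^ 2 ≤ n / 16 := by
      calc ∑ w, ‖f w - gtr (f w)‖ ^ 2 ≤ ∑ w, ‖f w‖ ^ 4 / 48 :=
            Finset.sum_le_sum (fun w _ => gtr_sub (f w))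
        _ = (∑ w, ‖f w‖ ^ 4) / 48 := by rw [Finset.sum_div]
        _ ≤ n / 16 := by linarith
    have h3 : ‖gL (fun w => f w - gtr (f w))‖ ^ 2 ≤ 1 / 16 := by
      rw [h1, ← hn, inv_mul_le_iff₀ hn0]; linarith
    rw [norm_smul]
    have h0 := norm_nonneg (gL (fun w => f w - gtr (f w)))
    have h4 : ‖(4 : ℂ)‖ = 4 := by simp
    rw [h4]
    nlinarith
  -- the kernel identity
  have hker : ∀ i j, ⟪v i, u j⟫_ℂ = ((n⁻¹ : ℝ) : ℂ) * ∑ w, conj (Y i w) * X j w := by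
    intro i j
    have h1 := gX_bilin (fun k => u j k) (fun k => v i k) (Finset.univ : Finset Ω)
    rw [hX, hY, h1, PiLp.inner_apply]
    have h2 : (Fintype.card (Ω → Bool) : ℂ) = (n : ℂ) := by rw [hn]; push_cast; rfl
    rw [h2, ← mul_assoc, Complex.ofReal_inv, inv_mul_cancel₀ hnC, one_mul]
    apply Finset.sum_congr rfl
    intro k _
    rw [RCLike.inner_apply]
    ring
  set K1 : I → J → ℂ := n⁻¹ • ∑ w, (fun i j => conj (gtr (Y i w)) * gtr (X j w)) with hK1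
  set K2 : I → J → ℂ := fun i j => ⟪gL (fun w => gtr (Y i w)),
    (4 : ℂ) • gL (fun w => X j w - gtr (X j w))⟫_ℂ with hK2
  set K3 : I → J → ℂ := fun i j => ⟪(4 : ℂ) • gL (fun w => Y i w - gtr (Y i w)),
    gL (X j)⟫_ℂ with hK3
  have hdec : (fun i j => ⟪v i, u j⟫_ℂ) = K1 + (1 / 4 : ℝ) • K2 + (1 / 4 : ℝ) • K3 := by
    funext i j
    rw [hker, hK1, hK2, hK3]
    simp only [Pi.add_apply, Pi.smul_apply, Finset.sum_apply, Complex.real_smul, inner_smul_left,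
      inner_smul_right, gL_inner, map_ofNat]
    rw [← hn]
    have h1 : ∑ w, conj (Y i w) * X j w = ∑ w, conj (gtr (Y i w)) * gtr (X j w) +
        ∑ w, conj (gtr (Y i w)) * (X j w - gtr (X j w)) +
        ∑ w, conj (Y i w - gtr (Y i w)) * X j w := by
      rw [← Finset.sum_add_distrib, ← Finset.sum_add_distrib]
      apply Finset.sum_congr rfl
      intro w _
      rw [map_sub]
      ring
    rw [h1]
    push_cast
    ring
  have hGH2 : GH K2 := by
    refine ⟨W, inferInstance, fun j => (4 : ℂ) • gL (fun w => X j w - gtr (X j w)),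
      fun i => gL (fun w => gtr (Y i w)), fun j => hL2 _ (hX4 j), fun i => hL1 _ ?_, rfl⟩
    exact (Finset.sum_le_sum (fun w _ => gtr_norm_le (Y i w))).trans (hY2 i)
  have hGH3 : GH K3 := by
    refine ⟨W, inferInstance, fun j => gL (X j),
      fun i => (4 : ℂ) • gL (fun w => Y i w - gtr (Y i w)), fun j => hL1 _ (hX2 j),
      fun i => hL2 _ (hY4 i), rfl⟩
  have hK1b : Φ K1 ≤ 48 * d := by
    rw [hK1, map_smul, map_sum, smul_eq_mul, inv_mul_le_iff₀ hn0]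
    have hs : ∀ z : ℂ, ‖((Real.sqrt 48 : ℝ) : ℂ)⁻¹ * gtr z‖ ≤ 1 := by
      intro z
      rw [norm_mul, norm_inv, Complex.norm_real, Real.norm_of_nonneg (Real.sqrt_nonneg _),
        inv_mul_le_iff₀ (by positivity), mul_one]
      exact Real.le_sqrt_of_sq_le (gtr_norm z)
    have h1 : ∀ w : W, Φ (fun i j => conj (gtr (Y i w)) * gtr (X j w)) ≤ 48 * d := by
      intro w
      have h2 := gdisc2 Φ d h (fun j => ((Real.sqrt 48 : ℝ) : ℂ)⁻¹ * gtr (X j w))
        (fun i => ((Real.sqrt 48 : ℝ) : ℂ)⁻¹ * gtr (Y i w)) (fun j => hs _) (fun i => hs _)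
      have h3 : (fun i j => conj (gtr (Y i w)) * gtr (X j w)) =
          (48 : ℝ) • (fun (i : I) (j : J) => conj (((Real.sqrt 48 : ℝ) : ℂ)⁻¹ * gtr (Y i w)) *
            (((Real.sqrt 48 : ℝ) : ℂ)⁻¹ * gtr (X j w))) := by
        funext i j
        simp only [Pi.smul_apply, Complex.real_smul, map_mul, map_inv₀, Complex.conj_ofReal]
        have h4 : ((Real.sqrt 48 : ℝ) : ℂ) * ((Real.sqrt 48 : ℝ) : ℂ) = 48 := by
          rw [← Complex.ofReal_mul, Real.mul_self_sqrt (by norm_num)]; norm_num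
        have h5 : ((Real.sqrt 48 : ℝ) : ℂ) ≠ 0 := by
          intro h6; rw [h6] at h4; norm_num at h4
        have h6 : ((48 : ℝ) : ℂ) = ((Real.sqrt 48 : ℝ) : ℂ) * ((Real.sqrt 48 : ℝ) : ℂ) := by
          rw [h4]; norm_num
        rw [h6]
        field_simp
      rw [h3, map_smul, smul_eq_mul]
      linarith
    calc ∑ w : W, Φ (fun i j => conj (gtr (Y i w)) * gtr (X j w)) ≤ ∑ _w : W, 48 * d :=
          Finset.sum_le_sum (fun w _ => h1 w)
      _ = n * (48 * d) := by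
          rw [Finset.sum_const, nsmul_eq_mul, Finset.card_univ]
  have e2 : Φ ((1 / 4 : ℝ) • K2) = 1 / 4 * Φ K2 := map_smul Φ _ _
  have e3 : Φ ((1 / 4 : ℝ) • K3) = 1 / 4 * Φ K3 := map_smul Φ _ _
  rw [hdec, map_add, map_add, e2, e3]
  have := hγ K2 hGH2
  have := hγ K3 hGH3
  linarith

/- ================= TARGET ================= -/
/-- E -/
theorem grothendieck {I J : Type*} [Fintype I] [Fintype J] (p : ℕ)
    (u : J → EuclideanSpace ℂ (Fin p)) (v : I → EuclideanSpace ℂ (Fin p))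
    (hu : ∀ j, ‖u j‖ ≤ 1) (hv : ∀ i, ‖v i‖ ≤ 1) :
    (fun i j => ⟪v i, u j⟫_ℂ) ∈ closure (convexHull ℝ
      {m : I → J → ℂ | ∃ (s : J → ℂ) (t : I → ℂ), (∀ j, ‖s j‖ = 1) ∧ (∀ i, ‖t i‖ = 1) ∧
        m = fun i j => 96 * (conj (t i) * s j)}) := by
  by_contra hcon
  set S := {m : I → J → ℂ | ∃ (s : J → ℂ) (t : I → ℂ), (∀ j, ‖s j‖ = 1) ∧ (∀ i, ‖t i‖ = 1) ∧
        m = fun i j => 96 * (conj (t i) * s j)} with hS
  have hconv : Convex ℝ (closure (convexHull ℝ S)) := (convex_convexHull ℝ S).closure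
  obtain ⟨Φ, c, hΦ1, hΦ2⟩ := geometric_hahn_banach_closed_point hconv isClosed_closure hcon
  have h : ∀ (s : J → ℂ) (t : I → ℂ), (∀ j, ‖s j‖ = 1) → (∀ i, ‖t i‖ = 1) →
      Φ (fun i j => conj (t i) * s j) ≤ c / 96 := by
    intro s t hs ht
    have h1 := hΦ1 (fun i j => 96 * (conj (t i) * s j))
      (subset_closure (subset_convexHull ℝ S ⟨s, t, hs, ht, rfl⟩))
    have h2 : (fun (i : I) (j : J) => 96 * (conj (t i) * s j)) =
        (96 : ℝ) • (fun (i : I) (j : J) => conj (t i) * s j) := by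
      funext i j
      simp only [Pi.smul_apply, Complex.real_smul]
      norm_num
    rw [h2, map_smul, smul_eq_mul] at h1
    linarith
  set G : Set ℝ := {r | ∃ κ : I → J → ℂ, GH κ ∧ r = Φ κ} with hG
  have hκ0 : GH (fun (i : I) (j : J) => ⟪v i, u j⟫_ℂ) := ⟨Fin p, inferInstance, u, v, hu, hv, rfl⟩
  have hne : G.Nonempty := ⟨_, _, hκ0, rfl⟩
  have hbdd : BddAbove G := by
    refine ⟨‖Φ‖, ?_⟩
    rintro r ⟨κ, hκ, rfl⟩
    have h1 := Φ.le_opNorm κ
    have h2 := GH_norm hκ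
    have h3 : 0 ≤ ‖Φ‖ := norm_nonneg Φ
    have h4 : Φ κ ≤ ‖Φ κ‖ := le_abs_self _
    nlinarith
  have hstep : sSup G ≤ 48 * (c / 96) + sSup G / 2 := by
    apply csSup_le hne
    rintro r ⟨κ, hκ, rfl⟩
    exact grothendieck_step Φ (c / 96) (sSup G) h (fun κ' hκ' => le_csSup hbdd ⟨κ', hκ', rfl⟩) κ hκ
  have hle : Φ (fun (i : I) (j : J) => ⟪v i, u j⟫_ℂ) ≤ sSup G := le_csSup hbdd ⟨_, hκ0, rfl⟩
  linarith

end Hop
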