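import Pool.Agent.Helper360.Hop.Defs
import Pool.Agent.Helper360.Hop.FSb
set_option maxHeartbeats 4000000

open scoped InnerProductSpace Topology ComplexConjugate
open Finset Filter

namespace Hop

variable {H : Type*} [NormedAddCommGroup H] [InnerProductSpace ℂ H] [CompleteSpace H]

theorem H1b_real_smul (a : ℝ) (S : H →L[ℂ] H) : a • S = (a : ℂ) • S := by
  ext x
  simp

theorem H1b_closed (L : CSL H) : IsClosed (AlgL L) := by
  have h : AlgL L = ⋂ P ∈ L.carrier, {T : H →L[ℂ] H | (1 - P) * T * P = 0} := by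
    ext T
    simp only [Set.mem_iInter]
    rfl
  rw [h]
  refine isClosed_biInter (fun P _ => isClosed_eq ?_ continuous_const)
  exact (continuous_const.mul continuous_id).mul continuous_const

theorem H1b_convex (L : CSL H) : Convex ℝ (AlgL L) := by
  intro S hS T hT a b _ _ _
  rw [H1b_real_smul, H1b_real_smul]
  exact AlgL_add L (AlgL_smul L _ hS) (AlgL_smul L _ hT)

theorem H1b_blk_alg {L : CSL H} {N : ℕ} {D : ℕ → (H →L[ℂ] H)} (hD : IsChn L N D) (k : ℕ) :
    blk D k ∈ AlgL L :=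
  ComL_sub_AlgL L (BiComL_sub_ComL L (blk_mem_BiComL hD k))

theorem H1b_pow_add {R : Type*} [Ring R] (a x : R) (h : ∀ i : ℕ, x * a ^ i * x = 0) (m : ℕ) :
    (a + x) ^ m = a ^ m + ∑ i ∈ range m, a ^ i * x * a ^ (m - (i + 1)) := by
  induction m with
  | zero => simp
  | succ n ih =>
    rw [pow_succ', ih, Finset.sum_range_succ']
    have h1 : x * ∑ i ∈ range n, a ^ i * x * a ^ (n - (i + 1)) = 0 := by
      rw [Finset.mul_sum]
      refine Finset.sum_eq_zero (fun i _ => ?_)
      rw [← mul_assoc, ← mul_assoc, h i, zero_mul]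
    have h2 : a * ∑ i ∈ range n, a ^ i * x * a ^ (n - (i + 1)) =
        ∑ i ∈ range n, a ^ (i + 1) * x * a ^ (n + 1 - (i + 1 + 1)) := by
      rw [Finset.mul_sum]
      refine Finset.sum_congr rfl (fun i _ => ?_)
      have h3 : n + 1 - (i + 1 + 1) = n - (i + 1) := by omega
      rw [h3, pow_succ' a i]
      noncomm_ring
    rw [add_mul, mul_add, mul_add, h1, h2, add_zero, pow_zero, one_mul, ← pow_succ']
    have h4 : n + 1 - (0 + 1) = n := by omega
    rw [h4]
    abel

theorem H1b_conj_pow {R : Type*} [Ring R] (U' U Y : R) (h : U * U' = 1) (h' : U' * U = 1)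
    (m : ℕ) : (U' * Y * U) ^ m = U' * Y ^ m * U := by
  induction m with
  | zero => simp [h']
  | succ n ih =>
    rw [pow_succ, ih, pow_succ]
    calc U' * Y ^ n * U * (U' * Y * U) = U' * Y ^ n * (U * U') * Y * U := by noncomm_ring
      _ = U' * (Y ^ n * Y) * U := by rw [h]; noncomm_ring

theorem H1b_norm_le_one (V : H →L[ℂ] H) (h : star V * V = 1) : ‖V‖ ≤ 1 := by
  have h1 : ‖star V * V‖ = ‖V‖ * ‖V‖ := CStarRing.norm_star_mul_self
  rw [h] at h1
  have h2 : ‖(1 : H →L[ℂ] H)‖ ≤ 1 := ContinuousLinearMap.norm_id_le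
  by_contra h3
  push Not at h3
  nlinarith

theorem H1b_sum_mul {L : CSL H} {N : ℕ} {D : ℕ → (H →L[ℂ] H)} (hD : IsChn L N D)
    (f g : ℕ → (H →L[ℂ] H)) :
    (∑ i ∈ range N, f i * blk D i) * (∑ j ∈ range N, blk D j * g j) =
      ∑ i ∈ range N, f i * blk D i * g i := by
  rw [Finset.sum_mul_sum]
  refine Finset.sum_congr rfl (fun i hi => ?_)
  rw [Finset.sum_eq_single i]
  · have h := mul_self_proj (blk_proj hD i)
    calc f i * blk D i * (blk D i * g i) = f i * (blk D i * blk D i) * g i := by noncomm_ring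
      _ = _ := by rw [h]
  · intro j _ hji
    calc f i * blk D i * (blk D j * g j) = f i * (blk D i * blk D j) * g j := by noncomm_ring
      _ = 0 := by rw [blk_mul_blk_of_ne hD (Ne.symm hji)]; simp
  · intro h
    exact absurd hi h

/-- the family of extreme elements -/
def H1bE (L : CSL H) (D : ℕ → (H →L[ℂ] H)) (T : H →L[ℂ] H) (k : ℕ) : Set (H →L[ℂ] H) :=
  {X : H →L[ℂ] H | ∃ u ∈ ComL L, ∃ v ∈ ComL L, star u * u = 1 ∧ u * star u = 1 ∧
        star v * v = 1 ∧ v * star v = 1 ∧ X = blk D k * (star u * T * v) * blk D k}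

section ext1

variable {L : CSL H} {N : ℕ} {D : ℕ → (H →L[ℂ] H)} (hD : IsChn L N D)
include hD

theorem H1b_star_sum (u : ℕ → (H →L[ℂ] H)) :
    star (∑ k ∈ range N, blk D k * u k) = ∑ k ∈ range N, star (u k) * blk D k := by
  rw [star_sum]
  refine Finset.sum_congr rfl (fun k _ => ?_)
  rw [star_mul, star_proj (blk_proj hD k)]

theorem H1b_star_mul_self (u : ℕ → (H →L[ℂ] H)) (hu : ∀ k < N, u k ∈ ComL L)
    (hu1 : ∀ k < N, star (u k) * u k = 1) :
    star (∑ k ∈ range N, blk D k * u k) * (∑ k ∈ range N, blk D k * u k) = 1 := by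
  rw [H1b_star_sum hD, H1b_sum_mul hD (fun k => star (u k)) u, ← sum_blk hD]
  refine Finset.sum_congr rfl (fun k hk => ?_)
  have hk' := Finset.mem_range.1 hk
  rw [blk_mem_BiComL hD k _ (ComL_star L (hu k hk')), mul_assoc, hu1 k hk', mul_one]

theorem H1b_self_mul_star (u : ℕ → (H →L[ℂ] H)) (hu : ∀ k < N, u k ∈ ComL L)
    (hu1 : ∀ k < N, u k * star (u k) = 1) :
    (∑ k ∈ range N, blk D k * u k) * star (∑ k ∈ range N, blk D k * u k) = 1 := by
  have h1 : (∑ k ∈ range N, blk D k * u k) = ∑ k ∈ range N, u k * blk D k := by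
    refine Finset.sum_congr rfl (fun k hk => ?_)
    rw [blk_mem_BiComL hD k _ (hu k (Finset.mem_range.1 hk))]
  have h2 : star (∑ k ∈ range N, blk D k * u k) = ∑ k ∈ range N, blk D k * star (u k) := by
    rw [H1b_star_sum hD]
    refine Finset.sum_congr rfl (fun k hk => ?_)
    rw [blk_mem_BiComL hD k _ (ComL_star L (hu k (Finset.mem_range.1 hk)))]
  rw [h2, h1, H1b_sum_mul hD u (fun k => star (u k)), ← sum_blk hD]
  refine Finset.sum_congr rfl (fun k hk => ?_)
  have hk' := Finset.mem_range.1 hk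
  rw [blk_mem_BiComL hD k _ (hu k hk'), mul_assoc, hu1 k hk', mul_one]

theorem H1b_sum_alg (u : ℕ → (H →L[ℂ] H)) (hu : ∀ k < N, u k ∈ ComL L) :
    (∑ k ∈ range N, blk D k * u k) ∈ AlgL L ∧ star (∑ k ∈ range N, blk D k * u k) ∈ AlgL L := by
  constructor
  · refine AlgL_sum L _ _ (fun k hk => AlgL_mul L (H1b_blk_alg hD k) ?_)
    exact ComL_sub_AlgL L (hu k (Finset.mem_range.1 hk))
  · rw [H1b_star_sum hD]
    refine AlgL_sum L _ _ (fun k hk => AlgL_mul L ?_ (H1b_blk_alg hD k))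
    exact ComL_sub_AlgL L (ComL_star L (hu k (Finset.mem_range.1 hk)))

theorem H1b_sum_eq (T : H →L[ℂ] H) (u v : ℕ → (H →L[ℂ] H)) (hu : ∀ k < N, u k ∈ ComL L)
    (hv : ∀ k < N, v k ∈ ComL L) :
    star (∑ k ∈ range N, blk D k * u k) * bdiag N D T * (∑ k ∈ range N, blk D k * v k) =
      ∑ k ∈ range N, blk D k * (star (u k) * T * v k) * blk D k := by
  have h0 : bdiag N D T = ∑ k ∈ range N, blk D k * (T * blk D k) := by
    unfold bdiag
    exact Finset.sum_congr rfl (fun k _ => mul_assoc _ _ _)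
  rw [H1b_star_sum hD, h0, H1b_sum_mul hD (fun k => star (u k)) (fun k => T * blk D k)]
  have h1 : ∑ i ∈ range N, star (u i) * blk D i * (T * blk D i) =
      ∑ i ∈ range N, (star (u i) * blk D i * T) * blk D i :=
    Finset.sum_congr rfl (fun k _ => (mul_assoc _ _ _).symm)
  rw [h1, H1b_sum_mul hD (fun k => star (u k) * blk D k * T) v]
  refine Finset.sum_congr rfl (fun k hk => ?_)
  have hk' := Finset.mem_range.1 hk
  have e1 := blk_mem_BiComL hD k _ (ComL_star L (hu k hk'))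
  have e2 := blk_mem_BiComL hD k _ (hv k hk')
  calc star (u k) * blk D k * T * blk D k * v k
      = (star (u k) * blk D k) * T * (blk D k * v k) := by noncomm_ring
    _ = (blk D k * star (u k)) * T * (v k * blk D k) := by rw [e1, e2]
    _ = _ := by noncomm_ring

theorem H1b_ext (T : H →L[ℂ] H) (B ε : ℝ) (hFS : FS L (bdiag N D T) B ε)
    (u v : ℕ → (H →L[ℂ] H)) (hu : ∀ k < N, u k ∈ ComL L) (hv : ∀ k < N, v k ∈ ComL L)
    (hu1 : ∀ k < N, star (u k) * u k = 1) (hu2 : ∀ k < N, u k * star (u k) = 1)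
    (hv1 : ∀ k < N, star (v k) * v k = 1)
    (K : H →L[ℂ] H) (hK : K ∈ AlgL L) (hK1 : ‖K‖ ≤ 1) (m : ℕ) :
    ‖((∑ k ∈ range N, blk D k * (star (u k) * T * v k) * blk D k) * K) ^ m‖ ≤ B * ε ^ m := by
  rw [← H1b_sum_eq hD T u v hu hv]
  have hU1 := H1b_star_mul_self hD u hu hu1
  have hU2 := H1b_self_mul_star hD u hu hu2
  have hV1 := H1b_star_mul_self hD v hv hv1
  have hUa := H1b_sum_alg hD u hu
  have hVa := H1b_sum_alg hD v hv
  generalize (∑ k ∈ range N, blk D k * u k) = U at hU1 hU2 hUa ⊢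
  generalize (∑ k ∈ range N, blk D k * v k) = V at hV1 hVa ⊢
  have hUn : ‖U‖ ≤ 1 := H1b_norm_le_one U hU1
  have hUn' : ‖star U‖ ≤ 1 := by rw [norm_star]; exact hUn
  have hVn : ‖V‖ ≤ 1 := H1b_norm_le_one V hV1
  have e : star U * bdiag N D T * V * K =
      star U * (bdiag N D T * (V * K * star U)) * U := by
    calc star U * bdiag N D T * V * K = star U * bdiag N D T * V * K * 1 := (mul_one _).symm
      _ = star U * bdiag N D T * V * K * (star U * U) := by rw [hU1]
      _ = _ := by noncomm_ring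
  rw [e, H1b_conj_pow _ _ _ hU2 hU1]
  have hS : V * K * star U ∈ AlgL L := AlgL_mul L (AlgL_mul L hVa.1 hK) hUa.2
  have hSn : ‖V * K * star U‖ ≤ 1 := by
    have a1 : ‖V * K * star U‖ ≤ ‖V * K‖ * ‖star U‖ := norm_mul_le _ _
    have a2 : ‖V * K‖ ≤ ‖V‖ * ‖K‖ := norm_mul_le _ _
    have a3 : ‖V‖ * ‖K‖ ≤ 1 * 1 := mul_le_mul hVn hK1 (norm_nonneg _) zero_le_one
    have a4 : ‖V * K‖ * ‖star U‖ ≤ 1 * 1 :=
      mul_le_mul (by linarith) hUn' (norm_nonneg _) zero_le_one
    linarith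
  have hb := hFS _ hS hSn m
  generalize (bdiag N D T * (V * K * star U)) ^ m = Z at hb ⊢
  have b1 : ‖star U * Z * U‖ ≤ ‖star U * Z‖ * ‖U‖ := norm_mul_le _ _
  have b2 : ‖star U * Z‖ ≤ ‖star U‖ * ‖Z‖ := norm_mul_le _ _
  have b3 : ‖star U‖ * ‖Z‖ ≤ 1 * ‖Z‖ := mul_le_mul_of_nonneg_right hUn' (norm_nonneg _)
  have b4 : ‖star U * Z‖ * ‖U‖ ≤ ‖Z‖ * 1 :=
    mul_le_mul (by linarith) hUn (norm_nonneg _) (norm_nonneg _)
  linarith

theorem H1b_low {Y : H →L[ℂ] H} (hY : Y ∈ AlgL L) {i l : ℕ} (h : l < i) :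
    blk D i * Y * blk D l = 0 := by
  have h1 := (AlgL_iff L Y).1 hY (D (l + 1)) (hD.mem _)
  have h2 : D (l + 1) * blk D l = blk D l := by
    unfold blk
    rw [mul_sub, mul_self_proj (L.proj _ (hD.mem _)), chn_mul' hD (Nat.le_succ l)]
  have h3 : blk D i * D (l + 1) = 0 := by
    unfold blk
    rw [sub_mul, chn_mul' hD (by omega : l + 1 ≤ i + 1), chn_mul' hD (by omega : l + 1 ≤ i),
      sub_self]
  calc blk D i * Y * blk D l = blk D i * Y * (D (l + 1) * blk D l) := by rw [h2]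
    _ = blk D i * (Y * D (l + 1)) * blk D l := by noncomm_ring
    _ = blk D i * (D (l + 1) * Y * D (l + 1)) * blk D l := by rw [← h1]
    _ = (blk D i * D (l + 1)) * Y * D (l + 1) * blk D l := by noncomm_ring
    _ = 0 := by rw [h3]; simp

theorem H1b_cross {K Y : H →L[ℂ] H} (hK : K ∈ Cross L N D) (hY : Y ∈ AlgL L) {j : ℕ}
    (hj : j < N) : blk D j * K * Y * blk D j = 0 := by
  have h1 : blk D j * K * Y * blk D j =
      ∑ l ∈ range N, (blk D j * K * blk D l) * (blk D l * Y * blk D j) := by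
    calc blk D j * K * Y * blk D j = blk D j * K * 1 * (Y * blk D j) := by noncomm_ring
      _ = blk D j * K * (∑ l ∈ range N, blk D l) * (Y * blk D j) := by rw [sum_blk hD]
      _ = _ := by
        rw [Finset.mul_sum, Finset.sum_mul]
        refine Finset.sum_congr rfl (fun l _ => ?_)
        have h := mul_self_proj (blk_proj hD l)
        calc blk D j * K * blk D l * (Y * blk D j)
            = blk D j * K * (blk D l * blk D l) * (Y * blk D j) := by rw [h]
          _ = _ := by noncomm_ring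
  rw [h1]
  refine Finset.sum_eq_zero (fun l _ => ?_)
  rcases lt_trichotomy l j with h | h | h
  · rw [H1b_low hD hK.1 h, zero_mul]
  · rw [h, hK.2 j hj, zero_mul]
  · rw [H1b_low hD hY h, mul_zero]

theorem H1b_E_alg {T : H →L[ℂ] H} (hT : T ∈ AlgL L) (k : ℕ) :
    closure (convexHull ℝ (H1bE L D T k)) ⊆ AlgL L := by
  refine closure_minimal (convexHull_min ?_ (H1b_convex L)) (H1b_closed L)
  rintro X ⟨u, hu, v, hv, _, _, _, _, rfl⟩
  exact AlgL_mul L (AlgL_mul L (H1b_blk_alg hD k) (AlgL_mul L (AlgL_mul L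
    (ComL_sub_AlgL L (ComL_star L hu)) hT) (ComL_sub_AlgL L hv))) (H1b_blk_alg hD k)

theorem H1b_E_blk (T : H →L[ℂ] H) (k : ℕ) :
    closure (convexHull ℝ (H1bE L D T k)) ⊆ {X : H →L[ℂ] H | blk D k * X * blk D k = X} := by
  refine closure_minimal (convexHull_min ?_ ?_) ?_
  · rintro X ⟨u, hu, v, hv, _, _, _, _, rfl⟩
    have h := mul_self_proj (blk_proj hD k)
    show blk D k * (blk D k * (star u * T * v) * blk D k) * blk D k =
      blk D k * (star u * T * v) * blk D k
    calc blk D k * (blk D k * (star u * T * v) * blk D k) * blk D k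
        = (blk D k * blk D k) * (star u * T * v) * (blk D k * blk D k) := by noncomm_ring
      _ = _ := by rw [h]
  · intro S hS R hR a b _ _ _
    have hS' : blk D k * S * blk D k = S := hS
    have hR' : blk D k * R * blk D k = R := hR
    show blk D k * (a • S + b • R) * blk D k = a • S + b • R
    rw [H1b_real_smul, H1b_real_smul, mul_add, add_mul, mul_smul_comm, mul_smul_comm,
      smul_mul_assoc, smul_mul_assoc, hS', hR']
  · refine isClosed_eq ?_ continuous_id
    exact (continuous_const.mul continuous_id).mul continuous_const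

end ext1

/-- the linear part of the power as a function of one block -/
theorem H1b_affine (P Q a : H →L[ℂ] H) (K : H →L[ℂ] H) (m : ℕ) (c : ℝ) :
    IsClosed {X : H →L[ℂ] H | ‖a ^ m + ∑ i ∈ range m, a ^ i * (P * X * Q * K) *
      a ^ (m - (i + 1))‖ ≤ c} ∧
    Convex ℝ {X : H →L[ℂ] H | ‖a ^ m + ∑ i ∈ range m, a ^ i * (P * X * Q * K) *
      a ^ (m - (i + 1))‖ ≤ c} := by
  constructor
  · refine isClosed_le ?_ continuous_const
    refine continuous_norm.comp (continuous_const.add ?_)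
    refine continuous_finsetSum _ (fun i _ => ?_)
    exact (continuous_const.mul (((continuous_const.mul continuous_id).mul
      continuous_const).mul continuous_const)).mul continuous_const
  · intro S hS R hR s t hs ht hst
    have hS' : ‖a ^ m + ∑ i ∈ range m, a ^ i * (P * S * Q * K) * a ^ (m - (i + 1))‖ ≤ c := hS
    have hR' : ‖a ^ m + ∑ i ∈ range m, a ^ i * (P * R * Q * K) * a ^ (m - (i + 1))‖ ≤ c := hR
    have e : a ^ m + ∑ i ∈ range m, a ^ i * (P * (s • S + t • R) * Q * K) *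
        a ^ (m - (i + 1)) =
        (s : ℂ) • (a ^ m + ∑ i ∈ range m, a ^ i * (P * S * Q * K) * a ^ (m - (i + 1))) +
        (t : ℂ) • (a ^ m + ∑ i ∈ range m, a ^ i * (P * R * Q * K) * a ^ (m - (i + 1))) := by
      have e1 : ∑ i ∈ range m, a ^ i * (P * (s • S + t • R) * Q * K) * a ^ (m - (i + 1)) =
          (s : ℂ) • (∑ i ∈ range m, a ^ i * (P * S * Q * K) * a ^ (m - (i + 1))) +
          (t : ℂ) • (∑ i ∈ range m, a ^ i * (P * R * Q * K) * a ^ (m - (i + 1))) := by
        rw [Finset.smul_sum, Finset.smul_sum, ← Finset.sum_add_distrib]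
        refine Finset.sum_congr rfl (fun i _ => ?_)
        rw [H1b_real_smul, H1b_real_smul, mul_add, add_mul, add_mul, mul_add, add_mul,
          mul_smul_comm, mul_smul_comm, smul_mul_assoc, smul_mul_assoc, smul_mul_assoc,
          smul_mul_assoc, mul_smul_comm, mul_smul_comm, smul_mul_assoc, smul_mul_assoc]
      have e2 : a ^ m = (s : ℂ) • a ^ m + (t : ℂ) • a ^ m := by
        rw [← add_smul, ← Complex.ofReal_add, hst, Complex.ofReal_one, one_smul]
      rw [e1, smul_add, smul_add]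
      conv_lhs => rw [e2]
      abel
    show ‖a ^ m + ∑ i ∈ range m, a ^ i * (P * (s • S + t • R) * Q * K) *
        a ^ (m - (i + 1))‖ ≤ c
    rw [e]
    refine (norm_add_le _ _).trans ?_
    rw [norm_smul, norm_smul, Complex.norm_real, Complex.norm_real, Real.norm_of_nonneg hs,
      Real.norm_of_nonneg ht]
    have f1 := mul_le_mul_of_nonneg_left hS' hs
    have f2 := mul_le_mul_of_nonneg_left hR' ht
    have f3 : s * c + t * c = c := by rw [← add_mul, hst, one_mul]
    linarith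

theorem H1b_expand (L : CSL H) (N : ℕ) (D : ℕ → (H →L[ℂ] H)) (hD : IsChn L N D)
    (K : H →L[ℂ] H) (hK : K ∈ Cross L N D) (A : H →L[ℂ] H) (hA : A ∈ AlgL L) (j : ℕ)
    (hj : j < N) (X : H →L[ℂ] H) (hX : blk D j * X * blk D j = X) (m : ℕ) :
    ((A + X) * K) ^ m = (A * K) ^ m + ∑ i ∈ range m, (A * K) ^ i *
      (blk D j * X * blk D j * K) * (A * K) ^ (m - (i + 1)) := by
  rw [add_mul, hX]
  refine H1b_pow_add (A * K) (X * K) (fun i => ?_) m
  have h1 := H1b_cross hD hK (AlgL_pow L (AlgL_mul L hA hK.1) i) hj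
  calc X * K * (A * K) ^ i * (X * K)
      = (blk D j * X * blk D j) * K * (A * K) ^ i * ((blk D j * X * blk D j) * K) := by rw [hX]
    _ = blk D j * X * (blk D j * K * (A * K) ^ i * blk D j) * X * blk D j * K := by
        simp only [mul_assoc]
    _ = 0 := by rw [h1]; simp

theorem H1b_step (L : CSL H) (T : H →L[ℂ] H) (hT : T ∈ AlgL L)
    (N : ℕ) (D : ℕ → (H →L[ℂ] H)) (hD : IsChn L N D)
    (K : H →L[ℂ] H) (hK : K ∈ Cross L N D) (m : ℕ) (c : ℝ) (j : ℕ) (hj : j < N)
    (M : ℕ → (H →L[ℂ] H))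
    (hM : ∀ k < N, M k ∈ closure (convexHull ℝ (H1bE L D T k)))
    (hext : ∀ X ∈ H1bE L D T j,
      ‖((∑ k ∈ range N, Function.update M j X k) * K) ^ m‖ ≤ c) :
    ‖((∑ k ∈ range N, M k) * K) ^ m‖ ≤ c := by
  set A : H →L[ℂ] H := ∑ k ∈ (range N).erase j, M k with hAdef
  have hA : A ∈ AlgL L := by
    refine AlgL_sum L _ _ (fun k hk => ?_)
    exact H1b_E_alg hD hT k (hM k (Finset.mem_range.1 (Finset.mem_of_mem_erase hk)))
  have hsum : ∑ k ∈ range N, M k = A + M j := by
    rw [add_comm, hAdef, Finset.add_sum_erase _ _ (Finset.mem_range.2 hj)]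
  have hsum' : ∀ X, ∑ k ∈ range N, Function.update M j X k = A + X := by
    intro X
    rw [← Finset.add_sum_erase _ _ (Finset.mem_range.2 hj), Function.update_self, add_comm,
      hAdef]
    congr 1
    refine Finset.sum_congr rfl (fun k hk => ?_)
    rw [Function.update_of_ne (Finset.ne_of_mem_erase hk)]
  have hcl := H1b_affine (blk D j) (blk D j) (A * K) K m c
  have hsub : closure (convexHull ℝ (H1bE L D T j)) ⊆
      {X : H →L[ℂ] H | ‖(A * K) ^ m + ∑ i ∈ range m, (A * K) ^ i *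
        (blk D j * X * blk D j * K) * (A * K) ^ (m - (i + 1))‖ ≤ c} := by
    refine closure_minimal (convexHull_min ?_ hcl.2) hcl.1
    intro X hX
    have h1 := hext X hX
    rw [hsum' X, H1b_expand L N D hD K hK A hA j hj X
      (H1b_E_blk hD T j (subset_closure (subset_convexHull ℝ _ hX))) m] at h1
    exact h1
  have h2 := hsub (hM j hj)
  rw [hsum, H1b_expand L N D hD K hK A hA j hj (M j) (H1b_E_blk hD T j (hM j hj)) m]
  exact h2

theorem H1b_ind (L : CSL H) (T : H →L[ℂ] H) (hT : T ∈ AlgL L) (B ε : ℝ) (hFS : FS L T B ε)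
    (N : ℕ) (D : ℕ → (H →L[ℂ] H)) (hD : IsChn L N D)
    (K : H →L[ℂ] H) (hK : K ∈ Cross L N D) (hK1 : ‖K‖ ≤ 1) (m : ℕ) (j : ℕ) :
    ∀ M : ℕ → (H →L[ℂ] H),
      (∀ k < N, k < j → M k ∈ closure (convexHull ℝ (H1bE L D T k))) →
      (∀ k < N, j ≤ k → M k ∈ H1bE L D T k) →
      ‖((∑ k ∈ range N, M k) * K) ^ m‖ ≤ B * ε ^ m := by
  induction j with
  | zero =>
    intro M _ hM
    have h : ∀ k, ∃ u v : H →L[ℂ] H, k < N → (u ∈ ComL L ∧ v ∈ ComL L ∧ star u * u = 1 ∧
        u * star u = 1 ∧ star v * v = 1 ∧ M k = blk D k * (star u * T * v) * blk D k) := by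
      intro k
      by_cases hk : k < N
      · obtain ⟨u, hu, v, hv, h1, h2, h3, _, h5⟩ := hM k hk (Nat.zero_le k)
        exact ⟨u, v, fun _ => ⟨hu, hv, h1, h2, h3, h5⟩⟩
      · exact ⟨1, 1, fun h => absurd h hk⟩
    choose u v huv using h
    have e : ∑ k ∈ range N, M k =
        ∑ k ∈ range N, blk D k * (star (u k) * T * v k) * blk D k :=
      Finset.sum_congr rfl (fun k hk => (huv k (Finset.mem_range.1 hk)).2.2.2.2.2)
    rw [e]
    exact H1b_ext hD T B ε (FS_bdiag L T hT B ε hFS N D hD) u v (fun k hk => (huv k hk).1)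
      (fun k hk => (huv k hk).2.1) (fun k hk => (huv k hk).2.2.1)
      (fun k hk => (huv k hk).2.2.2.1) (fun k hk => (huv k hk).2.2.2.2.1) K hK.1 hK1 m
  | succ j ih =>
    intro M hM1 hM2
    have hMall : ∀ k < N, M k ∈ closure (convexHull ℝ (H1bE L D T k)) := by
      intro k hk
      by_cases hkj : k < j + 1
      · exact hM1 k hk hkj
      · exact subset_closure (subset_convexHull ℝ _ (hM2 k hk (by omega)))
    by_cases hj : j < N
    · refine H1b_step L T hT N D hD K hK m _ j hj M hMall (fun X hX => ?_)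
      refine ih _ (fun k hk hkj => ?_) (fun k hk hkj => ?_)
      · rw [Function.update_of_ne (by omega)]
        exact hMall k hk
      · by_cases hkj' : k = j
        · subst hkj'
          rw [Function.update_self]
          exact hX
        · rw [Function.update_of_ne hkj']
          exact hM2 k hk (by omega)
    · refine ih M (fun k hk _ => hMall k hk) (fun k hk hkj => ?_)
      omega

/- ================= TARGET ================= -/
/-- H1b -/
theorem growth (L : CSL H) (T : H →L[ℂ] H) (hT : T ∈ AlgL L) (B ε : ℝ) (hFS : FS L T B ε)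
    (N : ℕ) (D : ℕ → (H →L[ℂ] H)) (hD : IsChn L N D)
    (M : ℕ → (H →L[ℂ] H))
    (hM : ∀ k < N, M k ∈ closure (convexHull ℝ
      {X : H →L[ℂ] H | ∃ u ∈ ComL L, ∃ v ∈ ComL L, star u * u = 1 ∧ u * star u = 1 ∧
        star v * v = 1 ∧ v * star v = 1 ∧ X = blk D k * (star u * T * v) * blk D k}))
    (K : H →L[ℂ] H) (hK : K ∈ Cross L N D) (hK1 : ‖K‖ ≤ 1) (m : ℕ) :
    ‖((∑ k ∈ range N, M k) * K) ^ m‖ ≤ B * ε ^ m := by
  refine H1b_ind L T hT B ε hFS N D hD K hK hK1 m N M (fun k hk _ => hM k hk)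
    (fun k hk hk' => ?_)
  omega

end Hop
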