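import Pool.Agent.Helper360.Hop.Base
set_option maxHeartbeats 4000000
open scoped InnerProductSpace Topology ComplexConjugate
open Finset Filter

namespace Hop
variable {H : Type*} [NormedAddCommGroup H] [InnerProductSpace ℂ H] [CompleteSpace H]

/-! ### auxiliary lemmas for the potential theorem -/

theorem pot_orth_inner {M : ℕ} (P : Fin M → (H →L[ℂ] H)) (hP : ∀ j, IsStarProjection (P j))
    (hPP : ∀ i j, i ≠ j → P i * P j = 0) (i j : Fin M) (hij : i ≠ j) (x y : H) :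
    ⟪P i x, P j y⟫_ℂ = 0 := by
  have h1 : ⟪P i x, P j y⟫_ℂ = ⟪x, (P i * P j) y⟫_ℂ := by
    have h2 : (P i).adjoint = P i := (hP i).isSelfAdjoint
    rw [mul_apply_eq_comp, ← ContinuousLinearMap.adjoint_inner_right, h2]
  rw [h1, hPP i j hij]; simp

theorem pot_norm_sq_sum {M : ℕ} (w : Fin M → H) (h : ∀ i j, i ≠ j → ⟪w i, w j⟫_ℂ = 0) :
    ‖∑ j, w j‖ ^ 2 = ∑ j, ‖w j‖ ^ 2 := by
  have h1 : (‖∑ j, w j‖ ^ 2 : ℝ) = (⟪∑ j, w j, ∑ j, w j⟫_ℂ).re := by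
    rw [inner_self_eq_norm_sq_to_K]; norm_cast
  rw [h1, sum_inner, Complex.re_sum]
  apply Finset.sum_congr rfl
  intro i _
  rw [inner_sum, Complex.re_sum, Finset.sum_eq_single i]
  · rw [inner_self_eq_norm_sq_to_K]; norm_cast
  · intro j _ hji
    rw [h i j (Ne.symm hji)]; simp
  · intro hi; exact absurd (Finset.mem_univ i) hi

/-- `‖X (∑ α_j f_j)‖² = ∑ |α_j|² ‖X f_j‖²` for `X` commuting with the `P_j`. -/
theorem pot_norm_cells {M : ℕ} (f : Fin M → H) (P : Fin M → (H →L[ℂ] H))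
    (hP : ∀ j, IsStarProjection (P j)) (hPP : ∀ i j, i ≠ j → P i * P j = 0)
    (hPf : ∀ j, P j (f j) = f j) (X : H →L[ℂ] H) (hX : ∀ j, X * P j = P j * X)
    (α : Fin M → ℂ) :
    ‖X (∑ j, α j • f j)‖ ^ 2 = ∑ j, ‖α j‖ ^ 2 * ‖X (f j)‖ ^ 2 := by
  have h1 : X (∑ j, α j • f j) = ∑ j, P j (α j • X (f j)) := by
    rw [map_sum]
    apply Finset.sum_congr rfl
    intro j _
    rw [map_smul, map_smul]
    congr 1
    have h2 : X (P j (f j)) = P j (X (f j)) := by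
      have := congrArg (fun (Z : H →L[ℂ] H) => Z (f j)) (hX j)
      simpa using this
    rw [hPf j] at h2
    exact h2
  rw [h1, pot_norm_sq_sum]
  · apply Finset.sum_congr rfl
    intro j _
    have h2 : P j (X (f j)) = X (f j) := by
      have := congrArg (fun (Z : H →L[ℂ] H) => Z (f j)) (hX j)
      simp only [mul_apply_eq_comp] at this
      rw [hPf j] at this
      exact this.symm
    rw [map_smul, h2, norm_smul, mul_pow]
  · intro i j hij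
    exact pot_orth_inner P hP hPP i j hij _ _

theorem pot_sum_proj_le {M : ℕ} (P : Fin M → (H →L[ℂ] H))
    (hP : ∀ j, IsStarProjection (P j)) (hPP : ∀ i j, i ≠ j → P i * P j = 0) (x : H) :
    ∑ j, ‖P j x‖ ^ 2 ≤ ‖x‖ ^ 2 := by
  have h1 : ‖∑ j, P j x‖ ^ 2 = ∑ j, ‖P j x‖ ^ 2 :=
    pot_norm_sq_sum _ (fun i j hij => pot_orth_inner P hP hPP i j hij _ _)
  have h2 : ⟪x, ∑ j, P j x⟫_ℂ = ((∑ j, ‖P j x‖ ^ 2 : ℝ) : ℂ) := by
    rw [inner_sum]
    push_cast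
    apply Finset.sum_congr rfl
    intro j _
    have h3 : P j (P j x) = P j x := by
      have := congrArg (fun (Z : H →L[ℂ] H) => Z x) (mul_self_proj (hP j))
      simpa using this
    have h4 : (P j).adjoint = P j := (hP j).isSelfAdjoint
    calc ⟪x, P j x⟫_ℂ = ⟪x, P j (P j x)⟫_ℂ := by rw [h3]
      _ = ⟪P j x, P j x⟫_ℂ := by rw [← ContinuousLinearMap.adjoint_inner_left, h4]
      _ = _ := by rw [inner_self_eq_norm_sq_to_K]; norm_cast
  have h3 : ∑ j, ‖P j x‖ ^ 2 ≤ ‖x‖ * ‖∑ j, P j x‖ := by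
    have h4 := norm_inner_le_norm (𝕜 := ℂ) x (∑ j, P j x)
    rw [h2, Complex.norm_real, Real.norm_of_nonneg (Finset.sum_nonneg (fun j _ => sq_nonneg _))] at h4
    exact h4
  rw [← h1] at h3 ⊢
  have h5 : 0 ≤ ‖∑ j, P j x‖ := norm_nonneg _
  have h6 : ‖∑ j, P j x‖ ≤ ‖x‖ := by
    by_contra hc
    push Not at hc
    nlinarith [norm_nonneg x]
  nlinarith [norm_nonneg x]

theorem pot_norm_comb_le {M : ℕ} (P : Fin M → (H →L[ℂ] H))
    (hP : ∀ j, IsStarProjection (P j)) (hPP : ∀ i j, i ≠ j → P i * P j = 0)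
    (α : Fin M → ℂ) (hα : ∀ j, ‖α j‖ ≤ 1) (x : H) : ‖∑ j, α j • P j x‖ ≤ ‖x‖ := by
  have h1 : ‖∑ j, α j • P j x‖ ^ 2 = ∑ j, ‖α j • P j x‖ ^ 2 := by
    apply pot_norm_sq_sum
    intro i j hij
    rw [inner_smul_left, inner_smul_right, pot_orth_inner P hP hPP i j hij]; simp
  have h2 : ∑ j, ‖α j • P j x‖ ^ 2 ≤ ∑ j, ‖P j x‖ ^ 2 := by
    apply Finset.sum_le_sum
    intro j _
    rw [norm_smul, mul_pow]
    have h3 : ‖α j‖ ^ 2 ≤ 1 := pow_le_one₀ (norm_nonneg _) (hα j)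
    nlinarith [sq_nonneg ‖P j x‖]
  have h3 := pot_sum_proj_le P hP hPP x
  exact (sq_le_sq₀ (norm_nonneg _) (norm_nonneg _)).mp (by linarith)

/-- Neumann iteration. -/
theorem pot_iter (A : H →L[ℂ] H) (b e : H) (lam B' : ℝ) (hlam : 0 < lam) (hB' : 0 ≤ B')
    (hA : ∀ m : ℕ, ‖A ^ m‖ ≤ B' * (lam / 2) ^ m) (hb : (lam : ℂ) • b = A b + (lam : ℂ) • e) :
    ‖b‖ ≤ 2 * B' * ‖e‖ := by
  have hlamc : (lam : ℂ) ≠ 0 := by exact_mod_cast hlam.ne'
  have key : ∀ m : ℕ, b = ((lam : ℂ) ^ m)⁻¹ • (A ^ m) b +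
      ∑ k ∈ range m, ((lam : ℂ) ^ k)⁻¹ • (A ^ k) e := by
    intro m
    induction m with
    | zero => simp
    | succ n ih =>
      have h1 : b = (lam : ℂ)⁻¹ • A b + e := by
        have : (lam : ℂ)⁻¹ • ((lam : ℂ) • b) = (lam : ℂ)⁻¹ • (A b + (lam : ℂ) • e) := by rw [hb]
        rw [smul_smul, inv_mul_cancel₀ hlamc, one_smul, smul_add, smul_smul,
          inv_mul_cancel₀ hlamc, one_smul] at this
        exact this
      have h2 : (A ^ n) b = (lam : ℂ)⁻¹ • (A ^ (n+1)) b + (A ^ n) e := by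
        conv_lhs => rw [h1]
        rw [map_add, map_smul]
        congr 2
      rw [Finset.sum_range_succ]
      conv_lhs => rw [ih, h2]
      rw [smul_add, smul_smul, ← mul_inv, ← pow_succ]
      abel
  have hbd : ∀ m : ℕ, ‖b‖ ≤ B' * (1 / 2) ^ m * ‖b‖ + 2 * B' * ‖e‖ := by
    intro m
    have h1 : ∀ (k : ℕ) (x : H), ‖((lam : ℂ) ^ k)⁻¹ • (A ^ k) x‖ ≤ B' * (1 / 2) ^ k * ‖x‖ := by
      intro k x
      rw [norm_smul, norm_inv, norm_pow, Complex.norm_real, Real.norm_of_nonneg hlam.le]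
      have h2 : ‖(A ^ k) x‖ ≤ B' * (lam / 2) ^ k * ‖x‖ :=
        le_trans ((A ^ k).le_opNorm x) (mul_le_mul_of_nonneg_right (hA k) (norm_nonneg _))
      have h3 : 0 < lam ^ k := pow_pos hlam k
      calc (lam ^ k)⁻¹ * ‖(A ^ k) x‖ ≤ (lam ^ k)⁻¹ * (B' * (lam / 2) ^ k * ‖x‖) :=
            mul_le_mul_of_nonneg_left h2 (by positivity)
        _ = B' * (1 / 2) ^ k * ‖x‖ := by
            rw [div_pow, div_pow, one_pow]; field_simp
    calc ‖b‖ = ‖((lam : ℂ) ^ m)⁻¹ • (A ^ m) b +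
          ∑ k ∈ range m, ((lam : ℂ) ^ k)⁻¹ • (A ^ k) e‖ := by rw [← key m]
      _ ≤ ‖((lam : ℂ) ^ m)⁻¹ • (A ^ m) b‖ + ∑ k ∈ range m, ‖((lam : ℂ) ^ k)⁻¹ • (A ^ k) e‖ :=
          le_trans (norm_add_le _ _) (add_le_add le_rfl (norm_sum_le _ _))
      _ ≤ B' * (1 / 2) ^ m * ‖b‖ + ∑ k ∈ range m, B' * (1 / 2) ^ k * ‖e‖ :=
          add_le_add (h1 m b) (Finset.sum_le_sum fun k _ => h1 k e)
      _ ≤ B' * (1 / 2) ^ m * ‖b‖ + 2 * B' * ‖e‖ := by
          have h4 : ∑ k ∈ range m, B' * (1 / 2 : ℝ) ^ k * ‖e‖ =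
              B' * ‖e‖ * ∑ k ∈ range m, (1 / 2 : ℝ) ^ k := by
            rw [Finset.mul_sum]; apply Finset.sum_congr rfl; intro k _; ring
          have h5 : ∑ k ∈ range m, (1 / 2 : ℝ) ^ k ≤ 2 := by
            rw [geom_sum_eq (by norm_num)]
            have : (0:ℝ) ≤ (1/2)^m := by positivity
            have h6 : ((1 / 2 : ℝ) ^ m - 1) / (1 / 2 - 1) = 2 - 2 * (1/2)^m := by ring
            rw [h6]; linarith
          rw [h4]
          have h7 : 0 ≤ B' * ‖e‖ := mul_nonneg hB' (norm_nonneg _)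
          nlinarith
  have hlim : Tendsto (fun m : ℕ => B' * (1 / 2) ^ m * ‖b‖ + 2 * B' * ‖e‖) atTop
      (𝓝 (B' * 0 * ‖b‖ + 2 * B' * ‖e‖)) := by
    apply Tendsto.add _ tendsto_const_nhds
    apply Tendsto.mul_const
    apply Tendsto.const_mul
    exact tendsto_pow_atTop_nhds_zero_of_lt_one (by norm_num) (by norm_num)
  have := ge_of_tendsto' hlim hbd
  simpa using this

end Hop
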