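import Pool.Agent.Helper360.Hop.Defs
import Pool.Agent.Helper360.Hop.Wot
set_option maxHeartbeats 4000000

open scoped InnerProductSpace Topology ComplexConjugate
open Finset Filter

namespace Hop

variable {H : Type*} [NormedAddCommGroup H] [InnerProductSpace ℂ H] [CompleteSpace H]

/- ================= TARGET ================= -/
theorem P1_qf_one (x : H) : qf (1 : H →L[ℂ] H) x = ‖x‖ ^ 2 := by
  unfold qf
  rw [ContinuousLinearMap.one_apply]
  exact inner_self_eq_norm_sq (𝕜 := ℂ) x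

theorem P1_qf_add (g h : H →L[ℂ] H) (a b : ℝ) (x : H) :
    qf ((a:ℂ) • g + (b:ℂ) • h) x = a * qf g x + b * qf h x := by
  unfold qf
  rw [ContinuousLinearMap.add_apply, ContinuousLinearMap.smul_apply, ContinuousLinearMap.smul_apply,
    inner_add_left, inner_smul_left, inner_smul_left, Complex.conj_ofReal, Complex.conj_ofReal,
    Complex.add_re, Complex.re_ofReal_mul, Complex.re_ofReal_mul]

theorem P1_qf_smul (g : H →L[ℂ] H) (t : ℝ) (x : H) : qf g ((t:ℂ) • x) = t ^ 2 * qf g x := by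
  unfold qf
  rw [map_smul, inner_smul_left, inner_smul_right, Complex.conj_ofReal, ← mul_assoc, ← Complex.ofReal_mul,
    Complex.re_ofReal_mul]
  ring

theorem P1_sym {g : H →L[ℂ] H} (hsa : IsSelfAdjoint g) (x y : H) : ⟪g x, y⟫_ℂ = ⟪x, g y⟫_ℂ := by
  have h := (ContinuousLinearMap.isSelfAdjoint_iff_isSymmetric.1 hsa) x y
  exact h

theorem P1_polar {g : H →L[ℂ] H} (hsa : IsSelfAdjoint g) (x y : H) :
    qf g (x + y) - qf g (x - y) = 4 * (⟪g x, y⟫_ℂ).re := by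
  have h1 : (⟪g y, x⟫_ℂ).re = (⟪g x, y⟫_ℂ).re := by
    rw [P1_sym hsa y x, ← inner_conj_symm y (g x), Complex.conj_re]
  unfold qf
  rw [map_add, map_sub]
  simp only [inner_add_left, inner_add_right, inner_sub_left, inner_sub_right, Complex.add_re, Complex.sub_re]
  rw [h1]
  ring

theorem P1_norm_le {g : H →L[ℂ] H} {C : ℝ} (hC : 0 ≤ C) (hsa : IsSelfAdjoint g)
    (h0 : ∀ x, 0 ≤ qf g x) (h1 : ∀ x, qf g x ≤ C * ‖x‖ ^ 2) : ‖g‖ ≤ C := by
  apply ContinuousLinearMap.opNorm_le_bound _ hC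
  intro x
  by_cases hx : x = 0
  · simp [hx]
  by_cases hy : g x = 0
  · rw [hy, norm_zero]; positivity
  have hx' : 0 < ‖x‖ := norm_pos_iff.2 hx
  have hy' : 0 < ‖g x‖ := norm_pos_iff.2 hy
  set t : ℝ := ‖x‖ / ‖g x‖ with ht
  have ht0 : 0 < t := div_pos hx' hy'
  have h2 := P1_polar hsa x ((t:ℂ) • g x)
  have h3 : (⟪g x, (t:ℂ) • g x⟫_ℂ).re = t * ‖g x‖ ^ 2 := by
    rw [inner_smul_right, Complex.re_ofReal_mul]
    congr 1
    exact inner_self_eq_norm_sq (𝕜 := ℂ) (g x)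
  rw [h3] at h2
  have h4 := h0 (x - (t:ℂ) • g x)
  have h5 := h1 (x + (t:ℂ) • g x)
  have h6 : ‖x + (t:ℂ) • g x‖ ≤ 2 * ‖x‖ := by
    calc ‖x + (t:ℂ) • g x‖ ≤ ‖x‖ + ‖(t:ℂ) • g x‖ := norm_add_le _ _
      _ = ‖x‖ + t * ‖g x‖ := by
          rw [norm_smul, Complex.norm_real, Real.norm_of_nonneg ht0.le]
      _ = 2 * ‖x‖ := by
          rw [ht]
          field_simp
          ring
  have h7 : C * ‖x + (t:ℂ) • g x‖ ^ 2 ≤ C * (2 * ‖x‖) ^ 2 := by gcongr
  have h8 : t * ‖g x‖ ^ 2 = ‖x‖ * ‖g x‖ := by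
    rw [ht]
    field_simp
  have h9 : ‖x‖ * ‖g x‖ ≤ ‖x‖ * (C * ‖x‖) := by nlinarith
  exact le_of_mul_le_mul_left h9 hx'

theorem P1_pot_conv {L : CSL H} {C : ℝ} {g h : H →L[ℂ] H} (hg : Pot L C g) (hh : Pot L C h) {a b : ℝ}
    (ha : 0 ≤ a) (hb : 0 ≤ b) (hab : a + b = 1) : Pot L C ((a:ℂ) • g + (b:ℂ) • h) := by
  refine ⟨?_, ?_, ?_, ?_, ?_⟩
  · rw [IsSelfAdjoint, star_add, star_smul, star_smul, hg.sa.star_eq, hh.sa.star_eq]
    simp
  · intro S hS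
    rw [mul_add, add_mul, mul_smul_comm, mul_smul_comm, smul_mul_assoc, smul_mul_assoc, hg.comm S hS, hh.comm S hS]
  · intro x
    rw [P1_qf_add]
    calc ‖x‖ ^ 2 = a * ‖x‖ ^ 2 + b * ‖x‖ ^ 2 := by rw [← add_mul, hab, one_mul]
      _ ≤ a * qf g x + b * qf h x :=
          add_le_add (mul_le_mul_of_nonneg_left (hg.lower x) ha) (mul_le_mul_of_nonneg_left (hh.lower x) hb)
  · intro x
    rw [P1_qf_add]
    calc a * qf g x + b * qf h x ≤ a * (C * ‖x‖ ^ 2) + b * (C * ‖x‖ ^ 2) :=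
          add_le_add (mul_le_mul_of_nonneg_left (hg.upper x) ha) (mul_le_mul_of_nonneg_left (hh.upper x) hb)
      _ = C * ‖x‖ ^ 2 := by rw [← add_mul, hab, one_mul]
  · intro S hS hS1 x
    rw [P1_qf_add, P1_qf_add]
    exact add_le_add (mul_le_mul_of_nonneg_left (hg.mono S hS hS1 x) ha)
      (mul_le_mul_of_nonneg_left (hh.mono S hS hS1 x) hb)

theorem P1_contr {S : H →L[ℂ] H} (hS : ‖S‖ ≤ 1) (x : H) : ‖S x‖ ^ 2 ≤ ‖x‖ ^ 2 := by
  have h1 : ‖S x‖ ≤ ‖x‖ := by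
    calc ‖S x‖ ≤ ‖S‖ * ‖x‖ := S.le_opNorm x
      _ ≤ 1 * ‖x‖ := by gcongr
      _ = ‖x‖ := one_mul _
  exact pow_le_pow_left₀ (norm_nonneg _) h1 2

theorem P1_pot_one (L : CSL H) {C : ℝ} (hC : 1 ≤ C) : Pot L C (1 : H →L[ℂ] H) := by
  refine ⟨IsSelfAdjoint.one _, fun S _ => by simp, fun x => ?_, fun x => ?_, fun S _ hS x => ?_⟩
  · rw [P1_qf_one]
  · rw [P1_qf_one]
    nlinarith [sq_nonneg ‖x‖]
  · rw [P1_qf_one, P1_qf_one]
    exact P1_contr hS x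

theorem P1_limit {ι : Type*} (𝒰 : Ultrafilter ι) {L : CSL H} {C : ℝ} (hC : 0 ≤ C) (g : ι → (H →L[ℂ] H))
    (hg : ∀ i, Pot L C (g i)) :
    ∃ G : H →L[ℂ] H, Pot L C G ∧ ∀ x, Tendsto (fun i => qf (g i) x) 𝒰 (𝓝 (qf G x)) := by
  have hn : ∀ i, ‖g i‖ ≤ C := fun i => P1_norm_le hC (hg i).sa
    (fun x => (sq_nonneg ‖x‖).trans ((hg i).lower x)) (hg i).upper
  obtain ⟨G, _, hlim⟩ := exists_wot_limit 𝒰 g C hn
  have hq : ∀ x, Tendsto (fun i => qf (g i) x) 𝒰 (𝓝 (qf G x)) := fun x =>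
    (Complex.continuous_re.tendsto _).comp (hlim x x)
  refine ⟨G, ⟨?_, ?_, ?_, ?_, ?_⟩, hq⟩
  · rw [ContinuousLinearMap.isSelfAdjoint_iff_isSymmetric]
    intro x y
    have h1 := hlim x y
    have h2 : Tendsto (fun i => ⟪g i x, y⟫_ℂ) 𝒰 (𝓝 ⟪x, G y⟫_ℂ) := by
      have h3 : Tendsto (fun i => (starRingEnd ℂ) ⟪g i y, x⟫_ℂ) 𝒰 (𝓝 ((starRingEnd ℂ) ⟪G y, x⟫_ℂ)) :=
        (Complex.continuous_conj.tendsto _).comp (hlim y x)
      rw [inner_conj_symm] at h3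
      refine h3.congr (fun i => ?_)
      rw [inner_conj_symm, P1_sym (hg i).sa]
    exact tendsto_nhds_unique h1 h2
  · intro S hS
    ext x
    apply ext_inner_right ℂ
    intro y
    have h1 : Tendsto (fun i => ⟪g i x, (ContinuousLinearMap.adjoint S) y⟫_ℂ) 𝒰
      (𝓝 ⟪G x, (ContinuousLinearMap.adjoint S) y⟫_ℂ) := hlim x _
    have h2 : Tendsto (fun i => ⟪g i x, (ContinuousLinearMap.adjoint S) y⟫_ℂ) 𝒰 (𝓝 ⟪G (S x), y⟫_ℂ) := by
      refine (hlim (S x) y).congr (fun i => ?_)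
      rw [ContinuousLinearMap.adjoint_inner_right]
      have h3 := congrArg (fun T : H →L[ℂ] H => T x) ((hg i).comm S hS)
      simp only [ContinuousLinearMap.mul_apply] at h3
      rw [h3]
    have h4 := tendsto_nhds_unique h1 h2
    rw [ContinuousLinearMap.mul_apply, ContinuousLinearMap.mul_apply, ← h4,
      ContinuousLinearMap.adjoint_inner_right]
  · intro x
    exact ge_of_tendsto' (hq x) (fun i => (hg i).lower x)
  · intro x
    exact le_of_tendsto' (hq x) (fun i => (hg i).upper x)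
  · intro S hS hS1 x
    exact le_of_tendsto_of_tendsto' (hq (S x)) (hq x) (fun i => (hg i).mono S hS hS1 x)

/-- admissible pairs -/
def P1_PP (L : CSL H) (C : ℝ) (N : ℕ) (D : ℕ → (H →L[ℂ] H)) (g g' : H →L[ℂ] H) : Prop :=
  Pot L C g ∧ Pot L C g' ∧ (∀ R ∈ Cross L N D, ‖R‖ ≤ 1 → ∀ x, qf g (R x) ≤ qf g' x)

theorem P1_step1 (L : CSL H) (C : ℝ) (hC : 1 ≤ C) (N : ℕ) (D : ℕ → (H →L[ℂ] H))
    (S : H →L[ℂ] H) (lam : ℝ)
    (hno : ¬ ∃ g g' : H →L[ℂ] H, Pot L C g ∧ Pot L C g' ∧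
        (∀ R ∈ Cross L N D, ‖R‖ ≤ 1 → ∀ x, qf g (R x) ≤ qf g' x) ∧
        (∀ x, qf g' (S x) ≤ lam ^ 2 * qf g x)) :
    ∃ s : Finset H, ∀ g g', P1_PP L C N D g g' → ∃ x ∈ s, lam ^ 2 * qf g x - qf g' (S x) < 0 := by
  by_contra hcon
  push Not at hcon
  choose g g' hPP hell using hcon
  apply hno
  set 𝒰 : Ultrafilter (Finset H) := Ultrafilter.of atTop with h𝒰
  obtain ⟨G, hG, hGl⟩ := P1_limit 𝒰 (by linarith) g (fun s => (hPP s).1)
  obtain ⟨G', hG', hGl'⟩ := P1_limit 𝒰 (by linarith) g' (fun s => (hPP s).2.1)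
  refine ⟨G, G', hG, hG', ?_, ?_⟩
  · intro R hR hR1 x
    exact le_of_tendsto_of_tendsto' (hGl (R x)) (hGl' x) (fun s => (hPP s).2.2 R hR hR1 x)
  · intro x
    apply le_of_tendsto_of_tendsto (hGl' (S x)) ((hGl x).const_mul (lam ^ 2))
    have h1 : ∀ᶠ s : Finset H in (𝒰 : Filter (Finset H)), {x} ≤ s :=
      (Filter.eventually_ge_atTop {x}).filter_mono (Ultrafilter.of_le _)
    filter_upwards [h1] with s hs
    have h2 : x ∈ s := hs (Finset.mem_singleton_self x)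
    have h3 := hell s x h2
    linarith

/-- separation: duality for potentials -/
theorem separation (L : CSL H) (C : ℝ) (hC : 1 ≤ C) (N : ℕ) (D : ℕ → (H →L[ℂ] H))
    (hD : IsChn L N D) (S : H →L[ℂ] H) (lam : ℝ) (hlam : 0 < lam)
    (hno : ¬ ∃ g g' : H →L[ℂ] H, Pot L C g ∧ Pot L C g' ∧
        (∀ R ∈ Cross L N D, ‖R‖ ≤ 1 → ∀ x, qf g (R x) ≤ qf g' x) ∧
        (∀ x, qf g' (S x) ≤ lam ^ 2 * qf g x)) :
    ∃ (p : ℕ) (x : Fin p → H), (∑ i, ‖x i‖ ^ 2 = 1) ∧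
      ∀ g g' : H →L[ℂ] H, Pot L C g → Pot L C g' →
        (∀ R ∈ Cross L N D, ‖R‖ ≤ 1 → ∀ x, qf g (R x) ≤ qf g' x) →
        lam ^ 2 * (∑ i, qf g (x i)) ≤ ∑ i, qf g' (S (x i)) := by
  classical
  obtain ⟨s0, hs0⟩ := P1_step1 L C hC N D S lam hno
  set s : Finset H := s0.filter (fun x => x ≠ 0) with hs
  have hsn : ∀ x ∈ s, x ≠ 0 := fun x hx => (Finset.mem_filter.1 hx).2
  have hs1 : ∀ g g', P1_PP L C N D g g' → ∃ x ∈ s, lam ^ 2 * qf g x - qf g' (S x) < 0 := by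
    intro g g' h
    obtain ⟨x, hx, hlt⟩ := hs0 g g' h
    refine ⟨x, ?_, hlt⟩
    rw [hs, Finset.mem_filter]
    refine ⟨hx, ?_⟩
    rintro rfl
    simp [qf] at hlt
  -- the convex sets
  set V : Set ({x // x ∈ s} → ℝ) := {v | ∃ g g', P1_PP L C N D g g' ∧ ∀ x : {x // x ∈ s},
    v x = lam ^ 2 * qf g x.1 - qf g' (S x.1)} with hV
  set O : Set ({x // x ∈ s} → ℝ) := {v | ∀ x, 0 < v x} with hO
  have hOc : Convex ℝ O := by
    intro v hv w hw a b ha hb hab x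
    have h1 := hv x
    have h2 := hw x
    show 0 < a * v x + b * w x
    rcases ha.eq_or_lt with h | h
    · rw [← h] at hab ⊢
      have : b = 1 := by linarith
      rw [this]; linarith
    · have := mul_pos h h1
      have := mul_nonneg hb h2.le
      linarith
  have hOo : IsOpen O := by
    have : O = ⋂ x, {v : {x // x ∈ s} → ℝ | 0 < v x} := by
      ext v
      simp [hO]
    rw [this]
    exact isOpen_iInter_of_finite fun x => isOpen_lt continuous_const (continuous_apply x)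
  have hVc : Convex ℝ V := by
    rintro v ⟨g₁, g₁', ⟨hg₁, hg₁', hc₁⟩, hv⟩ w ⟨g₂, g₂', ⟨hg₂, hg₂', hc₂⟩, hw⟩ a b ha hb hab
    refine ⟨(a:ℂ) • g₁ + (b:ℂ) • g₂, (a:ℂ) • g₁' + (b:ℂ) • g₂', ⟨P1_pot_conv hg₁ hg₂ ha hb hab,
      P1_pot_conv hg₁' hg₂' ha hb hab, ?_⟩, ?_⟩
    · intro R hR hR1 x
      rw [P1_qf_add, P1_qf_add]
      exact add_le_add (mul_le_mul_of_nonneg_left (hc₁ R hR hR1 x) ha)
        (mul_le_mul_of_nonneg_left (hc₂ R hR hR1 x) hb)
    · intro x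
      rw [P1_qf_add, P1_qf_add]
      show a * v x + b * w x = _
      rw [hv x, hw x]
      ring
  have hdis : Disjoint O V := by
    rw [Set.disjoint_left]
    rintro v hv ⟨g, g', hPP, hvv⟩
    obtain ⟨x, hx, hlt⟩ := hs1 g g' hPP
    have h1 := hv ⟨x, hx⟩
    rw [hvv ⟨x, hx⟩] at h1
    simp only at h1
    linarith
  obtain ⟨f, u, hf1, hf2⟩ := geometric_hahn_banach_open hOc hOo hVc hdis
  -- coordinates of f
  set c : {x // x ∈ s} → ℝ := fun x => - f (Pi.single x 1) with hc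
  have hfv : ∀ v, f v = - ∑ x, c x * v x := by
    intro v
    have h1 : v = ∑ x, v x • (Pi.single x (1:ℝ) : {x // x ∈ s} → ℝ) := by
      funext y
      rw [Finset.sum_apply]
      simp [Pi.single_apply]
    conv_lhs => rw [h1]
    rw [map_sum, ← Finset.sum_neg_distrib]
    apply Finset.sum_congr rfl
    intro x _
    rw [map_smul, hc, smul_eq_mul]
    ring
  -- f ≤ 0 on nonneg, u ≥ 0
  have hu0 : 0 ≤ u := by
    have h1 : ∀ n : ℕ, (1 / ((n:ℝ) + 1)) * f (fun _ => 1) ≤ u := by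
      intro n
      have h2 : (fun _ => 1 / ((n:ℝ) + 1) : {x // x ∈ s} → ℝ) ∈ O := by
        intro x
        show 0 < 1 / ((n:ℝ) + 1)
        positivity
      have h3 := hf1 _ h2
      have h4 : (fun _ => 1 / ((n:ℝ) + 1) : {x // x ∈ s} → ℝ) = (1 / ((n:ℝ) + 1)) • (fun _ => (1:ℝ)) := by
        funext x
        simp
      rw [h4, map_smul, smul_eq_mul] at h3
      exact h3.le
    have h5 : Tendsto (fun n : ℕ => (1 / ((n:ℝ) + 1)) * f (fun _ => 1)) atTop (𝓝 (0 * f (fun _ => 1))) :=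
      (tendsto_one_div_add_atTop_nhds_zero_nat (𝕜 := ℝ)).mul_const _
    rw [zero_mul] at h5
    exact le_of_tendsto' h5 h1
  have hc0 : ∀ x, 0 ≤ c x := by
    intro x
    by_contra hneg
    rw [not_le] at hneg
    have hpos : 0 < f (Pi.single x 1) := by
      rw [hc] at hneg
      simp only at hneg
      linarith
    -- f (1 + t e_x) < u for all t ≥ 0
    set t : ℝ := (|u| + |f (fun _ => 1)|) / f (Pi.single x 1) with ht
    have ht0 : 0 ≤ t := by positivity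
    have h2 : ((fun _ => 1) + t • (Pi.single x (1:ℝ)) : {x // x ∈ s} → ℝ) ∈ O := by
      intro y
      show 0 < 1 + t * (Pi.single x (1:ℝ) : {x // x ∈ s} → ℝ) y
      have : 0 ≤ (Pi.single x (1:ℝ) : {x // x ∈ s} → ℝ) y := by
        rw [Pi.single_apply]
        split_ifs <;> norm_num
      positivity
    have h3 := hf1 _ h2
    rw [map_add, map_smul, smul_eq_mul, ht, div_mul_cancel₀ _ hpos.ne'] at h3
    have h4 := le_abs_self u
    have h5 := neg_abs_le (f (fun _ => 1))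
    linarith
  have hne : ∃ x, c x ≠ 0 := by
    by_contra hall
    push Not at hall
    have hf0 : ∀ v, f v = 0 := by
      intro v
      rw [hfv v]
      simp [hall]
    have h1 : (fun x : {x // x ∈ s} => lam ^ 2 * qf (1 : H →L[ℂ] H) x.1 - qf (1 : H →L[ℂ] H) (S x.1)) ∈ V := by
      refine ⟨1, 1, ⟨P1_pot_one L hC, P1_pot_one L hC, ?_⟩, fun x => rfl⟩
      intro R _ hR x
      rw [P1_qf_one, P1_qf_one]
      exact P1_contr hR x
    have h2 := hf2 _ h1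
    have h3 := hf1 (fun _ => 1) (fun x => zero_lt_one)
    rw [hf0] at h2 h3
    linarith
  set M : ℝ := ∑ x : {x // x ∈ s}, c x * ‖x.1‖ ^ 2 with hM
  have hM0 : 0 < M := by
    obtain ⟨x, hx⟩ := hne
    have h1 : c x * ‖x.1‖ ^ 2 ≤ M := by
      rw [hM]
      exact Finset.single_le_sum (f := fun x : {x // x ∈ s} => c x * ‖x.1‖ ^ 2)
        (fun y _ => mul_nonneg (hc0 y) (sq_nonneg _)) (Finset.mem_univ x)
    have h2 : 0 < c x := lt_of_le_of_ne (hc0 x) (Ne.symm hx)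
    have h3 : 0 < ‖x.1‖ := norm_pos_iff.2 (hsn x.1 x.2)
    have : 0 < c x * ‖x.1‖ ^ 2 := by positivity
    linarith
  set e := (Fintype.equivFin {x // x ∈ s}).symm with he
  refine ⟨Fintype.card {x // x ∈ s}, fun i => ((Real.sqrt (c (e i) / M) : ℝ) : ℂ) • (e i).1, ?_, ?_⟩
  · have h1 : ∀ i, ‖((Real.sqrt (c (e i) / M) : ℝ) : ℂ) • (e i).1‖ ^ 2 = c (e i) * ‖(e i).1‖ ^ 2 / M := by
      intro i
      rw [norm_smul, mul_pow, Complex.norm_real, Real.norm_of_nonneg (Real.sqrt_nonneg _),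
        Real.sq_sqrt (div_nonneg (hc0 _) hM0.le)]
      ring
    rw [Finset.sum_congr rfl (fun i _ => h1 i), Equiv.sum_comp e (fun x => c x * ‖x.1‖ ^ 2 / M),
      ← Finset.sum_div, ← hM, div_self hM0.ne']
  · intro g g' hg hg' hcr
    have h1 : ∀ (g : H →L[ℂ] H) i, qf g (((Real.sqrt (c (e i) / M) : ℝ) : ℂ) • (e i).1) = c (e i) * qf g (e i).1 / M := by
      intro g i
      rw [P1_qf_smul, Real.sq_sqrt (div_nonneg (hc0 _) hM0.le)]
      ring
    have h2 : ∀ (g : H →L[ℂ] H) i, qf g (S (((Real.sqrt (c (e i) / M) : ℝ) : ℂ) • (e i).1)) =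
        c (e i) * qf g (S (e i).1) / M := by
      intro g i
      rw [map_smul, P1_qf_smul, Real.sq_sqrt (div_nonneg (hc0 _) hM0.le)]
      ring
    rw [Finset.sum_congr rfl (fun i _ => h1 g i), Finset.sum_congr rfl (fun i _ => h2 g' i),
      Equiv.sum_comp e (fun x => c x * qf g x.1 / M), Equiv.sum_comp e (fun x => c x * qf g' (S x.1) / M),
      ← Finset.sum_div, ← Finset.sum_div, ← mul_div_assoc]
    apply div_le_div_of_nonneg_right _ hM0.le
    have h3 : (fun x : {x // x ∈ s} => lam ^ 2 * qf g x.1 - qf g' (S x.1)) ∈ V :=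
      ⟨g, g', ⟨hg, hg', hcr⟩, fun x => rfl⟩
    have h4 := hf2 _ h3
    rw [hfv] at h4
    have h5 : ∑ x : {x // x ∈ s}, c x * (lam ^ 2 * qf g x.1 - qf g' (S x.1)) =
        lam ^ 2 * ∑ x : {x // x ∈ s}, c x * qf g x.1 - ∑ x : {x // x ∈ s}, c x * qf g' (S x.1) := by
      rw [Finset.mul_sum, ← Finset.sum_sub_distrib]
      apply Finset.sum_congr rfl
      intro x _
      ring
    rw [h5] at h4
    linarith

end Hop
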