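import Pool.Agent.Helper360.Hop.Defs
import Pool.Agent.Helper360.Hop.PotAux
import Pool.Agent.Helper360.Hop.Klemma
import Pool.Agent.Helper360.Hop.Groth
import Pool.Agent.Helper360.Hop.Cells
import Pool.Agent.Helper360.Hop.Growth
import Pool.Agent.Helper360.Hop.Sep
set_option maxHeartbeats 4000000

open scoped InnerProductSpace Topology ComplexConjugate
open Finset Filter

namespace Hop

variable {H : Type*} [NormedAddCommGroup H] [InnerProductSpace ℂ H] [CompleteSpace H]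

/-- block diagonal operators: norm bound -/
theorem pot_bdiag_norm {L : CSL H} {N : ℕ} {D : ℕ → (H →L[ℂ] H)} (hD : IsChn L N D)
    (X : ℕ → (H →L[ℂ] H)) (c : ℝ) (hX : ∀ k < N, ‖X k‖ ≤ c) :
    ‖∑ k ∈ range N, blk D k * X k * blk D k‖ ≤ |c| := by
  apply ContinuousLinearMap.opNorm_le_bound _ (abs_nonneg c)
  intro x
  rw [Finset.sum_range, _root_.sum_apply]
  have h1 : ‖∑ k : Fin N, (blk D k * X k * blk D k) x‖ ^ 2 =
      ∑ k : Fin N, ‖(blk D k * X k * blk D k) x‖ ^ 2 := by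
    apply pot_norm_sq_sum
    intro i j hij
    rw [mul_assoc, mul_assoc, mul_apply_eq_comp, mul_apply_eq_comp (blk D j)]
    exact pot_orth_inner (fun k : Fin N => blk D k) (fun k => blk_proj hD k)
      (fun i j hij => blk_mul_blk_of_ne hD (fun h => hij (Fin.ext h))) i j hij _ _
  have h2 : ∑ k : Fin N, ‖(blk D k * X k * blk D k) x‖ ^ 2 ≤
      ∑ k : Fin N, |c| ^ 2 * ‖blk D k x‖ ^ 2 := by
    apply Finset.sum_le_sum
    intro k _
    have h3 : ‖(blk D k * X k * blk D k) x‖ ≤ |c| * ‖blk D k x‖ := by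
      have h4 : ‖blk D k‖ ≤ 1 := (blk_proj hD k).norm_le
      have h5 : ‖X k‖ ≤ |c| := le_trans (hX k k.2) (le_abs_self c)
      calc ‖(blk D k * X k * blk D k) x‖ = ‖blk D k (X k (blk D k x))‖ := rfl
        _ ≤ ‖blk D k‖ * ‖X k (blk D k x)‖ := ContinuousLinearMap.le_opNorm _ _
        _ ≤ 1 * (‖X k‖ * ‖blk D k x‖) := by
            apply mul_le_mul h4 (ContinuousLinearMap.le_opNorm _ _) (norm_nonneg _) zero_le_one
        _ ≤ |c| * ‖blk D k x‖ := by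
            rw [one_mul]; exact mul_le_mul_of_nonneg_right h5 (norm_nonneg _)
    rw [← mul_pow]
    exact pow_le_pow_left₀ (norm_nonneg _) h3 2
  have h3 : ∑ k : Fin N, ‖blk D k x‖ ^ 2 ≤ ‖x‖ ^ 2 :=
    pot_sum_proj_le (fun k : Fin N => blk D k) (fun k => blk_proj hD k)
      (fun i j hij => blk_mul_blk_of_ne hD (fun h => hij (Fin.ext h))) x
  rw [← Finset.mul_sum] at h2
  have h4 : ‖∑ k : Fin N, (blk D k * X k * blk D k) x‖ ^ 2 ≤ (|c| * ‖x‖) ^ 2 := by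
    rw [mul_pow]
    calc _ ≤ |c| ^ 2 * ∑ k : Fin N, ‖blk D k x‖ ^ 2 := by rw [h1]; exact h2
      _ ≤ |c| ^ 2 * ‖x‖ ^ 2 := mul_le_mul_of_nonneg_left h3 (sq_nonneg _)
  exact (sq_le_sq₀ (norm_nonneg _) (by positivity)).mp h4

theorem pot_qf_cut (C : ℝ) (P : H →L[ℂ] H) (hP : IsStarProjection P) (x : H) :
    qf (1 + ((C - 1 : ℝ) : ℂ) • (1 - P)) x = ‖x‖ ^ 2 + (C - 1) * ‖(1 - P) x‖ ^ 2 := by
  have hQ : IsStarProjection (1 - P) := hP.one_sub
  have h4 : (1 - P).adjoint = 1 - P := hQ.isSelfAdjoint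
  have h1 : ⟪(1 - P) x, x⟫_ℂ = ((‖(1 - P) x‖ ^ 2 : ℝ) : ℂ) := by
    have h2 : (1 - P) x = (1 - P) ((1 - P) x) := by
      rw [← mul_apply_eq_comp, mul_self_proj hQ]
    calc ⟪(1 - P) x, x⟫_ℂ = ⟪(1 - P) ((1 - P) x), x⟫_ℂ := by rw [← h2]
      _ = ⟪(1 - P) x, (1 - P) x⟫_ℂ := by
          rw [← ContinuousLinearMap.adjoint_inner_right, h4]
      _ = _ := by rw [inner_self_eq_norm_sq_to_K]; norm_cast
  have h5 : ⟪x, x⟫_ℂ = ((‖x‖ ^ 2 : ℝ) : ℂ) := by rw [inner_self_eq_norm_sq_to_K]; norm_cast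
  unfold qf
  rw [add_apply, smul_apply, inner_add_left,
    inner_smul_left, h1, one_apply_eq_self, h5, Complex.conj_ofReal, ← Complex.ofReal_mul,
    ← Complex.ofReal_add, Complex.ofReal_re]

theorem pot_norm_proj_le {P : H →L[ℂ] H} (hP : IsStarProjection P) (x : H) : ‖P x‖ ≤ ‖x‖ := by
  calc ‖P x‖ ≤ ‖P‖ * ‖x‖ := P.le_opNorm x
    _ ≤ 1 * ‖x‖ := mul_le_mul_of_nonneg_right hP.norm_le (norm_nonneg _)
    _ = ‖x‖ := one_mul _

theorem pot_cut_pot (L : CSL H) (C : ℝ) (hC : 1 ≤ C) (P : H →L[ℂ] H) (hP : P ∈ L.carrier) :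
    Pot L C (1 + ((C - 1 : ℝ) : ℂ) • (1 - P)) := by
  have hPp := L.proj P hP
  have hQ : IsStarProjection (1 - P) := hPp.one_sub
  refine ⟨?_, ?_, ?_, ?_, ?_⟩
  · apply IsSelfAdjoint.add (IsSelfAdjoint.one _)
    apply IsSelfAdjoint.smul _ hQ.isSelfAdjoint
    exact Complex.conj_ofReal _
  · intro S hS
    have := hS P hP
    rw [mul_add, add_mul, mul_smul_comm, smul_mul_assoc, mul_sub, sub_mul, this]
    simp
  · intro x
    rw [pot_qf_cut C P hPp]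
    have : 0 ≤ (C - 1) * ‖(1 - P) x‖ ^ 2 := mul_nonneg (by linarith) (sq_nonneg _)
    linarith
  · intro x
    rw [pot_qf_cut C P hPp]
    have h1 : ‖(1 - P) x‖ ≤ ‖x‖ := pot_norm_proj_le hQ x
    have h2 : ‖(1 - P) x‖ ^ 2 ≤ ‖x‖ ^ 2 := pow_le_pow_left₀ (norm_nonneg _) h1 2
    nlinarith
  · intro S hS hS1 x
    rw [pot_qf_cut C P hPp, pot_qf_cut C P hPp]
    have h1 : ‖S x‖ ≤ ‖x‖ := by
      calc ‖S x‖ ≤ ‖S‖ * ‖x‖ := S.le_opNorm x
        _ ≤ 1 * ‖x‖ := mul_le_mul_of_nonneg_right hS1 (norm_nonneg _)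
        _ = ‖x‖ := one_mul _
    have h2 : (1 - P) (S x) = (1 - P) (S ((1 - P) x)) := by
      have h3 : (1 - P) * S = (1 - P) * (S * (1 - P)) := by
        have := hS P hP
        calc (1 - P) * S = (1 - P) * (S * (1 - P)) + (1 - P) * S * P := by noncomm_ring
          _ = _ := by rw [this, add_zero]
      have := congrArg (fun (Z : H →L[ℂ] H) => Z x) h3
      simpa using this
    have h3 : ‖(1 - P) (S x)‖ ≤ ‖(1 - P) x‖ := by
      rw [h2]
      calc ‖(1 - P) (S ((1 - P) x))‖ ≤ ‖S ((1 - P) x)‖ := pot_norm_proj_le hQ _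
        _ ≤ ‖S‖ * ‖(1 - P) x‖ := S.le_opNorm _
        _ ≤ 1 * ‖(1 - P) x‖ := mul_le_mul_of_nonneg_right hS1 (norm_nonneg _)
        _ = ‖(1 - P) x‖ := one_mul _
    have h4 : ‖S x‖ ^ 2 ≤ ‖x‖ ^ 2 := pow_le_pow_left₀ (norm_nonneg _) h1 2
    have h5 : ‖(1 - P) (S x)‖ ^ 2 ≤ ‖(1 - P) x‖ ^ 2 := pow_le_pow_left₀ (norm_nonneg _) h3 2
    have h6 : (C - 1) * ‖(1 - P) (S x)‖ ^ 2 ≤ (C - 1) * ‖(1 - P) x‖ ^ 2 :=
      mul_le_mul_of_nonneg_left h5 (by linarith)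
    linarith

theorem pot_cut_cross (L : CSL H) (C : ℝ) (hC : 1 ≤ C) (P A : H →L[ℂ] H) (hP : P ∈ L.carrier)
    (hA : A ∈ L.carrier) (R : H →L[ℂ] H) (hR1 : ‖R‖ ≤ 1) (hR : (1 - P) * R * A = 0) (x : H) :
    qf (1 + ((C - 1 : ℝ) : ℂ) • (1 - P)) (R x) ≤ qf (1 + ((C - 1 : ℝ) : ℂ) • (1 - A)) x := by
  have hPp := L.proj P hP
  have hQ : IsStarProjection (1 - P) := hPp.one_sub
  rw [pot_qf_cut C P hPp, pot_qf_cut C A (L.proj A hA)]
  have h1 : ‖R x‖ ≤ ‖x‖ := by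
    calc ‖R x‖ ≤ ‖R‖ * ‖x‖ := R.le_opNorm x
      _ ≤ 1 * ‖x‖ := mul_le_mul_of_nonneg_right hR1 (norm_nonneg _)
      _ = ‖x‖ := one_mul _
  have h2 : (1 - P) (R x) = (1 - P) (R ((1 - A) x)) := by
    have h3 : (1 - P) * R = (1 - P) * (R * (1 - A)) := by
      calc (1 - P) * R = (1 - P) * (R * (1 - A)) + (1 - P) * R * A := by noncomm_ring
        _ = _ := by rw [hR, add_zero]
    have := congrArg (fun (Z : H →L[ℂ] H) => Z x) h3
    simpa using this
  have h3 : ‖(1 - P) (R x)‖ ≤ ‖(1 - A) x‖ := by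
    rw [h2]
    calc ‖(1 - P) (R ((1 - A) x))‖ ≤ ‖R ((1 - A) x)‖ := pot_norm_proj_le hQ _
      _ ≤ ‖R‖ * ‖(1 - A) x‖ := R.le_opNorm _
      _ ≤ 1 * ‖(1 - A) x‖ := mul_le_mul_of_nonneg_right hR1 (norm_nonneg _)
      _ = ‖(1 - A) x‖ := one_mul _
  have h4 : ‖R x‖ ^ 2 ≤ ‖x‖ ^ 2 := pow_le_pow_left₀ (norm_nonneg _) h1 2
  have h5 : ‖(1 - P) (R x)‖ ^ 2 ≤ ‖(1 - A) x‖ ^ 2 := pow_le_pow_left₀ (norm_nonneg _) h3 2
  have h6 : (C - 1) * ‖(1 - P) (R x)‖ ^ 2 ≤ (C - 1) * ‖(1 - A) x‖ ^ 2 :=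
    mul_le_mul_of_nonneg_left h5 (by linarith)
  linarith

/-- `∑ t_l P_l ± (1 - ∑ P_l)` -/
theorem pot_unitary (L : CSL H) {M : ℕ} (P : Fin M → (H →L[ℂ] H))
    (hP : ∀ j, IsStarProjection (P j)) (hPC : ∀ j, P j ∈ ComL L)
    (hPP : ∀ i j, i ≠ j → P i * P j = 0) (t : Fin M → ℂ) (ht : ∀ j, ‖t j‖ = 1) (c : ℂ)
    (hc : c = 1 ∨ c = -1) :
    (∑ j, t j • P j + c • (1 - ∑ j, P j)) ∈ ComL L ∧
    star (∑ j, t j • P j + c • (1 - ∑ j, P j)) * (∑ j, t j • P j + c • (1 - ∑ j, P j)) = 1 ∧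
    (∑ j, t j • P j + c • (1 - ∑ j, P j)) * star (∑ j, t j • P j + c • (1 - ∑ j, P j)) = 1 := by
  have hcc : conj c * c = 1 := by rcases hc with h | h <;> simp [h]
  have htt : ∀ j, conj (t j) * t j = 1 := by
    intro j
    rw [← Complex.normSq_eq_conj_mul_self, Complex.normSq_eq_norm_sq, ht j]; simp
  have hstar : star (∑ j, t j • P j + c • (1 - ∑ j, P j)) =
      ∑ j, conj (t j) • P j + conj c • (1 - ∑ j, P j) := by
    rw [star_add, star_sum, star_smul, star_sub, star_one, star_sum]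
    have h1 : ∀ j, star (P j) = P j := fun j => star_proj (hP j)
    simp only [star_smul, h1]
    rfl
  have hPj : ∀ j, P j * P j = P j := fun j => mul_self_proj (hP j)
  have hmul : ∀ (α β : Fin M → ℂ), (∑ j, α j • P j) * (∑ j, β j • P j) =
      ∑ j, (α j * β j) • P j := by
    intro α β
    rw [Finset.sum_mul]
    apply Finset.sum_congr rfl
    intro i _
    rw [Finset.mul_sum, Finset.sum_eq_single i]
    · rw [smul_mul_smul_comm, hPj]
    · intro j _ hji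
      rw [smul_mul_smul_comm, hPP i j (Ne.symm hji), smul_zero]
    · intro hi; exact absurd (Finset.mem_univ i) hi
  have h1 : ∀ (α : Fin M → ℂ), (∑ j, α j • P j) * (1 - ∑ j, P j) = 0 := by
    intro α
    have := hmul α (fun _ => 1)
    simp only [one_smul, mul_one] at this
    rw [mul_sub, mul_one, this, sub_self]
  have h2 : ∀ (α : Fin M → ℂ), (1 - ∑ j, P j) * (∑ j, α j • P j) = 0 := by
    intro α
    have := hmul (fun _ => 1) α
    simp only [one_smul, one_mul] at this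
    rw [sub_mul, one_mul, this, sub_self]
  have h3 : (1 - ∑ j, P j) * (1 - ∑ j, P j) = 1 - ∑ j, P j := by
    have := h1 (fun _ => 1)
    simp only [one_smul] at this
    rw [sub_mul, one_mul, this, sub_zero]
  have h4 : ∀ (α β : Fin M → ℂ) (c d : ℂ), (∀ j, α j * β j = 1) → c * d = 1 →
      (∑ j, α j • P j + c • (1 - ∑ j, P j)) * (∑ j, β j • P j + d • (1 - ∑ j, P j)) = 1 := by
    intro α β c d hαβ hcd
    rw [add_mul, mul_add, mul_add, hmul, smul_mul_smul_comm, h3, hcd, smul_mul_assoc, h2,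
      mul_smul_comm, h1]
    simp [hαβ]
  refine ⟨?_, ?_, ?_⟩
  · apply ComL_add
    · intro Q hQ
      rw [Finset.mul_sum, Finset.sum_mul]
      apply Finset.sum_congr rfl
      intro j _
      rw [mul_smul_comm, smul_mul_assoc, hPC j Q hQ]
    · apply ComL_smul
      apply ComL_sub _ (ComL_one L)
      intro Q hQ
      rw [Finset.mul_sum, Finset.sum_mul]
      apply Finset.sum_congr rfl
      intro j _
      rw [hPC j Q hQ]
  · rw [hstar]
    exact h4 _ _ _ _ htt hcc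
  · rw [hstar]
    exact h4 _ _ _ _ (fun j => by rw [mul_comm]; exact htt j) (by rw [mul_comm]; exact hcc)

theorem pot_groth (L : CSL H) (T : H →L[ℂ] H) {M M' : ℕ} (P : Fin M → (H →L[ℂ] H))
    (hP : ∀ j, IsStarProjection (P j)) (hPC : ∀ j, P j ∈ ComL L)
    (hPP : ∀ i j, i ≠ j → P i * P j = 0)
    (P' : Fin M' → (H →L[ℂ] H))
    (hP' : ∀ j, IsStarProjection (P' j)) (hPC' : ∀ j, P' j ∈ ComL L)
    (hPP' : ∀ i j, i ≠ j → P' i * P' j = 0)
    (p : ℕ) (u : Fin M → EuclideanSpace ℂ (Fin p)) (v : Fin M' → EuclideanSpace ℂ (Fin p))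
    (hu : ∀ j, ‖u j‖ ≤ 1) (hv : ∀ i, ‖v i‖ ≤ 1) (b : H →L[ℂ] H) :
    b * (∑ l, ∑ j, ((1 / 96 : ℂ) * ⟪v l, u j⟫_ℂ) • (P' l * T * P j)) * b ∈
      closure (convexHull ℝ
      {X : H →L[ℂ] H | ∃ u ∈ ComL L, ∃ v ∈ ComL L, star u * u = 1 ∧ u * star u = 1 ∧
        star v * v = 1 ∧ v * star v = 1 ∧ X = b * (star u * T * v) * b}) := by
  classical
  set 𝒳 : Set (H →L[ℂ] H) :=
    {X : H →L[ℂ] H | ∃ u ∈ ComL L, ∃ v ∈ ComL L, star u * u = 1 ∧ u * star u = 1 ∧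
        star v * v = 1 ∧ v * star v = 1 ∧ X = b * (star u * T * v) * b} with h𝒳
  -- the linear map
  let Θ : (Fin M' → Fin M → ℂ) →ₗ[ℝ] (H →L[ℂ] H) :=
    { toFun := fun m => ∑ l, ∑ j, ((1 / 96 : ℂ) * m l j) • (b * (P' l * T * P j) * b)
      map_add' := by
        intro m n
        rw [← Finset.sum_add_distrib]
        apply Finset.sum_congr rfl
        intro l _
        rw [← Finset.sum_add_distrib]
        apply Finset.sum_congr rfl
        intro j _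
        rw [← add_smul]
        congr 1
        simp only [Pi.add_apply]
        ring
      map_smul' := by
        intro r m
        simp only [RingHom.id_apply]
        rw [Finset.smul_sum]
        apply Finset.sum_congr rfl
        intro l _
        rw [Finset.smul_sum]
        apply Finset.sum_congr rfl
        intro j _
        simp only [Pi.smul_apply]
        rw [← Complex.coe_smul r, ← Complex.coe_smul r, smul_smul]
        congr 1
        simp only [smul_eq_mul]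
        ring }
  have hΘc : Continuous Θ := LinearMap.continuous_of_finiteDimensional Θ
  have hΘ : b * (∑ l, ∑ j, ((1 / 96 : ℂ) * ⟪v l, u j⟫_ℂ) • (P' l * T * P j)) * b =
      Θ (fun i j => ⟪v i, u j⟫_ℂ) := by
    change _ = ∑ l, ∑ j, ((1 / 96 : ℂ) * ⟪v l, u j⟫_ℂ) • (b * (P' l * T * P j) * b)
    rw [Finset.mul_sum, Finset.sum_mul]
    apply Finset.sum_congr rfl
    intro l _
    rw [Finset.mul_sum, Finset.sum_mul]
    apply Finset.sum_congr rfl
    intro j _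
    rw [mul_smul_comm, smul_mul_assoc]
  rw [hΘ]
  have hG := grothendieck p u v hu hv
  set 𝒦 := {m : Fin M' → Fin M → ℂ | ∃ (s : Fin M → ℂ) (t : Fin M' → ℂ), (∀ j, ‖s j‖ = 1) ∧
    (∀ i, ‖t i‖ = 1) ∧ m = fun i j => 96 * (conj (t i) * s j)} with h𝒦
  have h1 : Θ '' 𝒦 ⊆ convexHull ℝ 𝒳 := by
    rintro _ ⟨m, ⟨s, t, hs, ht, rfl⟩, rfl⟩
    obtain ⟨hu1, hu2, hu3⟩ := pot_unitary L P' hP' hPC' hPP' t ht 1 (Or.inl rfl)
    obtain ⟨hu1', hu2', hu3'⟩ := pot_unitary L P' hP' hPC' hPP' t ht (-1) (Or.inr rfl)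
    obtain ⟨hv1, hv2, hv3⟩ := pot_unitary L P hP hPC hPP s hs 1 (Or.inl rfl)
    obtain ⟨hv1', hv2', hv3'⟩ := pot_unitary L P hP hPC hPP s hs (-1) (Or.inr rfl)
    set U1 := ∑ j, t j • P' j + (1 : ℂ) • (1 - ∑ j, P' j) with hU1
    set U2 := ∑ j, t j • P' j + (-1 : ℂ) • (1 - ∑ j, P' j) with hU2
    set V1 := ∑ j, s j • P j + (1 : ℂ) • (1 - ∑ j, P j) with hV1
    set V2 := ∑ j, s j • P j + (-1 : ℂ) • (1 - ∑ j, P j) with hV2
    have hmem : ∀ (U V : H →L[ℂ] H), U ∈ ComL L → V ∈ ComL L → star U * U = 1 → U * star U = 1 →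
        star V * V = 1 → V * star V = 1 → b * (star U * T * V) * b ∈ convexHull ℝ 𝒳 := by
      intro U V hU hV h1 h2 h3 h4
      exact subset_convexHull ℝ _ ⟨U, hU, V, hV, h1, h2, h3, h4, rfl⟩
    have hconv : Convex ℝ (convexHull ℝ 𝒳) := convex_convexHull ℝ _
    have hm1 := hmem U1 V1 hu1 hv1 hu2 hu3 hv2 hv3
    have hm2 := hmem U1 V2 hu1 hv1' hu2 hu3 hv2' hv3'
    have hm3 := hmem U2 V1 hu1' hv1 hu2' hu3' hv2 hv3
    have hm4 := hmem U2 V2 hu1' hv1' hu2' hu3' hv2' hv3'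
    have hm12 := hconv hm1 hm2 (by norm_num : (0:ℝ) ≤ 1/2) (by norm_num : (0:ℝ) ≤ 1/2) (by norm_num)
    have hm34 := hconv hm3 hm4 (by norm_num : (0:ℝ) ≤ 1/2) (by norm_num : (0:ℝ) ≤ 1/2) (by norm_num)
    have hm := hconv hm12 hm34 (by norm_num : (0:ℝ) ≤ 1/2) (by norm_num : (0:ℝ) ≤ 1/2) (by norm_num)
    have hU12 : (1 / 2 : ℝ) • (star U1 + star U2) = ∑ j, conj (t j) • P' j := by
      have hstar : ∀ c : ℂ, star (∑ j, t j • P' j + c • (1 - ∑ j, P' j)) =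
          ∑ j, conj (t j) • P' j + conj c • (1 - ∑ j, P' j) := by
        intro c
        rw [star_add, star_sum, star_smul, star_sub, star_one, star_sum]
        have h1 : ∀ j, star (P' j) = P' j := fun j => star_proj (hP' j)
        simp only [star_smul, h1]
        rfl
      rw [hU1, hU2, hstar, hstar, ← Complex.coe_smul]
      simp only [map_one, map_neg, one_smul, neg_smul]
      rw [show ∀ a c : H →L[ℂ] H, a + c + (a + -c) = (2 : ℂ) • a from fun a c => by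
        rw [two_smul]; abel, smul_smul]
      norm_num
    have hV12 : (1 / 2 : ℝ) • (V1 + V2) = ∑ j, s j • P j := by
      rw [hV1, hV2, ← Complex.coe_smul]
      simp only [one_smul, neg_smul]
      rw [show ∀ a c : H →L[ℂ] H, a + c + (a + -c) = (2 : ℂ) • a from fun a c => by
        rw [two_smul]; abel, smul_smul]
      norm_num
    have hfin : Θ (fun i j => 96 * (conj (t i) * s j)) =
        (1 / 2 : ℝ) • ((1 / 2 : ℝ) • (b * (star U1 * T * V1) * b) +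
          (1 / 2 : ℝ) • (b * (star U1 * T * V2) * b)) +
        (1 / 2 : ℝ) • ((1 / 2 : ℝ) • (b * (star U2 * T * V1) * b) +
          (1 / 2 : ℝ) • (b * (star U2 * T * V2) * b)) := by
      have e1 : Θ (fun i j => 96 * (conj (t i) * s j)) =
          b * ((∑ j, conj (t j) • P' j) * T * (∑ j, s j • P j)) * b := by
        change ∑ l, ∑ j, ((1 / 96 : ℂ) * (96 * (conj (t l) * s j))) •
          (b * (P' l * T * P j) * b) = _
        rw [Finset.sum_mul, Finset.sum_mul, Finset.mul_sum, Finset.sum_mul]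
        apply Finset.sum_congr rfl
        intro l _
        rw [Finset.mul_sum, Finset.mul_sum, Finset.sum_mul]
        apply Finset.sum_congr rfl
        intro j _
        rw [smul_mul_assoc, smul_mul_smul_comm, mul_smul_comm, smul_mul_assoc]
        congr 1
        ring
      rw [e1, ← hU12, ← hV12]
      simp only [smul_mul_assoc, mul_smul_comm, smul_smul, smul_add, mul_add, add_mul]
      abel
    rw [hfin]
    exact hm
  have h2 : Θ '' (closure (convexHull ℝ 𝒦)) ⊆ closure (convexHull ℝ 𝒳) := by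
    refine (image_closure_subset_closure_image hΘc).trans ?_
    apply closure_mono
    rw [LinearMap.image_convexHull]
    exact convexHull_min h1 (convex_convexHull ℝ _)
  exact h2 ⟨_, hG, rfl⟩

theorem pot_KK_inf (L : CSL H) {X : Set (H →L[ℂ] H)} {D A D' A' : H →L[ℂ] H}
    (hD : D ∈ L.carrier) (hA : A ∈ L.carrier) (hA' : A' ∈ L.carrier)
    (h : ∀ R ∈ X, (1 - D) * R * A = 0) (h' : ∀ R ∈ X, (1 - D') * R * A' = 0) :
    ∀ R ∈ X, (1 - D * D') * R * (A * A') = 0 := by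
  intro R hR
  have h1 := h R hR
  have h2 := h' R hR
  have h3 := L.comm A hA A' hA'
  calc (1 - D * D') * R * (A * A') = ((1 - D) * R * A) * A' + D * ((1 - D') * R * (A * A')) := by
        noncomm_ring
    _ = ((1 - D) * R * A) * A' + D * (((1 - D') * R * A') * A) := by rw [h3]; noncomm_ring
    _ = 0 := by rw [h1, h2]; simp

theorem pot_KK_sup (L : CSL H) {X : Set (H →L[ℂ] H)} {D A D' A' : H →L[ℂ] H}
    (hD : D ∈ L.carrier) (hD' : D' ∈ L.carrier)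
    (h : ∀ R ∈ X, (1 - D) * R * A = 0) (h' : ∀ R ∈ X, (1 - D') * R * A' = 0) :
    ∀ R ∈ X, (1 - (D + D' - D * D')) * R * (A + A' - A * A') = 0 := by
  intro R hR
  have h1 := h R hR
  have h2 := h' R hR
  have h3 := L.comm D hD D' hD'
  calc (1 - (D + D' - D * D')) * R * (A + A' - A * A')
      = (1 - (D + D' - D' * D)) * R * (A + A' - A * A') := by rw [← h3]
    _ = (1 - D') * ((1 - D) * R * A) + (1 - (D + D' - D' * D)) * R * A'
        - (1 - D') * ((1 - D) * R * A) * A' := by noncomm_ring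
    _ = (1 - D') * ((1 - D) * R * A) + (1 - (D + D' - D * D')) * R * A'
        - (1 - D') * ((1 - D) * R * A) * A' := by rw [← h3]
    _ = (1 - D') * ((1 - D) * R * A) + (1 - D) * ((1 - D') * R * A')
        - (1 - D') * ((1 - D) * R * A) * A' := by noncomm_ring
    _ = 0 := by rw [h1, h2]; simp

theorem pot_cross_of_KK {L : CSL H} {N : ℕ} {D : ℕ → (H →L[ℂ] H)} (hD : IsChn L N D)
    (K : H →L[ℂ] H)
    (hK : ∀ P A : H →L[ℂ] H, P ∈ L.carrier → A ∈ L.carrier →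
      (∀ R ∈ Cross L N D, (1 - P) * R * A = 0) → (1 - P) * K * A = 0) : K ∈ Cross L N D := by
  have hA : K ∈ AlgL L := fun P hP => hK P P hP hP (fun R hR => hR.1 P hP)
  refine ⟨hA, ?_⟩
  intro k hk
  have hkk : ∀ R ∈ Cross L N D, (1 - D k) * R * D (k + 1) = 0 := by
    intro R hR
    have h1 := hR.2 k hk
    have h2 := hR.1 (D k) (hD.mem k)
    have h3 := hR.1 (D (k + 1)) (hD.mem (k + 1))
    have h4 : D (k + 1) * D k = D k := chn_mul' hD (Nat.le_succ k)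
    have h5 : D k * D (k + 1) = D k := hD.mono k
    have h6 := mul_self_proj (L.proj _ (hD.mem (k + 1)))
    have h7 : blk D k * R * blk D k = (1 - D k) * R * D (k + 1) := by
      unfold blk
      have e1 : D (k + 1) * R * D (k + 1) = R * D (k + 1) := by
        have := (AlgL_iff L R).mp hR.1 (D (k + 1)) (hD.mem _)
        exact this.symm
      have e2 : D k * R * D k = R * D k := ((AlgL_iff L R).mp hR.1 (D k) (hD.mem _)).symm
      have e3 : D (k + 1) * R * D k = R * D k := by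
        calc D (k + 1) * R * D k = D (k + 1) * (R * D k) := by rw [mul_assoc]
          _ = D (k + 1) * (D k * R * D k) := by rw [e2]
          _ = (D (k + 1) * D k) * R * D k := by noncomm_ring
          _ = R * D k := by rw [h4, e2]
      calc (D (k + 1) - D k) * R * (D (k + 1) - D k)
          = D (k + 1) * R * D (k + 1) - D (k + 1) * R * D k - D k * R * D (k + 1) +
            D k * R * D k := by noncomm_ring
        _ = R * D (k + 1) - R * D k - D k * R * D (k + 1) + R * D k := by rw [e1, e2, e3]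
        _ = (1 - D k) * R * D (k + 1) := by noncomm_ring
    rw [← h7]; exact h1
  have h1 := hK (D k) (D (k + 1)) (hD.mem _) (hD.mem _) hkk
  have h4 : D (k + 1) * D k = D k := chn_mul' hD (Nat.le_succ k)
  have h5 : D k * D (k + 1) = D k := hD.mono k
  have e1 : blk D k = D (k + 1) * (1 - D k) := by
    unfold blk; rw [mul_sub, h4, mul_one]
  have e2 : blk D k = D (k + 1) * (1 - D k) := e1
  calc blk D k * K * blk D k = (D (k + 1) * (1 - D k)) * K * (D (k + 1) * (1 - D k)) := by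
        rw [← e1]
    _ = D (k + 1) * ((1 - D k) * K * D (k + 1)) * (1 - D k) := by noncomm_ring
    _ = 0 := by rw [h1]; simp

theorem pot_sq_close (s t τ : ℝ) (hs0 : 0 ≤ s) (hs : s ≤ 1) (ht : 0 ≤ t) (hτ : 0 ≤ τ)
    (h : s ≤ t + τ) : s ^ 2 ≤ t ^ 2 + 2 * τ := by
  by_cases hst : s ≤ t
  · have : s ^ 2 ≤ t ^ 2 := pow_le_pow_left₀ hs0 hst 2
    linarith
  · push Not at hst
    nlinarith

theorem pot_vec_norm {M : ℕ} (f : Fin M → H) (P : Fin M → (H →L[ℂ] H))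
    (hP : ∀ j, IsStarProjection (P j)) (hPP : ∀ i j, i ≠ j → P i * P j = 0)
    (hPf : ∀ j, P j (f j) = f j) (X : H →L[ℂ] H) (hX : ∀ j, X * P j = P j * X)
    {p : ℕ} (c : Fin p → Fin M → ℂ) (u : Fin M → EuclideanSpace ℂ (Fin p))
    (hu : ∀ j i, u j i = c i j) :
    ‖X (∑ j, ((‖u j‖ : ℝ) : ℂ) • f j)‖ ^ 2 = ∑ i, ‖X (∑ j, c i j • f j)‖ ^ 2 := by
  rw [pot_norm_cells f P hP hPP hPf X hX,
    Finset.sum_congr rfl (fun i _ => pot_norm_cells f P hP hPP hPf X hX (c i)), Finset.sum_comm]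
  apply Finset.sum_congr rfl
  intro j _
  rw [Complex.norm_real, norm_norm, EuclideanSpace.norm_sq_eq, Finset.sum_mul]
  apply Finset.sum_congr rfl
  intro i _
  rw [hu]

theorem pot_M_sum {L : CSL H} {N : ℕ} {D : ℕ → (H →L[ℂ] H)} (hD : IsChn L N D) (T : H →L[ℂ] H)
    {M M' : ℕ} (P : Fin M → (H →L[ℂ] H)) (hPC : ∀ j, P j ∈ ComL L)
    (P' : Fin M' → (H →L[ℂ] H)) (hPC' : ∀ j, P' j ∈ ComL L) (κ : Fin M' → Fin M → ℂ) :
    ∑ k ∈ range N, blk D k * (∑ l, ∑ j, κ l j • (P' l * T * P j)) * blk D k =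
      ∑ l, ∑ j, κ l j • (P' l * bdiag N D T * P j) := by
  have h1 : ∀ k l j, blk D k * (P' l * T * P j) * blk D k =
      P' l * (blk D k * T * blk D k) * P j := by
    intro k l j
    have e1 := blk_mem_BiComL hD k (P' l) (hPC' l)
    have e2 := blk_mem_BiComL hD k (P j) (hPC j)
    calc blk D k * (P' l * T * P j) * blk D k = (blk D k * P' l) * T * (P j * blk D k) := by
          noncomm_ring
      _ = (P' l * blk D k) * T * (blk D k * P j) := by rw [← e1, e2]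
      _ = _ := by noncomm_ring
  calc ∑ k ∈ range N, blk D k * (∑ l, ∑ j, κ l j • (P' l * T * P j)) * blk D k
      = ∑ k ∈ range N, ∑ l, ∑ j, κ l j • (P' l * (blk D k * T * blk D k) * P j) := by
        apply Finset.sum_congr rfl
        intro k _
        rw [Finset.mul_sum, Finset.sum_mul]
        apply Finset.sum_congr rfl
        intro l _
        rw [Finset.mul_sum, Finset.sum_mul]
        apply Finset.sum_congr rfl
        intro j _
        rw [mul_smul_comm, smul_mul_assoc, h1]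
    _ = ∑ l, ∑ j, κ l j • (P' l * bdiag N D T * P j) := by
        rw [Finset.sum_comm]
        apply Finset.sum_congr rfl
        intro l _
        rw [Finset.sum_comm]
        apply Finset.sum_congr rfl
        intro j _
        rw [bdiag, Finset.mul_sum, Finset.sum_mul, Finset.smul_sum]

theorem pot_A_bound (K M : H →L[ℂ] H) (B ε lam B' : ℝ) (hK : ‖K‖ ≤ 1) (hM : ‖M‖ ≤ 1)
    (h : ∀ m : ℕ, ‖(M * K) ^ m‖ ≤ B * ε ^ m) (hB : 0 < B) (hε : 0 < ε) (hlam : lam = 192 * ε)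
    (hB' : B' = B / ε + 1) (m : ℕ) : ‖(K * ((96 : ℂ) • M)) ^ m‖ ≤ B' * (lam / 2) ^ m := by
  have hBε : 0 < B / ε := div_pos hB hε
  cases m with
  | zero =>
    simp only [pow_zero, mul_one]
    have : ‖(1 : H →L[ℂ] H)‖ ≤ 1 := ContinuousLinearMap.norm_id_le
    linarith
  | succ n =>
    have h1 : (K * ((96 : ℂ) • M)) ^ (n + 1) = ((96 : ℂ) ^ (n + 1)) • (K * (M * K) ^ n * M) := by
      have h2 : ∀ n : ℕ, (K * M) ^ (n + 1) = K * (M * K) ^ n * M := by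
        intro n
        induction n with
        | zero => simp
        | succ n ih => rw [pow_succ, ih, pow_succ (M * K)]; noncomm_ring
      rw [mul_smul_comm, smul_pow, h2]
    have h3 : ‖K * (M * K) ^ n * M‖ ≤ B * ε ^ n := by
      calc ‖K * (M * K) ^ n * M‖ ≤ ‖K * (M * K) ^ n‖ * ‖M‖ := norm_mul_le _ _
        _ ≤ (‖K‖ * ‖(M * K) ^ n‖) * ‖M‖ := mul_le_mul_of_nonneg_right (norm_mul_le _ _) (norm_nonneg _)
        _ ≤ (1 * (B * ε ^ n)) * 1 := by
            apply mul_le_mul _ hM (norm_nonneg _) (by positivity)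
            exact mul_le_mul hK (h n) (norm_nonneg _) zero_le_one
        _ = B * ε ^ n := by ring
    rw [h1, norm_smul, norm_pow]
    have h4 : ‖(96 : ℂ)‖ = 96 := by norm_num
    rw [h4]
    calc (96 : ℝ) ^ (n + 1) * ‖K * (M * K) ^ n * M‖ ≤ (96 : ℝ) ^ (n + 1) * (B * ε ^ n) :=
          mul_le_mul_of_nonneg_left h3 (by positivity)
      _ = (B / ε) * (96 * ε) ^ (n + 1) := by
          rw [mul_pow, pow_succ ε]; field_simp
      _ ≤ B' * (lam / 2) ^ (n + 1) := by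
          rw [hlam, show 192 * ε / 2 = 96 * ε by ring]
          apply mul_le_mul_of_nonneg_right _ (by positivity)
          linarith

theorem pot_err {M M' : ℕ} (f : Fin M → H) (P : Fin M → (H →L[ℂ] H))
    (hPP : ∀ i j, i ≠ j → P i * P j = 0)
    (hPf : ∀ j, P j (f j) = f j)
    (f' : Fin M' → H) (P' : Fin M' → (H →L[ℂ] H))
    (hP' : ∀ j, IsStarProjection (P' j)) (hPP' : ∀ i j, i ≠ j → P' i * P' j = 0)
    (hPf' : ∀ j, P' j (f' j) = f' j) (S : H →L[ℂ] H) {p : ℕ}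
    (c : Fin p → Fin M → ℂ) (u uh : Fin M → EuclideanSpace ℂ (Fin p))
    (hu : ∀ j i, u j i = c i j) (huh : ∀ j, ((‖u j‖ : ℝ) : ℂ) • uh j = u j)
    (c' : Fin p → Fin M' → ℂ) (v vh : Fin M' → EuclideanSpace ℂ (Fin p))
    (hv : ∀ j i, v j i = c' i j) (hvh : ∀ j, ⟪vh j, v j⟫_ℂ = ((‖v j‖ : ℝ) : ℂ))
    (hvh1 : ∀ j, ‖vh j‖ ≤ 1) (τ : ℝ)
    (hy : ∀ i, ‖S (∑ j, c i j • f j) - ∑ l, c' i l • f' l‖ ≤ τ) :
    ‖(∑ l, ∑ j, ⟪vh l, uh j⟫_ℂ • (P' l * S * P j)) (∑ j, ((‖u j‖ : ℝ) : ℂ) • f j)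
      - ∑ l, ((‖v l‖ : ℝ) : ℂ) • f' l‖ ≤ p * τ := by
  set b := ∑ j, ((‖u j‖ : ℝ) : ℂ) • f j with hb
  have hPb : ∀ j, P j b = ((‖u j‖ : ℝ) : ℂ) • f j := by
    intro j
    rw [hb, map_sum, Finset.sum_eq_single j]
    · rw [map_smul, hPf]
    · intro i _ hij
      rw [map_smul, ← hPf i, ← mul_apply_eq_comp, hPP j i (Ne.symm hij)]; simp
    · intro h; exact absurd (Finset.mem_univ j) h
  have hinner : ∀ (w z : EuclideanSpace ℂ (Fin p)), ⟪w, z⟫_ℂ = ∑ i, conj (w i) * z i := by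
    intro w z
    rw [PiLp.inner_apply]
    apply Finset.sum_congr rfl
    intro i _
    rw [RCLike.inner_apply, mul_comm]
  have h1 : (∑ l, ∑ j, ⟪vh l, uh j⟫_ℂ • (P' l * S * P j)) b =
      ∑ i, ∑ l, conj (vh l i) • P' l (S (∑ j, c i j • f j)) := by
    rw [_root_.sum_apply, Finset.sum_comm]
    apply Finset.sum_congr rfl
    intro l _
    rw [_root_.sum_apply]
    have h2 : ∀ j, (⟪vh l, uh j⟫_ℂ • (P' l * S * P j)) b =
        (⟪vh l, u j⟫_ℂ) • P' l (S (f j)) := by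
      intro j
      have e1 : (P' l * S * P j) b = P' l (S (P j b)) := rfl
      rw [_root_.smul_apply, e1, hPb j, map_smul, map_smul, smul_smul]
      congr 1
      rw [← huh j, inner_smul_right, mul_comm]
      congr 1
      rw [huh j]
    rw [Finset.sum_congr rfl (fun j _ => h2 j)]
    have h3 : ∀ i, conj (vh l i) • P' l (S (∑ j, c i j • f j)) =
        ∑ j, (conj (vh l i) * c i j) • P' l (S (f j)) := by
      intro i
      rw [map_sum, map_sum, Finset.smul_sum]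
      apply Finset.sum_congr rfl
      intro j _
      rw [map_smul, map_smul, smul_smul]
    rw [Finset.sum_congr rfl (fun i _ => h3 i), Finset.sum_comm]
    apply Finset.sum_congr rfl
    intro j _
    rw [hinner, Finset.sum_smul]
    apply Finset.sum_congr rfl
    intro i _
    rw [hu]
  have h2 : ∑ l, ((‖v l‖ : ℝ) : ℂ) • f' l =
      ∑ i, ∑ l, conj (vh l i) • P' l (∑ l, c' i l • f' l) := by
    have hP'y : ∀ i l, P' l (∑ l, c' i l • f' l) = c' i l • f' l := by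
      intro i l
      rw [map_sum, Finset.sum_eq_single l]
      · rw [map_smul, hPf']
      · intro j _ hij
        rw [map_smul, ← hPf' j, ← mul_apply_eq_comp, hPP' l j (Ne.symm hij)]; simp
      · intro h; exact absurd (Finset.mem_univ l) h
    rw [Finset.sum_comm]
    apply Finset.sum_congr rfl
    intro l _
    rw [← hvh l, hinner, Finset.sum_smul]
    apply Finset.sum_congr rfl
    intro i _
    rw [hP'y, smul_smul, hv]
  rw [h1, h2, ← Finset.sum_sub_distrib]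
  have h3 : ∀ i, ‖∑ l, conj (vh l i) • P' l (S (∑ j, c i j • f j)) -
      ∑ l, conj (vh l i) • P' l (∑ l, c' i l • f' l)‖ ≤ τ := by
    intro i
    rw [← Finset.sum_sub_distrib]
    have e1 : ∀ l, conj (vh l i) • P' l (S (∑ j, c i j • f j)) -
        conj (vh l i) • P' l (∑ l, c' i l • f' l) =
        conj (vh l i) • P' l (S (∑ j, c i j • f j) - ∑ l, c' i l • f' l) := by
      intro l
      rw [map_sub, smul_sub]
    rw [Finset.sum_congr rfl (fun l _ => e1 l)]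
    refine le_trans (pot_norm_comb_le P' hP' hPP' _ ?_ _) (hy i)
    intro l
    rw [RCLike.norm_conj]
    exact le_trans (PiLp.norm_apply_le (vh l) i) (hvh1 l)
  calc ‖∑ i, (∑ l, conj (vh l i) • P' l (S (∑ j, c i j • f j)) -
      ∑ l, conj (vh l i) • P' l (∑ l, c' i l • f' l))‖ ≤ ∑ i : Fin p, τ :=
        le_trans (norm_sum_le _ _) (Finset.sum_le_sum fun i _ => h3 i)
    _ = p * τ := by simp

/-- normalising a vector -/
theorem pot_normalise {p : ℕ} (u : EuclideanSpace ℂ (Fin p)) :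
    ∃ uh : EuclideanSpace ℂ (Fin p), ‖uh‖ ≤ 1 ∧ ((‖u‖ : ℝ) : ℂ) • uh = u ∧
      ⟪uh, u⟫_ℂ = ((‖u‖ : ℝ) : ℂ) := by
  by_cases h : u = 0
  · exact ⟨0, by simp, by simp [h], by simp [h]⟩
  · have hn : (0 : ℝ) < ‖u‖ := norm_pos_iff.mpr h
    have hnc : ((‖u‖ : ℝ) : ℂ) ≠ 0 := by exact_mod_cast hn.ne'
    refine ⟨(((‖u‖ : ℝ) : ℂ))⁻¹ • u, ?_, ?_, ?_⟩
    · rw [norm_smul, norm_inv, Complex.norm_real, norm_norm, inv_mul_cancel₀ hn.ne']
    · rw [smul_smul, mul_inv_cancel₀ hnc, one_smul]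
    · rw [inner_smul_left, map_inv₀, Complex.conj_ofReal, inner_self_eq_norm_sq_to_K]
      field_simp
      rfl

theorem pot_contra (L : CSL H) (B ε : ℝ) (hB : 0 < B) (hε : 0 < ε) (T : H →L[ℂ] H)
    (hT : T ∈ AlgL L) (hT1 : ‖T‖ ≤ 1) (hFS : FS L T B ε) (N : ℕ) (D : ℕ → (H →L[ℂ] H))
    (hD : IsChn L N D) (lam : ℝ) (hlam : lam = 192 * ε) (B' : ℝ) (hB' : B' = B / ε + 1)
    (θ : ℝ) (hθ : θ = (lam / (8 * B')) ^ 2 / 2)
    (p : ℕ) (x : Fin p → H) (hx : ∑ i, ‖x i‖ ^ 2 = 1)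
    (h : ∀ P A : H →L[ℂ] H, P ∈ L.carrier → A ∈ L.carrier →
      (∀ R ∈ Cross L N D, (1 - P) * R * A = 0) →
      lam ^ 2 * ∑ i, ‖(1 - P) (x i)‖ ^ 2 ≤ ∑ i, ‖(1 - A) (bdiag N D T (x i))‖ ^ 2 + θ) :
    False := by
  have hBε : 0 < B / ε := div_pos hB hε
  have hB'1 : 1 ≤ B' := by rw [hB']; linarith
  have hB'0 : 0 < B' := by linarith
  have hlam0 : 0 < lam := by rw [hlam]; positivity
  have hθ0 : 0 < θ := by rw [hθ]; positivity
  set S := bdiag N D T with hS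
  have hS1 : ‖S‖ ≤ 1 := by
    have := pot_bdiag_norm hD (fun _ => T) 1 (fun k _ => hT1)
    rw [abs_one] at this
    exact this
  have hSx : ∀ x, ‖S x‖ ≤ ‖x‖ := by
    intro x
    calc ‖S x‖ ≤ ‖S‖ * ‖x‖ := S.le_opNorm x
      _ ≤ 1 * ‖x‖ := mul_le_mul_of_nonneg_right hS1 (norm_nonneg _)
      _ = ‖x‖ := one_mul _
  -- choice of the tolerance
  obtain ⟨τ, hτ0, hτ2, hτ3, hτ4⟩ : ∃ τ : ℝ, 0 < τ ∧
      (4 + 3 * lam ^ 2) * (p * τ) ≤ θ ∧ p * τ / lam ≤ 1 / (8 * B') ∧ 2 * (p * τ) ≤ 1 / 2 := by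
    have hp : (0 : ℝ) < p + 1 := by positivity
    set c1 := θ / (4 + 3 * lam ^ 2) with hc1
    set c2 := lam / (8 * B') with hc2
    have hc10 : 0 < c1 := by positivity
    have hc20 : 0 < c2 := by positivity
    set c := min (min c1 c2) (1 / 4) with hc
    have hc0 : 0 < c := by
      rw [hc]; exact lt_min (lt_min hc10 hc20) (by norm_num)
    refine ⟨c / (p + 1), by positivity, ?_, ?_, ?_⟩
    all_goals
      have hle : (p : ℝ) * (c / (p + 1)) ≤ c := by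
        rw [mul_div_assoc', div_le_iff₀ hp]
        nlinarith
    · have h1 : c ≤ c1 := le_trans (min_le_left _ _) (min_le_left _ _)
      calc (4 + 3 * lam ^ 2) * (p * (c / (p + 1))) ≤ (4 + 3 * lam ^ 2) * c1 :=
            mul_le_mul_of_nonneg_left (le_trans hle h1) (by positivity)
        _ = θ := by rw [hc1]; field_simp
    · have h1 : c ≤ c2 := le_trans (min_le_left _ _) (min_le_right _ _)
      calc p * (c / (p + 1)) / lam ≤ c2 / lam :=
            div_le_div_of_nonneg_right (le_trans hle h1) hlam0.le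
        _ = 1 / (8 * B') := by rw [hc2]; field_simp
    · have h1 : c ≤ 1 / 4 := min_le_right _ _
      linarith
  -- cells
  obtain ⟨M, f, P, c, hf, hP, hPC, hPP, hPf, -, hcx⟩ := cells L N D hD p x τ hτ0
  set x' : Fin p → H := fun i => ∑ j, c i j • f j with hx'
  obtain ⟨M', f', P', c', hf', hP', hPC', hPP', hPf', -, hcy⟩ :=
    cells L N D hD p (fun i => S (x' i)) τ hτ0
  set y' : Fin p → H := fun i => ∑ j, c' i j • f' j with hy'
  let u : Fin M → EuclideanSpace ℂ (Fin p) := fun j => WithLp.toLp 2 (fun i => c i j)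
  let v : Fin M' → EuclideanSpace ℂ (Fin p) := fun j => WithLp.toLp 2 (fun i => c' i j)
  have hu : ∀ j i, u j i = c i j := fun j i => rfl
  have hv : ∀ j i, v j i = c' i j := fun j i => rfl
  choose uh huh1 huh2 huh3 using fun j => pot_normalise (u j)
  choose vh hvh1 hvh2 hvh3 using fun j => pot_normalise (v j)
  set b := ∑ j, ((‖u j‖ : ℝ) : ℂ) • f j with hb
  set a := ∑ j, ((‖v j‖ : ℝ) : ℂ) • f' j with ha
  have hXb : ∀ X : H →L[ℂ] H, (∀ j, X * P j = P j * X) → ‖X b‖ ^ 2 = ∑ i, ‖X (x' i)‖ ^ 2 :=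
    fun X hX => pot_vec_norm f P hP hPP hPf X hX c u hu
  have hXa : ∀ X : H →L[ℂ] H, (∀ j, X * P' j = P' j * X) → ‖X a‖ ^ 2 = ∑ i, ‖X (y' i)‖ ^ 2 :=
    fun X hX => pot_vec_norm f' P' hP' hPP' hPf' X hX c' v hv
  have hxi : ∀ i, ‖x i‖ ≤ 1 := by
    intro i
    have h1 : ‖x i‖ ^ 2 ≤ 1 := by
      rw [← hx]
      exact Finset.single_le_sum (f := fun i => ‖x i‖ ^ 2) (fun _ _ => sq_nonneg _)
        (Finset.mem_univ i)
    nlinarith [norm_nonneg (x i)]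
  have hcx' : ∀ i, ‖x i - x' i‖ ≤ τ := hcx
  have hcy' : ∀ i, ‖S (x' i) - y' i‖ ≤ τ := hcy
  have hx'x : ∀ (X : H →L[ℂ] H), (∀ z, ‖X z‖ ≤ ‖z‖) → ∀ i, ‖X (x' i)‖ ≤ ‖X (x i)‖ + τ := by
    intro X hX i
    calc ‖X (x' i)‖ = ‖X (x i) - X (x i - x' i)‖ := by rw [map_sub]; congr 1; abel
      _ ≤ ‖X (x i)‖ + ‖X (x i - x' i)‖ := norm_sub_le _ _
      _ ≤ ‖X (x i)‖ + τ := add_le_add le_rfl (le_trans (hX _) (hcx' i))
  have hxx' : ∀ (X : H →L[ℂ] H), (∀ z, ‖X z‖ ≤ ‖z‖) → ∀ i, ‖X (x i)‖ ≤ ‖X (x' i)‖ + τ := by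
    intro X hX i
    calc ‖X (x i)‖ = ‖X (x' i) + X (x i - x' i)‖ := by rw [map_sub]; congr 1; abel
      _ ≤ ‖X (x' i)‖ + ‖X (x i - x' i)‖ := norm_add_le _ _
      _ ≤ ‖X (x' i)‖ + τ := add_le_add le_rfl (le_trans (hX _) (hcx' i))
  have hτ1 : p * τ ≤ 1 / 4 := by linarith
  have hτp : ∀ i : Fin p, τ ≤ 1 / 4 := by
    intro i
    have hp1 : (1 : ℝ) ≤ p := by
      have : 0 < p := lt_of_le_of_lt (Nat.zero_le _) i.2
      exact_mod_cast this
    nlinarith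
  -- the key inequality
  have hkey : ∀ P₀ A : H →L[ℂ] H, P₀ ∈ L.carrier → A ∈ L.carrier →
      (∀ R ∈ Cross L N D, (1 - P₀) * R * A = 0) →
      lam ^ 2 * ‖(1 - P₀) b‖ ^ 2 ≤ ‖(1 - A) a‖ ^ 2 + 2 * θ := by
    intro P₀ A hP₀ hA hPA
    have hcP : ∀ j, (1 - P₀) * P j = P j * (1 - P₀) := by
      intro j; rw [sub_mul, mul_sub, hPC j P₀ hP₀]; simp
    have hcA : ∀ j, (1 - A) * P' j = P' j * (1 - A) := by
      intro j; rw [sub_mul, mul_sub, hPC' j A hA]; simp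
    rw [hXb _ hcP, hXa _ hcA]
    have hQ0 : IsStarProjection (1 - P₀) := (L.proj _ hP₀).one_sub
    have hQA : IsStarProjection (1 - A) := (L.proj _ hA).one_sub
    have h1 : ∀ i, ‖(1 - P₀) (x' i)‖ ^ 2 ≤ ‖(1 - P₀) (x i)‖ ^ 2 + 3 * τ := by
      intro i
      have e1 := hx'x (1 - P₀) (pot_norm_proj_le hQ0) i
      have e2 : ‖(1 - P₀) (x i)‖ ≤ 1 := le_trans (pot_norm_proj_le hQ0 _) (hxi i)
      have e3 := hτp i
      have e4 : ‖(1 - P₀) (x' i)‖ ^ 2 ≤ (‖(1 - P₀) (x i)‖ + τ) ^ 2 :=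
        pow_le_pow_left₀ (norm_nonneg _) e1 2
      have e5 := norm_nonneg ((1 - P₀) (x i))
      nlinarith
    have h2 : ∀ i, ‖(1 - A) (S (x i))‖ ^ 2 ≤ ‖(1 - A) (y' i)‖ ^ 2 + 4 * τ := by
      intro i
      have e1 : ‖(1 - A) (S (x i))‖ ≤ ‖(1 - A) (y' i)‖ + 2 * τ := by
        have e2 : ‖((1 - A) * S) (x i)‖ ≤ ‖((1 - A) * S) (x' i)‖ + τ :=
          hxx' ((1 - A) * S) (fun z => le_trans (pot_norm_proj_le hQA (S z)) (hSx z)) i
        have e3 : ‖(1 - A) (S (x' i))‖ ≤ ‖(1 - A) (y' i)‖ + τ := by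
          calc ‖(1 - A) (S (x' i))‖ = ‖(1 - A) (y' i) + (1 - A) (S (x' i) - y' i)‖ := by
                rw [map_sub (1 - A)]; congr 1; abel
            _ ≤ ‖(1 - A) (y' i)‖ + ‖(1 - A) (S (x' i) - y' i)‖ := norm_add_le _ _
            _ ≤ ‖(1 - A) (y' i)‖ + τ :=
                add_le_add le_rfl (le_trans (pot_norm_proj_le hQA _) (hcy' i))
        have e4 : ‖(1 - A) (S (x i))‖ ≤ ‖(1 - A) (S (x' i))‖ + τ := e2
        linarith
      have e2 : ‖(1 - A) (S (x i))‖ ≤ 1 :=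
        le_trans (pot_norm_proj_le hQA _) (le_trans (hSx _) (hxi i))
      have e3 := pot_sq_close _ _ (2 * τ) (norm_nonneg _) e2 (norm_nonneg _) (by positivity) e1
      linarith
    have h3 : ∑ i, ‖(1 - P₀) (x' i)‖ ^ 2 ≤ ∑ i, ‖(1 - P₀) (x i)‖ ^ 2 + 3 * (p * τ) := by
      calc ∑ i, ‖(1 - P₀) (x' i)‖ ^ 2 ≤ ∑ i, (‖(1 - P₀) (x i)‖ ^ 2 + 3 * τ) :=
            Finset.sum_le_sum fun i _ => h1 i
        _ = _ := by rw [Finset.sum_add_distrib]; simp; ring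
    have h4 : ∑ i, ‖(1 - A) (S (x i))‖ ^ 2 ≤ ∑ i, ‖(1 - A) (y' i)‖ ^ 2 + 4 * (p * τ) := by
      calc ∑ i, ‖(1 - A) (S (x i))‖ ^ 2 ≤ ∑ i, (‖(1 - A) (y' i)‖ ^ 2 + 4 * τ) :=
            Finset.sum_le_sum fun i _ => h2 i
        _ = _ := by rw [Finset.sum_add_distrib]; simp; ring
    have h5 := h P₀ A hP₀ hA hPA
    have h6 : lam ^ 2 * ∑ i, ‖(1 - P₀) (x' i)‖ ^ 2 ≤
        lam ^ 2 * (∑ i, ‖(1 - P₀) (x i)‖ ^ 2 + 3 * (p * τ)) :=
      mul_le_mul_of_nonneg_left h3 (by positivity)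
    nlinarith
  -- the interpolation lemma
  obtain ⟨K, hK1, hKK, b', hKa, hbb'⟩ := klemma
    {q : (H →L[ℂ] H) × (H →L[ℂ] H) | q.1 ∈ L.carrier ∧ q.2 ∈ L.carrier ∧
      ∀ R ∈ Cross L N D, (1 - q.1) * R * q.2 = 0}
    (fun q hq => ⟨L.proj _ hq.1, L.proj _ hq.2.1⟩)
    (fun q hq r hr => L.comm _ hq.1 _ hr.1)
    (fun q hq r hr => L.comm _ hq.2.1 _ hr.2.1)
    ⟨L.zero_mem, L.zero_mem, fun R _ => by simp⟩
    ⟨L.one_mem, L.one_mem, fun R _ => by simp⟩
    (fun q hq r hr => ⟨L.inf_mem _ hq.1 _ hr.1, L.inf_mem _ hq.2.1 _ hr.2.1,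
      pot_KK_inf L hq.1 hq.2.1 hr.2.1 hq.2.2 hr.2.2⟩)
    (fun q hq r hr => ⟨L.sup_mem _ hq.1 _ hr.1, L.sup_mem _ hq.2.1 _ hr.2.1,
      pot_KK_sup L hq.1 hr.1 hq.2.2 hr.2.2⟩)
    a b lam (2 * θ) hlam0 (fun q hq => hkey q.1 q.2 hq.1 hq.2.1 hq.2.2)
  have hKC : K ∈ Cross L N D := pot_cross_of_KK hD K
    (fun P₀ A hP₀ hA hPA => hKK (P₀, A) ⟨hP₀, hA, hPA⟩)
  -- the operators M k
  set Mk : ℕ → (H →L[ℂ] H) := fun k =>
    blk D k * (∑ l, ∑ j, ((1 / 96 : ℂ) * ⟪vh l, uh j⟫_ℂ) • (P' l * T * P j)) * blk D k with hMk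
  have hMkmem : ∀ k < N, Mk k ∈ closure (convexHull ℝ
      {X : H →L[ℂ] H | ∃ u ∈ ComL L, ∃ v ∈ ComL L, star u * u = 1 ∧ u * star u = 1 ∧
        star v * v = 1 ∧ v * star v = 1 ∧ X = blk D k * (star u * T * v) * blk D k}) :=
    fun k _ => pot_groth L T P hP hPC hPP P' hP' hPC' hPP' p uh vh huh1 hvh1 (blk D k)
  have hMknorm : ∀ k < N, ‖Mk k‖ ≤ 1 := by
    intro k hk
    have h1 := hMkmem k hk
    have h2 : closure (convexHull ℝ
      {X : H →L[ℂ] H | ∃ u ∈ ComL L, ∃ v ∈ ComL L, star u * u = 1 ∧ u * star u = 1 ∧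
        star v * v = 1 ∧ v * star v = 1 ∧ X = blk D k * (star u * T * v) * blk D k}) ⊆
        Metric.closedBall 0 1 := by
      apply closure_minimal _ Metric.isClosed_closedBall
      apply convexHull_min _ (convex_closedBall _ _)
      rintro X ⟨u, -, v, -, hu1, -, hv1, -, rfl⟩
      rw [mem_closedBall_zero_iff]
      have hnu : ∀ w : H →L[ℂ] H, star w * w = 1 → ‖w‖ ≤ 1 := by
        intro w hw
        have h3 : ‖w‖ * ‖w‖ = ‖star w * w‖ := (CStarRing.norm_star_mul_self).symm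
        rw [hw] at h3
        have h4 : ‖(1 : H →L[ℂ] H)‖ ≤ 1 := ContinuousLinearMap.norm_id_le
        nlinarith [norm_nonneg w]
      have hbk : ‖blk D k‖ ≤ 1 := (blk_proj hD k).norm_le
      have e1 : ‖star u‖ ≤ 1 := by rw [norm_star]; exact hnu u hu1
      have e2 : ‖v‖ ≤ 1 := hnu v hv1
      have e3 : ‖star u * T * v‖ ≤ 1 := by
        calc ‖star u * T * v‖ ≤ ‖star u * T‖ * ‖v‖ := norm_mul_le _ _
          _ ≤ (‖star u‖ * ‖T‖) * ‖v‖ := mul_le_mul_of_nonneg_right (norm_mul_le _ _) (norm_nonneg _)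
          _ ≤ (1 * 1) * 1 := by
              apply mul_le_mul _ e2 (norm_nonneg _) (by norm_num)
              exact mul_le_mul e1 hT1 (norm_nonneg _) zero_le_one
          _ = 1 := by norm_num
      calc ‖blk D k * (star u * T * v) * blk D k‖ ≤ ‖blk D k * (star u * T * v)‖ * ‖blk D k‖ :=
            norm_mul_le _ _
        _ ≤ (‖blk D k‖ * ‖star u * T * v‖) * ‖blk D k‖ :=
            mul_le_mul_of_nonneg_right (norm_mul_le _ _) (norm_nonneg _)
        _ ≤ (1 * 1) * 1 := by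
            apply mul_le_mul _ hbk (norm_nonneg _) (by norm_num)
            exact mul_le_mul hbk e3 (norm_nonneg _) zero_le_one
        _ = 1 := by norm_num
    exact mem_closedBall_zero_iff.mp (h2 h1)
  set Mt := ∑ k ∈ range N, Mk k with hMt
  have hMt1 : ‖Mt‖ ≤ 1 := by
    have h1 := pot_bdiag_norm hD Mk 1 hMknorm
    rw [abs_one] at h1
    have h2 : ∑ k ∈ range N, blk D k * Mk k * blk D k = Mt := by
      rw [hMt]
      apply Finset.sum_congr rfl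
      intro k _
      have h3 := mul_self_proj (blk_proj hD k)
      simp only [hMk]
      calc blk D k * (blk D k * (∑ l, ∑ j, ((1 / 96 : ℂ) * ⟪vh l, uh j⟫_ℂ) • (P' l * T * P j)) *
            blk D k) * blk D k
          = (blk D k * blk D k) * (∑ l, ∑ j, ((1 / 96 : ℂ) * ⟪vh l, uh j⟫_ℂ) • (P' l * T * P j)) *
            (blk D k * blk D k) := by noncomm_ring
        _ = _ := by rw [h3]
    rw [h2] at h1
    exact h1
  have hgrow := growth L T hT B ε hFS N D hD Mk hMkmem K hKC hK1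
  have hA := pot_A_bound K Mt B ε lam B' hK1 hMt1 hgrow hB hε hlam hB'
  -- 96 M b is close to a
  have hMt2 : (96 : ℂ) • Mt = ∑ l, ∑ j, ⟪vh l, uh j⟫_ℂ • (P' l * S * P j) := by
    rw [hMt, hMk, pot_M_sum hD T P hPC P' hPC' (fun l j => (1 / 96 : ℂ) * ⟪vh l, uh j⟫_ℂ),
      Finset.smul_sum]
    apply Finset.sum_congr rfl
    intro l _
    rw [Finset.smul_sum]
    apply Finset.sum_congr rfl
    intro j _
    rw [smul_smul]
    congr 1
    ring
  have herr : ‖((96 : ℂ) • Mt) b - a‖ ≤ p * τ := by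
    rw [hMt2]
    exact pot_err f P hPP hPf f' P' hP' hPP' hPf' S c u uh hu huh2 c' v vh hv hvh3 hvh1 τ hcy'
  -- iteration
  set e : H := (b - b') - ((lam : ℂ))⁻¹ • K (((96 : ℂ) • Mt) b - a) with he
  have hlamc : (lam : ℂ) ≠ 0 := by exact_mod_cast hlam0.ne'
  have hiter : (lam : ℂ) • b = (K * ((96 : ℂ) • Mt)) b + (lam : ℂ) • e := by
    rw [he, smul_sub, smul_smul, mul_inv_cancel₀ hlamc, one_smul, map_sub, hKa, mul_apply_eq_comp,
      smul_sub]
    abel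
  have hbound := pot_iter (K * ((96 : ℂ) • Mt)) b e lam B' hlam0 hB'0.le hA hiter
  have he1 : ‖b - b'‖ ≤ 1 / (8 * B') := by
    have h1 : ‖b - b'‖ ^ 2 ≤ (1 / (8 * B')) ^ 2 := by
      refine le_trans hbb' (le_of_eq ?_)
      rw [hθ]; field_simp
    exact (sq_le_sq₀ (norm_nonneg _) (by positivity)).mp h1
  have he2 : ‖((lam : ℂ))⁻¹ • K (((96 : ℂ) • Mt) b - a)‖ ≤ 1 / (8 * B') := by
    rw [norm_smul, norm_inv, Complex.norm_real, Real.norm_of_nonneg hlam0.le]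
    calc lam⁻¹ * ‖K (((96 : ℂ) • Mt) b - a)‖ ≤ lam⁻¹ * (p * τ) := by
          apply mul_le_mul_of_nonneg_left _ (by positivity)
          calc ‖K (((96 : ℂ) • Mt) b - a)‖ ≤ ‖K‖ * ‖((96 : ℂ) • Mt) b - a‖ := K.le_opNorm _
            _ ≤ 1 * (p * τ) := mul_le_mul hK1 herr (norm_nonneg _) zero_le_one
            _ = p * τ := one_mul _
      _ = p * τ / lam := by rw [mul_comm, div_eq_mul_inv]
      _ ≤ _ := hτ3
  have he3 : ‖e‖ ≤ 1 / (4 * B') := by
    calc ‖e‖ ≤ ‖b - b'‖ + ‖((lam : ℂ))⁻¹ • K (((96 : ℂ) • Mt) b - a)‖ := norm_sub_le _ _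
      _ ≤ 1 / (8 * B') + 1 / (8 * B') := add_le_add he1 he2
      _ = 1 / (4 * B') := by field_simp; norm_num
  have hb1 : ‖b‖ ≤ 1 / 2 := by
    calc ‖b‖ ≤ 2 * B' * ‖e‖ := hbound
      _ ≤ 2 * B' * (1 / (4 * B')) := mul_le_mul_of_nonneg_left he3 (by positivity)
      _ = 1 / 2 := by field_simp; norm_num
  -- lower bound for ‖b‖
  have hb2 : 1 / 2 ≤ ‖b‖ ^ 2 := by
    have h1 := hXb 1 (fun j => by rw [one_mul, mul_one])
    simp only [one_apply_eq_self] at h1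
    have h2 : ∀ i, ‖x i‖ ^ 2 ≤ ‖x' i‖ ^ 2 + 2 * τ := by
      intro i
      apply pot_sq_close _ _ _ (norm_nonneg _) (hxi i) (norm_nonneg _) hτ0.le
      have := hxx' 1 (fun z => le_rfl) i
      simpa using this
    have h3 : ∑ i, ‖x i‖ ^ 2 ≤ ∑ i, ‖x' i‖ ^ 2 + 2 * (p * τ) := by
      calc ∑ i, ‖x i‖ ^ 2 ≤ ∑ i, (‖x' i‖ ^ 2 + 2 * τ) := Finset.sum_le_sum fun i _ => h2 i
        _ = _ := by rw [Finset.sum_add_distrib]; simp; ring
    rw [hx, ← h1] at h3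
    linarith
  nlinarith [norm_nonneg b]

/-- M1 -/
theorem potentials (L : CSL H) (B ε : ℝ) (hB : 0 < B) (hε : 0 < ε) :
    ∃ C : ℝ, 1 ≤ C ∧ ∀ T ∈ AlgL L, ‖T‖ ≤ 1 → FS L T B ε → ∀ (N : ℕ) (D : ℕ → (H →L[ℂ] H)),
      IsChn L N D → ∃ g g' : H →L[ℂ] H, Pot L C g ∧ Pot L C g' ∧
        (∀ R ∈ Cross L N D, ‖R‖ ≤ 1 → ∀ x, qf g (R x) ≤ qf g' x) ∧
        (∀ x, qf g' (bdiag N D T x) ≤ (192 * ε) ^ 2 * qf g x) := by
  have hBε : 0 < B / ε := div_pos hB hε
  set lam := 192 * ε with hlam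
  set B' := B / ε + 1 with hB'
  have hlam0 : 0 < lam := by rw [hlam]; positivity
  have hB'0 : 0 < B' := by rw [hB']; linarith
  set θ := (lam / (8 * B')) ^ 2 / 2 with hθ
  have hθ0 : 0 < θ := by rw [hθ]; positivity
  refine ⟨1 + 1 / θ, by linarith [one_div_pos.mpr hθ0], ?_⟩
  intro T hT hT1 hFS N D hD
  by_contra hno
  set C := 1 + 1 / θ with hC
  have hC1 : 1 ≤ C := by linarith [one_div_pos.mpr hθ0]
  have hCθ : (C - 1) * θ = 1 := by rw [hC]; field_simp; ring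
  obtain ⟨p, x, hx, hsep⟩ := separation L C hC1 N D hD (bdiag N D T) lam hlam0 hno
  refine pot_contra L B ε hB hε T hT hT1 hFS N D hD lam hlam B' hB' θ hθ p x hx ?_
  intro P A hP hA hPA
  have h1 := hsep _ _ (pot_cut_pot L C hC1 P hP) (pot_cut_pot L C hC1 A hA)
    (fun R hR hR1 y => pot_cut_cross L C hC1 P A hP hA R hR1 (hPA R hR) y)
  simp only [pot_qf_cut C P (L.proj P hP), pot_qf_cut C A (L.proj A hA)] at h1
  rw [Finset.sum_add_distrib, Finset.sum_add_distrib, ← Finset.mul_sum, ← Finset.mul_sum, hx] at h1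
  have hS1 : ‖bdiag N D T‖ ≤ 1 := by
    have := pot_bdiag_norm hD (fun _ => T) 1 (fun k _ => hT1)
    rw [abs_one] at this
    exact this
  have h2 : ∑ i, ‖bdiag N D T (x i)‖ ^ 2 ≤ 1 := by
    rw [← hx]
    apply Finset.sum_le_sum
    intro i _
    apply pow_le_pow_left₀ (norm_nonneg _)
    calc ‖bdiag N D T (x i)‖ ≤ ‖bdiag N D T‖ * ‖x i‖ := (bdiag N D T).le_opNorm _
      _ ≤ 1 * ‖x i‖ := mul_le_mul_of_nonneg_right hS1 (norm_nonneg _)
      _ = ‖x i‖ := one_mul _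
  have hC0 : 0 < C - 1 := by rw [hC]; have := one_div_pos.mpr hθ0; linarith
  have h3 : (C - 1) * (lam ^ 2 * ∑ i, ‖(1 - P) (x i)‖ ^ 2) ≤
      (C - 1) * (∑ i, ‖(1 - A) (bdiag N D T (x i))‖ ^ 2 + θ) := by
    rw [mul_add (C - 1), hCθ]
    nlinarith [sq_nonneg lam]
  exact le_of_mul_le_mul_left h3 hC0

end Hop
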