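import Pool.Agent.Helper360.Hop.Defs
import Pool.Agent.Helper360.Hop.Potentials
import Pool.Agent.Helper360.Hop.PotCut
set_option maxHeartbeats 4000000

open scoped InnerProductSpace Topology ComplexConjugate
open Finset Filter

namespace Hop

variable {H : Type*} [NormedAddCommGroup H] [InnerProductSpace ℂ H] [CompleteSpace H]

/- ================= TARGET ================= -/

theorem vw_cut (L : CSL H) (C : ℝ) (g : H →L[ℂ] H) (hg : Pot L C g) (q : ℕ) (hq : 1 ≤ q)
    (hC : C ≤ 2 ^ q) : ∃ G : ℕ → (H →L[ℂ] H), (∀ i, G i ∈ L.carrier) ∧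
      (∀ i, G i * G (i + 1) = G i) ∧ G 0 = 0 ∧ (∀ i, q ≤ i → G i = 1) ∧
      (∀ i < q, ∀ x, G i x = 0 → 2 ^ i * ‖x‖ ^ 2 ≤ qf g x) ∧
      (∀ i < q, ∀ x, G (i + 1) x = x → qf g x ≤ 2 ^ (i + 1) * ‖x‖ ^ 2) := by
  obtain ⟨D, hD1, hD2, hD3, hD4⟩ := pot_cut L C g hg
  refine ⟨fun i => if i = 0 then 0 else if q ≤ i then 1 else D (2 ^ i), ?_, ?_, ?_, ?_, ?_, ?_⟩
  · intro i
    show (if i = 0 then 0 else if q ≤ i then 1 else D (2 ^ i)) ∈ L.carrier
    split_ifs
    · exact L.zero_mem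
    · exact L.one_mem
    · exact hD1 _
  · intro i
    show (if i = 0 then 0 else if q ≤ i then 1 else D (2 ^ i)) *
      (if i + 1 = 0 then 0 else if q ≤ i + 1 then 1 else D (2 ^ (i + 1))) =
      (if i = 0 then 0 else if q ≤ i then 1 else D (2 ^ i))
    by_cases h0 : i = 0
    · rw [if_pos h0, zero_mul]
    · rw [if_neg h0, if_neg (by omega : ¬ (i + 1 = 0))]
      by_cases h1 : q ≤ i
      · rw [if_pos h1, if_pos (by omega : q ≤ i + 1), one_mul]
      · rw [if_neg h1]
        by_cases h2 : q ≤ i + 1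
        · rw [if_pos h2, mul_one]
        · rw [if_neg h2]
          exact hD2 _ _ (pow_le_pow_right₀ (by norm_num) (by omega))
  · simp
  · intro i hi
    show (if i = 0 then 0 else if q ≤ i then 1 else D (2 ^ i)) = 1
    rw [if_neg (by omega), if_pos hi]
  · intro i hi x hx
    by_cases h0 : i = 0
    · subst h0
      have := hg.lower x
      simpa using this
    · have h1 : D (2 ^ i) x = 0 := by
        have h2 : (if i = 0 then 0 else if q ≤ i then 1 else D (2 ^ i)) x = 0 := hx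
        rw [if_neg h0, if_neg (by omega)] at h2
        exact h2
      exact hD4 _ x h1
  · intro i hi x hx
    have h2 : (if i + 1 = 0 then 0 else if q ≤ i + 1 then 1 else D (2 ^ (i + 1))) x = x := hx
    rw [if_neg (by omega)] at h2
    by_cases h1 : q ≤ i + 1
    · have h3 : q = i + 1 := by omega
      have h4 := hg.upper x
      rw [← h3]
      exact h4.trans (mul_le_mul_of_nonneg_right hC (by positivity))
    · rw [if_neg h1] at h2
      exact hD3 _ x h2

/-- refinement of two chains -/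
noncomputable def vwF (q : ℕ) (G G' : ℕ → (H →L[ℂ] H)) (a : ℕ) : H →L[ℂ] H :=
  G (a / q) + blk G (a / q) * G' (a % q)

theorem vwF_eq {L : CSL H} {q : ℕ} (hq : 1 ≤ q) {G G' : ℕ → (H →L[ℂ] H)} (hG : IsChn L q G)
    (hG' : IsChn L q G') {i j : ℕ} (hj : j ≤ q) : vwF q G G' (i * q + j) = G i + blk G i * G' j := by
  unfold vwF
  rcases lt_or_eq_of_le hj with h | h
  · have h1 : (i * q + j) / q = i := by
      rw [mul_comm, Nat.mul_add_div (by omega), Nat.div_eq_of_lt h, add_zero]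
    have h2 : (i * q + j) % q = j := by
      rw [mul_comm, Nat.mul_add_mod, Nat.mod_eq_of_lt h]
    rw [h1, h2]
  · have h1 : (i * q + j) / q = i + 1 := by
      rw [h, show i * q + q = q * (i + 1) + 0 by ring, Nat.mul_add_div (by omega)]; simp
    have h2 : (i * q + j) % q = 0 := by
      rw [h, show i * q + q = q * (i + 1) + 0 by ring, Nat.mul_add_mod]; simp
    rw [h1, h2, hG'.zero, mul_zero, add_zero, h, hG'.top, mul_one]
    unfold blk
    abel

theorem vwF_chn {L : CSL H} {q : ℕ} (hq : 1 ≤ q) {G G' : ℕ → (H →L[ℂ] H)} (hG : IsChn L q G)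
    (hG' : IsChn L q G') : IsChn L (q * q) (vwF q G G') := by
  have hrep : ∀ a, ∃ i j, j < q ∧ a = i * q + j := fun a =>
    ⟨a / q, a % q, Nat.mod_lt _ (by omega), by rw [mul_comm]; exact (Nat.div_add_mod a q).symm⟩
  refine ⟨?_, ?_, ?_, ?_⟩
  · intro a
    obtain ⟨i, j, hj, rfl⟩ := hrep a
    rw [vwF_eq hq hG hG' hj.le]
    have h1 := L.sup_mem _ (hG.mem i) _ (L.inf_mem _ (hG.mem (i + 1)) _ (hG'.mem j))
    have h2 : G i * (G (i + 1) * G' j) = G i * G' j := by rw [← mul_assoc, hG.mono]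
    rw [h2] at h1
    have h3 : G i + blk G i * G' j = G i + G (i + 1) * G' j - G i * G' j := by
      unfold blk; rw [sub_mul]; abel
    rw [h3]; exact h1
  · intro a
    obtain ⟨i, j, hj, rfl⟩ := hrep a
    rw [add_assoc, vwF_eq hq hG hG' hj.le, vwF_eq hq hG hG' (by omega : j + 1 ≤ q)]
    have c1 : G i * G i = G i := mul_self_proj (L.proj _ (hG.mem i))
    have c2 : G i * blk G i = 0 := by unfold blk; rw [mul_sub, hG.mono, c1, sub_self]
    have c3 : blk G i * blk G i = blk G i := mul_self_proj (blk_proj hG i)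
    have c4 : G' j * G i = G i * G' j := L.comm _ (hG'.mem j) _ (hG.mem i)
    have c5 : blk G i * G i = 0 := by
      unfold blk; rw [sub_mul, c1, L.comm _ (hG.mem (i+1)) _ (hG.mem i), hG.mono, sub_self]
    have c6 : G' j * blk G i = blk G i * G' j := by
      have := blk_mem_BiComL hG i (G' j) (carrier_sub_ComL L (hG'.mem j))
      exact this
    calc (G i + blk G i * G' j) * (G i + blk G i * G' (j + 1))
        = G i * G i + (G i * blk G i) * G' (j + 1) + blk G i * (G' j * G i) +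
            blk G i * (G' j * blk G i) * G' (j + 1) := by noncomm_ring
      _ = G i + blk G i * G' j := by
        rw [c1, c2, c4, c6, zero_mul, add_zero, ← mul_assoc, c5, zero_mul, add_zero,
          ← mul_assoc, c3, mul_assoc, hG'.mono]
  · have := vwF_eq hq hG hG' (i := 0) (j := 0) (by omega)
    rw [zero_mul, add_zero] at this
    rw [this, hG.zero, hG'.zero, mul_zero, add_zero]
  · have := vwF_eq hq hG hG' (i := q) (j := 0) (by omega)
    rw [add_zero] at this
    rw [this, hG.top, hG'.zero, mul_zero, add_zero]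

theorem vwF_blk {L : CSL H} {q : ℕ} (hq : 1 ≤ q) {G G' : ℕ → (H →L[ℂ] H)} (hG : IsChn L q G)
    (hG' : IsChn L q G') {i j : ℕ} (hj : j < q) :
    blk (vwF q G G') (i * q + j) = blk G i * blk G' j := by
  have h0 : blk (vwF q G G') (i * q + j) = vwF q G G' (i * q + (j + 1)) - vwF q G G' (i * q + j) := rfl
  rw [h0, vwF_eq hq hG hG' hj.le, vwF_eq hq hG hG' (by omega : j + 1 ≤ q)]
  have h1 : blk G' j = G' (j + 1) - G' j := rfl
  rw [h1, mul_sub]; abel

theorem vw_low {L : CSL H} {q : ℕ} {G : ℕ → (H →L[ℂ] H)} (hG : IsChn L q G) {i : ℕ} {x : H}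
    (hx : blk G i x = x) : G i x = 0 ∧ G (i + 1) x = x := by
  have c1 : G i * G i = G i := mul_self_proj (L.proj _ (hG.mem i))
  have c1' : G (i+1) * G (i+1) = G (i+1) := mul_self_proj (L.proj _ (hG.mem (i+1)))
  have c2 : G i * blk G i = 0 := by unfold blk; rw [mul_sub, hG.mono, c1, sub_self]
  have c3 : G (i + 1) * blk G i = blk G i := by
    unfold blk; rw [mul_sub, c1', L.comm _ (hG.mem (i+1)) _ (hG.mem i), hG.mono]
  constructor
  · calc G i x = G i (blk G i x) := by rw [hx]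
      _ = (G i * blk G i) x := rfl
      _ = 0 := by rw [c2]; rfl
  · calc G (i + 1) x = G (i + 1) (blk G i x) := by rw [hx]
      _ = (G (i + 1) * blk G i) x := rfl
      _ = x := by rw [c3, hx]

theorem vw_proj_norm {P : H →L[ℂ] H} (h : IsStarProjection P) (x : H) : ‖P x‖ ≤ ‖x‖ := by
  have h1 := P.le_opNorm x
  have h2 : ‖P‖ ≤ 1 := h.norm_le
  nlinarith [norm_nonneg x]

/-- M1' -/
theorem vw (L : CSL H) (B ε : ℝ) (hB : 0 < B) (hε : 0 < ε) :
    ∃ r : ℕ, ∀ T ∈ AlgL L, ‖T‖ ≤ 1 → FS L T B ε → VW L T (384 * ε) r := by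
  obtain ⟨C, hC1, hpot⟩ := potentials L B ε hB hε
  obtain ⟨q0, hq0⟩ := pow_unbounded_of_one_lt C (by norm_num : (1:ℝ) < 2)
  set q : ℕ := q0 + 1 with hqdef
  have hq : 1 ≤ q := by omega
  have hCq : C ≤ 2 ^ q := by
    rw [hqdef, pow_succ]
    have : (0:ℝ) < 2 ^ q0 := by positivity
    linarith
  refine ⟨q * q, fun T hT hT1 hFS N D hD => ?_⟩
  obtain ⟨g, g', hg, hg', hcross, hdiag⟩ := hpot T hT hT1 hFS N D hD
  obtain ⟨G, gm, gmono, g0, gq, glow, gup⟩ := vw_cut L C g hg q hq hCq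
  obtain ⟨G', gm', gmono', g0', gq', glow', gup'⟩ := vw_cut L C g' hg' q hq hCq
  have hG : IsChn L q G := ⟨gm, gmono, g0, gq q le_rfl⟩
  have hG' : IsChn L q G' := ⟨gm', gmono', g0', gq' q le_rfl⟩
  have hF := vwF_chn hq hG hG'
  refine ⟨vwF q G G', hF, fun a ha => ?_⟩
  obtain ⟨i, j, hj, rfl⟩ : ∃ i j, j < q ∧ a = i * q + j :=
    ⟨a / q, a % q, Nat.mod_lt _ (by omega), by rw [mul_comm]; exact (Nat.div_add_mod a q).symm⟩
  have hi : i < q := by
    by_contra hcon
    push Not at hcon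
    have : q * q ≤ i * q := Nat.mul_le_mul_right q hcon
    omega
  have hYeq := vwF_blk hq hG hG' (i := i) hj
  set Y : H →L[ℂ] H := blk (vwF q G G') (i * q + j) with hY
  have hYproj : IsStarProjection Y := blk_proj hF _
  have hYY : Y * Y = Y := mul_self_proj hYproj
  have hYB : Y ∈ BiComL L := blk_mem_BiComL hF _
  have hYC : Y ∈ ComL L := BiComL_sub_ComL L hYB
  have hYA : Y ∈ AlgL L := ComL_sub_AlgL L hYC
  have hYn : ‖Y‖ ≤ 1 := hYproj.norm_le
  have hGcomm : blk G i * blk G' j = blk G' j * blk G i :=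
    blk_mem_BiComL hG' j (blk G i) (BiComL_sub_ComL L (blk_mem_BiComL hG i))
  -- spectral bounds on the range of `Y`
  have hY1 : ∀ x, Y x = x → blk G i x = x ∧ blk G' j x = x := by
    intro x hx
    have e1 : blk G i * Y = Y := by
      rw [hYeq, ← mul_assoc, mul_self_proj (blk_proj hG i)]
    have e2 : blk G' j * Y = Y := by
      rw [hYeq, hGcomm, ← mul_assoc, mul_self_proj (blk_proj hG' j)]
    constructor
    · calc blk G i x = (blk G i * Y) x := by
            show blk G i x = blk G i (Y x)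
            rw [hx]
        _ = x := by rw [e1, hx]
    · calc blk G' j x = (blk G' j * Y) x := by
            show blk G' j x = blk G' j (Y x)
            rw [hx]
        _ = x := by rw [e2, hx]
  have blow : ∀ x, Y x = x → 2 ^ i * ‖x‖ ^ 2 ≤ qf g x := fun x hx =>
    glow i hi x (vw_low hG (hY1 x hx).1).1
  have bup : ∀ x, Y x = x → qf g x ≤ 2 ^ (i + 1) * ‖x‖ ^ 2 := fun x hx =>
    gup i hi x (vw_low hG (hY1 x hx).1).2
  have blow' : ∀ x, Y x = x → 2 ^ j * ‖x‖ ^ 2 ≤ qf g' x := fun x hx =>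
    glow' j hj x (vw_low hG' (hY1 x hx).2).1
  have bup' : ∀ x, Y x = x → qf g' x ≤ 2 ^ (j + 1) * ‖x‖ ^ 2 := fun x hx =>
    gup' j hj x (vw_low hG' (hY1 x hx).2).2
  have hYfix : ∀ x, Y (Y x) = Y x := fun x => by
    have : (Y * Y) x = Y x := by rw [hYY]
    exact this
  by_cases hij : i ≤ j + 1
  · left
    intro k hk
    apply ContinuousLinearMap.opNorm_le_bound _ (by positivity)
    intro x
    have hkproj := blk_proj hD k
    have hYk : Y * blk D k = blk D k * Y :=
      blk_mem_BiComL hD k Y hYC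
    set x1 : H := blk D k (Y x) with hx1
    have hYx1 : Y x1 = x1 := by
      calc Y x1 = (Y * blk D k) (Y x) := rfl
        _ = (blk D k * Y) (Y x) := by rw [hYk]
        _ = blk D k (Y (Y x)) := rfl
        _ = x1 := by rw [hYfix]
    have hkx1 : blk D k x1 = x1 := by
      calc blk D k x1 = (blk D k * blk D k) (Y x) := rfl
        _ = x1 := by rw [mul_self_proj hkproj]
    have hx1n : ‖x1‖ ≤ ‖x‖ := (vw_proj_norm hkproj _).trans (vw_proj_norm hYproj x)
    have hw : bdiag N D T x1 = blk D k (T x1) := by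
      unfold bdiag
      rw [_root_.sum_apply, Finset.sum_eq_single k]
      · show blk D k (T (blk D k x1)) = blk D k (T x1)
        rw [hkx1]
      · intro l _ hlk
        show blk D l (T (blk D l x1)) = 0
        have : blk D l x1 = 0 := by
          calc blk D l x1 = blk D l (blk D k x1) := by rw [hkx1]
            _ = (blk D l * blk D k) x1 := rfl
            _ = 0 := by rw [blk_mul_blk_of_ne hD hlk]; rfl
        rw [this, map_zero, map_zero]
      · intro h; exact absurd (Finset.mem_range.mpr hk) h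
    have hz : (Y * blk D k * T * blk D k * Y) x = Y (bdiag N D T x1) := by
      rw [hw]; rfl
    rw [hz]
    set z : H := Y (bdiag N D T x1) with hzdef
    have hYz : Y z = z := hYfix _
    have h1 := blow' z hYz
    have h2 : qf g' z ≤ qf g' (bdiag N D T x1) := hg'.mono Y hYA hYn _
    have h3 := hdiag x1
    have h4 := bup x1 hYx1
    have h5 : (2:ℝ) ^ (i + 1) ≤ 4 * 2 ^ j := by
      calc (2:ℝ) ^ (i + 1) ≤ 2 ^ (j + 2) := pow_le_pow_right₀ (by norm_num) (by omega)
        _ = 4 * 2 ^ j := by rw [pow_add]; ring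
    have h6 : (2:ℝ) ^ j * ‖z‖ ^ 2 ≤ 2 ^ j * (384 * ε * ‖x‖) ^ 2 := by
      calc (2:ℝ) ^ j * ‖z‖ ^ 2 ≤ (192 * ε) ^ 2 * qf g x1 := h1.trans (h2.trans h3)
        _ ≤ (192 * ε) ^ 2 * (2 ^ (i + 1) * ‖x1‖ ^ 2) := mul_le_mul_of_nonneg_left h4 (by positivity)
        _ ≤ (192 * ε) ^ 2 * ((4 * 2 ^ j) * ‖x‖ ^ 2) := by
            apply mul_le_mul_of_nonneg_left _ (by positivity)
            apply mul_le_mul h5 _ (by positivity) (by positivity)
            exact pow_le_pow_left₀ (norm_nonneg _) hx1n 2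
        _ = 2 ^ j * (384 * ε * ‖x‖) ^ 2 := by ring
    have h7 : ‖z‖ ^ 2 ≤ (384 * ε * ‖x‖) ^ 2 := le_of_mul_le_mul_left h6 (by positivity)
    exact le_of_sq_le_sq h7 (by positivity)
  · right
    push Not at hij
    intro R hR
    by_contra hne
    set R0 : H →L[ℂ] H := Y * R * Y with hR0
    have hR0A : R0 ∈ AlgL L := AlgL_mul L (AlgL_mul L hYA hR.1) hYA
    have hR0n : 0 < ‖R0‖ := norm_pos_iff.mpr hne
    set R1 : H →L[ℂ] H := ((‖R0‖⁻¹ : ℝ) : ℂ) • R0 with hR1
    have hR1n : ‖R1‖ = 1 := by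
      rw [hR1, norm_smul, Complex.norm_real, Real.norm_of_nonneg (by positivity), inv_mul_cancel₀ hR0n.ne']
    have hR1C : R1 ∈ Cross L N D := by
      refine ⟨AlgL_smul L _ hR0A, fun k hk => ?_⟩
      have hYk : Y * blk D k = blk D k * Y := blk_mem_BiComL hD k Y hYC
      have h1 : blk D k * R0 * blk D k = 0 := by
        calc blk D k * R0 * blk D k = (blk D k * Y) * R * (Y * blk D k) := by rw [hR0]; noncomm_ring
          _ = (Y * blk D k) * R * (blk D k * Y) := by rw [hYk]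
          _ = Y * (blk D k * R * blk D k) * Y := by noncomm_ring
          _ = 0 := by rw [hR.2 k hk, mul_zero, zero_mul]
      rw [hR1, mul_smul_comm, smul_mul_assoc, h1, smul_zero]
    have hYR0 : Y * R0 = R0 := by
      rw [hR0, ← mul_assoc, ← mul_assoc, hYY]
    have hR0Y : R0 * Y = R0 := by
      rw [hR0, mul_assoc (Y * R) Y Y, hYY]
    have hYR1 : Y * R1 = R1 := by
      rw [hR1, mul_smul_comm, hYR0]
    have hR1Y : R1 * Y = R1 := by
      rw [hR1, smul_mul_assoc, hR0Y]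
    have hbound : ∀ x, ‖R1 x‖ ≤ Real.sqrt (1/2) * ‖x‖ := by
      intro x
      have e1 : R1 x = R1 (Y x) := by
        calc R1 x = (R1 * Y) x := by rw [hR1Y]
          _ = R1 (Y x) := rfl
      have e2 : Y (R1 x) = R1 x := by
        calc Y (R1 x) = (Y * R1) x := rfl
          _ = R1 x := by rw [hYR1]
      have h1 := blow (R1 x) e2
      have h2 := hcross R1 hR1C hR1n.le (Y x)
      rw [← e1] at h2
      have h3 := bup' (Y x) (hYfix x)
      have h4 : ‖Y x‖ ^ 2 ≤ ‖x‖ ^ 2 := pow_le_pow_left₀ (norm_nonneg _) (vw_proj_norm hYproj x) 2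
      have h5 : (2:ℝ) * 2 ^ (j + 1) ≤ 2 ^ i := by
        calc (2:ℝ) * 2 ^ (j + 1) = 2 ^ (j + 2) := by ring
          _ ≤ 2 ^ i := pow_le_pow_right₀ (by norm_num) (by omega)
      have h6 : (2:ℝ) * 2 ^ (j + 1) * ‖R1 x‖ ^ 2 ≤ 2 ^ (j + 1) * ‖x‖ ^ 2 := by
        calc (2:ℝ) * 2 ^ (j + 1) * ‖R1 x‖ ^ 2 ≤ 2 ^ i * ‖R1 x‖ ^ 2 :=
              mul_le_mul_of_nonneg_right h5 (by positivity)
          _ ≤ 2 ^ (j + 1) * ‖Y x‖ ^ 2 := h1.trans (h2.trans h3)
          _ ≤ 2 ^ (j + 1) * ‖x‖ ^ 2 := mul_le_mul_of_nonneg_left h4 (by positivity)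
      have h7 : (2:ℝ) * ‖R1 x‖ ^ 2 ≤ ‖x‖ ^ 2 := by
        have : (2:ℝ) ^ (j + 1) * (2 * ‖R1 x‖ ^ 2) ≤ 2 ^ (j + 1) * ‖x‖ ^ 2 := by linarith
        exact le_of_mul_le_mul_left this (by positivity)
      apply le_of_sq_le_sq _ (by positivity)
      rw [mul_pow, Real.sq_sqrt (by norm_num)]
      linarith
    have h8 : ‖R1‖ ≤ Real.sqrt (1/2) := ContinuousLinearMap.opNorm_le_bound _ (Real.sqrt_nonneg _) hbound
    rw [hR1n] at h8
    have h9 : Real.sqrt (1/2) < 1 := by
      rw [Real.sqrt_lt' one_pos]; norm_num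
    linarith

end Hop
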