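import Pool.Agent.Helper360.Hop.Defs
import Pool.Agent.Helper360.Hop.Sup
import Pool.Agent.Helper360.Hop.VWm
import Pool.Agent.Helper360.Hop.MinChain
import Pool.Agent.Helper360.Hop.GoodUnion
import Pool.Agent.Helper360.Hop.LimitChain
import Pool.Agent.Helper360.Hop.Strict
import Pool.Agent.Helper360.Hop.FindAnti
import Pool.Agent.Helper360.Hop.AntiVanish
set_option maxHeartbeats 4000000

open scoped InnerProductSpace Topology ComplexConjugate
open Finset Filter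

namespace Hop

variable {H : Type*} [NormedAddCommGroup H] [InnerProductSpace ℂ H] [CompleteSpace H]

/- ================= TARGET ================= -/
theorem MAIN_norm_le {P : H →L[ℂ] H} (h : IsStarProjection P) : ‖P‖ ≤ 1 := by
  have h1 := CStarRing.norm_star_mul_self (x := P)
  rw [star_proj h, mul_self_proj h] at h1
  by_contra hcon
  push Not at hcon
  have h2 : 1 * ‖P‖ < ‖P‖ * ‖P‖ := mul_lt_mul_of_pos_right hcon (by linarith)
  linarith

theorem MAIN_Bi_one (L : CSL H) : (1 : H →L[ℂ] H) ∈ BiComL L := fun S _ => by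
  rw [mul_one, one_mul]

theorem MAIN_Bi_sub (L : CSL H) {S T : H →L[ℂ] H} (hS : S ∈ BiComL L) (hT : T ∈ BiComL L) :
    S - T ∈ BiComL L := fun R hR => by
  rw [mul_sub, sub_mul, hS R hR, hT R hR]

theorem MAIN_Bi_mul (L : CSL H) {S T : H →L[ℂ] H} (hS : S ∈ BiComL L) (hT : T ∈ BiComL L) :
    S * T ∈ BiComL L := fun R hR => by
  rw [← mul_assoc, hS R hR, mul_assoc, hT R hR, mul_assoc]

theorem MAIN_Bi_comm (L : CSL H) {S T : H →L[ℂ] H} (hS : S ∈ BiComL L) (hT : T ∈ BiComL L) :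
    S * T = T * S := hT S (BiComL_sub_ComL L hS)

theorem MAIN_proj_mul {P Q : H →L[ℂ] H} (hP : IsStarProjection P) (hQ : IsStarProjection Q)
    (h : P * Q = Q * P) : IsStarProjection (P * Q) := by
  refine ⟨?_, ?_⟩
  · show P * Q * (P * Q) = P * Q
    calc P * Q * (P * Q) = P * (Q * P) * Q := by noncomm_ring
      _ = P * (P * Q) * Q := by rw [h]
      _ = (P * P) * (Q * Q) := by noncomm_ring
      _ = P * Q := by rw [mul_self_proj hP, mul_self_proj hQ]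
  · show star (P * Q) = P * Q
    rw [star_mul, star_proj hP, star_proj hQ, h]

theorem MAIN_proj_one_sub {P : H →L[ℂ] H} (hP : IsStarProjection P) : IsStarProjection (1 - P) := by
  refine ⟨?_, ?_⟩
  · show (1 - P) * (1 - P) = 1 - P
    calc (1 - P) * (1 - P) = 1 - P - P + P * P := by noncomm_ring
      _ = 1 - P := by rw [mul_self_proj hP]; abel
  · show star (1 - P) = 1 - P
    rw [star_sub, star_one, star_proj hP]

theorem MAIN_proj_one : IsStarProjection (1 : H →L[ℂ] H) := by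
  refine ⟨?_, ?_⟩
  · show (1 : H →L[ℂ] H) * 1 = 1
    rw [mul_one]
  · show star (1 : H →L[ℂ] H) = 1
    rw [star_one]

theorem MAIN_prod (L : CSL H) (l : List (H →L[ℂ] H))
    (hl : ∀ E ∈ l, IsStarProjection E ∧ E ∈ BiComL L) :
    IsStarProjection (l.map (fun E => 1 - E)).prod ∧ (l.map (fun E => 1 - E)).prod ∈ BiComL L := by
  induction l with
  | nil =>
    simp only [List.map_nil, List.prod_nil]
    exact ⟨MAIN_proj_one, MAIN_Bi_one L⟩
  | cons E l ih =>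
    simp only [List.map_cons, List.prod_cons]
    obtain ⟨h1, h2⟩ := ih (fun F hF => hl F (List.mem_cons_of_mem _ hF))
    obtain ⟨h3, h4⟩ := hl E List.mem_cons_self
    have h5 := MAIN_Bi_sub L (MAIN_Bi_one L) h4
    exact ⟨MAIN_proj_mul (MAIN_proj_one_sub h3) h1 (MAIN_Bi_comm L h5 h2),
      MAIN_Bi_mul L h5 h2⟩

theorem MAIN_union (L : CSL H) (l : List (H →L[ℂ] H))
    (hl : ∀ E ∈ l, IsStarProjection E ∧ E ∈ BiComL L) :
    IsStarProjection (unionL l) ∧ unionL l ∈ BiComL L := by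
  obtain ⟨h1, h2⟩ := MAIN_prod L l hl
  exact ⟨MAIN_proj_one_sub h1, MAIN_Bi_sub L (MAIN_Bi_one L) h2⟩

theorem MAIN_int (L : CSL H) {E : H →L[ℂ] H} (hE : IsInt L E) :
    IsStarProjection E ∧ E ∈ BiComL L := by
  obtain ⟨M₁, h1, M₂, h2, h12, rfl⟩ := hE
  exact ⟨(L.proj _ h2).sub_of_mul_eq_left (L.proj _ h1) h12,
    MAIN_Bi_sub L (carrier_sub_BiComL L h1) (carrier_sub_BiComL L h2)⟩

theorem MAIN_InPhi_int (L : CSL H) {φ : (H →L[ℂ] H) → Prop} {E : H →L[ℂ] H}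
    (hE : InPhi L φ E) : IsInt L E := by
  obtain ⟨M₁, h1, M₂, h2, h12, _, _, h⟩ := hE
  exact ⟨M₁, h1, M₂, h2, h12, h⟩

theorem MAIN_InPhi_of (L : CSL H) {φ : (H →L[ℂ] H) → Prop} (hφ : IsHom2 L φ) {D : H →L[ℂ] H}
    (hD : D ∈ L.carrier) (h : φ D) : InPhi L φ D :=
  ⟨D, hD, 0, L.zero_mem, zero_mul _, h, hφ.zero, (sub_zero _).symm⟩

theorem MAIN_InPhi_compl (L : CSL H) {φ : (H →L[ℂ] H) → Prop} (hφ : IsHom2 L φ)
    {D : H →L[ℂ] H} (hD : D ∈ L.carrier) (h : ¬ φ D) : InPhi L φ (1 - D) :=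
  ⟨1, L.one_mem, D, hD, mul_one _, hφ.one, h, rfl⟩

theorem MAIN_InPhi_mul (L : CSL H) {φ : (H →L[ℂ] H) → Prop} (hφ : IsHom2 L φ)
    {E E' : H →L[ℂ] H} (hE : InPhi L φ E) (hE' : InPhi L φ E') : InPhi L φ (E * E') := by
  obtain ⟨M₁, h1, M₂, h2, h12, hp1, hp2, rfl⟩ := hE
  obtain ⟨N₁, k1, N₂, k2, k12, hq1, hq2, rfl⟩ := hE'
  have c1 : N₂ * M₁ = M₁ * N₂ := L.comm _ k2 _ h1
  have c2 : N₁ * M₁ = M₁ * N₁ := L.comm _ k1 _ h1
  have c3 : N₂ * M₂ = M₂ * N₂ := L.comm _ k2 _ h2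
  have c4 : M₁ * M₂ = M₂ := by rw [L.comm _ h1 _ h2, h12]
  have i1 := mul_self_proj (L.proj _ h1)
  have i2 := mul_self_proj (L.proj _ k1)
  have a1 := L.inf_mem _ h1 _ k2
  have a2 := L.inf_mem _ h2 _ k1
  have e1 : M₁ * N₂ * (M₁ * N₁) = M₁ * N₂ := by
    calc M₁ * N₂ * (M₁ * N₁) = M₁ * (N₂ * M₁) * N₁ := by noncomm_ring
      _ = M₁ * (M₁ * N₂) * N₁ := by rw [c1]
      _ = (M₁ * M₁) * (N₂ * N₁) := by noncomm_ring
      _ = M₁ * N₂ := by rw [i1, k12]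
  have e2 : M₂ * N₁ * (M₁ * N₁) = M₂ * N₁ := by
    calc M₂ * N₁ * (M₁ * N₁) = M₂ * (N₁ * M₁) * N₁ := by noncomm_ring
      _ = M₂ * (M₁ * N₁) * N₁ := by rw [c2]
      _ = (M₂ * M₁) * (N₁ * N₁) := by noncomm_ring
      _ = M₂ * N₁ := by rw [h12, i2]
  have e3 : M₁ * N₂ * (M₂ * N₁) = M₂ * N₂ := by
    calc M₁ * N₂ * (M₂ * N₁) = M₁ * (N₂ * M₂) * N₁ := by noncomm_ring
      _ = M₁ * (M₂ * N₂) * N₁ := by rw [c3]
      _ = (M₁ * M₂) * (N₂ * N₁) := by noncomm_ring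
      _ = M₂ * N₂ := by rw [c4, k12]
  refine ⟨M₁ * N₁, L.inf_mem _ h1 _ k1, M₁ * N₂ + M₂ * N₁ - M₁ * N₂ * (M₂ * N₁),
    L.sup_mem _ a1 _ a2, ?_, ?_, ?_, ?_⟩
  · rw [sub_mul, add_mul, e1, e2, mul_assoc (M₁ * N₂), e2]
  · exact (hφ.inf _ h1 _ k1).2 ⟨hp1, hq1⟩
  · rw [hφ.sup _ a1 _ a2, hφ.inf _ h1 _ k2, hφ.inf _ h2 _ k1]
    tauto
  · rw [e3]
    noncomm_ring

theorem MAIN_chain (L : CSL H) {φ : (H →L[ℂ] H) → Prop} (hφ : IsHom2 L φ) {N : ℕ}
    {D : ℕ → (H →L[ℂ] H)} (hD : IsChn L N D) : ∃ k < N, InPhi L φ (blk D k) := by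
  by_contra hcon
  push Not at hcon
  have h : ∀ j, j ≤ N → ¬ φ (D j) := by
    intro j
    induction j with
    | zero => intro _; rw [hD.zero]; exact hφ.zero
    | succ j ih =>
      intro hj hphi
      exact hcon j (by omega) ⟨D (j + 1), hD.mem _, D j, hD.mem _, hD.mono _, hphi,
        ih (by omega), rfl⟩
  apply h N le_rfl
  rw [hD.top]
  exact hφ.one

theorem MAIN_conj_norm {X T : H →L[ℂ] H} (hX : IsStarProjection X) : ‖X * T * X‖ ≤ ‖T‖ := by
  have h1 := MAIN_norm_le hX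
  calc ‖X * T * X‖ ≤ ‖X * T‖ * ‖X‖ := norm_mul_le _ _
    _ ≤ ‖X‖ * ‖T‖ * ‖X‖ := mul_le_mul_of_nonneg_right (norm_mul_le _ _) (norm_nonneg _)
    _ ≤ 1 * ‖T‖ * 1 := by
      apply mul_le_mul _ h1 (norm_nonneg _) (by positivity)
      exact mul_le_mul_of_nonneg_right h1 (norm_nonneg _)
    _ = ‖T‖ := by ring

theorem MAIN_FS (L : CSL H) {B ε : ℝ} (hB : 0 < B) (hε : 0 < ε) {T : H →L[ℂ] H}
    (hT1 : ‖T‖ ≤ 1) (hFS : FS L T B ε) {X : H →L[ℂ] H} (hX : IsStarProjection X)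
    (hXB : X ∈ BiComL L) : FS L (X * T * X) (B / ε + B) ε := by
  intro S hS hS1 m
  have hXA : X ∈ AlgL L := ComL_sub_AlgL L (BiComL_sub_ComL L hXB)
  have hX1 := MAIN_norm_le hX
  cases m with
  | zero =>
    have h1 := hFS 0 (AlgL_zero L) (by simp) 0
    rw [pow_zero, pow_zero, mul_one] at h1
    rw [pow_zero, pow_zero, mul_one]
    have : 0 < B / ε := by positivity
    linarith
  | succ m =>
    have h1 : ∀ m : ℕ, (X * T * X * S) ^ (m + 1) = X * (T * (X * S * X)) ^ m * (T * X * S) := by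
      intro m
      induction m with
      | zero => rw [zero_add, pow_one, pow_zero]; noncomm_ring
      | succ m ih =>
        calc (X * T * X * S) ^ (m + 1 + 1) = (X * T * X * S) ^ (m + 1) * (X * T * X * S) :=
              pow_succ _ _
          _ = X * (T * (X * S * X)) ^ m * (T * X * S) * (X * T * X * S) := by rw [ih]
          _ = X * ((T * (X * S * X)) ^ m * (T * (X * S * X))) * (T * X * S) := by
              simp only [mul_assoc]
          _ = X * (T * (X * S * X)) ^ (m + 1) * (T * X * S) := by rw [← pow_succ]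
    rw [h1]
    have hS' : X * S * X ∈ AlgL L := AlgL_mul L (AlgL_mul L hXA hS) hXA
    have hS1' : ‖X * S * X‖ ≤ 1 := (MAIN_conj_norm hX).trans hS1
    have h2 := hFS _ hS' hS1' m
    have h3 : ‖T * X * S‖ ≤ 1 := by
      calc ‖T * X * S‖ ≤ ‖T * X‖ * ‖S‖ := norm_mul_le _ _
        _ ≤ ‖T‖ * ‖X‖ * ‖S‖ := mul_le_mul_of_nonneg_right (norm_mul_le _ _) (norm_nonneg _)
        _ ≤ 1 * 1 * 1 := by
          apply mul_le_mul _ hS1 (norm_nonneg _) (by norm_num)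
          exact mul_le_mul hT1 hX1 (norm_nonneg _) (by norm_num)
        _ = 1 := by norm_num
    have h4 : 0 ≤ B * ε ^ m := by positivity
    calc ‖X * (T * (X * S * X)) ^ m * (T * X * S)‖
        ≤ ‖X * (T * (X * S * X)) ^ m‖ * ‖T * X * S‖ := norm_mul_le _ _
      _ ≤ ‖X‖ * ‖(T * (X * S * X)) ^ m‖ * ‖T * X * S‖ :=
          mul_le_mul_of_nonneg_right (norm_mul_le _ _) (norm_nonneg _)
      _ ≤ 1 * (B * ε ^ m) * 1 := by
          apply mul_le_mul _ h3 (norm_nonneg _) (by positivity)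
          exact mul_le_mul hX1 h2 (norm_nonneg _) (by norm_num)
      _ = B / ε * ε ^ (m + 1) := by
          rw [pow_succ]; field_simp
      _ ≤ (B / ε + B) * ε ^ (m + 1) :=
          mul_le_mul_of_nonneg_right (by linarith) (by positivity)

theorem MAIN_W (L : CSL H) {B ε : ℝ} (hε : 0 < ε) {T : H →L[ℂ] H}
    (hT : T ∈ AlgL L) (hFS : FS L T B ε) {Q : H →L[ℂ] H} (hQ : IsStarProjection Q)
    (hA : Anti L Q) : ‖Q * T * Q‖ ≤ ε := by
  obtain ⟨W, hWdef⟩ : ∃ W, W = Q * T * Q := ⟨_, rfl⟩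
  rw [← hWdef]
  have hW : W ∈ ComL L := by rw [hWdef]; exact hA T hT
  by_contra hcon
  push Not at hcon
  have hW0 : 0 < ‖W‖ := hε.trans hcon
  have hQQ := mul_self_proj hQ
  obtain ⟨S, hSdef⟩ : ∃ S, S = ((‖W‖⁻¹ : ℝ) : ℂ) • star W := ⟨_, rfl⟩
  have hSA : S ∈ AlgL L := by
    rw [hSdef]; exact ComL_sub_AlgL L (ComL_smul L _ (ComL_star L hW))
  have hS1 : ‖S‖ ≤ 1 := by
    rw [hSdef, norm_smul, norm_star, Complex.norm_real, norm_inv, norm_norm,
      inv_mul_cancel₀ hW0.ne']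
  have hsW : star W = Q * star T * Q := by
    rw [hWdef, star_mul, star_mul, star_proj hQ, mul_assoc]
  have hSQ : S * Q = S := by
    rw [hSdef, smul_mul_assoc, hsW, mul_assoc (Q * star T), hQQ]
  have hQS : Q * S = S := by
    rw [hSdef, mul_smul_comm, hsW, ← mul_assoc, ← mul_assoc, hQQ]
  have h1 : ∀ m : ℕ, (W * S) ^ (m + 1) = Q * (T * S) ^ (m + 1) := by
    intro m
    induction m with
    | zero =>
      rw [zero_add, pow_one, pow_one, hWdef]
      calc Q * T * Q * S = Q * T * (Q * S) := by noncomm_ring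
        _ = Q * (T * S) := by rw [hQS]; noncomm_ring
    | succ m ih =>
      have h2 : (T * S) ^ (m + 1) * Q = (T * S) ^ (m + 1) := by
        rw [pow_succ, mul_assoc, mul_assoc T S Q, hSQ]
      calc (W * S) ^ (m + 1 + 1) = (W * S) ^ (m + 1) * (W * S) := pow_succ _ _
        _ = Q * (T * S) ^ (m + 1) * (Q * T * Q * S) := by rw [ih, hWdef]
        _ = Q * ((T * S) ^ (m + 1) * Q) * T * (Q * S) := by noncomm_ring
        _ = Q * ((T * S) ^ (m + 1) * (T * S)) := by rw [h2, hQS]; noncomm_ring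
        _ = Q * (T * S) ^ (m + 1 + 1) := by rw [← pow_succ]
  have h3 : ∀ m : ℕ, 1 ≤ m → ‖(W * S) ^ m‖ ≤ B * ε ^ m := by
    intro m hm
    obtain ⟨m, rfl⟩ : ∃ m', m = m' + 1 := ⟨m - 1, by omega⟩
    rw [h1]
    calc ‖Q * (T * S) ^ (m + 1)‖ ≤ ‖Q‖ * ‖(T * S) ^ (m + 1)‖ := norm_mul_le _ _
      _ ≤ 1 * ‖(T * S) ^ (m + 1)‖ :=
          mul_le_mul_of_nonneg_right (MAIN_norm_le hQ) (norm_nonneg _)
      _ ≤ B * ε ^ (m + 1) := by rw [one_mul]; exact hFS S hSA hS1 _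
  have h4 : ∀ n : ℕ, ‖W‖ ^ (2 ^ n) ≤ B * ε ^ (2 ^ n) := by
    intro n
    refine le_trans (le_of_eq ?_) (h3 (2 ^ n) Nat.one_le_two_pow)
    have h5 : W * S = ((‖W‖⁻¹ : ℝ) : ℂ) • (W * star W) := by
      rw [hSdef, mul_smul_comm]
    have h6 : ‖(W * star W) ^ 2 ^ n‖ = ‖W * star W‖ ^ 2 ^ n := by
      have := (IsSelfAdjoint.mul_star_self W).nnnorm_pow_two_pow n
      rw [← coe_nnnorm, this, NNReal.coe_pow, coe_nnnorm]
    rw [h5, smul_pow, norm_smul, h6, CStarRing.norm_self_mul_star, norm_pow, Complex.norm_real,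
      norm_inv, norm_norm, ← mul_pow]
    congr 1
    field_simp
  have h5 : 1 < ‖W‖ / ε := (one_lt_div hε).2 hcon
  obtain ⟨n, hn⟩ := pow_unbounded_of_one_lt B h5
  have h6 : (‖W‖ / ε) ^ n ≤ (‖W‖ / ε) ^ (2 ^ n) :=
    pow_le_pow_right₀ h5.le Nat.lt_two_pow_self.le
  have h7 : (‖W‖ / ε) ^ (2 ^ n) ≤ B := by
    rw [div_pow, div_le_iff₀ (by positivity)]
    exact h4 n
  linarith

/-- the part of `E T E` seen by `U` -/
theorem MAIN_U {E E1 U T : H →L[ℂ] H} (hE : IsStarProjection E) (h1 : E * E1 = E)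
    (h1' : E1 * E = E) : ‖E * (U * T * U) * E‖ ≤ ‖E1 * (U * T * U) * E1‖ := by
  have h2 : E * (U * T * U) * E = E * (E1 * (U * T * U) * E1) * E := by
    calc E * (U * T * U) * E = (E * E1) * (U * T * U) * (E1 * E) := by rw [h1, h1']
      _ = _ := by noncomm_ring
  rw [h2]
  exact MAIN_conj_norm hE

theorem main_small (L : CSL H) (B ε : ℝ) (hB : 0 < B) (hε : 0 < ε) (T : H →L[ℂ] H)
    (hT : T ∈ AlgL L) (hT1 : ‖T‖ ≤ 1) (hFS : FS L T B ε)
    (φ : (H →L[ℂ] H) → Prop) (hφ : IsHom2 L φ) :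
    ∃ E, InPhi L φ E ∧ ‖E * T * E‖ ≤ 1200 * ε := by
  obtain ⟨EE, hEEdef⟩ : ∃ EE : Set (H →L[ℂ] H), EE = {E | IsInt L E ∧ ‖E * T * E‖ ≤ 384 * ε} :=
    ⟨_, rfl⟩
  have hEE : ∀ E, E ∈ EE ↔ IsInt L E ∧ ‖E * T * E‖ ≤ 384 * ε := by
    intro E; rw [hEEdef]; exact Iff.rfl
  have hδ : 0 < 384 * ε := by positivity
  obtain ⟨r, hr⟩ := vw L B ε hB hε
  have hVW := hr T hT hT1 hFS
  have hB' : 0 < B / ε + B := by positivity
  obtain ⟨r', hr'⟩ := vw L (B / ε + B) ε hB' hε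
  have hEEp : ∀ E ∈ EE, IsStarProjection E ∧ E ∈ BiComL L := fun E hE =>
    MAIN_int L ((hEE E).1 hE).1
  -- finite unions
  have hgood : ∀ l : List (H →L[ℂ] H), (∀ E ∈ l, E ∈ EE) →
      Good L (unionL l * T * unionL l) (384 * ε) (4 * r' ^ 2 + 4 * r' + 1) := by
    intro l hl
    obtain ⟨hX, hXB⟩ := MAIN_union L l (fun E hE => hEEp E (hl E hE))
    have hXA : unionL l ∈ AlgL L := ComL_sub_AlgL L (BiComL_sub_ComL L hXB)
    have hTl : unionL l * T * unionL l ∈ AlgL L := AlgL_mul L (AlgL_mul L hXA hT) hXA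
    have hTl1 : ‖unionL l * T * unionL l‖ ≤ 1 := (MAIN_conj_norm hX).trans hT1
    have hVWl := hr' _ hTl hTl1 (MAIN_FS L hB hε hT1 hFS hX hXB)
    have hfin := good_union L T hT (384 * ε) hδ l (fun E hE => (hEE E).1 (hl E hE))
    exact min_chain L _ hTl _ hδ r' hVWl hfin
  -- the supremum
  obtain ⟨U, hU, hU1, _, hU3, hU4⟩ := exists_sup EE (fun E hE => (hEEp E hE).1)
    (fun E hE F hF => MAIN_Bi_comm L (hEEp E hE).2 (hEEp F hF).2)
  obtain ⟨q, G, hG, hG1⟩ := limit_chain L T hT hT1 (384 * ε) hδ _ EE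
    (fun E hE => ((hEE E).1 hE).1) hgood U hU hU4
  have hUB : U ∈ BiComL L := fun S hS => hU3 S (fun E hE => (hEEp E hE).2 S hS)
  obtain ⟨Q, hQdef⟩ : ∃ Q, Q = 1 - U := ⟨_, rfl⟩
  have hQ : IsStarProjection Q := by rw [hQdef]; exact MAIN_proj_one_sub hU
  have hQB : Q ∈ BiComL L := by rw [hQdef]; exact MAIN_Bi_sub L (MAIN_Bi_one L) hUB
  have hQE : ∀ E, IsInt L E → ‖E * T * E‖ ≤ 384 * ε → Q * E = 0 := by
    intro E h1 h2
    rw [hQdef, sub_mul, one_mul, hU1 E ((hEE E).2 ⟨h1, h2⟩), sub_self]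
  obtain ⟨E0, hE0, hA⟩ := find_antichain L r Q hQ hQB
    (fun D R hD hR => strict_nilp L T hT _ r hVW Q hQ hQB hQE D R hD hR) φ hφ
  obtain ⟨hE0p, hE0B⟩ := MAIN_int L (MAIN_InPhi_int L hE0)
  obtain ⟨Q0, hQ0def⟩ : ∃ Q0, Q0 = E0 * Q := ⟨_, rfl⟩
  rw [← hQ0def] at hA
  have hQ0 : IsStarProjection Q0 := by
    rw [hQ0def]; exact MAIN_proj_mul hE0p hQ (MAIN_Bi_comm L hE0B hQB)
  have hQ0B : Q0 ∈ BiComL L := by rw [hQ0def]; exact MAIN_Bi_mul L hE0B hQB
  obtain ⟨⟨D, hD, hD1, hD2⟩, ⟨D', hD', hD'1, hD'2⟩⟩ := antichain_vanish L Q0 hQ0 hQ0B hA T hT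
  obtain ⟨k, hk, hE1⟩ := MAIN_chain L hφ hG
  have hE1n := hG1 k hk
  obtain ⟨E1, hE1def⟩ : ∃ E1, E1 = blk G k := ⟨_, rfl⟩
  rw [← hE1def] at hE1 hE1n
  obtain ⟨hE1p, hE1B⟩ := MAIN_int L (MAIN_InPhi_int L hE1)
  -- general facts for `E = E0 * E1 * F`
  have key : ∀ F, InPhi L φ F → InPhi L φ (E0 * E1 * F) ∧ IsStarProjection (E0 * E1 * F) ∧
      E0 * E1 * F ∈ BiComL L ∧ E0 * E1 * F * E0 = E0 * E1 * F ∧
      E0 * E1 * F * E1 = E0 * E1 * F ∧ E0 * E1 * F * F = E0 * E1 * F := by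
    intro F hF
    obtain ⟨hFp, hFB⟩ := MAIN_int L (MAIN_InPhi_int L hF)
    have h1 := MAIN_InPhi_mul L hφ (MAIN_InPhi_mul L hφ hE0 hE1) hF
    obtain ⟨h2, h3⟩ := MAIN_int L (MAIN_InPhi_int L h1)
    refine ⟨h1, h2, h3, ?_, ?_, ?_⟩
    · rw [MAIN_Bi_comm L h3 hE0B]
      calc E0 * (E0 * E1 * F) = (E0 * E0) * E1 * F := by noncomm_ring
        _ = E0 * E1 * F := by rw [mul_self_proj hE0p]
    · rw [MAIN_Bi_comm L h3 hE1B]
      calc E1 * (E0 * E1 * F) = (E1 * E0) * E1 * F := by noncomm_ring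
        _ = (E0 * E1) * E1 * F := by rw [MAIN_Bi_comm L hE1B hE0B]
        _ = E0 * (E1 * E1) * F := by noncomm_ring
        _ = E0 * E1 * F := by rw [mul_self_proj hE1p]
    · rw [mul_assoc (E0 * E1), mul_self_proj hFp]
  -- the easy cases
  have easy : ∀ F, InPhi L φ F → F * Q0 = 0 → ∃ E, InPhi L φ E ∧ ‖E * T * E‖ ≤ 1200 * ε := by
    intro F hF hFQ
    obtain ⟨h1, h2, h3, h4, h5, h6⟩ := key F hF
    refine ⟨_, h1, ?_⟩
    obtain ⟨E, hEdef⟩ : ∃ E, E = E0 * E1 * F := ⟨_, rfl⟩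
    rw [← hEdef] at h1 h2 h3 h4 h5 h6 ⊢
    have h7 : E * Q = 0 := by
      calc E * Q = E * E0 * Q := by rw [h4]
        _ = E * Q0 := by rw [mul_assoc, ← hQ0def]
        _ = E * F * Q0 := by rw [h6]
        _ = 0 := by rw [mul_assoc, hFQ, mul_zero]
    have h8 : E * U = E := by
      rw [hQdef, mul_sub, mul_one] at h7
      exact (sub_eq_zero.1 h7).symm
    have h9 : U * E = E := by rw [MAIN_Bi_comm L hUB h3, h8]
    have h10 : E1 * E = E := by rw [MAIN_Bi_comm L hE1B h3, h5]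
    have h11 : E * T * E = E * (U * T * U) * E := by
      calc E * T * E = (E * U) * T * (U * E) := by rw [h8, h9]
        _ = _ := by noncomm_ring
    rw [h11]
    refine (MAIN_U h2 h5 h10).trans (hE1n.trans ?_)
    linarith
  by_cases hφD : φ D
  · by_cases hφD' : φ D'
    · exact easy D' (MAIN_InPhi_of L hφ hD' hφD') hD'1
    · have hF := MAIN_InPhi_mul L hφ (MAIN_InPhi_of L hφ hD hφD) (MAIN_InPhi_compl L hφ hD' hφD')
      obtain ⟨h1, h2, h3, h4, h5, h6⟩ := key _ hF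
      refine ⟨_, h1, ?_⟩
      obtain ⟨E, hEdef⟩ : ∃ E, E = E0 * E1 * (D * (1 - D')) := ⟨_, rfl⟩
      rw [← hEdef] at h1 h2 h3 h4 h5 h6 ⊢
      have hDB := carrier_sub_BiComL L hD
      have hD'B := carrier_sub_BiComL L hD'
      have hEQ : E * Q = E * Q0 := by
        calc E * Q = E * E0 * Q := by rw [h4]
          _ = E * Q0 := by rw [mul_assoc, ← hQ0def]
      have hEU : E * U = E * (1 - Q0) := by
        have h7 : E * U = E - E * Q := by rw [hQdef]; noncomm_ring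
        rw [h7, hEQ, mul_sub, mul_one]
      have hUE : U * E = (1 - Q0) * E := by
        rw [MAIN_Bi_comm L hUB h3, hEU,
          MAIN_Bi_comm L h3 (MAIN_Bi_sub L (MAIN_Bi_one L) hQ0B)]
      have hDE : D * E = E := by
        rw [MAIN_Bi_comm L hDB h3]
        calc E * D = E * (D * (1 - D')) * D := by rw [h6]
          _ = E * (D * ((1 - D') * D)) := by noncomm_ring
          _ = E * (D * (D * (1 - D'))) := by
            rw [MAIN_Bi_comm L (MAIN_Bi_sub L (MAIN_Bi_one L) hD'B) hDB]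
          _ = E * ((D * D) * (1 - D')) := by noncomm_ring
          _ = E := by rw [mul_self_proj (L.proj _ hD), h6]
      have hED' : E * (1 - D') = E := by
        calc E * (1 - D') = E * (D * (1 - D')) * (1 - D') := by rw [h6]
          _ = E * (D * ((1 - D') * (1 - D'))) := by noncomm_ring
          _ = E := by rw [mul_self_proj (MAIN_proj_one_sub (L.proj _ hD')), h6]
      have z1 : Q0 * T * (1 - Q0) * E = 0 := by
        calc Q0 * T * (1 - Q0) * E = Q0 * T * (1 - Q0) * (D * E) := by rw [hDE]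
          _ = (Q0 * T * (1 - Q0) * D) * E := by noncomm_ring
          _ = 0 := by rw [hD2, zero_mul]
      have z2 : E * (1 - Q0) * T * Q0 = 0 := by
        calc E * (1 - Q0) * T * Q0 = E * (1 - D') * (1 - Q0) * T * Q0 := by rw [hED']
          _ = E * ((1 - D') * (1 - Q0) * T * Q0) := by noncomm_ring
          _ = 0 := by rw [hD'2, mul_zero]
      have h10 : E1 * E = E := by rw [MAIN_Bi_comm L hE1B h3, h5]
      have h11 : E * T * E = E * (Q0 * T * Q0) * E + E * (U * T * U) * E := by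
        have e1 : E * (U * T * U) * E = E * (1 - Q0) * T * ((1 - Q0) * E) := by
          calc E * (U * T * U) * E = (E * U) * T * (U * E) := by noncomm_ring
            _ = _ := by rw [hEU, hUE]
        rw [e1]
        calc E * T * E = E * (Q0 * T * Q0) * E + E * (1 - Q0) * T * ((1 - Q0) * E) +
              E * (Q0 * T * (1 - Q0) * E) + (E * (1 - Q0) * T * Q0) * E := by noncomm_ring
          _ = _ := by rw [z1, z2, mul_zero, zero_mul, add_zero, add_zero]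
      rw [h11]
      have n1 : ‖E * (Q0 * T * Q0) * E‖ ≤ ε :=
        (MAIN_conj_norm h2).trans (MAIN_W L hε hT hFS hQ0 hA)
      have n2 := (MAIN_U (U := U) (T := T) h2 h5 h10).trans hE1n
      calc ‖E * (Q0 * T * Q0) * E + E * (U * T * U) * E‖ ≤ ‖E * (Q0 * T * Q0) * E‖ +
            ‖E * (U * T * U) * E‖ := norm_add_le _ _
        _ ≤ ε + 3 * (384 * ε) := add_le_add n1 n2
        _ ≤ 1200 * ε := by linarith
  · apply easy (1 - D) (MAIN_InPhi_compl L hφ hD hφD)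
    rw [sub_mul, one_mul, hD1, sub_self]

end Hop
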