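import Pool.Agent.Helper360.Hop.Defs

set_option maxHeartbeats 4000000

open scoped InnerProductSpace Topology ComplexConjugate
open Finset Filter

namespace Hop

variable {H : Type*} [NormedAddCommGroup H] [InnerProductSpace ℂ H] [CompleteSpace H]

theorem hopR1_left_unit {A : Type*} [Ring A] {x : A} (hx : x ∈ Ring.jacobson A) : ∃ z, z * (1 - x) = 1 := by
  rw [← Ideal.jacobson_bot, Ideal.mem_jacobson_iff] at hx
  obtain ⟨z, hz⟩ := hx (-1)
  rw [Ideal.mem_bot] at hz
  refine ⟨z, ?_⟩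
  have : z * (1 - x) - 1 = z * -1 * x + z - 1 := by noncomm_ring
  rw [← sub_eq_zero, this, hz]

theorem hopR1_unit {A : Type*} [Ring A] {x : A} (hx : x ∈ Ring.jacobson A) : IsUnit (1 - x) := by
  obtain ⟨z, hz⟩ := hopR1_left_unit hx
  have hzx : -(z * x) ∈ Ring.jacobson A := neg_mem (Ideal.mul_mem_left _ z hx)
  obtain ⟨w, hw⟩ := hopR1_left_unit hzx
  have hz1 : 1 - (-(z * x)) = z := by
    rw [sub_neg_eq_add]
    calc 1 + z * x = z * (1 - x) + z * x := by rw [hz]
      _ = z := by noncomm_ring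
  rw [hz1] at hw
  have hwx : w = 1 - x := by
    calc w = w * (z * (1 - x)) := by rw [hz, mul_one]
      _ = (w * z) * (1 - x) := by rw [mul_assoc]
      _ = 1 - x := by rw [hw, one_mul]
  exact ⟨⟨1 - x, z, by rw [← hwx]; exact hw, hz⟩, rfl⟩

theorem hopR1_spectrum {A : Type*} [Ring A] [Algebra ℂ A] {a : A} (ha : a ∈ Ring.jacobson A) :
    ∀ z ∈ spectrum ℂ a, z = 0 := by
  intro z hz
  by_contra hz0
  rw [spectrum.mem_iff] at hz
  apply hz
  have h1 : z⁻¹ • a ∈ Ring.jacobson A := by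
    rw [Algebra.smul_def]
    exact Ideal.mul_mem_left _ _ ha
  have h2 := hopR1_unit h1
  have h3 : algebraMap ℂ A z - a = algebraMap ℂ A z * (1 - z⁻¹ • a) := by
    rw [mul_sub, mul_one, Algebra.smul_def, ← mul_assoc, ← map_mul, mul_inv_cancel₀ hz0, map_one, one_mul]
  rw [h3]
  exact ((isUnit_iff_ne_zero.mpr hz0).map (algebraMap ℂ A)).mul h2

theorem hopR1_closed (L : CSL H) : IsClosed (AlgL L) := by
  have : AlgL L = ⋂ P ∈ L.carrier, {T : H →L[ℂ] H | (1 - P) * T * P = 0} := by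
    ext T; simp [AlgL]
  rw [this]
  apply isClosed_biInter
  intro P _
  exact isClosed_eq (by fun_prop) continuous_const

/- ================= TARGET ================= -/
/-- elements of the radical are quasinilpotent in the strong sense -/
theorem radical_quasinilpotent (L : CSL H) (T : algL L) (hT : T ∈ Ring.jacobson (algL L)) :
    ∀ S ∈ AlgL L, ∀ ε > 0, ∃ m₀ : ℕ, ∀ m ≥ m₀, ‖((T : H →L[ℂ] H) * S) ^ m‖ ≤ ε ^ m := by
  intro S hS ε hε
  have hcl : IsClosed ((algL L : Subalgebra ℂ (H →L[ℂ] H)) : Set (H →L[ℂ] H)) := hopR1_closed L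
  have hcomp : CompleteSpace (algL L) := hcl.completeSpace_coe
  let S' : algL L := ⟨S, hS⟩
  have hTS : T * S' ∈ Ring.jacobson (algL L) := Ideal.mul_mem_right _ _ hT
  have hsp := hopR1_spectrum hTS
  have hr : spectralRadius ℂ (T * S') = 0 := by
    unfold spectralRadius
    apply le_antisymm _ zero_le
    apply iSup₂_le
    intro k hk
    rw [hsp k hk]; simp
  have hg := spectrum.pow_norm_pow_one_div_tendsto_nhds_spectralRadius (T * S')
  rw [hr] at hg
  have hev : ∀ᶠ n : ℕ in atTop, ENNReal.ofReal (‖(T * S') ^ n‖ ^ (1 / n : ℝ)) < ENNReal.ofReal ε :=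
    hg.eventually_lt_const (ENNReal.ofReal_pos.mpr hε)
  obtain ⟨m₀, hm₀⟩ := (hev.and (eventually_ge_atTop 1)).exists_forall_of_atTop
  refine ⟨m₀, fun m hm => ?_⟩
  obtain ⟨h1, h2⟩ := hm₀ m hm
  rw [ENNReal.ofReal_lt_ofReal_iff hε] at h1
  have h3 : ‖(T * S') ^ m‖ = (‖(T * S') ^ m‖ ^ (1 / m : ℝ)) ^ m := by
    rw [one_div, Real.rpow_inv_natCast_pow (norm_nonneg _) (by omega)]
  have h4 : ‖(T * S') ^ m‖ ≤ ε ^ m := by
    rw [h3]
    exact pow_le_pow_left₀ (by positivity) h1.le m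
  exact h4

end Hop
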