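import Pool.Agent.Helper360.Hop.Defs
import Pool.Agent.Helper360.Hop.Sup
import Pool.Agent.Helper360.Hop.Main
import Pool.Agent.Helper360.Hop.Localise
import Pool.Agent.Helper360.Hop.Corner
import Pool.Agent.Helper360.Hop.RadQ
import Pool.Agent.Helper360.Hop.CompactHom
import Pool.Agent.Helper360.Hop.Easy
set_option maxHeartbeats 4000000

open scoped InnerProductSpace Topology ComplexConjugate
open Finset Filter

namespace Hop

variable {H : Type*} [NormedAddCommGroup H] [InnerProductSpace ℂ H] [CompleteSpace H]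

/-- the seminorm `‖T‖_φ` -/
noncomputable def phiNorm (L : CSL H) (φ : (H →L[ℂ] H) → Prop) (T : H →L[ℂ] H) : ℝ :=
  sInf {r : ℝ | ∃ E, InPhi L φ E ∧ r = ‖E * T * E‖}

theorem fin_InPhi_proj {L : CSL H} {φ : (H →L[ℂ] H) → Prop} {E : H →L[ℂ] H}
    (h : InPhi L φ E) : IsStarProjection E := by
  obtain ⟨M₁, h1, M₂, h2, h12, -, -, rfl⟩ := h
  exact (L.proj _ h2).sub_of_mul_eq_left (L.proj _ h1) h12

theorem fin_InPhi_BiComL {L : CSL H} {φ : (H →L[ℂ] H) → Prop} {E : H →L[ℂ] H}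
    (h : InPhi L φ E) : E ∈ BiComL L := by
  obtain ⟨M₁, h1, M₂, h2, h12, -, -, rfl⟩ := h
  intro S hS
  rw [mul_sub, sub_mul, hS _ h1, hS _ h2]

theorem fin_InPhi_comm {L : CSL H} {φ : (H →L[ℂ] H) → Prop} {E F : H →L[ℂ] H}
    (hE : InPhi L φ E) (hF : InPhi L φ F) : E * F = F * E :=
  (fin_InPhi_BiComL hF) E (BiComL_sub_ComL L (fin_InPhi_BiComL hE))

theorem fin_InPhi_one {L : CSL H} {φ : (H →L[ℂ] H) → Prop} (hφ : IsHom2 L φ) :
    InPhi L φ 1 :=
  ⟨1, L.one_mem, 0, L.zero_mem, by simp, hφ.one, hφ.zero, by simp⟩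

theorem fin_InPhi_mul {L : CSL H} {φ : (H →L[ℂ] H) → Prop} (hφ : IsHom2 L φ)
    {E F : H →L[ℂ] H} (hE : InPhi L φ E) (hF : InPhi L φ F) : InPhi L φ (E * F) := by
  obtain ⟨M₁, h1, M₂, h2, h12, hf1, hf2, rfl⟩ := hE
  obtain ⟨N₁, g1, N₂, g2, g12, gf1, gf2, rfl⟩ := hF
  have c1 := L.comm M₁ h1 N₁ g1
  have c2 := L.comm M₁ h1 N₂ g2
  have c3 := L.comm M₂ h2 N₁ g1
  have c4 := L.comm M₂ h2 N₂ g2
  have c5 := L.comm M₁ h1 M₂ h2
  have c6 := L.comm N₁ g1 N₂ g2
  have hm1 := L.inf_mem _ h1 _ g1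
  have hm2 := L.sup_mem _ h2 _ g2
  have p1 := mul_self_proj (L.proj _ hm1)
  refine ⟨M₁ * N₁, hm1, (M₁ * N₁) * (M₂ + N₂ - M₂ * N₂), L.inf_mem _ hm1 _ hm2, ?_, ?_, ?_, ?_⟩
  · rw [L.comm _ hm1 _ hm2, mul_assoc, p1]
  · exact (hφ.inf _ h1 _ g1).mpr ⟨hf1, gf1⟩
  · intro hc
    have h3 := ((hφ.inf _ hm1 _ hm2).mp hc).2
    rcases (hφ.sup _ h2 _ g2).mp h3 with h | h
    · exact hf2 h
    · exact gf2 h
  · have e1 : M₁ * N₁ * M₂ = N₁ * M₂ := by rw [c1, mul_assoc, c5, h12]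
    have e2 : M₁ * N₁ * N₂ = M₁ * N₂ := by rw [mul_assoc, c6, g12]
    have e3 : M₁ * N₁ * (M₂ * N₂) = M₂ * N₂ := by
      calc M₁ * N₁ * (M₂ * N₂) = (M₁ * N₁ * M₂) * N₂ := by noncomm_ring
        _ = (N₁ * M₂) * N₂ := by rw [e1]
        _ = (M₂ * N₁) * N₂ := by rw [← c3]
        _ = M₂ * (N₂ * N₁) := by rw [mul_assoc, c6]
        _ = M₂ * N₂ := by rw [g12]
    rw [mul_sub (M₁ * N₁), mul_add (M₁ * N₁), e1, e2, e3]
    rw [sub_mul, mul_sub, mul_sub, c3]
    abel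

theorem fin_InPhi_prod {L : CSL H} {φ : (H →L[ℂ] H) → Prop} (hφ : IsHom2 L φ)
    (l : List (H →L[ℂ] H)) (h : ∀ E ∈ l, InPhi L φ E) : InPhi L φ l.prod := by
  induction l with
  | nil => simpa using fin_InPhi_one hφ
  | cons a l ih =>
    rw [List.prod_cons]
    exact fin_InPhi_mul hφ (h a (by simp)) (ih fun E hE => h E (by simp [hE]))

theorem fin_norm_proj_le {P : H →L[ℂ] H} (hP : IsStarProjection P) : ‖P‖ ≤ 1 := hP.norm_le

theorem fin_norm_compress {P X : H →L[ℂ] H} (hP : IsStarProjection P) :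
    ‖P * X * P‖ ≤ ‖X‖ := by
  have h1 := fin_norm_proj_le hP
  calc ‖P * X * P‖ ≤ ‖P * X‖ * ‖P‖ := norm_mul_le _ _
    _ ≤ (‖P‖ * ‖X‖) * ‖P‖ := mul_le_mul_of_nonneg_right (norm_mul_le _ _) (norm_nonneg _)
    _ ≤ (1 * ‖X‖) * 1 := by
        apply mul_le_mul _ h1 (norm_nonneg _) (by positivity)
        exact mul_le_mul_of_nonneg_right h1 (norm_nonneg _)
    _ = ‖X‖ := by ring

/-- the atom at `φ` -/
theorem fin_atom (L : CSL H) (φ : (H →L[ℂ] H) → Prop) (hφ : IsHom2 L φ) :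
    ∃ P : H →L[ℂ] H, IsStarProjection P ∧ P ∈ BiComL L ∧ (∀ E, InPhi L φ E → E * P = P) ∧
      (∀ x : H, ∀ η > 0, ∃ E, InPhi L φ E ∧ ‖(E - P) x‖ < η) := by
  obtain ⟨U, hU, hUE, -, hUS, hUlim⟩ := exists_sup {F : H →L[ℂ] H | ∃ E, InPhi L φ E ∧ F = 1 - E}
    (by rintro F ⟨E, hE, rfl⟩; exact (fin_InPhi_proj hE).one_sub)
    (by
      rintro F ⟨E, hE, rfl⟩ F' ⟨E', hE', rfl⟩
      have := fin_InPhi_comm hE hE'
      have h1 : (1 - E) * (1 - E') = 1 - E - E' + E * E' := by noncomm_ring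
      have h2 : (1 - E') * (1 - E) = 1 - E - E' + E' * E := by noncomm_ring
      rw [h1, h2, this])
  refine ⟨1 - U, hU.one_sub, ?_, ?_, ?_⟩
  · intro S hS
    have h1 := hUS S (by
      rintro F ⟨E, hE, rfl⟩
      have := fin_InPhi_BiComL hE S hS
      rw [mul_sub, sub_mul, this]; simp)
    rw [mul_sub, sub_mul, h1]; simp
  · intro E hE
    have h1 : U * (1 - E) = 1 - E := hUE _ ⟨E, hE, rfl⟩
    have h2 : (1 - E) * U = 1 - E := by
      have := congrArg star h1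
      rw [star_mul, star_proj hU, star_proj (fin_InPhi_proj hE).one_sub] at this
      exact this
    have h3 : E * (1 - U) = (1 - U) - ((1 - E) - (1 - E) * U) := by noncomm_ring
    rw [h3, h2, sub_self, sub_zero]
  · intro x η hη
    obtain ⟨l, hl, hl'⟩ := hUlim x η hη
    have h1 := hl' l hl (List.Subset.refl l)
    refine ⟨(l.map (fun E => 1 - E)).prod, ?_, ?_⟩
    · apply fin_InPhi_prod hφ
      intro E hE
      rw [List.mem_map] at hE
      obtain ⟨F, hF, rfl⟩ := hE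
      obtain ⟨E, hE, rfl⟩ := hl F hF
      simpa using hE
    · have h2 : ((l.map (fun E => 1 - E)).prod - (1 - U)) x = U x - unionL l x := by
        rw [unionL]
        simp only [_root_.sub_apply, one_apply_eq_self]
        abel
      rw [h2]; exact h1

theorem fin_key (L : CSL H) (T : H →L[ℂ] H) (hT : T ∈ AlgL L) (hT1 : ‖T‖ ≤ 1)
    (hq : ∀ S ∈ AlgL L, ∀ ε > 0, ∃ m₀ : ℕ, ∀ m ≥ m₀, ‖(T * S) ^ m‖ ≤ ε ^ m)
    (φ : (H →L[ℂ] H) → Prop) (hφ : IsHom2 L φ) (ε : ℝ) (hε : 0 < ε) :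
    ∃ E, InPhi L φ E ∧ ‖E * T * E‖ ≤ 1200 * ε := by
  obtain ⟨P, hP, hPB, hPE, hPlim⟩ := fin_atom L φ hφ
  have hPφ : ∀ D ∈ L.carrier, (φ D → D * P = P) ∧ (¬ φ D → D * P = 0) := by
    intro D hD
    refine ⟨fun h => ?_, fun h => ?_⟩
    · have := hPE D ⟨D, hD, 0, L.zero_mem, by simp, h, hφ.zero, by simp⟩
      exact this
    · have := hPE (1 - D) ⟨1, L.one_mem, D, hD, by simp, hφ.one, h, rfl⟩
      rw [sub_mul, one_mul] at this
      simpa using this
  obtain ⟨E, hE, B, hB, hFS⟩ := localise L T hT hT1 hq φ hφ P hP hPB hPE hPlim ε hε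
  have hEP := hPE E hE
  have hEPp : IsStarProjection (E - P) :=
    hP.sub_of_mul_eq_left (fin_InPhi_proj hE) (by
      have := congrArg star hEP
      rw [star_mul, star_proj hP, star_proj (fin_InPhi_proj hE)] at this
      exact this)
  have hEPm : E - P ∈ AlgL L := ComL_sub_AlgL L (ComL_sub L
    (BiComL_sub_ComL L (fin_InPhi_BiComL hE)) (BiComL_sub_ComL L hPB))
  obtain ⟨E', hE', hE'n⟩ := main_small L B ε hB hε ((E - P) * T * (E - P))
    (AlgL_mul L (AlgL_mul L hEPm hT) hEPm)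
    (le_trans (fin_norm_compress hEPp) hT1) hFS φ hφ
  obtain ⟨E₃, hE₃, hc1, hc2⟩ := corner L T hT hq φ hφ P hP hPφ
  have hEE' := fin_InPhi_mul hφ hE hE'
  have hF := fin_InPhi_mul hφ hEE' hE₃
  set F := E * E' * E₃ with hFdef
  have hFp := fin_InPhi_proj hF
  have hFP : F * P = P := hPE F hF
  have hPF : P * F = P := by
    have := congrArg star hFP
    rw [star_mul, star_proj hP, star_proj hFp] at this
    exact this
  have hF3 : F = E₃ * F := by
    rw [hFdef, ← mul_assoc, ← fin_InPhi_comm hEE' hE₃, mul_assoc (E * E'),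
      mul_self_proj (fin_InPhi_proj hE₃)]
  have hF3' : F = F * E₃ := by
    rw [hFdef, mul_assoc (E * E'), mul_self_proj (fin_InPhi_proj hE₃)]
  have hFE : F * E = F := by
    rw [fin_InPhi_comm hF hE, hFdef, ← mul_assoc, ← mul_assoc,
      mul_self_proj (fin_InPhi_proj hE)]
  have hFE' : F * E' = F := by
    have e1 : E₃ * E' = E' * E₃ := fin_InPhi_comm hE₃ hE'
    rw [hFdef, mul_assoc (E * E'), e1, ← mul_assoc, mul_assoc E, mul_self_proj (fin_InPhi_proj hE')]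
  have hPEs : P * E = P := by
    have := congrArg star hEP
    rw [star_mul, star_proj hP, star_proj (fin_InPhi_proj hE)] at this
    exact this
  have hPE's : P * E' = P := by
    have := congrArg star (hPE E' hE')
    rw [star_mul, star_proj hP, star_proj (fin_InPhi_proj hE')] at this
    exact this
  have hG : IsStarProjection (F - P) := hP.sub_of_mul_eq_left hFp hPF
  have g1 : (F - P) * (E - P) = F - P := by
    rw [sub_mul, mul_sub, mul_sub, hFE, hFP, hPEs, mul_self_proj hP]; abel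
  have g2 : (F - P) * E' = F - P := by rw [sub_mul, hFE', hPE's]
  have g1' : (E - P) * (F - P) = F - P := by
    have := congrArg star g1
    rw [star_mul, star_proj hG, star_proj hEPp] at this
    exact this
  have g2' : E' * (F - P) = F - P := by
    have := congrArg star g2
    rw [star_mul, star_proj hG, star_proj (fin_InPhi_proj hE')] at this
    exact this
  have z1 : P * T * F = 0 := by
    rw [hF3, ← mul_assoc, hc1, zero_mul]
  have z2 : F * T * P = 0 := by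
    rw [hF3', mul_assoc, mul_assoc, ← mul_assoc E₃, hc2, mul_zero]
  have z3 : P * T * P = 0 := by
    calc P * T * P = P * T * (F * P) := by rw [hFP]
      _ = (P * T * F) * P := by noncomm_ring
      _ = 0 := by rw [z1, zero_mul]
  have e1 : F * T * F = (F - P) * T * (F - P) := by
    have : (F - P) * T * (F - P) = F * T * F - F * T * P - P * T * F + P * T * P := by
      noncomm_ring
    rw [this, z1, z2, z3]; simp
  have e2 : F * T * F = (F - P) * (E' * ((E - P) * T * (E - P)) * E') * (F - P) := by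
    rw [e1]
    calc (F - P) * T * (F - P) = ((F - P) * (E - P)) * T * ((E - P) * (F - P)) := by rw [g1, g1']
      _ = (F - P) * ((E - P) * T * (E - P)) * (F - P) := by noncomm_ring
      _ = ((F - P) * E') * ((E - P) * T * (E - P)) * (E' * (F - P)) := by rw [g2, g2']
      _ = _ := by noncomm_ring
  refine ⟨F, hF, ?_⟩
  rw [e2]
  exact le_trans (fin_norm_compress hG) hE'n

theorem result (L : CSL H) (T : algL L) :
    T ∈ Ring.jacobson (algL L) ↔ ∀ φ, IsHom2 L φ → phiNorm L φ (T : H →L[ℂ] H) = 0 := by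
  constructor
  · intro hTJ φ hφ
    have hbdd : BddBelow {r : ℝ | ∃ E, InPhi L φ E ∧ r = ‖E * (T : H →L[ℂ] H) * E‖} :=
      ⟨0, by rintro r ⟨E, -, rfl⟩; exact norm_nonneg _⟩
    apply le_antisymm
    · apply le_of_forall_pos_le_add
      intro δ hδ
      rw [zero_add]
      -- scale
      set c : ℝ := ‖(T : H →L[ℂ] H)‖ + 1 with hc
      have hc0 : 0 < c := by rw [hc]; positivity
      have hcc : ((c : ℝ) : ℂ) ≠ 0 := by exact_mod_cast hc0.ne'
      set T₁ : algL L := (((c : ℝ) : ℂ))⁻¹ • T with hT₁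
      have hT₁J : T₁ ∈ Ring.jacobson (algL L) := by
        have : T₁ = (algebraMap ℂ (algL L) (((c : ℝ) : ℂ))⁻¹) * T := by
          rw [hT₁, Algebra.smul_def]
        rw [this]
        exact Ideal.mul_mem_left _ _ hTJ
      have hT₁n : ‖(T₁ : H →L[ℂ] H)‖ ≤ 1 := by
        have : (T₁ : H →L[ℂ] H) = (((c : ℝ) : ℂ))⁻¹ • (T : H →L[ℂ] H) := rfl
        rw [this, norm_smul, norm_inv, Complex.norm_real, Real.norm_of_nonneg hc0.le,
          inv_mul_le_iff₀ hc0]
        linarith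
      obtain ⟨E, hE, hEn⟩ := fin_key L T₁ T₁.2 hT₁n (radical_quasinilpotent L T₁ hT₁J) φ hφ
        (δ / (1200 * c)) (by positivity)
      have h1 : ‖E * (T : H →L[ℂ] H) * E‖ ≤ δ := by
        have h2 : (T : H →L[ℂ] H) = ((c : ℝ) : ℂ) • (T₁ : H →L[ℂ] H) := by
          have : (T₁ : H →L[ℂ] H) = (((c : ℝ) : ℂ))⁻¹ • (T : H →L[ℂ] H) := rfl
          rw [this, smul_smul, mul_inv_cancel₀ hcc, one_smul]
        rw [h2, mul_smul_comm, smul_mul_assoc, norm_smul, Complex.norm_real,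
          Real.norm_of_nonneg hc0.le]
        calc c * ‖E * (T₁ : H →L[ℂ] H) * E‖ ≤ c * (1200 * (δ / (1200 * c))) :=
              mul_le_mul_of_nonneg_left hEn hc0.le
          _ = δ := by field_simp
      exact le_trans (csInf_le hbdd ⟨E, hE, rfl⟩) h1
    · apply Real.sInf_nonneg
      rintro r ⟨E, -, rfl⟩
      exact norm_nonneg _
  · intro h
    apply easy_inclusion
    intro ε hε
    apply compact_hom
    intro φ hφ
    have h1 := h φ hφ
    have h2 : sInf {r : ℝ | ∃ E, InPhi L φ E ∧ r = ‖E * (T : H →L[ℂ] H) * E‖} < ε := by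
      change phiNorm L φ (T : H →L[ℂ] H) < ε
      rw [h1]; exact hε
    have h3 : {r : ℝ | ∃ E, InPhi L φ E ∧ r = ‖E * (T : H →L[ℂ] H) * E‖}.Nonempty :=
      ⟨_, 1, fin_InPhi_one hφ, rfl⟩
    obtain ⟨r, ⟨E, hE, rfl⟩, hr⟩ := exists_lt_of_csInf_lt h3 h2
    exact ⟨E, hE, hr⟩

end Hop
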